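import Pool.Agent.Helper342.RV.Defs

namespace Pool.Agent.Helper342.RV.A

open Real


















/-- the auxiliary radius -/
noncomputable def rh (u : ℝ) : ℝ := 2 * sin ((th - u) / 2)

theorem cos_half (u : ℝ) : cos (th + u / 2) = sin ((th - u) / 2) := by
  have : th + u / 2 = Real.pi / 2 - (th - u) / 2 := by
    rw [th]; ring
  rw [this, Real.cos_pi_div_two_sub]

theorem cos_thu (u : ℝ) : 2 * cos (th - u) = 2 - rh u ^ 2 := by
  have h : th - u = 2 * ((th - u) / 2) := by ring
  rw [rh]
  conv_lhs => rw [h, Real.cos_two_mul]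
  have := Real.sin_sq_add_cos_sq ((th - u) / 2)
  nlinarith

theorem DD_eq (u w : ℝ) : DD u w = 1 + rh u ^ 2 - 2 * rh u * cos (w + u / 2) := by
  have h1 : cos (th - w) + cos (th + u + w) = 2 * cos (th + u / 2) * cos (w + u / 2) := by
    have e1 : th - w = (th + u / 2) - (w + u / 2) := by ring
    have e2 : th + u + w = (th + u / 2) + (w + u / 2) := by ring
    rw [e1, e2, Real.cos_sub, Real.cos_add (th + u / 2)]
    ring
  rw [cos_half] at h1
  have h2 := cos_thu u
  rw [DD]
  have h3 : 2 * sin ((th - u) / 2) = rh u := rfl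
  rw [h3] at h1
  linear_combination -h2 - 2 * h1

theorem b_eq (u w : ℝ) : sin (th + u + w) - sin (th - w) = rh u * sin (w + u / 2) := by
  have h1 : sin (th + u + w) - sin (th - w) = 2 * cos (th + u / 2) * sin (w + u / 2) := by
    have e1 : th - w = (th + u / 2) - (w + u / 2) := by ring
    have e2 : th + u + w = (th + u / 2) + (w + u / 2) := by ring
    rw [e1, e2, Real.sin_sub, Real.sin_add]
    ring
  rw [cos_half] at h1
  rw [h1, rh]

theorem DD_nonneg (u w : ℝ) : 0 ≤ DD u w := by
  rw [DD_eq]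
  have := Real.sin_sq_add_cos_sq (w + u / 2)
  nlinarith [sq_nonneg (1 - rh u * cos (w + u / 2)), sq_nonneg (rh u * sin (w + u / 2))]

/-- the invariant -/
theorem rel_N (u w : ℝ) : DD u w * (2 * (1 + rh u ^ 2) - DD u w)
    - 4 * (sin (th + u + w) - sin (th - w)) ^ 2 = (2 * cos (th - u) - 1) ^ 2 := by
  rw [b_eq, DD_eq, cos_thu]
  have := Real.sin_sq_add_cos_sq (w + u / 2)
  linear_combination (-4 * rh u ^ 2) * this

theorem hasDerivAt_DD (u t : ℝ) :
    HasDerivAt (DD u) (2 * (sin (th + u + t) - sin (th - t))) t := by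
  have h1 : HasDerivAt (fun w => cos (th - w)) (-sin (th - t) * (-1)) t :=
    ((hasDerivAt_id t).const_sub th).cos
  have h2 : HasDerivAt (fun w => cos (th + u + w)) (-sin (th + u + t) * 1) t :=
    ((hasDerivAt_id t).const_add (th + u)).cos
  have h3 := (((hasDerivAt_const t (3 - 2 * cos (th - u))).sub (h1.const_mul 2)).sub
    (h2.const_mul 2))
  refine h3.congr_deriv ?_
  ring

theorem hasDerivAt_b (u t : ℝ) :
    HasDerivAt (fun t => sin (th + u + t) - sin (th - t))
      (((1 + rh u ^ 2) - DD u t) / 2) t := by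
  have h1 : HasDerivAt (fun w => sin (th - w)) (cos (th - t) * (-1)) t :=
    ((hasDerivAt_id t).const_sub th).sin
  have h2 : HasDerivAt (fun w => sin (th + u + w)) (cos (th + u + t) * 1) t :=
    ((hasDerivAt_id t).const_add (th + u)).sin
  refine (h2.sub h1).congr_deriv ?_
  rw [DD]
  have h2 := cos_thu u
  linear_combination (-1 / 2) * h2

theorem dd_pos {u t : ℝ} (h : 0 < DD u t) : 0 < dd u t := Real.sqrt_pos.2 h

theorem dd_sq (u t : ℝ) : dd u t ^ 2 = DD u t := Real.sq_sqrt (DD_nonneg u t)

theorem hasDerivAt_dd {u t : ℝ} (h : 0 < DD u t) : HasDerivAt (dd u) (de u t) t := by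
  have h1 := (hasDerivAt_DD u t).sqrt h.ne'
  refine h1.congr_deriv ?_
  rw [de]
  have : √(DD u t) = dd u t := rfl
  rw [this]
  have h0 := (dd_pos h).ne'
  field_simp

theorem hasDerivAt_de {u t : ℝ} (h : 0 < DD u t) :
    HasDerivAt (de u) (kn u t - dd u t / 4) t := by
  have h0 := (dd_pos h).ne'
  have h1 := (hasDerivAt_b u t).div (hasDerivAt_dd h) h0
  refine h1.congr_deriv ?_
  have hsq := dd_sq u t
  have hr := rel_N u t
  rw [kn, ← hr, de, ← hsq]
  field_simp
  ring

theorem hasDerivAt_kn {u t : ℝ} (h : 0 < DD u t) :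
    HasDerivAt (kn u) (-(3 / 4) * (2 * cos (th - u) - 1) ^ 2 * de u t / DD u t ^ 2) t := by
  have h0 := (dd_pos h).ne'
  have h2 : HasDerivAt (fun t => 4 * dd u t ^ 3) (4 * (3 * dd u t ^ 2 * de u t)) t := by
    have := ((hasDerivAt_dd h).pow 3).const_mul 4
    refine this.congr_deriv ?_
    norm_num
  have h1 := (hasDerivAt_const t ((2 * cos (th - u) - 1) ^ 2)).div h2 (by positivity)
  refine h1.congr_deriv ?_
  rw [← dd_sq]
  field_simp
  ring

theorem dd_lower {u : ℝ} (hu : u ∈ Set.Icc 0 th) (p q : ℝ) :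
    dd u p * cos ((q - p) / 2) + 2 * de u p * sin ((q - p) / 2) ≤ dd u q := by
  rcases (DD_nonneg u p).eq_or_lt with h | h
  · have h1 : dd u p = 0 := by rw [dd, ← h, Real.sqrt_zero]
    have h2 : de u p = 0 := by rw [de, h1, div_zero]
    rw [h1, h2]
    simp only [zero_mul, mul_zero, add_zero]
    exact Real.sqrt_nonneg _
  · apply Real.le_sqrt_of_sq_le
    have h0 := (dd_pos h).ne'
    set d := (q - p) / 2 with hd
    have hq : q + u / 2 = (p + u / 2) + 2 * d := by rw [hd]; ring
    have hX : DD u q = (1 + rh u ^ 2) - ((1 + rh u ^ 2) - DD u p) * cos (2 * d)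
        + 2 * (sin (th + u + p) - sin (th - p)) * sin (2 * d) := by
      rw [b_eq, DD_eq, DD_eq, hq, Real.cos_add]
      ring
    have hr := rel_N u p
    have hsq := dd_sq u p
    have hid : DD u q = (dd u p * cos d + 2 * de u p * sin d) ^ 2
        + sin d ^ 2 * ((2 * cos (th - u) - 1) ^ 2 / DD u p) := by
      rw [hX, ← hr, de, ← hsq, Real.cos_two_mul, Real.sin_two_mul]
      have hcs := Real.sin_sq_add_cos_sq d
      have hs : sin d ^ 2 = 1 - cos d ^ 2 := by linarith
      field_simp
      rw [hs]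
      ring_nf
      rw [hs]
      ring
    rw [hid]
    have : 0 ≤ sin d ^ 2 * ((2 * cos (th - u) - 1) ^ 2 / DD u p) := by positivity
    linarith

theorem continuous_dd : Continuous (fun p : ℝ × ℝ => dd p.1 p.2) := by
  unfold dd DD
  fun_prop

theorem continuousOn_kn {u : ℝ} {s : Set ℝ} (h : ∀ t ∈ s, 0 < DD u t) :
    ContinuousOn (kn u) s := by
  intro t ht
  exact (hasDerivAt_kn (h t ht)).continuousAt.continuousWithinAt

theorem dd_green {u p q : ℝ} (h : ∀ t ∈ Set.uIcc p q, 0 < DD u t) :
    dd u q = dd u p * cos ((q - p) / 2) + 2 * de u p * sin ((q - p) / 2)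
      + ∫ t in p..q, 2 * sin ((q - t) / 2) * kn u t := by
  have key : ∫ t in p..q, 2 * sin ((q - t) / 2) * kn u t =
      (fun t => dd u t * cos ((q - t) / 2) + 2 * de u t * sin ((q - t) / 2)) q -
      (fun t => dd u t * cos ((q - t) / 2) + 2 * de u t * sin ((q - t) / 2)) p := by
    apply intervalIntegral.integral_eq_sub_of_hasDerivAt
      (f := fun t => dd u t * cos ((q - t) / 2) + 2 * de u t * sin ((q - t) / 2))
    · intro t ht
      have hc : HasDerivAt (fun t => cos ((q - t) / 2)) (-sin ((q - t) / 2) * (-1 / 2)) t := by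
        have := (((hasDerivAt_id t).const_sub q).div_const 2).cos
        exact this
      have hs : HasDerivAt (fun t => sin ((q - t) / 2)) (cos ((q - t) / 2) * (-1 / 2)) t := by
        have := (((hasDerivAt_id t).const_sub q).div_const 2).sin
        exact this
      have h1 := ((hasDerivAt_dd (h t ht)).mul hc).add
        (((hasDerivAt_de (h t ht)).const_mul 2).mul hs)
      refine h1.congr_deriv ?_
      ring
    · apply ContinuousOn.intervalIntegrable
      have h1 := continuousOn_kn h
      have h2 : ContinuousOn (fun t => 2 * sin ((q - t) / 2)) (Set.uIcc p q) := by fun_prop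
      exact h2.mul h1
  rw [key]
  simp only [sub_self, zero_div, Real.cos_zero, Real.sin_zero, mul_one, mul_zero, add_zero]
  ring

theorem de_green {u p q : ℝ} (h : ∀ t ∈ Set.uIcc p q, 0 < DD u t) :
    de u q - de u p + (1 / 4) * ∫ t in p..q, dd u t = ∫ t in p..q, kn u t := by
  have hdd : ContinuousOn (dd u) (Set.uIcc p q) := by
    intro t ht
    exact (hasDerivAt_dd (h t ht)).continuousAt.continuousWithinAt
  have hi1 : IntervalIntegrable (kn u) MeasureTheory.volume p q :=
    (continuousOn_kn h).intervalIntegrable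
  have hi2 : IntervalIntegrable (fun t => dd u t / 4) MeasureTheory.volume p q :=
    (hdd.div_const 4).intervalIntegrable
  have key : ∫ t in p..q, (kn u t - dd u t / 4) = de u q - de u p := by
    apply intervalIntegral.integral_eq_sub_of_hasDerivAt
    · intro t ht
      exact hasDerivAt_de (h t ht)
    · exact hi1.sub hi2
  rw [intervalIntegral.integral_sub hi1 hi2, intervalIntegral.integral_div] at key
  linarith

end Pool.Agent.Helper342.RV.A
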