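import Pool.Agent.Helper342.RV.Defs

namespace Pool.Agent.Helper342.RV.B

open Real

















theorem th_aux : th = Real.pi / 3 := rfl

theorem th_pos : 0 < th := by unfold th; positivity

theorem sq_le_aux {a b : ℝ} (h : a ^ 2 ≤ b ^ 2) (hb : 0 ≤ b) : a ≤ b :=
  le_of_abs_le (abs_le_of_sq_le_sq h hb)

theorem cos_mul_two (A B : ℝ) : 2 * cos A * cos B = cos (A + B) + cos (A - B) := by
  rw [cos_add, cos_sub]; ring

theorem sin_half_eq (u : ℝ) : sin ((th - u) / 2) = cos (th + u / 2) := by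
  rw [← Real.cos_pi_div_two_sub]
  congr 1
  unfold th
  ring

theorem DD_form (u w : ℝ) : DD u w = 1 + 4 * cos (th + u / 2) ^ 2
    - 4 * cos (th + u / 2) * cos (w + u / 2) := by
  have h1 : 2 * cos (th + u / 2) * cos (th + u / 2) = - cos (th - u) + 1 := by
    rw [cos_mul_two, ← Real.cos_pi_sub]
    have e1 : th + u / 2 + (th + u / 2) = Real.pi - (th - u) := by unfold th; ring
    have e2 : th + u / 2 - (th + u / 2) = 0 := by ring
    rw [e1, e2, cos_zero]
  have h2 : 2 * cos (th + u / 2) * cos (w + u / 2) = cos (th + u + w) + cos (th - w) := by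
    rw [cos_mul_two]
    congr 2 <;> ring
  unfold DD
  linear_combination (-2) * h1 + 2 * h2

theorem DD_symm (u w : ℝ) : DD u w = DD w u := by
  unfold DD
  rw [show th + u + w = th + w + u by ring]
  ring

theorem sin_sq_half (x : ℝ) : (2 * sin (x / 2)) ^ 2 = 2 - 2 * cos x := by
  have h1 := Real.cos_sq' (x / 2)
  have h2 := Real.cos_two_mul (x / 2)
  rw [show 2 * (x / 2) = x by ring] at h2
  linear_combination 4 * h1 + 2 * h2

theorem cos_th_add (x : ℝ) : cos (th + x) + cos (th - x) = cos x := by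
  rw [cos_add, cos_sub]
  have : cos th = 1 / 2 := Real.cos_pi_div_three
  rw [this]; ring

/-- law of cosines -/
theorem DD_law (u w : ℝ) : DD u w = (2 * sin (u / 2)) ^ 2 + (2 * sin (w / 2)) ^ 2
    + 2 * (2 * sin (u / 2)) * (2 * sin (w / 2)) * cos (th + (u + w) / 2) := by
  rw [sin_sq_half, sin_sq_half]
  have h1 : 2 * sin (u / 2) * sin (w / 2) = cos ((u - w) / 2) - cos ((u + w) / 2) := by
    have e1 : (u - w) / 2 = u / 2 - w / 2 := by ring
    have e2 : (u + w) / 2 = u / 2 + w / 2 := by ring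
    rw [e1, e2, cos_sub, cos_add]; ring
  have h2 : 2 * cos (th + (u + w) / 2) * cos ((u - w) / 2) = cos (th + u) + cos (th + w) := by
    rw [cos_mul_two]
    congr 2 <;> ring
  have h3 : 2 * cos (th + (u + w) / 2) * cos ((u + w) / 2) = cos (th + u + w) + 1 / 2 := by
    rw [cos_mul_two]
    have e1 : th + (u + w) / 2 + (u + w) / 2 = th + u + w := by ring
    have e2 : th + (u + w) / 2 - (u + w) / 2 = th := by ring
    rw [e1, e2]
    congr 1
    exact Real.cos_pi_div_three
  have h4 := cos_th_add u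
  have h5 := cos_th_add w
  unfold DD
  linear_combination (-4) * cos (th + (u + w) / 2) * h1 - 2 * h2 + 2 * h3 - 2 * h4 - 2 * h5

theorem DD_eq (u w : ℝ) : DD u w = (1 - 2 * sin ((th - u) / 2)) ^ 2
    + 8 * sin ((th - u) / 2) * sin ((w + u / 2) / 2) ^ 2 := by
  rw [sin_half_eq, DD_form]
  have h := sin_sq_half (w + u / 2)
  linear_combination (-2) * cos (th + u / 2) * h

/-- numerator of `de` -/
theorem de_num (u w : ℝ) : sin (th + u + w) - sin (th - w)
    = 2 * sin ((th - u) / 2) * sin (w + u / 2) := by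
  rw [sin_half_eq, Real.sin_sub_sin]
  have e1 : (th + u + w - (th - w)) / 2 = w + u / 2 := by ring
  have e2 : (th + u + w + (th - w)) / 2 = th + u / 2 := by ring
  rw [e1, e2]; ring

theorem DD_zero (u : ℝ) : DD u 0 = (2 * sin (u / 2)) ^ 2 := by
  rw [DD_law]; simp

theorem DD_th (u : ℝ) : DD u th = 1 := by
  rw [DD_form, add_comm th (u / 2)]
  ring

theorem dd_zero {u : ℝ} (hu : u ∈ Set.Icc 0 th) : dd u 0 = 2 * sin (u / 2) := by
  unfold dd
  rw [DD_zero, Real.sqrt_sq]
  have h1 := hu.1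
  have h2 := hu.2
  have : 0 ≤ sin (u / 2) := Real.sin_nonneg_of_nonneg_of_le_pi (by linarith) (by
    unfold th at h2; linarith [Real.pi_pos])
  linarith

theorem dd_th (u : ℝ) : dd u th = 1 := by
  unfold dd
  rw [DD_th, Real.sqrt_one]

theorem DD_aux (u w : ℝ) : DD u w = (2 * sin (w / 2)) ^ 2
    + 8 * sin (u / 2) * (sin ((u + w) / 2) * cos (th + w / 2)) := by
  rw [DD_law]
  have h1 : 2 * sin (w / 2) * cos (th + (u + w) / 2) = sin (th + w + u / 2) - sin (th + u / 2) := by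
    rw [Real.sin_sub_sin]
    have e1 : (th + w + u / 2 - (th + u / 2)) / 2 = w / 2 := by ring
    have e2 : (th + w + u / 2 + (th + u / 2)) / 2 = th + (u + w) / 2 := by ring
    rw [e1, e2]
  have h2 : 2 * sin ((u + w) / 2) * cos (th + w / 2) = sin (th + w + u / 2) - sin (th - u / 2) := by
    rw [Real.sin_sub_sin]
    have e1 : (th + w + u / 2 - (th - u / 2)) / 2 = (u + w) / 2 := by ring
    have e2 : (th + w + u / 2 + (th - u / 2)) / 2 = th + w / 2 := by ring
    rw [e1, e2]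
  have h3 : sin (th + u / 2) - sin (th - u / 2) = sin (u / 2) := by
    rw [Real.sin_sub_sin]
    have e1 : (th + u / 2 - (th - u / 2)) / 2 = u / 2 := by ring
    have e2 : (th + u / 2 + (th - u / 2)) / 2 = th := by ring
    have : cos th = 1 / 2 := Real.cos_pi_div_three
    rw [e1, e2, this]; ring
  linear_combination 4 * sin (u / 2) * h1 - 4 * sin (u / 2) * h2 - 4 * sin (u / 2) * h3

theorem DD_ge {u w : ℝ} (hu : u ∈ Set.Icc 0 th) (hw : w ∈ Set.Icc 0 th) :
    (2 * sin (w / 2)) ^ 2 ≤ DD u w := by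
  rw [DD_aux]
  have a1 := hu.1
  have a2 := hu.2
  have b1 := hw.1
  have b2 := hw.2
  have hp := Real.pi_pos
  have h1 : 0 ≤ sin (u / 2) := Real.sin_nonneg_of_nonneg_of_le_pi (by linarith) (by
    unfold th at a2; linarith)
  have h2 : 0 ≤ sin ((u + w) / 2) := Real.sin_nonneg_of_nonneg_of_le_pi (by linarith) (by
    unfold th at a2 b2; linarith)
  have h3 : 0 ≤ cos (th + w / 2) := Real.cos_nonneg_of_neg_pi_div_two_le_of_le (by
    unfold th; linarith) (by unfold th at b2 ⊢; linarith)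
  have := mul_nonneg h1 (mul_nonneg h2 h3)
  linarith

theorem c2_nonneg {u : ℝ} (hu : u ∈ Set.Icc 0 th) : 0 ≤ cos (th + u / 2) := by
  have a1 := hu.1
  have a2 := hu.2
  have hp := Real.pi_pos
  exact Real.cos_nonneg_of_neg_pi_div_two_le_of_le (by
    unfold th; linarith) (by unfold th at a2 ⊢; linarith)

theorem DD_le_one {u w : ℝ} (hu : u ∈ Set.Icc 0 th) (hw : w ∈ Set.Icc 0 th) :
    DD u w ≤ 1 := by
  rw [DD_form]
  have a1 := hu.1
  have a2 := hu.2
  have b1 := hw.1
  have b2 := hw.2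
  have hp := Real.pi_pos
  have h1 := c2_nonneg hu
  have h2 : cos (th + u / 2) ≤ cos (w + u / 2) :=
    Real.cos_le_cos_of_nonneg_of_le_pi (by linarith) (by unfold th at a2 ⊢; linarith) (by linarith)
  nlinarith [mul_nonneg h1 (sub_nonneg.mpr h2)]

theorem DD_nonneg {u : ℝ} (hu : u ∈ Set.Icc 0 th) (w : ℝ) : 0 ≤ DD u w := by
  rw [DD_eq, sin_half_eq]
  have h1 := c2_nonneg hu
  positivity

theorem DD_pos {u w : ℝ} (hu : u ∈ Set.Icc 0 th) (hw : w ∈ Set.Icc 0 th) (h : 0 < u ∨ 0 < w) :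
    0 < DD u w := by
  have key : ∀ u w : ℝ, u ∈ Set.Icc 0 th → w ∈ Set.Icc 0 th → 0 < w → 0 < DD u w := by
    intro u w hu hw h
    have h1 := DD_ge hu hw
    have h2 : 0 < sin (w / 2) := Real.sin_pos_of_pos_of_lt_pi (by linarith) (by
      have := hw.2
      unfold th at this; linarith [Real.pi_pos])
    have h3 : 0 < (2 * sin (w / 2)) ^ 2 := by positivity
    linarith
  rcases h with h | h
  · rw [DD_symm]; exact key w u hw hu h
  · exact key u w hu hw h

theorem dd_ge {u w : ℝ} (hu : u ∈ Set.Icc 0 th) (hw : w ∈ Set.Icc 0 th) :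
    2 * sin (w / 2) ≤ dd u w ∧ 2 * sin (u / 2) ≤ dd u w := by
  unfold dd
  constructor
  · exact Real.le_sqrt_of_sq_le (DD_ge hu hw)
  · rw [DD_symm]; exact Real.le_sqrt_of_sq_le (DD_ge hw hu)

theorem dd_le_one {u w : ℝ} (hu : u ∈ Set.Icc 0 th) (hw : w ∈ Set.Icc 0 th) :
    dd u w ≤ 1 := by
  unfold dd
  exact Real.sqrt_le_one.mpr (DD_le_one hu hw)

theorem DD_ge_add {u w : ℝ} (hu : 0 ≤ u) (hw : 0 ≤ w) (h : u + w ≤ th) :
    (2 * sin (u / 2)) ^ 2 + (2 * sin (w / 2)) ^ 2 ≤ DD u w := by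
  rw [DD_law]
  have hp := Real.pi_pos
  have h1 : 0 ≤ sin (u / 2) := Real.sin_nonneg_of_nonneg_of_le_pi (by linarith) (by
    unfold th at h; linarith)
  have h2 : 0 ≤ sin (w / 2) := Real.sin_nonneg_of_nonneg_of_le_pi (by linarith) (by
    unfold th at h; linarith)
  have h3 : 0 ≤ cos (th + (u + w) / 2) := Real.cos_nonneg_of_neg_pi_div_two_le_of_le (by
    unfold th; linarith) (by unfold th at h ⊢; linarith)
  have : 0 ≤ 2 * (2 * sin (u / 2)) * (2 * sin (w / 2)) * cos (th + (u + w) / 2) := by positivity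
  linarith

/-! bounds for the derivative `de` -/

theorem m_sq (u : ℝ) : cos (th / 2 + u) ^ 2 =
    cos (th + u / 2) * (cos (3 * u / 2) + cos (th + u / 2)) := by
  have h1 : cos (3 * u / 2) + cos (th + u / 2) = 2 * cos (th / 2 + u) * cos ((th - u) / 2) := by
    rw [cos_mul_two, add_comm]
    congr 2 <;> ring
  have h2 : 2 * cos (th + u / 2) * cos ((th - u) / 2) = cos (th / 2 + u) := by
    rw [← sin_half_eq, ← Real.sin_two_mul, ← Real.sin_pi_div_two_sub]
    congr 1
    unfold th; ring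
  rw [h1]
  linear_combination (- cos (th / 2 + u)) * h2

theorem c1_eq (u : ℝ) : cos (3 * u / 2) = 3 * cos (th + u / 2) - 4 * cos (th + u / 2) ^ 3 := by
  have h := Real.cos_three_mul (th + u / 2)
  have e : 3 * (th + u / 2) = 3 * u / 2 + Real.pi := by unfold th; ring
  rw [e, Real.cos_add_pi] at h
  linarith

theorem Q_eq (u t : ℝ) : (2 * cos (th + u / 2) * sin (t + u / 2)) ^ 2
    - cos (th / 2 + u) ^ 2 * DD u t =
    4 * cos (th + u / 2) ^ 2 * ((cos (3 * u / 2) - cos (t + u / 2)) *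
      (cos (t + u / 2) - cos (th + u / 2))) := by
  rw [m_sq, DD_form]
  have h1 := Real.sin_sq (t + u / 2)
  have h2 := c1_eq u
  rw [mul_pow, h1, h2]
  ring

theorem de_eq (u t : ℝ) : de u t = 2 * cos (th + u / 2) * sin (t + u / 2) / dd u t := by
  unfold de
  rw [de_num, sin_half_eq]

theorem dd_sq {u : ℝ} (hu : u ∈ Set.Icc 0 th) (t : ℝ) : dd u t ^ 2 = DD u t :=
  Real.sq_sqrt (DD_nonneg hu t)

theorem de_ge_cos {u t : ℝ} (hu : u ∈ Set.Icc 0 th) (h1 : u ≤ t) (h2 : t ≤ th) (h3 : 0 < t) :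
    cos (th / 2 + u) ≤ de u t := by
  have a1 := hu.1
  have a2 := hu.2
  have hp := Real.pi_pos
  have ht : t ∈ Set.Icc 0 th := ⟨h3.le, h2⟩
  have hX := DD_pos hu ht (Or.inr h3)
  have hd : 0 < dd u t := Real.sqrt_pos.mpr hX
  rw [de_eq, le_div_iff₀ hd]
  have hc2 := c2_nonneg hu
  have hs : 0 ≤ sin (t + u / 2) := Real.sin_nonneg_of_nonneg_of_le_pi (by linarith) (by
    unfold th at h2 a2; linarith)
  apply sq_le_aux
  · rw [mul_pow, dd_sq hu]
    have hQ := Q_eq u t
    have e1 : cos (t + u / 2) ≤ cos (3 * u / 2) :=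
      Real.cos_le_cos_of_nonneg_of_le_pi (by linarith) (by unfold th at h2 a2; linarith)
        (by linarith)
    have e2 : cos (th + u / 2) ≤ cos (t + u / 2) :=
      Real.cos_le_cos_of_nonneg_of_le_pi (by linarith) (by unfold th at a2 ⊢; linarith)
        (by linarith)
    have := mul_nonneg (by positivity : 0 ≤ 4 * cos (th + u / 2) ^ 2)
      (mul_nonneg (sub_nonneg.mpr e1) (sub_nonneg.mpr e2))
    linarith
  · positivity

theorem de_le_cos {u t : ℝ} (hu : u ∈ Set.Icc 0 th) (h0 : 0 < u) (h1 : 0 ≤ t) (h2 : t ≤ u) :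
    de u t ≤ cos (th / 2 + u) := by
  have a1 := hu.1
  have a2 := hu.2
  have hp := Real.pi_pos
  have ht : t ∈ Set.Icc 0 th := ⟨h1, h2.trans a2⟩
  have hX := DD_pos hu ht (Or.inl h0)
  have hd : 0 < dd u t := Real.sqrt_pos.mpr hX
  rw [de_eq, div_le_iff₀ hd]
  have hc2 := c2_nonneg hu
  have hm : 0 ≤ cos (th / 2 + u) := Real.cos_nonneg_of_neg_pi_div_two_le_of_le (by
    unfold th; linarith) (by unfold th at a2 ⊢; linarith)
  apply sq_le_aux
  · rw [mul_pow (cos (th / 2 + u)), dd_sq hu]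
    have hQ := Q_eq u t
    have e1 : cos (3 * u / 2) ≤ cos (t + u / 2) :=
      Real.cos_le_cos_of_nonneg_of_le_pi (by linarith) (by unfold th at a2; linarith)
        (by linarith)
    have e2 : cos (th + u / 2) ≤ cos (t + u / 2) :=
      Real.cos_le_cos_of_nonneg_of_le_pi (by linarith) (by unfold th at a2 ⊢; linarith)
        (by linarith)
    have := mul_nonneg (by positivity : 0 ≤ 4 * cos (th + u / 2) ^ 2)
      (mul_nonneg (sub_nonneg.mpr e1) (sub_nonneg.mpr e2))
    linarith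
  · positivity

theorem de_ge_half {u t : ℝ} (hu : u ∈ Set.Icc 0 th) (ht : t ∈ Set.Icc 0 th)
    (h : 0 < u ∨ 0 < t) : sin ((th - u) / 2) ≤ de u t := by
  have a1 := hu.1
  have a2 := hu.2
  have b1 := ht.1
  have b2 := ht.2
  have hp := Real.pi_pos
  have hX := DD_pos hu ht h
  have hd : 0 < dd u t := Real.sqrt_pos.mpr hX
  rw [de_eq, sin_half_eq, le_div_iff₀ hd]
  have hc2 := c2_nonneg hu
  have hs : 0 ≤ sin (t + u / 2) := Real.sin_nonneg_of_nonneg_of_le_pi (by linarith) (by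
    unfold th at b2 a2; linarith)
  have key : dd u t ≤ 2 * sin (t + u / 2) := by
    apply sq_le_aux
    · rw [dd_sq hu, mul_pow, Real.sin_sq, DD_form]
      have e1 : cos (t + u / 2) ≤ cos (u / 2) :=
        Real.cos_le_cos_of_nonneg_of_le_pi (by linarith) (by unfold th at b2 a2; linarith)
          (by linarith)
      have e2 : cos (th + u / 2) ≤ cos (t + u / 2) :=
        Real.cos_le_cos_of_nonneg_of_le_pi (by linarith) (by unfold th at a2 ⊢; linarith)
          (by linarith)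
      have e3 : 0 ≤ cos (u / 2) := Real.cos_nonneg_of_neg_pi_div_two_le_of_le (by
        linarith) (by unfold th at a2; linarith)
      have e4 : 4 * cos (u / 2) ^ 2 - 4 * cos (th + u / 2) * cos (u / 2)
          + 4 * cos (th + u / 2) ^ 2 = 3 := by
        have hth : cos th = 1 / 2 := Real.cos_pi_div_three
        have hs3 : sin th ^ 2 = 3 / 4 := by
          rw [Real.sin_sq, hth]; norm_num
        rw [cos_add, hth]
        have hsc := Real.sin_sq_add_cos_sq (u / 2)
        linear_combination 4 * sin (u / 2) ^ 2 * hs3 + 3 * hsc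
      have e5 : 0 ≤ (cos (u / 2) - cos (t + u / 2)) *
          (cos (t + u / 2) - cos (th + u / 2) + cos (u / 2)) :=
        mul_nonneg (sub_nonneg.mpr e1) (by linarith)
      nlinarith [e4, e5]
    · positivity
  calc cos (th + u / 2) * dd u t ≤ cos (th + u / 2) * (2 * sin (t + u / 2)) :=
        mul_le_mul_of_nonneg_left key hc2
    _ = 2 * cos (th + u / 2) * sin (t + u / 2) := by ring

theorem de_le_one {u t : ℝ} (hu : u ∈ Set.Icc 0 th) (ht : t ∈ Set.Icc 0 th) : de u t ≤ 1 := by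
  rw [de_eq]
  apply div_le_one_of_le₀ _ (Real.sqrt_nonneg _)
  apply Real.le_sqrt_of_sq_le
  rw [mul_pow, Real.sin_sq, DD_form]
  nlinarith [sq_nonneg (1 - 2 * cos (th + u / 2) * cos (t + u / 2))]

end Pool.Agent.Helper342.RV.B
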