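import Pool.Agent.Helper342.RV.Defs

namespace Pool.Agent.Helper342.RV.C

open Real

















theorem aux_th : cos th = 1 / 2 := by unfold th; exact Real.cos_pi_div_three

theorem aux_th_bd : 1 < th ∧ th < 1.05 := by
  have h1 := Real.pi_gt_three
  have h2 := Real.pi_lt_d2
  unfold th
  constructor <;> linarith

theorem aux_de (u w : ℝ)
    (hnum : ∀ u w : ℝ, sin (th + u + w) - sin (th - w)
      = 2 * sin ((th - u) / 2) * sin (w + u / 2))
    (hDD : ∀ u w : ℝ, DD u w = (1 - 2 * sin ((th - u) / 2)) ^ 2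
      + 8 * sin ((th - u) / 2) * sin ((w + u / 2) / 2) ^ 2)
    (hp : 0 < DD u w) :
    0 < 1 + (2 * sin ((th - u) / 2)) ^ 2 - 2 * (2 * sin ((th - u) / 2)) * cos (w + u / 2) ∧
    de u w ^ 2 * (1 + (2 * sin ((th - u) / 2)) ^ 2 - 2 * (2 * sin ((th - u) / 2)) * cos (w + u / 2))
      = (2 * sin ((th - u) / 2)) ^ 2 * (1 - cos (w + u / 2) ^ 2) := by
  have e : DD u w = 1 + (2 * sin ((th - u) / 2)) ^ 2 - 2 * (2 * sin ((th - u) / 2)) * cos (w + u / 2) := by
    rw [hDD]
    have h : cos (w + u / 2) = 1 - 2 * sin ((w + u / 2) / 2) ^ 2 := by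
      have h1 : w + u / 2 = 2 * ((w + u / 2) / 2) := by ring
      conv_lhs => rw [h1, cos_two_mul]
      have := sin_sq_add_cos_sq ((w + u / 2) / 2)
      linarith
    rw [h]
    ring
  rw [← e]
  refine ⟨hp, ?_⟩
  unfold de dd
  rw [hnum, div_pow, Real.sq_sqrt hp.le, div_mul_cancel₀ _ hp.ne']
  have := sin_sq_add_cos_sq (w + u / 2)
  have h2 : sin (w + u / 2) ^ 2 = 1 - cos (w + u / 2) ^ 2 := by linarith
  rw [mul_pow, h2]

theorem aux_id (r c1 c2 e1 e2 : ℝ)
    (h1 : e1 ^ 2 * (1 + r ^ 2 - 2 * r * c1) = r ^ 2 * (1 - c1 ^ 2))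
    (h2 : e2 ^ 2 * (1 + r ^ 2 - 2 * r * c2) = r ^ 2 * (1 - c2 ^ 2)) :
    (e1 ^ 2 - e2 ^ 2) * ((1 + r ^ 2 - 2 * r * c1) * (1 + r ^ 2 - 2 * r * c2)) =
      r ^ 2 * (c1 - c2) * (2 * r * (1 + c1 * c2) - (1 + r ^ 2) * (c1 + c2)) := by
  have : (e1 ^ 2 - e2 ^ 2) * ((1 + r ^ 2 - 2 * r * c1) * (1 + r ^ 2 - 2 * r * c2)) =
      (e1 ^ 2 * (1 + r ^ 2 - 2 * r * c1)) * (1 + r ^ 2 - 2 * r * c2)
      - (e2 ^ 2 * (1 + r ^ 2 - 2 * r * c2)) * (1 + r ^ 2 - 2 * r * c1) := by ring
  rw [this, h1, h2]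
  ring

theorem aux_e (r c1 c2 e1 e2 : ℝ) (hr : 0 ≤ r) (hc : c2 ≤ c1)
    (hX1 : 0 < 1 + r ^ 2 - 2 * r * c1) (hX2 : 0 < 1 + r ^ 2 - 2 * r * c2)
    (h1 : e1 ^ 2 * (1 + r ^ 2 - 2 * r * c1) = r ^ 2 * (1 - c1 ^ 2))
    (h2 : e2 ^ 2 * (1 + r ^ 2 - 2 * r * c2) = r ^ 2 * (1 - c2 ^ 2)) :
    e1 ^ 2 - e2 ^ 2 ≤ r / 2 * (c1 - c2) := by
  have h := aux_id r c1 c2 e1 e2 h1 h2
  have hP := mul_pos hX1 hX2
  by_contra hcon
  push Not at hcon
  have h3 := mul_lt_mul_of_pos_right hcon hP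
  rw [h] at h3
  have h4 : r ^ 2 * (c1 - c2) * (2 * r * (1 + c1 * c2) - (1 + r ^ 2) * (c1 + c2)) =
    r / 2 * (c1 - c2) * ((1 + r ^ 2 - 2 * r * c1) * (1 + r ^ 2 - 2 * r * c2))
      - r / 2 * (c1 - c2) * (1 - r ^ 2) ^ 2 := by ring
  rw [h4] at h3
  have h5 : 0 ≤ r / 2 * (c1 - c2) * (1 - r ^ 2) ^ 2 :=
    mul_nonneg (mul_nonneg (by linarith) (by linarith)) (sq_nonneg _)
  linarith

theorem aux_k (C x r : ℝ) (hr : 0 ≤ r) (h1 : r ≤ C) (h2 : C ≤ 1) (h3 : x ≤ 1) (h4 : r ≤ x) :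
    2 * r * (C ^ 2 + x ^ 2) ≤ (1 + r ^ 2) * (2 * C * x) := by
  have y1 : 0 ≤ C - r * x := by
    have := mul_le_mul_of_nonneg_left h3 hr
    linarith
  have y2 : 0 ≤ x - r * C := by
    have := mul_le_mul_of_nonneg_left h2 hr
    linarith
  have := mul_nonneg y1 y2
  have e : (1 + r ^ 2) * (2 * C * x) - 2 * r * (C ^ 2 + x ^ 2) = 2 * ((C - r * x) * (x - r * C)) := by
    ring
  linarith

theorem aux_f (r c1 c2 e1 e2 : ℝ) (hc : c2 ≤ c1) (he : 0 ≤ e2)
    (hX1 : 0 < 1 + r ^ 2 - 2 * r * c1) (hX2 : 0 < 1 + r ^ 2 - 2 * r * c2)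
    (h1 : e1 ^ 2 * (1 + r ^ 2 - 2 * r * c1) = r ^ 2 * (1 - c1 ^ 2))
    (h2 : e2 ^ 2 * (1 + r ^ 2 - 2 * r * c2) = r ^ 2 * (1 - c2 ^ 2))
    (hk : 2 * r * (1 + c1 * c2) ≤ (1 + r ^ 2) * (c1 + c2)) :
    e1 ≤ e2 := by
  have h := aux_id r c1 c2 e1 e2 h1 h2
  have hP := mul_pos hX1 hX2
  have h5 : 0 ≤ r ^ 2 * (c1 - c2) * ((1 + r ^ 2) * (c1 + c2) - 2 * r * (1 + c1 * c2)) :=
    mul_nonneg (mul_nonneg (sq_nonneg _) (by linarith)) (by linarith)
  have h6 : (e1 ^ 2 - e2 ^ 2) * ((1 + r ^ 2 - 2 * r * c1) * (1 + r ^ 2 - 2 * r * c2)) ≤ 0 := by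
    rw [h]; linarith
  have h7 : e1 ^ 2 - e2 ^ 2 ≤ 0 := by
    by_contra hcon
    push Not at hcon
    have := mul_pos hcon hP
    linarith
  exact abs_le_of_sq_le_sq' (by linarith) he |>.2

/-- bound of the derivative of the averaged kernel, source farther from the vertex -/
theorem K1_neg
    (hge : ∀ u t : ℝ, u ∈ Set.Icc 0 th → u ≤ t → t ≤ th → 0 < t → cos (th / 2 + u) ≤ de u t)
    (hle : ∀ u t : ℝ, u ∈ Set.Icc 0 th → 0 < u → 0 ≤ t → t ≤ u → de u t ≤ cos (th / 2 + u))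
    {s g : ℝ} (hg : 0 < g) (h : g < s) (hs : s ≤ th / 2) : K1 s g ≤ -(3 / 10) := by
  have hb := aux_th_bd
  have s1 : Real.sign (g - s) = -1 := Real.sign_of_neg (by linarith)
  have s2 : Real.sign (g - (th - s)) = -1 := Real.sign_of_neg (by linarith)
  have e1 := hle s g ⟨by linarith, by linarith⟩ (by linarith) hg.le h.le
  have e2 := hge s (th - g) ⟨by linarith, by linarith⟩ (by linarith) (by linarith) (by linarith)
  have f1 := hle (th - s) g ⟨by linarith, by linarith⟩ (by linarith) hg.le (by linarith)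
  have f2 := hge (th - s) (th - g) ⟨by linarith, by linarith⟩ (by linarith) (by linarith)
    (by linarith)
  have c1 := Real.one_sub_sq_div_two_le_cos (x := (g - s) / 2)
  have c2 := Real.one_sub_sq_div_two_le_cos (x := (g - (th - s)) / 2)
  unfold K1
  rw [s1, s2]
  have h3 : ((g - s) / 2) ^ 2 + ((g - (th - s)) / 2) ^ 2 ≤ 0.28 := by
    have a1 : 0 ≤ (s - g) / 2 := by linarith
    have a2 : 0 ≤ (th - s - g) / 2 := by linarith
    have a3 : (s - g) / 2 + (th - s - g) / 2 ≤ 0.525 := by norm_num at hb ⊢; linarith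
    nlinarith [mul_nonneg a1 a2]
  norm_num at h3 ⊢
  linarith

set_option maxHeartbeats 1600000 in
/-- bound of the derivative of the averaged kernel, source closer to the vertex -/
theorem K1_pos
    (hge : ∀ u t : ℝ, u ∈ Set.Icc 0 th → u ≤ t → t ≤ th → 0 < t → cos (th / 2 + u) ≤ de u t)
    (hnum : ∀ u w : ℝ, sin (th + u + w) - sin (th - w)
      = 2 * sin ((th - u) / 2) * sin (w + u / 2))
    (hDD : ∀ u w : ℝ, DD u w = (1 - 2 * sin ((th - u) / 2)) ^ 2
      + 8 * sin ((th - u) / 2) * sin ((w + u / 2) / 2) ^ 2)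
    (hpos : ∀ u w : ℝ, u ∈ Set.Icc 0 th → w ∈ Set.Icc 0 th → (0 < u ∨ 0 < w) → 0 < DD u w)
    {s g : ℝ} (hs : 0 ≤ s) (h : s < g) (hg : g ≤ th / 2) : K1 s g ≤ 1 / 20 := by
  have hb := aux_th_bd
  have hpi := Real.pi_gt_three
  have hpi' := Real.pi_lt_d2
  have s1 : Real.sign (g - s) = 1 := Real.sign_of_pos (by linarith)
  have s2 : Real.sign (g - (th - s)) = -1 := Real.sign_of_neg (by linarith)
  have hth := aux_th
  have hthd : th = Real.pi / 3 := rfl
  have hs3 : (1.7 : ℝ) < √3 := by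
    rw [Real.lt_sqrt (by norm_num)]; norm_num
  have hs3' : √3 < (1.8 : ℝ) := by
    rw [Real.sqrt_lt' (by norm_num)]; norm_num
  have q1 : cos (th / 2) = √3 / 2 := by
    rw [hthd, show Real.pi / 3 / 2 = Real.pi / 6 by ring]; exact Real.cos_pi_div_six
  have q2 : sin (th / 2) = 1 / 2 := by
    rw [hthd, show Real.pi / 3 / 2 = Real.pi / 6 by ring]; exact Real.sin_pi_div_six
  have q3 : sin th = √3 / 2 := by rw [hthd]; exact Real.sin_pi_div_three
  -- positivity
  have P1 := hpos s g ⟨hs, by linarith⟩ ⟨by linarith, by linarith⟩ (Or.inr (by linarith))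
  have P2 := hpos s (th - g) ⟨hs, by linarith⟩ ⟨by linarith, by linarith⟩ (Or.inr (by linarith))
  have P3 := hpos (th - s) g ⟨by linarith, by linarith⟩ ⟨by linarith, by linarith⟩ (Or.inr (by linarith))
  have P4 := hpos (th - s) (th - g) ⟨by linarith, by linarith⟩ ⟨by linarith, by linarith⟩
    (Or.inr (by linarith))
  obtain ⟨X1, E1⟩ := aux_de s g hnum hDD P1
  obtain ⟨X2, E2⟩ := aux_de s (th - g) hnum hDD P2
  obtain ⟨X3, E3⟩ := aux_de (th - s) g hnum hDD P3
  obtain ⟨X4, E4⟩ := aux_de (th - s) (th - g) hnum hDD P4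
  -- own part
  have own : cos ((g - s) / 2) - cos ((g - (th - s)) / 2) ≤ 0.138 := by
    have c1 := Real.cos_le_one ((g - s) / 2)
    have c2 := Real.one_sub_sq_div_two_le_cos (x := (g - (th - s)) / 2)
    have a2 : 0 ≤ (th - s - g) / 2 := by linarith
    have a3 : (th - s - g) / 2 ≤ 0.525 := by norm_num at hb ⊢; linarith
    have h9 : ((g - (th - s)) / 2) ^ 2 ≤ 0.2757 := by
      have := pow_le_pow_left₀ a2 a3 2
      rw [show ((g - (th - s)) / 2) ^ 2 = ((th - s - g) / 2) ^ 2 by ring]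
      norm_num at this ⊢
      linarith
    norm_num at h9 ⊢
    linarith
  -- e part
  have sh : 0 ≤ sin (th / 2 - g) := Real.sin_nonneg_of_nonneg_of_le_pi (by linarith) (by linarith)
  have shs : sin (th / 2 - g) ≤ sin (th / 2 - s) :=
    Real.sin_le_sin_of_le_of_le_pi_div_two (by linarith) (by linarith) (by linarith)
  have cc : cos (g + s / 2) - cos (th - g + s / 2) = 2 * sin ((th + s) / 2) * sin (th / 2 - g) := by
    have := Real.cos_sub_cos (th - g + s / 2) (g + s / 2)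
    rw [show (th - g + s / 2 + (g + s / 2)) / 2 = (th + s) / 2 by ring,
      show (th - g + s / 2 - (g + s / 2)) / 2 = th / 2 - g by ring] at this
    linarith
  have sS : 0 ≤ sin ((th + s) / 2) := Real.sin_nonneg_of_nonneg_of_le_pi (by linarith) (by linarith)
  have sR : 0 ≤ sin ((th - s) / 2) := Real.sin_nonneg_of_nonneg_of_le_pi (by linarith) (by linarith)
  have ee := aux_e (2 * sin ((th - s) / 2)) (cos (g + s / 2)) (cos (th - g + s / 2)) (de s g)
    (de s (th - g)) (by linarith) (by have := mul_nonneg sS sh; linarith) X1 X2 E1 E2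
  rw [cc] at ee
  have pr : 2 * sin ((th - s) / 2) * sin ((th + s) / 2) = cos s - 1 / 2 := by
    have := Real.cos_sub_cos s th
    rw [show (s - th) / 2 = - ((th - s) / 2) by ring, Real.sin_neg,
      show (s + th) / 2 = (th + s) / 2 by ring, hth] at this
    linarith
  have ee2 : de s g ^ 2 - de s (th - g) ^ 2 ≤ 1 / 2 * sin (th / 2 - s) := by
    have : 2 * sin ((th - s) / 2) / 2 * (2 * sin ((th + s) / 2) * sin (th / 2 - g))
      = (cos s - 1 / 2) * sin (th / 2 - g) := by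
      rw [← pr]; ring
    rw [this] at ee
    have c1 := Real.cos_le_one s
    have : (cos s - 1 / 2) * sin (th / 2 - g) ≤ 1 / 2 * sin (th / 2 - g) :=
      mul_le_mul_of_nonneg_right (by linarith) sh
    linarith
  have m1 := hge s g ⟨hs, by linarith⟩ h.le (by linarith) (by linarith)
  have m2 := hge s (th - g) ⟨hs, by linarith⟩ (by linarith) (by linarith) (by linarith)
  have cs : 0 ≤ cos s := Real.cos_nonneg_of_mem_Icc ⟨by linarith, by linarith⟩
  have ss : 0 ≤ sin s := Real.sin_nonneg_of_nonneg_of_le_pi (by linarith) (by linarith)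
  have mm : 1 / 2 * sin (th / 2 - s) ≤ 0.32 * cos (th / 2 + s) := by
    rw [Real.sin_sub, Real.cos_add, q1, q2]
    norm_num at hs3 ⊢
    have t1 := mul_nonneg (sub_nonneg.2 hs3.le) cs
    have t2 := mul_nonneg (sub_nonneg.2 hs3.le) ss
    linarith
  have mpos : 0 < cos (th / 2 + s) := Real.cos_pos_of_mem_Ioo ⟨by linarith, by linarith⟩
  have ep : de s g - de s (th - g) ≤ 0.16 := by
    by_contra hcon
    push Not at hcon
    have h3 : 0.16 * (2 * cos (th / 2 + s)) < (de s g - de s (th - g)) * (de s g + de s (th - g)) := by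
      apply mul_lt_mul hcon (by linarith) (by linarith)
      norm_num at hcon ⊢
      linarith
    have h4 : (de s g - de s (th - g)) * (de s g + de s (th - g)) = de s g ^ 2 - de s (th - g) ^ 2 := by
      ring
    rw [h4] at h3
    norm_num at mm h3
    linarith
  -- f part
  have fp : de (th - s) g ≤ de (th - s) (th - g) := by
    have g1 : th - (th - s) = s := by ring
    rw [g1] at X3 E3 X4 E4
    have hc2 : 0 ≤ sin (s / 2) := Real.sin_nonneg_of_nonneg_of_le_pi (by linarith) (by linarith)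
    have sumc : cos (g + (th - s) / 2) + cos (th - g + (th - s) / 2)
        = 2 * cos (th - s / 2) * cos (th / 2 - g) := by
      have := Real.cos_add_cos (th - g + (th - s) / 2) (g + (th - s) / 2)
      rw [show (th - g + (th - s) / 2 + (g + (th - s) / 2)) / 2 = th - s / 2 by ring,
        show (th - g + (th - s) / 2 - (g + (th - s) / 2)) / 2 = th / 2 - g by ring] at this
      linarith
    have difc : cos (g + (th - s) / 2) - cos (th - g + (th - s) / 2)
        = 2 * sin (th - s / 2) * sin (th / 2 - g) := by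
      have := Real.cos_sub_cos (th - g + (th - s) / 2) (g + (th - s) / 2)
      rw [show (th - g + (th - s) / 2 + (g + (th - s) / 2)) / 2 = th - s / 2 by ring,
        show (th - g + (th - s) / 2 - (g + (th - s) / 2)) / 2 = th / 2 - g by ring] at this
      linarith
    have sS' : 0 ≤ sin (th - s / 2) := Real.sin_nonneg_of_nonneg_of_le_pi (by linarith) (by linarith)
    have hprod : 1 + cos (g + (th - s) / 2) * cos (th - g + (th - s) / 2)
        = cos (th - s / 2) ^ 2 + cos (th / 2 - g) ^ 2 := by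
      have k1 : cos (g + (th - s) / 2) = cos (th - s / 2) * cos (th / 2 - g) + sin (th - s / 2) * sin (th / 2 - g) := by
        linarith
      have k2 : cos (th - g + (th - s) / 2) = cos (th - s / 2) * cos (th / 2 - g) - sin (th - s / 2) * sin (th / 2 - g) := by
        linarith
      rw [k1, k2]
      have t1 := sin_sq_add_cos_sq (th - s / 2)
      have t2 := sin_sq_add_cos_sq (th / 2 - g)
      have t3 : sin (th - s / 2) ^ 2 = 1 - cos (th - s / 2) ^ 2 := by linarith
      have t4 : sin (th / 2 - g) ^ 2 = 1 - cos (th / 2 - g) ^ 2 := by linarith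
      have : 1 + (cos (th - s / 2) * cos (th / 2 - g) + sin (th - s / 2) * sin (th / 2 - g)) *
        (cos (th - s / 2) * cos (th / 2 - g) - sin (th - s / 2) * sin (th / 2 - g)) =
        1 + cos (th - s / 2) ^ 2 * cos (th / 2 - g) ^ 2 - sin (th - s / 2) ^ 2 * sin (th / 2 - g) ^ 2 := by ring
      rw [this, t3, t4]
      ring
    -- bounds
    have x1 : √3 / 2 ≤ cos (th / 2 - g) := by
      rw [← q1]
      exact Real.cos_le_cos_of_nonneg_of_le_pi (by linarith) (by linarith) (by linarith)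
    have x2 := Real.cos_le_one (th / 2 - g)
    have sle : sin (s / 2) ≤ s / 2 := Real.sin_le (by linarith)
    have r1 : 2 * sin (s / 2) ≤ 0.525 := by norm_num at hb ⊢; linarith
    have cge : 0.9 ≤ cos (s / 2) := by
      have c2 := Real.one_sub_sq_div_two_le_cos (x := s / 2)
      have a3 : s / 2 ≤ 0.2625 := by norm_num at hb ⊢; linarith
      have := pow_le_pow_left₀ (show 0 ≤ s / 2 by linarith) a3 2
      norm_num at this ⊢
      linarith
    have C1 : cos (th - s / 2) = 1 / 2 * cos (s / 2) + √3 / 2 * sin (s / 2) := by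
      rw [Real.cos_sub, hth, q3]
    have C2 : 2 * sin (s / 2) ≤ cos (th - s / 2) := by
      rw [C1]
      norm_num at r1 cge hs3
      have := mul_nonneg (sub_nonneg.2 hs3.le) hc2
      linarith
    have C3 := Real.cos_le_one (th - s / 2)
    have hk : 2 * (2 * sin (s / 2)) * (1 + cos (g + (th - s) / 2) * cos (th - g + (th - s) / 2)) ≤
        (1 + (2 * sin (s / 2)) ^ 2) * (cos (g + (th - s) / 2) + cos (th - g + (th - s) / 2)) := by
      rw [hprod, sumc]
      exact aux_k (cos (th - s / 2)) (cos (th / 2 - g)) (2 * sin (s / 2)) (by linarith) C2 C3 x2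
        (by norm_num at r1 hs3; linarith)
    have he2 : 0 ≤ de (th - s) (th - g) := by
      unfold de dd
      apply div_nonneg _ (Real.sqrt_nonneg _)
      rw [hnum, g1]
      apply mul_nonneg (by linarith)
      exact Real.sin_nonneg_of_nonneg_of_le_pi (by linarith) (by linarith)
    exact aux_f (2 * sin (s / 2)) (cos (g + (th - s) / 2)) (cos (th - g + (th - s) / 2)) _ _
      (by have := mul_nonneg sS' sh; linarith) he2 X3 X4 E3 E4 hk
  unfold K1
  rw [s1, s2]
  norm_num at own ep ⊢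
  linarith

end Pool.Agent.Helper342.RV.C
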