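import Pool.Agent.Helper342.RV.Defs

namespace Pool.Agent.Helper342.RV.D1

open Real

















theorem le_of_sq_le_sq₁ {a b : ℝ} (h : a ^ 2 ≤ b) (hb : 0 ≤ b) (hb1 : b = 1) : a ≤ b := by
  subst hb1
  by_contra hcon
  push Not at hcon
  have := mul_self_lt_mul_self zero_le_one hcon
  rw [sq] at h
  linarith

set_option maxHeartbeats 4000000 in
/-- purely algebraic core -/
theorem near_alg (r c y x w ρ X1 X2 e1 e2 : ℝ) (hr : r ^ 2 = 3) (hr0 : 0 < r)
    (hcy : c ^ 2 + y ^ 2 = 1) (hxw : x ^ 2 + w ^ 2 = 1) (hc : r / 2 ≤ c) (hy0 : 0 < y)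
    (hy : y ≤ 1 / 2) (hx : r / 2 ≤ x) (hw : 0 ≤ w) (hρ : 0 < ρ) (hρ2 : ρ ^ 2 = 2 - c - r * y)
    (hX1 : X1 = 3 - c - r * y - (r - 2 * y) * x - (2 * c - 1) * w)
    (hX2 : X2 = 3 - c - r * y - (r - 2 * y) * x + (2 * c - 1) * w)
    (hX1p : 0 < X1) (hX2p : 0 < X2) (he1 : ρ / 2 ≤ e1) (he2 : ρ / 2 ≤ e2)
    (hn1 : e1 ^ 2 * X1 = (((2 * c - 1) * x - (r - 2 * y) * w) / 2) ^ 2)
    (hn2 : e2 ^ 2 * X2 = (((2 * c - 1) * x + (r - 2 * y) * w) / 2) ^ 2) :
    (c - 1 / 2) * w * (4 * ρ * (3 - c - r * y - (r - 2 * y))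
        - ((c + r * y - 1) ^ 2 - 2 * (1 - c)) / ρ) / (3 - c - r * y - (r - 2 * y)) ^ 4
      ≤ e1 / X1 ^ 2 - e2 / X2 ^ 2 := by
  have hr1 : (1.73 : ℝ) < r := lt_of_pow_lt_pow_left₀ 2 hr0.le (by rw [hr]; norm_num)
  have hr2 : r < 1.7321 := lt_of_pow_lt_pow_left₀ 2 (by norm_num) (by rw [hr]; norm_num)
  have hc1 : c ≤ 1 := le_of_sq_le_sq₁ (by linarith [sq_nonneg y]) zero_le_one rfl
  have hx1 : x ≤ 1 := le_of_sq_le_sq₁ (by linarith [sq_nonneg w]) zero_le_one rfl
  set A : ℝ := 3 - c - r * y with hA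
  set k : ℝ := r - 2 * y with hk
  set p : ℝ := 2 * c - 1 with hp
  have hk0 : 0 ≤ k := by rw [hk]; linarith
  have hp0 : 0 < p := by rw [hp]; linarith
  have hkp : k ^ 2 + p ^ 2 = 4 * (A - 1) := by
    rw [hk, hp, hA]; linear_combination hr + 4 * hcy
  -- basic trigonometric inequalities
  have h1c : (1 - c) * (2 + r) ≤ y := by
    have h1 : (1 - c) * (1 + c) = y ^ 2 := by linear_combination -hcy
    have h2 : (1 - c) * (1 + r / 2) ≤ (1 - c) * (1 + c) :=
      mul_le_mul_of_nonneg_left (by linarith) (by linarith)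
    have h3 : y * y ≤ y * (1 / 2) := mul_le_mul_of_nonneg_left hy hy0.le
    have h4 : (1 - c) * (2 + r) = 2 * ((1 - c) * (1 + r / 2)) := by ring
    rw [h4]
    have h5 : y ^ 2 = y * y := by ring
    linarith
  have h1c' : 1 - c ≤ (2 - r) * y := by
    have h2 : 0 < 2 - r := by linarith
    have h3 := mul_le_mul_of_nonneg_left h1c h2.le
    have h4 : (2 - r) * ((1 - c) * (2 + r)) = 1 - c := by
      linear_combination -(1 - c) * hr
    linarith
  have hcry : r * y ≤ c := by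
    have := mul_le_mul_of_nonneg_left hy hr0.le
    linarith
  have hyr : r * (1 - c) ≤ y := by
    have h3 := mul_le_mul_of_nonneg_left h1c' hr0.le
    have h4 : r * ((2 - r) * y) = (2 * r - 3) * y := by linear_combination -y * hr
    have h5 : (2 * r - 3) * y ≤ 1 * y := mul_le_mul_of_nonneg_right (by linarith) hy0.le
    linarith
  -- key monotonicity inequality
  have hkey : A * k ≤ 2 * r * (A - 1) := by
    have h1 : 2 * r * (A - 1) - A * k = (y - r * (1 - c)) * (c - r * y) := by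
      rw [hA, hk]
      linear_combination (-r) * hcy + (c * y - 2 * y) * hr
    have h2 : 0 ≤ (y - r * (1 - c)) * (c - r * y) :=
      mul_nonneg (by linarith) (by linarith)
    linarith
  have hA1 : A - 1 = ρ ^ 2 := by rw [hρ2, hA]; ring
  have hA1p : 0 < A - 1 := by rw [hA1]; positivity
  -- X0
  set X0 : ℝ := A - k with hX0
  have hX0' : X0 = 3 - r - c + (2 - r) * y := by rw [hX0, hA, hk]; ring
  have hX0l : 4 - r - 2 * c ≤ X0 := by rw [hX0']; linarith
  have hX0p : 0 < X0 := by linarith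
  -- Pi
  have hPp : 0 < X1 * X2 := mul_pos hX1p hX2p
  have hPi : X1 * X2 = A ^ 2 - 2 * A * k * x + 4 * (A - 1) * x ^ 2 - p ^ 2 := by
    rw [hX1, hX2]; linear_combination (-p ^ 2) * hxw + x ^ 2 * hkp
  have hB : A ^ 2 - A * k * r + 3 * (A - 1) - p ^ 2 = 2 * (1 - c) := by
    rw [hA, hk, hp]
    linear_combination (-3) * hcy + (-y ^ 2 - 3 + c + y * r) * hr
  have hPB : 2 * (1 - c) ≤ X1 * X2 := by
    have h1 : X1 * X2 - 2 * (1 - c) = (x - r / 2) * (4 * (A - 1) * (x + r / 2) - 2 * (A * k)) := by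
      rw [hPi, ← hB]; linear_combination (A - 1) * hr
    have h2 : 4 * (A - 1) * r ≤ 4 * (A - 1) * (x + r / 2) :=
      mul_le_mul_of_nonneg_left (by linarith) (by linarith)
    have h3 : 0 ≤ (x - r / 2) * (4 * (A - 1) * (x + r / 2) - 2 * (A * k)) :=
      mul_nonneg (by linarith) (by linarith)
    linarith
  have hPX : X1 * X2 ≤ X0 ^ 2 := by
    have h1 : X0 ^ 2 - X1 * X2 = (1 - x) * (4 * (A - 1) * (1 + x) - 2 * (A * k)) := by
      rw [hPi, hX0]; linear_combination hkp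
    have h2 : 4 * (A - 1) * r ≤ 4 * (A - 1) * (1 + x) :=
      mul_le_mul_of_nonneg_left (by linarith) (by linarith)
    have h3 : 0 ≤ (1 - x) * (4 * (A - 1) * (1 + x) - 2 * (A * k)) :=
      mul_nonneg (by linarith) (by linarith)
    linarith
  -- N
  set N : ℝ := (c + r * y - 1) ^ 2 with hN
  set B : ℝ := 2 * (1 - c) with hBdef
  have hNe : N = B * (2 + c - r * y) := by
    rw [hN, hBdef]; linear_combination 3 * hcy + y ^ 2 * hr
  have hB0 : 0 ≤ B := by rw [hBdef]; linarith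
  have hry0 : 0 ≤ r * y := by positivity
  have hNB : B ≤ N := by
    rw [hNe]
    have := mul_le_mul_of_nonneg_left (show (1 : ℝ) ≤ 2 + c - r * y by linarith) hB0
    linarith
  have hNB3 : N ≤ 3 * B := by
    rw [hNe]
    have := mul_le_mul_of_nonneg_left (show 2 + c - r * y ≤ (3 : ℝ) by linarith) hB0
    linarith
  -- rho lower bound
  have hρl : 2 - r ≤ ρ ^ 2 := by
    have h1 : (c + r * y) ^ 2 + (r * c - y) ^ 2 = 4 := by
      linear_combination 4 * hcy + (c ^ 2 + y ^ 2) * hr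
    have h2 : 1 ≤ r * c - y := by
      have := mul_le_mul_of_nonneg_left hc hr0.le
      have h3 : r * (r / 2) = 3 / 2 := by linear_combination (1 / 2) * hr
      linarith
    have h4 : c + r * y ≤ r := by
      by_contra hcon
      push Not at hcon
      have h5 : r * r < (c + r * y) * (c + r * y) := mul_self_lt_mul_self hr0.le hcon
      have h6 : 1 * 1 ≤ (r * c - y) * (r * c - y) := mul_self_le_mul_self zero_le_one h2
      rw [← sq, ← sq, hr] at h5
      rw [← sq] at h6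
      linarith
    rw [hρ2]; linarith
  have hQ2 : N - B ≤ 4 * ρ ^ 2 * X0 := by
    have h1 : 1 - c ≤ (2 - r) * X0 := by
      have h2 : (2 - r) * (4 - r - 2 * c) ≤ (2 - r) * X0 :=
        mul_le_mul_of_nonneg_left hX0l (by linarith)
      have h3 : (2 - r) * (4 - r - 2 * c) - (1 - c) =
          (13 - 15 / 2 * r) + (2 * r - 3) * (c - r / 2) := by
        linear_combination 2 * hr
      have h4 : 0 ≤ (2 * r - 3) * (c - r / 2) := mul_nonneg (by linarith) (by linarith)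
      linarith
    have h2 : 4 * (2 - r) * X0 ≤ 4 * ρ ^ 2 * X0 :=
      mul_le_mul_of_nonneg_right (by linarith) hX0p.le
    have h3 : 4 * (2 - r) * X0 = 4 * ((2 - r) * X0) := by ring
    rw [h3] at h2
    have h4 : 2 * B = 4 * (1 - c) := by rw [hBdef]; ring
    linarith
  set Q : ℝ := 4 * ρ * X0 - (N - B) / ρ with hQ
  have hQ0 : 0 ≤ Q := by
    rw [hQ, sub_nonneg, div_le_iff₀ hρ]
    linarith [hQ2, show 4 * ρ * X0 * ρ = 4 * ρ ^ 2 * X0 by ring]
  have he1p : 0 < e1 := by linarith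
  have he2p : 0 < e2 := by linarith
  have hP : 0 < e1 + e2 := by linarith
  -- step 1
  have hstep1 : (e2 - e1) = (p * w / 2) * ((N - X1 * X2) / (X1 * X2 * (e1 + e2))) := by
    have h1 : (e2 - e1) * (X1 * X2 * (e1 + e2)) = (p * w / 2) * (N - X1 * X2) := by
      have h2 : (e2 - e1) * (X1 * X2 * (e1 + e2)) = (e2 ^ 2 * X2) * X1 - (e1 ^ 2 * X1) * X2 := by
        ring
      rw [h2, hn1, hn2, hPi]
      have h3 : N = (2 - A) ^ 2 := by rw [hN, hA]; ring
      rw [h3, hX1, hX2]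
      linear_combination (p * w / 2) * (-k ^ 2 * hxw - (1 + x ^ 2) * hkp)
    have h4 : 0 < X1 * X2 * (e1 + e2) := mul_pos hPp hP
    field_simp
    linarith
  -- step 2
  have hstep2 : e1 / X1 ^ 2 - e2 / X2 ^ 2 = (p * w / 2) * (8 * e1 * (A - k * x) / (X1 * X2) ^ 2 -
      (N - X1 * X2) / (X1 * X2 * (e1 + e2)) / X2 ^ 2) := by
    have h1 : e1 / X1 ^ 2 - e2 / X2 ^ 2 =
        e1 * (X2 ^ 2 - X1 ^ 2) / (X1 * X2) ^ 2 - (e2 - e1) / X2 ^ 2 := by
      field_simp
      ring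
    have h2 : X2 ^ 2 - X1 ^ 2 = 4 * p * w * (A - k * x) := by
      rw [hX1, hX2]; ring
    rw [h1, hstep1, h2]
    ring
  have hT1 : 4 * ρ * X0 ≤ 8 * e1 * (A - k * x) := by
    have h1 : X0 ≤ A - k * x := by
      have := mul_le_mul_of_nonneg_left hx1 hk0
      rw [hX0]; linarith
    have h2 : 4 * ρ * X0 ≤ 8 * e1 * X0 := mul_le_mul_of_nonneg_right (by linarith) hX0p.le
    have h3 : 8 * e1 * X0 ≤ 8 * e1 * (A - k * x) := mul_le_mul_of_nonneg_left h1 (by linarith)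
    linarith
  have hX12 : X1 * X2 ≤ X2 ^ 2 := by
    have h1 : X1 ≤ X2 := by
      have : 0 ≤ p * w := mul_nonneg hp0.le hw
      rw [hX1, hX2]; linarith
    rw [sq]
    exact mul_le_mul_of_nonneg_right h1 hX2p.le
  have hT2 : (N - X1 * X2) / (X1 * X2 * (e1 + e2)) / X2 ^ 2 ≤ (N - B) / ρ / (X1 * X2) ^ 2 := by
    rw [div_div, div_div]
    have hden1 : 0 < X1 * X2 * (e1 + e2) * X2 ^ 2 := by positivity
    have hden2 : 0 < ρ * (X1 * X2) ^ 2 := by positivity
    have hden : ρ * (X1 * X2) ^ 2 ≤ X1 * X2 * (e1 + e2) * X2 ^ 2 := by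
      have h1 : ρ * (X1 * X2) ^ 2 = (X1 * X2) * (ρ * (X1 * X2)) := by ring
      have h2 : X1 * X2 * (e1 + e2) * X2 ^ 2 = (X1 * X2) * ((e1 + e2) * X2 ^ 2) := by ring
      rw [h1, h2]
      apply mul_le_mul_of_nonneg_left _ hPp.le
      exact mul_le_mul (by linarith) hX12 hPp.le hP.le
    have h3 : (N - X1 * X2) / (X1 * X2 * (e1 + e2) * X2 ^ 2) ≤
        (N - B) / (X1 * X2 * (e1 + e2) * X2 ^ 2) :=
      div_le_div_of_nonneg_right (by linarith) hden1.le
    exact h3.trans (div_le_div_of_nonneg_left (by linarith) hden2 hden)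
  have hT : Q / X0 ^ 4 ≤ 8 * e1 * (A - k * x) / (X1 * X2) ^ 2 -
      (N - X1 * X2) / (X1 * X2 * (e1 + e2)) / X2 ^ 2 := by
    have h1 : (X1 * X2) ^ 2 ≤ X0 ^ 4 := by
      have := pow_le_pow_left₀ hPp.le hPX 2
      calc (X1 * X2) ^ 2 ≤ (X0 ^ 2) ^ 2 := this
        _ = X0 ^ 4 := by ring
    have h2 : Q / X0 ^ 4 ≤ Q / (X1 * X2) ^ 2 :=
      div_le_div_of_nonneg_left hQ0 (by positivity) h1
    have h3 : Q / (X1 * X2) ^ 2 = 4 * ρ * X0 / (X1 * X2) ^ 2 - (N - B) / ρ / (X1 * X2) ^ 2 := by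
      rw [hQ, sub_div]
    have h4 : 4 * ρ * X0 / (X1 * X2) ^ 2 ≤ 8 * e1 * (A - k * x) / (X1 * X2) ^ 2 :=
      div_le_div_of_nonneg_right hT1 (by positivity)
    linarith
  rw [hstep2]
  have hpw : 0 ≤ p * w / 2 := by positivity
  have hfin := mul_le_mul_of_nonneg_left hT hpw
  refine le_trans (le_of_eq ?_) hfin
  rw [hp]
  ring

/-- near part: lower bound for the difference of `W(t) = de s t / DD s t ^ 2` at `t` and `th - t` -/
theorem near_bound
    (hnum : ∀ u w : ℝ, sin (th + u + w) - sin (th - w)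
      = 2 * sin ((th - u) / 2) * sin (w + u / 2))
    (hDD : ∀ u w : ℝ, DD u w = (1 - 2 * sin ((th - u) / 2)) ^ 2
      + 8 * sin ((th - u) / 2) * sin ((w + u / 2) / 2) ^ 2)
    (hpos : ∀ u w : ℝ, u ∈ Set.Icc 0 th → w ∈ Set.Icc 0 th → (0 < u ∨ 0 < w) → 0 < DD u w)
    (hhalf : ∀ u t : ℝ, u ∈ Set.Icc 0 th → t ∈ Set.Icc 0 th → (0 < u ∨ 0 < t) →
      sin ((th - u) / 2) ≤ de u t)
    {s t : ℝ} (hs : 0 < s) (hs2 : s ≤ th / 2) (ht : 0 < t) (ht2 : t ≤ th / 2) :
    (cos s - 1 / 2) * sin (th / 2 - t) *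
      (4 * (2 * sin ((th - s) / 2)) * DD s (th / 2)
        - ((2 * cos (th - s) - 1) ^ 2 - 4 * sin (s / 2) ^ 2) / (2 * sin ((th - s) / 2)))
      / DD s (th / 2) ^ 4
      ≤ de s t / DD s t ^ 2 - de s (th - t) / DD s (th - t) ^ 2 := by
  have hr : (√3 : ℝ) ^ 2 = 3 := Real.sq_sqrt (by norm_num)
  have hr0 : (0 : ℝ) < √3 := Real.sqrt_pos.mpr (by norm_num)
  have hpi := Real.pi_pos
  have hths : th / 2 = Real.pi / 6 := by unfold th; ring
  have hthp : 0 < th := by unfold th; positivity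
  have hcos_th : cos th = 1 / 2 := by unfold th; exact Real.cos_pi_div_three
  have hsin_th : sin th = √3 / 2 := by unfold th; exact Real.sin_pi_div_three
  have hcos_h : cos (th / 2) = √3 / 2 := by rw [hths]; exact Real.cos_pi_div_six
  have hsin_h : sin (th / 2) = 1 / 2 := by rw [hths]; exact Real.sin_pi_div_six
  have hcy : cos s ^ 2 + sin s ^ 2 = 1 := Real.cos_sq_add_sin_sq s
  have hxw : cos (th / 2 - t) ^ 2 + sin (th / 2 - t) ^ 2 = 1 := Real.cos_sq_add_sin_sq _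
  have hc : √3 / 2 ≤ cos s := by
    rw [← hcos_h]
    exact Real.cos_le_cos_of_nonneg_of_le_pi hs.le (by rw [hths]; linarith) hs2
  have hy0 : 0 < sin s := Real.sin_pos_of_pos_of_lt_pi hs (by rw [hths] at hs2; linarith)
  have hy : sin s ≤ 1 / 2 := by
    rw [← hsin_h]
    exact Real.sin_le_sin_of_le_of_le_pi_div_two (by linarith) (by rw [hths]; linarith) hs2
  have hx : √3 / 2 ≤ cos (th / 2 - t) := by
    rw [← hcos_h]
    exact Real.cos_le_cos_of_nonneg_of_le_pi (by linarith) (by rw [hths]; linarith) (by linarith)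
  have hw : 0 ≤ sin (th / 2 - t) :=
    Real.sin_nonneg_of_nonneg_of_le_pi (by linarith) (by rw [hths]; linarith)
  have hρ : 0 < 2 * sin ((th - s) / 2) := by
    have : 0 < sin ((th - s) / 2) :=
      Real.sin_pos_of_pos_of_lt_pi (by linarith) (by rw [hths] at hs2; unfold th; linarith)
    linarith
  have hcths : cos (th - s) = 1 / 2 * cos s + √3 / 2 * sin s := by
    rw [Real.cos_sub, hcos_th, hsin_th]
  have hρ2 : (2 * sin ((th - s) / 2)) ^ 2 = 2 - cos s - √3 * sin s := by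
    have h1 : cos (th - s) = 1 - 2 * sin ((th - s) / 2) ^ 2 := by
      have h2 := Real.cos_two_mul' ((th - s) / 2)
      have h3 := Real.cos_sq_add_sin_sq ((th - s) / 2)
      rw [show 2 * ((th - s) / 2) = th - s by ring] at h2
      linarith
    rw [hcths] at h1
    linarith
  have hDDg : ∀ w : ℝ, DD s w = 3 - cos s - √3 * sin s - (√3 - 2 * sin s) * cos (th / 2 - w) -
      (2 * cos s - 1) * sin (th / 2 - w) := by
    intro w
    unfold DD
    rw [hcths, Real.cos_sub, Real.cos_add, Real.cos_add, Real.sin_add, Real.cos_sub, Real.sin_sub,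
      hcos_th, hsin_th, hcos_h, hsin_h]
    linear_combination ((1 / 2) * cos w) * hr
  have hneg : th / 2 - (th - t) = -(th / 2 - t) := by ring
  have hDD2 : DD s (th - t) = 3 - cos s - √3 * sin s - (√3 - 2 * sin s) * cos (th / 2 - t) +
      (2 * cos s - 1) * sin (th / 2 - t) := by
    rw [hDDg, hneg, Real.cos_neg, Real.sin_neg]; ring
  have hDD0 : DD s (th / 2) = 3 - cos s - √3 * sin s - (√3 - 2 * sin s) := by
    rw [hDDg, sub_self, Real.cos_zero, Real.sin_zero]; ring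
  have hnum' : ∀ w : ℝ, sin (th + s + w) - sin (th - w) =
      ((2 * cos s - 1) * cos (th / 2 - w) - (√3 - 2 * sin s) * sin (th / 2 - w)) / 2 := by
    intro w
    rw [Real.sin_add, Real.sin_add, Real.cos_add, Real.sin_sub, Real.cos_sub, Real.sin_sub,
      hcos_th, hsin_th, hcos_h, hsin_h]
    linear_combination (-(1 / 4) * sin w) * hr
  have hsI : s ∈ Set.Icc 0 th := ⟨hs.le, by linarith⟩
  have htI : t ∈ Set.Icc 0 th := ⟨ht.le, by linarith⟩
  have htI' : th - t ∈ Set.Icc 0 th := ⟨by linarith, by linarith⟩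
  have hp1 := hpos s t hsI htI (Or.inl hs)
  have hp2 := hpos s (th - t) hsI htI' (Or.inl hs)
  have he1 := hhalf s t hsI htI (Or.inl hs)
  have he2 := hhalf s (th - t) hsI htI' (Or.inl hs)
  have hn1 : de s t ^ 2 * DD s t = (((2 * cos s - 1) * cos (th / 2 - t) -
      (√3 - 2 * sin s) * sin (th / 2 - t)) / 2) ^ 2 := by
    unfold de dd
    rw [div_pow, Real.sq_sqrt hp1.le, div_mul_cancel₀ _ hp1.ne', hnum']
  have hn2 : de s (th - t) ^ 2 * DD s (th - t) = (((2 * cos s - 1) * cos (th / 2 - t) +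
      (√3 - 2 * sin s) * sin (th / 2 - t)) / 2) ^ 2 := by
    unfold de dd
    rw [div_pow, Real.sq_sqrt hp2.le, div_mul_cancel₀ _ hp2.ne', hnum', hneg, Real.cos_neg,
      Real.sin_neg]
    ring
  have hmain := near_alg (√3) (cos s) (sin s) (cos (th / 2 - t)) (sin (th / 2 - t))
    (2 * sin ((th - s) / 2)) (DD s t) (DD s (th - t)) (de s t) (de s (th - t)) hr hr0 hcy hxw
    hc hy0 hy hx hw hρ hρ2 (hDDg t) hDD2 hp1 hp2 (by linarith) (by linarith) hn1 hn2
  have hN : (2 * cos (th - s) - 1) ^ 2 - 4 * sin (s / 2) ^ 2 =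
      (cos s + √3 * sin s - 1) ^ 2 - 2 * (1 - cos s) := by
    have h1 : cos s = 1 - 2 * sin (s / 2) ^ 2 := by
      have h2 := Real.cos_two_mul' (s / 2)
      have h3 := Real.cos_sq_add_sin_sq (s / 2)
      rw [show 2 * (s / 2) = s by ring] at h2
      linarith
    have h4 : 4 * sin (s / 2) ^ 2 = 2 * (1 - cos s) := by linarith
    rw [h4, hcths]; ring
  rw [hN, hDD0]
  exact hmain

end Pool.Agent.Helper342.RV.D1
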