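import Pool.Agent.Helper342.RV.Defs

namespace Pool.Agent.Helper342.RV.D2

open Real

















theorem fb_ident (A ρ c1 c2 : ℝ) :
    (1 - c1 ^ 2) * (A - 2 * ρ * c2) ^ 5 - (1 - c2 ^ 2) * (A - 2 * ρ * c1) ^ 5 =
      (c1 - c2) * (2 * ρ * ((A - 2 * ρ * c1) + (A - 2 * ρ * c2)) *
        ((A - 2 * ρ * c1) ^ 2 + (A - 2 * ρ * c2) ^ 2) * (1 - c1 ^ 2) * (A - 2 * ρ * c2) +
        (A - 2 * ρ * c1) ^ 4 * (2 * ρ * (1 + c1 * c2) - A * (c1 + c2))) := by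
  ring

theorem fb_key (σ κ C x r3 : ℝ) (h1 : 0.198 ≤ σ) (h2 : σ ≤ 0.262) (hκ : σ ^ 2 + κ ^ 2 = 1)
    (hκ0 : 0 ≤ κ) (hr : r3 ^ 2 = 3) (hr0 : 0 ≤ r3) (hC : C = κ / 2 + r3 / 2 * σ) (hx : x ≤ 1)
    (hx0 : 0 ≤ x) :
    0 ≤ (2 * σ) * (2 * (1 + (2 * σ) ^ 2) - 4 * (2 * σ) * C * x) +
      (2 * (2 * σ) * (C ^ 2 + x ^ 2) - 2 * (1 + (2 * σ) ^ 2) * C * x) := by
  have hr1 : r3 ≤ 1.7321 := by nlinarith
  have hr2 : 1.732 ≤ r3 := by nlinarith
  have hκ1 : κ ≤ 1 - σ ^ 2 / 2 := by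
    apply le_of_sq_le_sq _ (by nlinarith)
    nlinarith [sq_nonneg (σ ^ 2)]
  have hκ2 : 0.96 ≤ κ := by nlinarith
  have hCu : C ≤ 0.5 - 0.25 * σ ^ 2 + 0.86605 * σ := by
    rw [hC]; nlinarith
  have hCl : 0.48 + 0.866 * σ ≤ C := by
    rw [hC]; nlinarith
  have hC0 : 0 ≤ C := by nlinarith
  have hC1 : C ≤ 0.75 := by nlinarith
  -- monotonicity in x
  have e : (2 * σ) * (2 * (1 + (2 * σ) ^ 2) - 4 * (2 * σ) * C * x) +
      (2 * (2 * σ) * (C ^ 2 + x ^ 2) - 2 * (1 + (2 * σ) ^ 2) * C * x) =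
      2 * ((1 - x) * (C * (1 + 12 * σ ^ 2) - 2 * σ * (1 + x)) +
        (2 * σ * C ^ 2 - (1 + 12 * σ ^ 2) * C + 4 * σ + 8 * σ ^ 3)) := by ring
  rw [e]
  have hb : 4 * σ ≤ C * (1 + 12 * σ ^ 2) := by
    have h3 : (0.48 + 0.866 * σ) * (1 + 12 * σ ^ 2) ≤ C * (1 + 12 * σ ^ 2) :=
      mul_le_mul_of_nonneg_right hCl (by positivity)
    nlinarith [sq_nonneg (σ - 0.27), pow_pos (show (0 : ℝ) < σ by linarith) 3]
  have hA : 0 ≤ (1 - x) * (C * (1 + 12 * σ ^ 2) - 2 * σ * (1 + x)) := by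
    apply mul_nonneg (by linarith)
    nlinarith
  have hB : 0 ≤ 2 * σ * C ^ 2 - (1 + 12 * σ ^ 2) * C + 4 * σ + 8 * σ ^ 3 := by
    set Cb : ℝ := 0.5 - 0.25 * σ ^ 2 + 0.86605 * σ with hCb
    have hCb1 : Cb ≤ 0.75 := by rw [hCb]; nlinarith
    have f1 : 2 * σ * C ^ 2 - (1 + 12 * σ ^ 2) * C + 4 * σ + 8 * σ ^ 3 =
        (Cb - C) * ((1 + 12 * σ ^ 2) - 2 * σ * (C + Cb)) +
        (2 * σ * Cb ^ 2 - (1 + 12 * σ ^ 2) * Cb + 4 * σ + 8 * σ ^ 3) := by ring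
    rw [f1]
    have f2 : 0 ≤ (Cb - C) * ((1 + 12 * σ ^ 2) - 2 * σ * (C + Cb)) := by
      apply mul_nonneg (by linarith)
      nlinarith
    have f3 : 0 ≤ 2 * σ * Cb ^ 2 - (1 + 12 * σ ^ 2) * Cb + 4 * σ + 8 * σ ^ 3 := by
      have hs2 : 0 ≤ σ ^ 2 := sq_nonneg _
      have hs3 : σ ^ 3 ≤ 0.262 * σ ^ 2 := by
        have : σ ^ 3 = σ * σ ^ 2 := by ring
        rw [this]
        exact mul_le_mul_of_nonneg_right h2 hs2
      have hs4 : 0 ≤ σ ^ 4 := by positivity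
      have hs5 : 0 ≤ σ ^ 5 := by
        have : (0 : ℝ) ≤ σ := by linarith
        positivity
      have f4 : 2 * σ * Cb ^ 2 - (1 + 12 * σ ^ 2) * Cb + 4 * σ + 8 * σ ^ 3 =
          -0.5 + 3.63395 * σ - 4.0179 * σ ^ 2 - 1.392514795 * σ ^ 3
          + 2.13395 * σ ^ 4 + 0.125 * σ ^ 5 := by rw [hCb]; ring
      rw [f4]
      have f5 : 0 ≤ (σ - 0.198) * (0.262 - σ) := mul_nonneg (by linarith) (by linarith)
      have f6 : (σ - 0.198) * (0.262 - σ) = -σ ^ 2 + 0.46 * σ - 0.051876 := by ring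
      rw [f6] at f5
      linarith
    linarith
  linarith

theorem fb_de (hnum : ∀ u w : ℝ, sin (th + u + w) - sin (th - w)
      = 2 * sin ((th - u) / 2) * sin (w + u / 2)) (s w : ℝ) :
    de (th - s) w = 2 * sin (s / 2) * sin (w + (th - s) / 2) / dd (th - s) w := by
  unfold de
  rw [hnum]
  congr 3
  congr 1
  ring

theorem fb_DD (hDD : ∀ u w : ℝ, DD u w = (1 - 2 * sin ((th - u) / 2)) ^ 2
      + 8 * sin ((th - u) / 2) * sin ((w + u / 2) / 2) ^ 2) (s w : ℝ) :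
    DD (th - s) w = 1 + (2 * sin (s / 2)) ^ 2 -
      2 * (2 * sin (s / 2)) * cos (w + (th - s) / 2) := by
  rw [hDD]
  have e1 : (th - (th - s)) / 2 = s / 2 := by ring
  have e2 : cos (w + (th - s) / 2) = 1 - 2 * sin ((w + (th - s) / 2) / 2) ^ 2 := by
    have h := Real.cos_two_mul ((w + (th - s) / 2) / 2)
    rw [mul_div_cancel₀ _ (two_ne_zero)] at h
    rw [h]
    have := Real.sin_sq_add_cos_sq ((w + (th - s) / 2) / 2)
    linarith
  rw [e1, e2]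
  ring

/-- far part, general bound -/
theorem far_bound1
    (hnum : ∀ u w : ℝ, sin (th + u + w) - sin (th - w)
      = 2 * sin ((th - u) / 2) * sin (w + u / 2))
    (hDD : ∀ u w : ℝ, DD u w = (1 - 2 * sin ((th - u) / 2)) ^ 2
      + 8 * sin ((th - u) / 2) * sin ((w + u / 2) / 2) ^ 2)
    (hpos : ∀ u w : ℝ, u ∈ Set.Icc 0 th → w ∈ Set.Icc 0 th → (0 < u ∨ 0 < w) → 0 < DD u w)
    {s t : ℝ} (hs : 0 ≤ s) (hs2 : s ≤ th / 2) (ht : 0 < t) (ht2 : t ≤ th / 2) :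
    -(2 * (2 * sin (s / 2)) * cos (th - s / 2) * sin (th / 2 - t)) / dd (th - s) (th / 2) ^ 5
      ≤ de (th - s) t / DD (th - s) t ^ 2 - de (th - s) (th - t) / DD (th - s) (th - t) ^ 2 := by
  have hpi := Real.pi_pos
  have hth : th = Real.pi / 3 := rfl
  set ρ := 2 * sin (s / 2) with hρ
  have hρ0 : 0 ≤ ρ := by
    rw [hρ]
    have : 0 ≤ sin (s / 2) := Real.sin_nonneg_of_nonneg_of_le_pi (by linarith)
      (by linarith)
    linarith
  have hu : th - s ∈ Set.Icc 0 th := ⟨by linarith, by linarith⟩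
  have hX1 : 0 < DD (th - s) t := hpos _ _ hu ⟨ht.le, by linarith⟩ (Or.inr ht)
  have hX2 : 0 < DD (th - s) (th - t) := hpos _ _ hu ⟨by linarith, by linarith⟩
    (Or.inr (by linarith))
  have hX0 : 0 < DD (th - s) (th / 2) := hpos _ _ hu ⟨by linarith, by linarith⟩
    (Or.inr (by linarith))
  have hd1 := fb_DD hDD s t
  have hd2 := fb_DD hDD s (th - t)
  have hd0 := fb_DD hDD s (th / 2)
  rw [← hρ] at hd1 hd2 hd0
  have hc12 : cos (th - t + (th - s) / 2) ≤ cos (t + (th - s) / 2) :=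
    Real.cos_le_cos_of_nonneg_of_le_pi (by linarith) (by linarith) (by linarith)
  have hc02 : cos (th - t + (th - s) / 2) ≤ cos (th / 2 + (th - s) / 2) :=
    Real.cos_le_cos_of_nonneg_of_le_pi (by linarith) (by linarith) (by linarith)
  have hX12 : DD (th - s) t ≤ DD (th - s) (th - t) := by
    rw [hd1, hd2]; nlinarith
  have hX02 : DD (th - s) (th / 2) ≤ DD (th - s) (th - t) := by
    rw [hd0, hd2]; nlinarith
  have hW : ∀ w, 0 < DD (th - s) w → de (th - s) w / DD (th - s) w ^ 2 =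
      ρ * sin (w + (th - s) / 2) / dd (th - s) w ^ 5 := by
    intro w hw
    rw [fb_de hnum, ← hρ]
    have h1 : 0 < dd (th - s) w := Real.sqrt_pos.2 hw
    have h2 : DD (th - s) w = dd (th - s) w ^ 2 := (Real.sq_sqrt hw.le).symm
    rw [h2, div_div]
    congr 1
    ring
  rw [hW t hX1, hW (th - t) hX2]
  have hq1 : 0 < dd (th - s) t := Real.sqrt_pos.2 hX1
  have hq2 : 0 < dd (th - s) (th - t) := Real.sqrt_pos.2 hX2
  have hq0 : 0 < dd (th - s) (th / 2) := Real.sqrt_pos.2 hX0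
  have hq12 : dd (th - s) t ≤ dd (th - s) (th - t) := Real.sqrt_le_sqrt hX12
  have hq02 : dd (th - s) (th / 2) ≤ dd (th - s) (th - t) := Real.sqrt_le_sqrt hX02
  have hs1 : 0 ≤ sin (t + (th - s) / 2) :=
    Real.sin_nonneg_of_nonneg_of_le_pi (by linarith) (by linarith)
  have hC : 0 ≤ cos (th - s / 2) :=
    Real.cos_nonneg_of_neg_pi_div_two_le_of_le (by linarith)
      (by linarith)
  have hy : 0 ≤ sin (th / 2 - t) :=
    Real.sin_nonneg_of_nonneg_of_le_pi (by linarith) (by linarith)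
  have hdiff : sin (t + (th - s) / 2) - sin (th - t + (th - s) / 2) =
      -(2 * cos (th - s / 2) * sin (th / 2 - t)) := by
    have e1 : t + (th - s) / 2 = (th - s / 2) - (th / 2 - t) := by ring
    have e2 : th - t + (th - s) / 2 = (th - s / 2) + (th / 2 - t) := by ring
    rw [e1, e2, Real.sin_sub, Real.sin_add]
    ring
  have step1 : ρ * sin (t + (th - s) / 2) / dd (th - s) (th - t) ^ 5 ≤
      ρ * sin (t + (th - s) / 2) / dd (th - s) t ^ 5 :=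
    div_le_div_of_nonneg_left (mul_nonneg hρ0 hs1) (by positivity)
      (pow_le_pow_left₀ hq1.le hq12 5)
  have step2 : 2 * ρ * cos (th - s / 2) * sin (th / 2 - t) / dd (th - s) (th - t) ^ 5 ≤
      2 * ρ * cos (th - s / 2) * sin (th / 2 - t) / dd (th - s) (th / 2) ^ 5 :=
    div_le_div_of_nonneg_left (by positivity) (by positivity)
      (pow_le_pow_left₀ hq0.le hq02 5)
  have step3 : ρ * sin (t + (th - s) / 2) / dd (th - s) (th - t) ^ 5 -
      ρ * sin (th - t + (th - s) / 2) / dd (th - s) (th - t) ^ 5 =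
      -(2 * ρ * cos (th - s / 2) * sin (th / 2 - t) / dd (th - s) (th - t) ^ 5) := by
    rw [← sub_div, ← mul_sub, hdiff, ← neg_div]
    congr 1
    ring
  rw [neg_div]
  linarith

/-- far part is nonnegative for `s ≥ 2/5` -/
theorem far_bound2
    (hnum : ∀ u w : ℝ, sin (th + u + w) - sin (th - w)
      = 2 * sin ((th - u) / 2) * sin (w + u / 2))
    (hDD : ∀ u w : ℝ, DD u w = (1 - 2 * sin ((th - u) / 2)) ^ 2
      + 8 * sin ((th - u) / 2) * sin ((w + u / 2) / 2) ^ 2)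
    (hpos : ∀ u w : ℝ, u ∈ Set.Icc 0 th → w ∈ Set.Icc 0 th → (0 < u ∨ 0 < w) → 0 < DD u w)
    (hhalf : ∀ u t : ℝ, u ∈ Set.Icc 0 th → t ∈ Set.Icc 0 th → (0 < u ∨ 0 < t) →
      sin ((th - u) / 2) ≤ de u t)
    {s t : ℝ} (hs : 2 / 5 ≤ s) (hs2 : s ≤ th / 2) (ht : 0 < t) (ht2 : t ≤ th / 2) :
    0 ≤ de (th - s) t / DD (th - s) t ^ 2 - de (th - s) (th - t) / DD (th - s) (th - t) ^ 2 := by
  have hpi := Real.pi_pos
  have hth : th = Real.pi / 3 := rfl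
  have hpi1 := Real.pi_lt_d4
  have hs1 : s / 2 ≤ 0.262 := by norm_num at hpi1 ⊢; linarith
  have hs0 : (0 : ℝ) < s / 2 := by linarith
  set σ := sin (s / 2) with hσ
  set κ := cos (s / 2) with hκ
  have hσ1 : 0.198 ≤ σ := by
    have h1 : sin (1 / 5) ≤ σ := by
      apply Real.sin_le_sin_of_le_of_le_pi_div_two
      · linarith
      · linarith
      · linarith
    have h2 := Real.sin_gt_sub_cube (x := 1 / 5) (by norm_num)
    norm_num at h2 ⊢
    linarith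
  have hσ2 : σ ≤ 0.262 := (Real.sin_lt hs0).le.trans hs1
  have hκ0 : 0 ≤ κ := Real.cos_nonneg_of_neg_pi_div_two_le_of_le (by linarith)
    (by linarith)
  have hσκ : σ ^ 2 + κ ^ 2 = 1 := Real.sin_sq_add_cos_sq _
  set ρ := 2 * σ with hρ
  have hρ0 : 0 < ρ := by rw [hρ]; linarith
  have hu : th - s ∈ Set.Icc 0 th := ⟨by linarith, by linarith⟩
  have hX1 : 0 < DD (th - s) t := hpos _ _ hu ⟨ht.le, by linarith⟩ (Or.inr ht)
  have hX2 : 0 < DD (th - s) (th - t) := hpos _ _ hu ⟨by linarith, by linarith⟩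
    (Or.inr (by linarith))
  have hd1 := fb_DD hDD s t
  have hd2 := fb_DD hDD s (th - t)
  rw [← hσ, ← hρ] at hd1 hd2
  have hW : ∀ w, 0 < DD (th - s) w → de (th - s) w / DD (th - s) w ^ 2 =
      ρ * sin (w + (th - s) / 2) / dd (th - s) w ^ 5 := by
    intro w hw
    rw [fb_de hnum, ← hσ, ← hρ]
    have h1 : 0 < dd (th - s) w := Real.sqrt_pos.2 hw
    have h2 : DD (th - s) w = dd (th - s) w ^ 2 := (Real.sq_sqrt hw.le).symm
    rw [h2, div_div]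
    congr 1
    ring
  have hh := hhalf (th - s) t hu ⟨ht.le, by linarith⟩ (Or.inr ht)
  have e0 : (th - (th - s)) / 2 = s / 2 := by ring
  rw [fb_de hnum, e0, ← hσ, ← hρ] at hh
  rw [hW t hX1, hW (th - t) hX2, sub_nonneg]
  have hq1 : 0 < dd (th - s) t := Real.sqrt_pos.2 hX1
  have hq2 : 0 < dd (th - s) (th - t) := Real.sqrt_pos.2 hX2
  have hq1s : dd (th - s) t ^ 2 = DD (th - s) t := Real.sq_sqrt hX1.le
  have hq2s : dd (th - s) (th - t) ^ 2 = DD (th - s) (th - t) := Real.sq_sqrt hX2.le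
  -- the four values
  set C := cos (th - s / 2) with hC
  set S := sin (th - s / 2) with hS
  set x := cos (th / 2 - t) with hx
  set y := sin (th / 2 - t) with hy
  have hCS : S ^ 2 + C ^ 2 = 1 := Real.sin_sq_add_cos_sq _
  have hxy : y ^ 2 + x ^ 2 = 1 := Real.sin_sq_add_cos_sq _
  have hy0 : 0 ≤ y := Real.sin_nonneg_of_nonneg_of_le_pi (by linarith) (by linarith)
  have hx0 : 0 ≤ x := Real.cos_nonneg_of_neg_pi_div_two_le_of_le (by linarith)
    (by linarith)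
  have hx1 : x ≤ 1 := Real.cos_le_one _
  have hS0 : 0 ≤ S := Real.sin_nonneg_of_nonneg_of_le_pi (by linarith)
    (by linarith)
  have e1 : t + (th - s) / 2 = (th - s / 2) - (th / 2 - t) := by ring
  have e2 : th - t + (th - s) / 2 = (th - s / 2) + (th / 2 - t) := by ring
  have hc1 : cos (t + (th - s) / 2) = C * x + S * y := by rw [e1, Real.cos_sub]
  have hc2 : cos (th - t + (th - s) / 2) = C * x - S * y := by rw [e2, Real.cos_add]
  have ht1 : 0 ≤ sin (t + (th - s) / 2) :=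
    Real.sin_nonneg_of_nonneg_of_le_pi (by linarith) (by linarith)
  have ht2' : 0 ≤ sin (th - t + (th - s) / 2) :=
    Real.sin_nonneg_of_nonneg_of_le_pi (by linarith) (by linarith)
  have hsc1 := Real.sin_sq_add_cos_sq (t + (th - s) / 2)
  have hsc2 := Real.sin_sq_add_cos_sq (th - t + (th - s) / 2)
  set c1 := cos (t + (th - s) / 2) with hc1'
  set c2 := cos (th - t + (th - s) / 2) with hc2'
  set s1 := sin (t + (th - s) / 2) with hs1'
  set s2 := sin (th - t + (th - s) / 2) with hs2'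
  set X1 := DD (th - s) t with hX1'
  set X2 := DD (th - s) (th - t) with hX2'
  set q1 := dd (th - s) t with hq1'
  set q2 := dd (th - s) (th - t) with hq2'
  set A := 1 + ρ ^ 2 with hA
  have hs1sq : s1 ^ 2 = 1 - c1 ^ 2 := by linarith
  have hs2sq : s2 ^ 2 = 1 - c2 ^ 2 := by linarith
  have hSy : 0 ≤ S * y := mul_nonneg hS0 hy0
  have hc12 : c2 ≤ c1 := by rw [hc1, hc2]; linarith
  have hX12 : X1 ≤ X2 := by
    rw [hd1, hd2]
    have := mul_le_mul_of_nonneg_left hc12 hρ0.le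
    linarith
  have hC2 : C = κ / 2 + √3 / 2 * σ := by
    rw [hC, Real.cos_sub, hth, Real.cos_pi_div_three, Real.sin_pi_div_three]
    ring
  have hkey := fb_key σ κ C x (√3) hσ1 hσ2 hσκ hκ0 (Real.sq_sqrt (by norm_num)) (Real.sqrt_nonneg _)
    hC2 hx1 hx0
  have hs14 : X1 / 4 ≤ 1 - c1 ^ 2 := by
    rw [← hs1sq]
    have h1 : q1 ≤ 2 * s1 := by
      rw [le_div_iff₀ hq1] at hh
      have h2 : ρ * q1 ≤ ρ * (2 * s1) := by
        rw [hρ] at hh ⊢; linarith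
      exact le_of_mul_le_mul_left h2 hρ0
    have h3 : q1 ^ 2 ≤ (2 * s1) ^ 2 := pow_le_pow_left₀ hq1.le h1 2
    rw [hq1s] at h3
    linarith
  have hM : 0 ≤ ρ * (X1 + X2) + (2 * ρ * (1 + c1 * c2) - A * (c1 + c2)) := by
    rw [hd1, hd2, hc1, hc2]
    have f1 : 1 + (C * x + S * y) * (C * x - S * y) = C ^ 2 + x ^ 2 := by
      have hSS : S ^ 2 = 1 - C ^ 2 := by linarith
      have hyy : y ^ 2 = 1 - x ^ 2 := by linarith
      have : 1 + (C * x + S * y) * (C * x - S * y) = 1 + C ^ 2 * x ^ 2 - S ^ 2 * y ^ 2 := by ring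
      rw [this, hSS, hyy]
      ring
    rw [f1]
    refine hkey.trans (le_of_eq ?_)
    rw [hA, hρ]
    ring
  have hfin : (1 - c2 ^ 2) * X1 ^ 5 ≤ (1 - c1 ^ 2) * X2 ^ 5 := by
    have hid := fb_ident A ρ c1 c2
    rw [← hd1, ← hd2] at hid
    have hT : ρ * (X1 + X2) * X1 ^ 4 ≤
        2 * ρ * (X1 + X2) * (X1 ^ 2 + X2 ^ 2) * (1 - c1 ^ 2) * X2 := by
      have g1 : 2 * X1 ^ 2 ≤ X1 ^ 2 + X2 ^ 2 := by
        have := pow_le_pow_left₀ hX1.le hX12 2
        linarith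
      calc ρ * (X1 + X2) * X1 ^ 4 = 2 * ρ * (X1 + X2) * (2 * X1 ^ 2) * (X1 / 4) * X1 := by ring
        _ ≤ 2 * ρ * (X1 + X2) * (X1 ^ 2 + X2 ^ 2) * (1 - c1 ^ 2) * X2 := by
            have g0 : 0 ≤ 1 - c1 ^ 2 := by linarith
            gcongr
    have hbr : 0 ≤ 2 * ρ * (X1 + X2) * (X1 ^ 2 + X2 ^ 2) * (1 - c1 ^ 2) * X2 +
        X1 ^ 4 * (2 * ρ * (1 + c1 * c2) - A * (c1 + c2)) := by
      have g2 : 0 ≤ X1 ^ 4 * (ρ * (X1 + X2) + (2 * ρ * (1 + c1 * c2) - A * (c1 + c2))) :=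
        mul_nonneg (by positivity) hM
      have g3 : X1 ^ 4 * (ρ * (X1 + X2) + (2 * ρ * (1 + c1 * c2) - A * (c1 + c2))) =
        ρ * (X1 + X2) * X1 ^ 4 + X1 ^ 4 * (2 * ρ * (1 + c1 * c2) - A * (c1 + c2)) := by ring
      rw [g3] at g2
      linarith
    have hD : 0 ≤ c1 - c2 := by linarith
    have := mul_nonneg hD hbr
    rw [← hid] at this
    linarith
  -- conclusion
  rw [div_le_div_iff₀ (by positivity) (by positivity)]
  apply le_of_sq_le_sq _ (by positivity)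
  have k1 : (ρ * s2 * q1 ^ 5) ^ 2 = ρ ^ 2 * ((1 - c2 ^ 2) * X1 ^ 5) := by
    rw [← hq1s, ← hs2sq]; ring
  have k2 : (ρ * s1 * q2 ^ 5) ^ 2 = ρ ^ 2 * ((1 - c1 ^ 2) * X2 ^ 5) := by
    rw [← hq2s, ← hs1sq]; ring
  rw [k1, k2]
  exact mul_le_mul_of_nonneg_left hfin (by positivity)

end Pool.Agent.Helper342.RV.D2
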