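import Pool.Agent.Helper342.RV.Defs

namespace Pool.Agent.Helper342.RV.D3

open Real

















lemma s3_lo : (1732 / 1000 : ℝ) ≤ √3 := by
  apply Real.le_sqrt_of_sq_le
  norm_num

lemma s3_hi : √3 ≤ (17321 / 10000 : ℝ) := by
  rw [Real.sqrt_le_left (by norm_num)]
  norm_num

lemma s3_sq : √3 * √3 = (3 : ℝ) := Real.mul_self_sqrt (by norm_num)

lemma DDh (u : ℝ) : DD u (th / 2) = (2 - √3) * (1 + sin u) + (1 - cos u) := by
  unfold DD th
  have e1 : Real.pi / 3 - Real.pi / 3 / 2 = Real.pi / 6 := by ring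
  have e2 : Real.pi / 3 + u + Real.pi / 3 / 2 = u + Real.pi / 2 := by ring
  rw [e1, e2, Real.cos_pi_div_six, Real.cos_add_pi_div_two, Real.cos_sub, Real.cos_pi_div_three,
    Real.sin_pi_div_three]
  ring

lemma DDh' (s : ℝ) : DD (th - s) (th / 2) = 1 - sin s + (2 - √3) * (1 - cos s) := by
  rw [DDh]
  unfold th
  rw [Real.cos_sub, Real.sin_sub, Real.cos_pi_div_three, Real.sin_pi_div_three]
  have h := s3_sq
  linear_combination (-(cos s) / 2) * h

lemma n_eq (s : ℝ) : 2 * cos (th - s) - 1 = cos s + √3 * sin s - 1 := by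
  unfold th
  rw [Real.cos_sub, Real.cos_pi_div_three, Real.sin_pi_div_three]
  ring

lemma rho_eq (s : ℝ) : 2 * sin ((th - s) / 2) = cos (s / 2) - √3 * sin (s / 2) := by
  unfold th
  have e1 : (Real.pi / 3 - s) / 2 = Real.pi / 6 - s / 2 := by ring
  rw [e1, Real.sin_sub, Real.sin_pi_div_six, Real.cos_pi_div_six]
  ring

lemma cosh_eq (s : ℝ) : cos (th - s / 2) = (cos (s / 2) + √3 * sin (s / 2)) / 2 := by
  unfold th
  rw [Real.cos_sub, Real.cos_pi_div_three, Real.sin_pi_div_three]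
  ring

lemma half_cos (s : ℝ) : cos s = 1 - 2 * sin (s / 2) ^ 2 := by
  have h := Real.cos_two_mul (s / 2)
  have e : 2 * (s / 2) = s := by ring
  rw [e] at h
  have h2 := Real.sin_sq_add_cos_sq (s / 2)
  linarith

lemma half_sin (s : ℝ) : sin s = 2 * sin (s / 2) * cos (s / 2) := by
  have h := Real.sin_two_mul (s / 2)
  have e : 2 * (s / 2) = s := by ring
  rw [e] at h
  exact h

lemma Q_eq (s : ℝ) (hρ : 0 < cos (s / 2) - √3 * sin (s / 2)) :
    4 * (2 * sin ((th - s) / 2)) * DD s (th / 2)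
        - ((2 * cos (th - s) - 1) ^ 2 - 4 * sin (s / 2) ^ 2) / (2 * sin ((th - s) / 2)) =
      4 * (2 - √3) * (cos (s / 2) - √3 * sin (s / 2)) * (1 + sin s) - 8 * √3 * sin (s / 2) ^ 3 := by
  rw [rho_eq, n_eq, DDh, half_cos s, half_sin s]
  have h2 := Real.sin_sq_add_cos_sq (s / 2)
  have h3 := s3_sq
  set p := cos (s / 2) with hp
  set q := sin (s / 2) with hq
  set r := √3 with hr
  have h4 : ((1 - 2 * q ^ 2 + r * (2 * q * p) - 1) ^ 2 - 4 * q ^ 2) = 8 * q ^ 2 * p * (p - r * q) := by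
    linear_combination (4 * q ^ 2) * h2 + (4 * q ^ 2 * p ^ 2) * h3 + 0 * h3
  rw [h4, mul_div_assoc, div_self hρ.ne']
  ring

lemma X_pos {s : ℝ} (h0 : 0 ≤ s) (h1 : s ≤ 53 / 100) : 0 < DD s (th / 2) := by
  rw [DDh]
  have h2 := s3_hi
  have h3 : 0 ≤ sin s := Real.sin_nonneg_of_nonneg_of_le_pi h0 (by linarith [Real.pi_gt_three])
  have h4 := Real.cos_le_one s
  have h5 : 0 < 2 - √3 := by linarith
  have : 0 < (2 - √3) * (1 + sin s) := mul_pos h5 (by linarith)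
  linarith

set_option maxHeartbeats 1600000 in
lemma Gpiece {s a b g : ℝ} (ha : 0 ≤ a) (has : a ≤ s) (hsb : s ≤ b) (hb : b ≤ 53 / 100) (hg0 : 0 ≤ g)
    (hκ : 0 ≤ 10716 / 10000 * (1 - 86605 / 100000 * b - b ^ 2 / 8) * (1 + a - a ^ 3 / 6) - 17321 / 10000 * b ^ 3)
    (hg : g * (268 / 1000 * (1 + b) + b ^ 2 / 2) ^ 4 ≤ 954 / 8000 * (1732 / 1000 - b / 2 - 289 / 1000 * b ^ 2) ^ 2 *
      (1 / 2 - b ^ 2 / 2) * (10716 / 10000 * (1 - 86605 / 100000 * b - b ^ 2 / 8) * (1 + a - a ^ 3 / 6) - 17321 / 10000 * b ^ 3)) :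
    g * s ^ 2 ≤ (954 / 1000) * ((2 * cos (th - s) - 1) ^ 2 / 8 * ((cos s - 1 / 2) *
        (4 * (2 * sin ((th - s) / 2)) * DD s (th / 2)
        - ((2 * cos (th - s) - 1) ^ 2 - 4 * sin (s / 2) ^ 2) / (2 * sin ((th - s) / 2)))
      / DD s (th / 2) ^ 4)) := by
  have hs0 : 0 ≤ s := ha.trans has
  have hs1 : s ≤ 53 / 100 := hsb.trans hb
  have hb0 : 0 ≤ b := hs0.trans hsb
  have h3l := s3_lo
  have h3h := s3_hi
  have hpi := Real.pi_gt_three
  have hsin0 : 0 ≤ sin s := Real.sin_nonneg_of_nonneg_of_le_pi hs0 (by linarith)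
  have hq0 : 0 ≤ sin (s / 2) := Real.sin_nonneg_of_nonneg_of_le_pi (by linarith) (by linarith)
  have hsinle : sin s ≤ s := Real.sin_le hs0
  have hqle : sin (s / 2) ≤ s / 2 := Real.sin_le (by linarith)
  have hsinge : s - s ^ 3 / 6 ≤ sin s := Real.sin_ge_sub_cube hs0
  have hcosge : 1 - s ^ 2 / 2 ≤ cos s := Real.one_sub_sq_div_two_le_cos
  have hpge : 1 - (s / 2) ^ 2 / 2 ≤ cos (s / 2) := Real.one_sub_sq_div_two_le_cos
  have hcosle := Real.cos_le_one s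
  have hssb : s ^ 2 ≤ b ^ 2 := pow_le_pow_left₀ hs0 hsb 2
  have hs3b : s ^ 3 ≤ b ^ 3 := pow_le_pow_left₀ hs0 hsb 3
  -- rho
  have hq' : √3 * sin (s / 2) ≤ 17321 / 10000 * (s / 2) := mul_le_mul h3h hqle hq0 (by norm_num)
  have hρ1 : 1 - 86605 / 100000 * b - b ^ 2 / 8 ≤ cos (s / 2) - √3 * sin (s / 2) := by nlinarith
  have hρb : 0 < 1 - 86605 / 100000 * b - b ^ 2 / 8 := by nlinarith
  have hρ : 0 < cos (s / 2) - √3 * sin (s / 2) := lt_of_lt_of_le hρb hρ1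
  rw [Q_eq s hρ]
  -- 1 + sin
  have hmono : 1 + a - a ^ 3 / 6 ≤ 1 + sin s := by
    have h1 : s - a - (s ^ 3 - a ^ 3) / 6 = (s - a) * (1 - (s ^ 2 + s * a + a ^ 2) / 6) := by ring
    have h2 : 0 ≤ (s - a) * (1 - (s ^ 2 + s * a + a ^ 2) / 6) := by
      apply mul_nonneg (by linarith)
      nlinarith
    linarith
  have ha3 : 0 ≤ 1 + a - a ^ 3 / 6 := by nlinarith [pow_nonneg ha 2]
  -- Q
  set Q := 4 * (2 - √3) * (cos (s / 2) - √3 * sin (s / 2)) * (1 + sin s) - 8 * √3 * sin (s / 2) ^ 3 with hQ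
  have hQ1 : 10716 / 10000 * (1 - 86605 / 100000 * b - b ^ 2 / 8) * (1 + a - a ^ 3 / 6) - 17321 / 10000 * b ^ 3 ≤ Q := by
    have h1 : 10716 / 10000 * (1 - 86605 / 100000 * b - b ^ 2 / 8) * (1 + a - a ^ 3 / 6) ≤
        4 * (2 - √3) * (cos (s / 2) - √3 * sin (s / 2)) * (1 + sin s) := by
      apply mul_le_mul _ hmono ha3
      · apply mul_nonneg _ hρ.le
        linarith
      · apply mul_le_mul _ hρ1 hρb.le (by linarith)
        linarith
    have h2 : 8 * √3 * sin (s / 2) ^ 3 ≤ 17321 / 10000 * b ^ 3 := by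
      have h3 : sin (s / 2) ^ 3 ≤ (s / 2) ^ 3 := pow_le_pow_left₀ hq0 hqle 3
      have h4 : 0 ≤ sin (s / 2) ^ 3 := pow_nonneg hq0 3
      calc 8 * √3 * sin (s / 2) ^ 3 ≤ 8 * (17321 / 10000) * (s / 2) ^ 3 := by
            apply mul_le_mul _ h3 h4 (by norm_num)
            linarith
        _ = 17321 / 10000 * s ^ 3 := by ring
        _ ≤ 17321 / 10000 * b ^ 3 := by linarith
    linarith
  -- n
  have hn1 : (1732 / 1000 - b / 2 - 289 / 1000 * b ^ 2) * s ≤ 2 * cos (th - s) - 1 := by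
    rw [n_eq]
    have h1 : 1732 / 1000 * (s - s ^ 3 / 6) ≤ √3 * sin s := by
      calc 1732 / 1000 * (s - s ^ 3 / 6) ≤ 1732 / 1000 * sin s := by linarith
        _ ≤ √3 * sin s := mul_le_mul_of_nonneg_right h3l hsin0
    have h2 : s * s ≤ s * b := mul_le_mul_of_nonneg_left hsb hs0
    have h3 : s * s ^ 2 ≤ s * b ^ 2 := mul_le_mul_of_nonneg_left hssb hs0
    have h5 : 0 ≤ s * b ^ 2 := by positivity
    linarith
  have hν0 : 0 ≤ 1732 / 1000 - b / 2 - 289 / 1000 * b ^ 2 := by nlinarith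
  have hn2 : ((1732 / 1000 - b / 2 - 289 / 1000 * b ^ 2) * s) ^ 2 ≤ (2 * cos (th - s) - 1) ^ 2 :=
    pow_le_pow_left₀ (mul_nonneg hν0 hs0) hn1 2
  -- X
  have hX0 := X_pos hs0 hs1
  have hX1 : DD s (th / 2) ≤ 268 / 1000 * (1 + b) + b ^ 2 / 2 := by
    rw [DDh]
    have h1 : (2 - √3) * (1 + sin s) ≤ 268 / 1000 * (1 + b) := by
      apply mul_le_mul (by linarith) (by linarith) (by linarith) (by norm_num)
    linarith
  have hX4 : DD s (th / 2) ^ 4 ≤ (268 / 1000 * (1 + b) + b ^ 2 / 2) ^ 4 := pow_le_pow_left₀ hX0.le hX1 4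
  have hXp : 0 < DD s (th / 2) ^ 4 := pow_pos hX0 4
  -- combine
  have hγ0 : 0 ≤ 1 / 2 - b ^ 2 / 2 := by nlinarith
  have hγ : 1 / 2 - b ^ 2 / 2 ≤ cos s - 1 / 2 := by linarith
  set κ := 10716 / 10000 * (1 - 86605 / 100000 * b - b ^ 2 / 8) * (1 + a - a ^ 3 / 6) - 17321 / 10000 * b ^ 3 with hκdef
  set ν := 1732 / 1000 - b / 2 - 289 / 1000 * b ^ 2 with hνdef
  set ξ := 268 / 1000 * (1 + b) + b ^ 2 / 2 with hξdef
  set γ := 1 / 2 - b ^ 2 / 2 with hγdef
  have hfin : 954 / 8000 * ν ^ 2 * γ * κ * s ^ 2 ≤ 954 / 8000 * (2 * cos (th - s) - 1) ^ 2 * (cos s - 1 / 2) * Q := by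
    have h1 : ν ^ 2 * s ^ 2 ≤ (2 * cos (th - s) - 1) ^ 2 := by
      have : (ν * s) ^ 2 = ν ^ 2 * s ^ 2 := by ring
      rw [← this]
      exact hn2
    have h2 : γ * κ ≤ (cos s - 1 / 2) * Q := mul_le_mul hγ hQ1 hκ (hγ0.trans hγ)
    have h3 : (ν ^ 2 * s ^ 2) * (γ * κ) ≤ (2 * cos (th - s) - 1) ^ 2 * ((cos s - 1 / 2) * Q) :=
      mul_le_mul h1 h2 (mul_nonneg hγ0 hκ) (sq_nonneg _)
    calc 954 / 8000 * ν ^ 2 * γ * κ * s ^ 2 = 954 / 8000 * ((ν ^ 2 * s ^ 2) * (γ * κ)) := by ring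
      _ ≤ 954 / 8000 * ((2 * cos (th - s) - 1) ^ 2 * ((cos s - 1 / 2) * Q)) := by linarith
      _ = 954 / 8000 * (2 * cos (th - s) - 1) ^ 2 * (cos s - 1 / 2) * Q := by ring
  have heq : (954 / 1000) * ((2 * cos (th - s) - 1) ^ 2 / 8 * ((cos s - 1 / 2) * Q / DD s (th / 2) ^ 4)) =
      (954 / 8000 * (2 * cos (th - s) - 1) ^ 2 * (cos s - 1 / 2) * Q) / DD s (th / 2) ^ 4 := by
    field_simp
    ring
  rw [heq, le_div_iff₀ hXp]
  calc g * s ^ 2 * DD s (th / 2) ^ 4 ≤ g * s ^ 2 * ξ ^ 4 := mul_le_mul_of_nonneg_left hX4 (by positivity)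
    _ = (g * ξ ^ 4) * s ^ 2 := by ring
    _ ≤ (954 / 8000 * ν ^ 2 * γ * κ) * s ^ 2 := mul_le_mul_of_nonneg_right hg (sq_nonneg _)
    _ ≤ 954 / 8000 * (2 * cos (th - s) - 1) ^ 2 * (cos s - 1 / 2) * Q := hfin

lemma dd_lo {s : ℝ} (h0 : 0 ≤ s) (h1 : s ≤ 53 / 100) : 1 - 6 / 10 * s ≤ dd (th - s) (th / 2) := by
  unfold dd
  rw [DDh']
  apply Real.le_sqrt_of_sq_le
  have h2 := s3_hi
  have h3 : sin s ≤ s := Real.sin_le h0
  have h4 := Real.cos_le_one s
  have h5 : 0 ≤ (2 - √3) * (1 - cos s) := mul_nonneg (by linarith) (by linarith)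
  nlinarith

lemma Fpiece {s b M f : ℝ} (h0 : 0 ≤ s) (hsb : s ≤ b) (hb : b ≤ 53 / 100) (hf0 : 0 ≤ f)
    (hM : (2 * cos s - 1) ^ 2 ≤ M)
    (hf : M / 8 * (1 + 86605 / 100000 * b) ≤ f * (1 - 6 / 10 * b) ^ 5) :
    (2 * cos s - 1) ^ 2 / 4 * (2 * sin (s / 2)) * cos (th - s / 2) / dd (th - s) (th / 2) ^ 5 ≤ f * s := by
  have hs1 : s ≤ 53 / 100 := hsb.trans hb
  have hb0 : 0 ≤ b := h0.trans hsb
  have h3h := s3_hi
  have h3l := s3_lo
  have hpi := Real.pi_gt_three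
  have hq0 : 0 ≤ sin (s / 2) := Real.sin_nonneg_of_nonneg_of_le_pi (by linarith) (by linarith)
  have hqle : sin (s / 2) ≤ s / 2 := Real.sin_le (by linarith)
  have hq' : √3 * sin (s / 2) ≤ 17321 / 10000 * (s / 2) := mul_le_mul h3h hqle hq0 (by norm_num)
  have hc : cos (th - s / 2) ≤ (1 + 86605 / 100000 * b) / 2 := by
    rw [cosh_eq]
    have := Real.cos_le_one (s / 2)
    linarith
  have hd := dd_lo h0 hs1
  have hdb : 1 - 6 / 10 * b ≤ dd (th - s) (th / 2) := by linarith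
  have hb1 : 0 < 1 - 6 / 10 * b := by linarith
  have hd0 : 0 < dd (th - s) (th / 2) := lt_of_lt_of_le hb1 hdb
  have hd5 : (1 - 6 / 10 * b) ^ 5 ≤ dd (th - s) (th / 2) ^ 5 := pow_le_pow_left₀ hb1.le hdb 5
  have hM0 : 0 ≤ M := (sq_nonneg _).trans hM
  rw [div_le_iff₀ (pow_pos hd0 5)]
  have h1 : (2 * cos s - 1) ^ 2 / 4 * (2 * sin (s / 2)) ≤ M / 4 * s := by
    apply mul_le_mul (by linarith) (by linarith) (by linarith) (by linarith)
  have h2 : (2 * cos s - 1) ^ 2 / 4 * (2 * sin (s / 2)) * cos (th - s / 2) ≤ M / 4 * s * ((1 + 86605 / 100000 * b) / 2) := by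
    have h3 : 0 ≤ (2 * cos s - 1) ^ 2 / 4 * (2 * sin (s / 2)) := by positivity
    have h4 : 0 ≤ (1 + 86605 / 100000 * b) / 2 := by positivity
    calc (2 * cos s - 1) ^ 2 / 4 * (2 * sin (s / 2)) * cos (th - s / 2)
        ≤ (2 * cos s - 1) ^ 2 / 4 * (2 * sin (s / 2)) * ((1 + 86605 / 100000 * b) / 2) := mul_le_mul_of_nonneg_left hc h3
      _ ≤ M / 4 * s * ((1 + 86605 / 100000 * b) / 2) := mul_le_mul_of_nonneg_right h1 h4
  calc (2 * cos s - 1) ^ 2 / 4 * (2 * sin (s / 2)) * cos (th - s / 2) ≤ M / 4 * s * ((1 + 86605 / 100000 * b) / 2) := h2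
    _ = (M / 8 * (1 + 86605 / 100000 * b)) * s := by ring
    _ ≤ (f * (1 - 6 / 10 * b) ^ 5) * s := mul_le_mul_of_nonneg_right hf h0
    _ = f * s * (1 - 6 / 10 * b) ^ 5 := by ring
    _ ≤ f * s * dd (th - s) (th / 2) ^ 5 := mul_le_mul_of_nonneg_left hd5 (by positivity)

lemma K_eq (s : ℝ) : K s (th / 2) = (4 * |sin ((th / 2 - s) / 2)| + 2 * dd s (th / 2) + 2 * dd (th - s) (th / 2)) / 6 := by
  unfold K
  have e1 : th - th / 2 = th / 2 := by ring
  have e2 : (th / 2 - (th - s)) / 2 = -((th / 2 - s) / 2) := by ring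
  rw [e1, e2, Real.sin_neg, abs_neg]
  ring

lemma cbar_le {s : ℝ} (h0 : 0 ≤ s) (h1 : s ≤ 53 / 100) :
    K 0 (th / 2) - K s (th / 2) ≤ 8 / 15 * s := by
  rw [K_eq, K_eq]
  have h2 : |sin ((th / 2 - 0) / 2)| - |sin ((th / 2 - s) / 2)| ≤ s / 2 := by
    have h3 := abs_sub_abs_le_abs_sub (sin ((th / 2 - 0) / 2)) (sin ((th / 2 - s) / 2))
    have h4 : |sin ((th / 2 - 0) / 2) - sin ((th / 2 - s) / 2)| ≤ |(th / 2 - 0) / 2 - (th / 2 - s) / 2| := by
      have := Real.abs_sin_sub_sin_le ((th / 2 - 0) / 2) ((th / 2 - s) / 2)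
      exact this
    have h5 : (th / 2 - 0) / 2 - (th / 2 - s) / 2 = s / 2 := by ring
    have h5' : |s / 2| = s / 2 := abs_of_nonneg (by linarith)
    rw [h5, h5'] at h4
    linarith
  have h6 : dd 0 (th / 2) ≤ dd s (th / 2) := by
    unfold dd
    apply Real.sqrt_le_sqrt
    rw [DDh, DDh, Real.sin_zero, Real.cos_zero]
    have h3h := s3_hi
    have h7 : 0 ≤ sin s := Real.sin_nonneg_of_nonneg_of_le_pi h0 (by linarith [Real.pi_gt_three])
    have h8 := Real.cos_le_one s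
    have h9 : 0 ≤ (2 - √3) * sin s := mul_nonneg (by linarith) h7
    linarith
  have h7 : dd (th - 0) (th / 2) = 1 := by
    unfold dd
    rw [DDh', Real.sin_zero, Real.cos_zero]
    norm_num
  have h8 := dd_lo h0 h1
  rw [h7]
  linarith

set_option maxHeartbeats 1600000 in
theorem numG1 {s : ℝ} (hs : 0 < s) (hs2 : s ≤ 2 / 5) :
    (1 / 4) * ((K 0 (th / 2) - K s (th / 2)) - 37 / 10000)
      ≤ (954 / 1000) * ((2 * cos (th - s) - 1) ^ 2 / 8 * ((cos s - 1 / 2) *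
        (4 * (2 * sin ((th - s) / 2)) * DD s (th / 2)
        - ((2 * cos (th - s) - 1) ^ 2 - 4 * sin (s / 2) ^ 2) / (2 * sin ((th - s) / 2)))
      / DD s (th / 2) ^ 4))
        - (2 * cos s - 1) ^ 2 / 4 * (2 * sin (s / 2)) * cos (th - s / 2)
          / dd (th - s) (th / 2) ^ 5 := by
  have hcb := cbar_le hs.le (by linarith)
  have hcosge : 1 - s ^ 2 / 2 ≤ cos s := Real.one_sub_sq_div_two_le_cos
  have hcosle := Real.cos_le_one s
  have hs22 : s ^ 2 ≤ 4 / 25 := by nlinarith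
  have hM1 : (2 * cos s - 1) ^ 2 ≤ 1 := by nlinarith
  rcases le_or_gt s (5 / 100) with h1 | h1
  · have hG := Gpiece (s := s) (a := 0) (b := 5 / 100) (g := 27) le_rfl hs.le h1 (by norm_num) (by norm_num)
      (by norm_num) (by norm_num)
    have hF := Fpiece (s := s) (b := 5 / 100) (M := 1) (f := 152 / 1000) hs.le h1 (by norm_num) (by norm_num) hM1
      (by norm_num)
    nlinarith [sq_nonneg (s - 285 / 54000)]
  rcases le_or_gt s (1 / 10) with h2 | h2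
  · have hG := Gpiece (s := s) (a := 5 / 100) (b := 1 / 10) (g := 21) (by norm_num) h1.le h2 (by norm_num) (by norm_num)
      (by norm_num) (by norm_num)
    have hF := Fpiece (s := s) (b := 1 / 10) (M := 1) (f := 19 / 100) hs.le h2 (by norm_num) (by norm_num) hM1
      (by norm_num)
    nlinarith
  rcases le_or_gt s (2 / 10) with h3 | h3
  · have hG := Gpiece (s := s) (a := 1 / 10) (b := 2 / 10) (g := 10) (by norm_num) h2.le h3 (by norm_num) (by norm_num)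
      (by norm_num) (by norm_num)
    have hF := Fpiece (s := s) (b := 2 / 10) (M := 1) (f := 28 / 100) hs.le h3 (by norm_num) (by norm_num) hM1
      (by norm_num)
    nlinarith
  rcases le_or_gt s (3 / 10) with h4 | h4
  · have hG := Gpiece (s := s) (a := 2 / 10) (b := 3 / 10) (g := 45 / 10) (by norm_num) h3.le h4 (by norm_num) (by norm_num)
      (by norm_num) (by norm_num)
    have hF := Fpiece (s := s) (b := 3 / 10) (M := 1) (f := 43 / 100) hs.le h4 (by norm_num) (by norm_num) hM1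
      (by norm_num)
    nlinarith
  have hM2 : (2 * cos s - 1) ^ 2 ≤ 831 / 1000 := by
    have h5 := Real.cos_bound (x := s) (by rw [abs_of_pos hs]; linarith)
    rw [abs_le, abs_of_pos hs] at h5
    have h6 := h5.2
    have h7 : 9 / 100 ≤ s ^ 2 := by nlinarith
    have h8 : s ^ 4 = s ^ 2 * s ^ 2 := by ring
    have h9 : s ^ 2 * s ^ 2 ≤ s ^ 2 * (4 / 25) := mul_le_mul_of_nonneg_left hs22 (sq_nonneg s)
    have h10 : cos s ≤ 9558 / 10000 := by
      rw [h8] at h6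
      linarith
    nlinarith
  rcases le_or_gt s (35 / 100) with h5 | h5
  · have hG := Gpiece (s := s) (a := 3 / 10) (b := 35 / 100) (g := 3) (by norm_num) h4.le h5 (by norm_num) (by norm_num)
      (by norm_num) (by norm_num)
    have hF := Fpiece (s := s) (b := 35 / 100) (M := 831 / 1000) (f := 45 / 100) hs.le h5 (by norm_num) (by norm_num) hM2
      (by norm_num)
    nlinarith
  · have hG := Gpiece (s := s) (a := 35 / 100) (b := 4 / 10) (g := 202 / 100) (by norm_num) h5.le (by linarith) (by norm_num) (by norm_num)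
      (by norm_num) (by norm_num)
    have hF := Fpiece (s := s) (b := 4 / 10) (M := 831 / 1000) (f := 553 / 1000) hs.le (by linarith) (by norm_num) (by norm_num) hM2
      (by norm_num)
    nlinarith

set_option maxHeartbeats 1600000 in
theorem numG2 {s : ℝ} (hs : 2 / 5 ≤ s) (hs2 : s ≤ th / 2) :
    (1 / 4) * ((K 0 (th / 2) - K s (th / 2)) - 37 / 10000)
      ≤ (954 / 1000) * ((2 * cos (th - s) - 1) ^ 2 / 8 * ((cos s - 1 / 2) *
        (4 * (2 * sin ((th - s) / 2)) * DD s (th / 2)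
        - ((2 * cos (th - s) - 1) ^ 2 - 4 * sin (s / 2) ^ 2) / (2 * sin ((th - s) / 2)))
      / DD s (th / 2) ^ 4)) := by
  have hs3 : s ≤ 53 / 100 := by
    have h1 := Real.pi_lt_d2
    norm_num at h1
    unfold th at hs2
    linarith
  have hcb := cbar_le (by linarith : (0 : ℝ) ≤ s) hs3
  rcases le_or_gt s (45 / 100) with h1 | h1
  · have hG := Gpiece (s := s) (a := 4 / 10) (b := 45 / 100) (g := 1) (by norm_num) (by linarith) h1 (by norm_num) (by norm_num)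
      (by norm_num) (by norm_num)
    nlinarith
  · have hG := Gpiece (s := s) (a := 45 / 100) (b := 53 / 100) (g := 44 / 100) (by norm_num) h1.le hs3 (by norm_num) (by norm_num)
      (by norm_num) (by norm_num)
    nlinarith

end Pool.Agent.Helper342.RV.D3
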