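import Mathlib

/-!
Kernel functions for the Reuleaux triangle of side `1` (arc length `th = π/3` of each side).
-/

namespace Pool.Agent.Helper342.RV

open Real

/-- arc length of a side -/
noncomputable def th : ℝ := Real.pi / 3

/-- Squared distance between the point at arc distance `u` from a vertex on one side and the point
at arc distance `w` from the same vertex on the adjacent side. -/
noncomputable def DD (u w : ℝ) : ℝ := 3 - 2 * cos (th - u) - 2 * cos (th - w) - 2 * cos (th + u + w)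

/-- the distance -/
noncomputable def dd (u w : ℝ) : ℝ := √(DD u w)

/-- its derivative in `w` -/
noncomputable def de (u w : ℝ) : ℝ := (sin (th + u + w) - sin (th - w)) / dd u w

/-- `kn = dd'' + dd/4` -/
noncomputable def kn (u w : ℝ) : ℝ := (2 * cos (th - u) - 1) ^ 2 / (4 * dd u w ^ 3)

/-- averaged kernel: average of the distances of the six images of the point with parameter `s` to
the point with parameter `r` (`s, r ∈ [0, th]`) -/
noncomputable def K (s r : ℝ) : ℝ :=
  (2 * |sin ((r - s) / 2)| + 2 * |sin ((r - (th - s)) / 2)| + dd s r + dd (th - s) r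
    + dd s (th - r) + dd (th - s) (th - r)) / 6

/-- (symmetric) derivative of `K s r` in `r` -/
noncomputable def K1 (s r : ℝ) : ℝ :=
  (Real.sign (r - s) * cos ((r - s) / 2) + Real.sign (r - (th - s)) * cos ((r - (th - s)) / 2)
    + de s r + de (th - s) r - de s (th - r) - de (th - s) (th - r)) / 6

/-- off-side part of `K'' + K/4` -/
noncomputable def PK (s t : ℝ) : ℝ :=
  (kn s t + kn (th - s) t + kn s (th - t) + kn (th - s) (th - t)) / 6

/-- distance from the source `x` (side `x.1`, parameter `x.2`) to the point of side `j` with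
parameter `r`; the end of side `j` is the start of side `j+1` -/
noncomputable def dK (x : Fin 3 × ℝ) (j : Fin 3) (r : ℝ) : ℝ :=
  if x.1 = j then 2 * |sin ((r - x.2) / 2)|
  else if x.1 = j + 1 then dd x.2 (th - r) else dd (th - x.2) r

/-- symmetric derivative in `r` -/
noncomputable def eK (x : Fin 3 × ℝ) (j : Fin 3) (r : ℝ) : ℝ :=
  if x.1 = j then Real.sign (r - x.2) * cos ((r - x.2) / 2)
  else if x.1 = j + 1 then -de x.2 (th - r) else de (th - x.2) r

/-- off-side density kernel -/
noncomputable def kK (x : Fin 3 × ℝ) (j : Fin 3) (t : ℝ) : ℝ :=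
  if x.1 = j then 0
  else if x.1 = j + 1 then kn x.2 (th - t) else kn (th - x.2) t

/-- potential of a measure of sources -/
noncomputable def U (μ : MeasureTheory.Measure ℝ) (r : ℝ) : ℝ := ∫ s, K s r ∂μ

/-- its (symmetric) derivative -/
noncomputable def U1 (μ : MeasureTheory.Measure ℝ) (r : ℝ) : ℝ := ∫ s, K1 s r ∂μ

noncomputable def PP (μ : MeasureTheory.Measure ℝ) (t : ℝ) : ℝ := ∫ s, PK s t ∂μ

/-- off-side density operator -/
noncomputable def Pj (s0 z : ℝ) (m0 m1 : Fin 3 → ℝ) (H : Fin 3 → ℝ → ℝ) (j : Fin 3) (t : ℝ) : ℝ :=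
  m0 (j + 2) * kn (th - z) t + m1 (j + 2) * kn z t
    + (∫ u in s0..(th - s0), H (j + 2) u * kn (th - u) t)
    + (m0 (j + 1) * kn z (th - t) + m1 (j + 1) * kn (th - z) (th - t)
    + ∫ u in s0..(th - s0), H (j + 1) u * kn u (th - t))

/-- admissible measures on the parameter space `Fin 3 × ℝ` -/
structure Adm (a s0 z : ℝ) (ν : MeasureTheory.Measure (Fin 3 × ℝ)) : Prop where
  prob : MeasureTheory.IsProbabilityMeasure ν
  supp : ∀ᵐ x ∂ν, x.2 ∈ Set.Ioo s0 (th - s0) ∨ x.2 = z ∨ x.2 = th - z
  pot : ∀ j, ∀ r ∈ Set.Icc s0 (th - s0), ∫ x, dK x j r ∂ν = a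
  vert : ∀ j, ∫ x, dK x j 0 ∂ν = a
  der : ∀ j, (∫ x, eK x j s0 ∂ν = 0) ∧ (∫ x, eK x j (th - s0) ∂ν = 0)

/-- cube root of unity -/
noncomputable def om : ℂ := ⟨-1 / 2, √3 / 2⟩

/-- the point of side `x.1` with parameter `x.2` of the Reuleaux triangle with vertices
`1 = pt (0,0)`, `1 + om = pt (1,0)`, `0 = pt (2,0)` -/
noncomputable def pt (x : Fin 3 × ℝ) : ℂ :=
  if x.1 = 0 then Complex.exp (x.2 * Complex.I)
  else if x.1 = 1 then 1 + om * Complex.exp (x.2 * Complex.I)
  else 1 + om + om ^ 2 * Complex.exp (x.2 * Complex.I)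

/-- the boundary of the Reuleaux triangle minus an open arc of side `0` (parameters) -/
def EJ (z1 z2 : ℝ) : Set (Fin 3 × ℝ) :=
  {x | x.2 ∈ Set.Icc 0 th ∧ ¬(x.1 = 0 ∧ x.2 ∈ Set.Ioo z1 z2)}

end Pool.Agent.Helper342.RV
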