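import Pool.Agent.Helper342.RV.Defs

namespace Pool.Agent.Helper342.RV.E1

open Real

















theorem aux_r : (1.73205 : ℝ) < √3 ∧ √3 < 1.7320509 ∧ √3 ^ 2 = 3 := by
  refine ⟨?_, ?_, Real.sq_sqrt (by norm_num)⟩
  · rw [Real.lt_sqrt (by norm_num)]; norm_num
  · rw [Real.sqrt_lt' (by norm_num)]; norm_num

theorem aux_cth : cos th = 1 / 2 := by unfold th; exact Real.cos_pi_div_three
theorem aux_sth : sin th = √3 / 2 := by unfold th; exact Real.sin_pi_div_three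
theorem aux_ch : cos (th / 2) = √3 / 2 := by
  have : th / 2 = Real.pi / 6 := by unfold th; ring
  rw [this, Real.cos_pi_div_six]
theorem aux_sh : sin (th / 2) = 1 / 2 := by
  have : th / 2 = Real.pi / 6 := by unfold th; ring
  rw [this, Real.sin_pi_div_six]

theorem aux_th_pos : 0 < th := by unfold th; positivity
theorem aux_th_lt : th < 1.0472 := by
  unfold th
  have := Real.pi_lt_d4
  linarith

theorem aux_half (u : ℝ) : cos u = 1 - 2 * sin (u / 2) ^ 2 := by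
  have h := Real.cos_two_mul (u / 2)
  have h2 := Real.sin_sq_add_cos_sq (u / 2)
  have h3 : 2 * (u / 2) = u := by ring
  rw [h3] at h
  linarith

theorem aux_half_sin (u : ℝ) : sin u = 2 * sin (u / 2) * cos (u / 2) := by
  have h := Real.sin_two_mul (u / 2)
  have h3 : 2 * (u / 2) = u := by ring
  rwa [h3] at h

theorem aux_sin_nonneg {u : ℝ} (h0 : 0 ≤ u) (h1 : u ≤ 1.0472) : 0 ≤ sin u :=
  Real.sin_nonneg_of_nonneg_of_le_pi h0 (by have := Real.pi_gt_three; linarith)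

theorem DD_zero (u : ℝ) : DD u 0 = (2 * sin (u / 2)) ^ 2 := by
  unfold DD
  rw [sub_zero, add_zero, Real.cos_sub, Real.cos_add, aux_cth, aux_sth, aux_half u]
  ring

theorem DD_th (u : ℝ) : DD u th = 1 := by
  unfold DD
  have e : th + u + th = (th + th) + u := by ring
  have h3 := aux_r.2.2
  rw [sub_self, Real.cos_zero, e, Real.cos_add (th + th) u, Real.cos_add th th,
    Real.sin_add th th, Real.cos_sub, aux_cth, aux_sth]
  linear_combination (1 / 2 * cos u) * h3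

theorem DD_h (u : ℝ) : DD u (th / 2) = 3 - √3 - cos u + (2 - √3) * sin u := by
  unfold DD
  have e1 : th - th / 2 = th / 2 := by ring
  have e2 : th + u + th / 2 = u + Real.pi / 2 := by unfold th; ring
  rw [e1, e2, Real.cos_add_pi_div_two, Real.cos_sub, aux_cth, aux_sth, aux_ch]
  ring

theorem dd_zero {u : ℝ} (h0 : 0 ≤ u) (h1 : u ≤ 2) : dd u 0 = 2 * sin (u / 2) := by
  unfold dd
  rw [DD_zero, Real.sqrt_sq]
  have := aux_sin_nonneg (u := u / 2) (by linarith) (by linarith)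
  linarith

theorem dd_th (u : ℝ) : dd u th = 1 := by
  unfold dd
  rw [DD_th, Real.sqrt_one]

theorem K_zero {s : ℝ} (hs : 0 ≤ s) (hs2 : s ≤ th / 2) :
    K s 0 = (4 * sin (s / 2) + 4 * sin ((th - s) / 2) + 2) / 6 := by
  have ht := aux_th_lt
  have ht0 := aux_th_pos
  unfold K
  have h1 := aux_sin_nonneg (u := s / 2) (by linarith) (by linarith)
  have h2 := aux_sin_nonneg (u := (th - s) / 2) (by linarith) (by linarith)
  have e1 : (0 - s) / 2 = -(s / 2) := by ring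
  have e2 : (0 - (th - s)) / 2 = -((th - s) / 2) := by ring
  rw [e1, e2, Real.sin_neg, Real.sin_neg, abs_neg, abs_neg, abs_of_nonneg h1, abs_of_nonneg h2,
    sub_zero, dd_th, dd_th, dd_zero hs (by linarith), dd_zero (by linarith) (by linarith)]
  ring

theorem K_half {s : ℝ} (hs : 0 ≤ s) (hs2 : s ≤ th / 2) :
    K s (th / 2) = (2 * sin ((th / 2 - s) / 2) + √(3 - √3 - cos s + (2 - √3) * sin s)
      + √(3 - √3 - (2 - √3) * cos s - sin s)) / 3 := by
  have ht := aux_th_lt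
  have ht0 := aux_th_pos
  unfold K
  have h1 := aux_sin_nonneg (u := (th / 2 - s) / 2) (by linarith) (by linarith)
  have e1 : (th / 2 - (th - s)) / 2 = -((th / 2 - s) / 2) := by ring
  have e2 : th - th / 2 = th / 2 := by ring
  have e3 : 3 - √3 - cos (th - s) + (2 - √3) * sin (th - s)
      = 3 - √3 - (2 - √3) * cos s - sin s := by
    have h3 := aux_r.2.2
    rw [Real.cos_sub, Real.sin_sub, aux_cth, aux_sth]
    linear_combination (-(1 / 2) * cos s) * h3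
  rw [e1, e2, Real.sin_neg, abs_neg, abs_of_nonneg h1]
  unfold dd
  rw [DD_h, DD_h, e3]
  ring

/-- numerical values for `q = sin (th/4)` and `p = cos (th/4)` -/
theorem aux_q : sin (th / 4) ^ 2 = (2 - √3) / 4 ∧ sin (th / 4) * cos (th / 4) = 1 / 4 ∧
    0.2588 < sin (th / 4) ∧ sin (th / 4) < 0.25882 ∧ 0.9659 < cos (th / 4) ∧
    cos (th / 4) < 0.966 := by
  have h1 := aux_half (th / 2)
  have h2 := aux_half_sin (th / 2)
  have e : th / 2 / 2 = th / 4 := by ring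
  rw [e, aux_ch] at h1
  rw [e, aux_sh] at h2
  have ht := aux_th_lt
  have ht0 := aux_th_pos
  have hq0 := aux_sin_nonneg (u := th / 4) (by linarith) (by linarith)
  have hp0 : 0 ≤ cos (th / 4) :=
    Real.cos_nonneg_of_neg_pi_div_two_le_of_le (by have := Real.pi_gt_three; linarith)
      (by have := Real.pi_gt_three; linarith)
  have hpq := Real.sin_sq_add_cos_sq (th / 4)
  obtain ⟨r1, r2, r3⟩ := aux_r
  have hq2 : sin (th / 4) ^ 2 = (2 - √3) / 4 := by linarith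
  have hp2 : cos (th / 4) ^ 2 = (2 + √3) / 4 := by linarith
  refine ⟨hq2, by linarith, ?_, ?_, ?_, ?_⟩
  · by_contra hcon
    rw [not_lt] at hcon
    nlinarith
  · by_contra hcon
    rw [not_lt] at hcon
    nlinarith
  · by_contra hcon
    rw [not_lt] at hcon
    nlinarith
  · by_contra hcon
    rw [not_lt] at hcon
    nlinarith

theorem K_zero_half : K 0 (th / 2) = (4 * sin (th / 4) + 1) / 3 := by
  have ht0 := aux_th_pos
  rw [K_half le_rfl (by linarith), sub_zero, Real.cos_zero, Real.sin_zero, mul_zero, add_zero,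
    mul_one, sub_zero]
  obtain ⟨hq2, -, hq, -⟩ := aux_q
  have e1 : 3 - √3 - 1 = (2 * sin (th / 4)) ^ 2 := by
    rw [mul_pow, hq2]
    ring
  have e2 : 3 - √3 - (2 - √3) = 1 := by ring
  have e3 : th / 2 / 2 = th / 4 := by ring
  rw [e1, e2, e3, Real.sqrt_one, Real.sqrt_sq (by linarith)]
  ring

/-- bounds for sine and cosine on `[0, th/4]` -/
theorem aux_sc {x : ℝ} (hx0 : 0 ≤ x) (hx1 : x ≤ 0.262) :
    x - 0.181 * x ^ 3 ≤ sin x ∧ sin x ≤ x ∧ 1 - 0.51 * x ^ 2 ≤ cos x ∧ cos x ≤ 1 - 0.49 * x ^ 2 := by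
  have h1 := Real.sin_bound (x := x) (by rw [abs_of_nonneg hx0]; linarith)
  have h2 := Real.cos_bound (x := x) (by rw [abs_of_nonneg hx0]; linarith)
  rw [abs_of_nonneg hx0, abs_le] at h1 h2
  have h3 : x ^ 4 ≤ 0.262 * x ^ 3 := by
    have : 0 ≤ x ^ 3 := by positivity
    nlinarith
  have h4 : x ^ 4 ≤ 0.0687 * x ^ 2 := by
    have h5 : x ^ 2 ≤ 0.0687 := by nlinarith
    have : 0 ≤ x ^ 2 := by positivity
    nlinarith
  refine ⟨?_, Real.sin_le hx0, ?_, ?_⟩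
  · have : 0 ≤ x ^ 3 := by positivity
    have h5 : x ^ 5 ≤ x ^ 3 := by
      refine pow_le_pow_of_le_one hx0 (by linarith) (by norm_num)
    linarith [h1.1]
  · have : 0 ≤ x ^ 2 := by positivity
    linarith [h2.1]
  · have : 0 ≤ x ^ 2 := by positivity
    linarith [h2.2]

/-- lower bound for the difference -/
theorem c_lower {s : ℝ} (hs : 0 ≤ s) (hs2 : s ≤ th / 2) :
    2.41416 * (s / 2) - 1.42038 * (s / 2) ^ 2 - 0.3497 * (s / 2) ^ 3
      ≤ 3 * (K 0 (th / 2) - K s (th / 2)) := by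
  have ht := aux_th_lt
  have ht0 := aux_th_pos
  rw [K_zero_half, K_half hs hs2]
  have e0 : (th / 2 - s) / 2 = th / 4 - s / 2 := by ring
  rw [e0, Real.sin_sub, aux_half s, aux_half_sin s]
  obtain ⟨hq2, hqp, hq1, hq3, hp1, hp2⟩ := aux_q
  obtain ⟨r1, r2, r3⟩ := aux_r
  obtain ⟨x, hx⟩ : ∃ x, x = s / 2 := ⟨_, rfl⟩
  have hx0 : 0 ≤ x := by rw [hx]; linarith
  have hx1 : x ≤ 0.262 := by rw [hx]; linarith
  rw [← hx]
  obtain ⟨s1, s2, c1, c2⟩ := aux_sc hx0 hx1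
  have hsc := Real.sin_sq_add_cos_sq x
  obtain ⟨S, hS⟩ : ∃ S, S = sin x := ⟨_, rfl⟩
  obtain ⟨C, hC⟩ : ∃ C, C = cos x := ⟨_, rfl⟩
  obtain ⟨q, hq⟩ : ∃ q, q = sin (th / 4) := ⟨_, rfl⟩
  obtain ⟨p, hp⟩ : ∃ p, p = cos (th / 4) := ⟨_, rfl⟩
  obtain ⟨r, hr⟩ : ∃ r, r = √3 := ⟨_, rfl⟩
  rw [← hS, ← hC] at hsc
  rw [← hS] at s1 s2
  rw [← hC] at c1 c2
  rw [← hq] at hq2 hqp hq1 hq3
  rw [← hp] at hp1 hp2 hqp
  rw [← hr] at r1 r2 r3 hq2
  rw [← hS, ← hC, ← hq, ← hp, ← hr]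
  have hx2 : 0 ≤ x ^ 2 := by positivity
  have hx3 : 0 ≤ x ^ 3 := by positivity
  have hS0 : 0 ≤ S := by nlinarith
  have hC0 : 0 ≤ C := by nlinarith
  have hC1 : C ≤ 1 := by nlinarith
  have hX : √(3 - r - (1 - 2 * S ^ 2) + (2 - r) * (2 * S * C)) ≤ 2 * q + 2 * q * x + 1.674 * x ^ 2 := by
    rw [Real.sqrt_le_left (by positivity)]
    have a1 : S ^ 2 ≤ x ^ 2 := pow_le_pow_left₀ hS0 s2 2
    have a2 : S * C ≤ x := by nlinarith
    have a3 : 2 - r = 4 * q ^ 2 := by rw [hq2]; ring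
    have a4 : 0 ≤ 2 - r := by linarith
    have a5 : 3 - r - (1 - 2 * S ^ 2) + (2 - r) * (2 * S * C) ≤ (2 - r) + 2 * x ^ 2 + (2 - r) * (2 * x) := by
      nlinarith
    refine a5.trans ?_
    rw [a3]
    have a6 : 2 ≤ 4 * q ^ 2 + 4 * q * 1.674 := by nlinarith
    have a7 : 0 ≤ x ^ 2 * (4 * q ^ 2 + 4 * q * 1.674 - 2) := mul_nonneg hx2 (by linarith)
    have a8 : 0 ≤ 4 * q * 1.674 * x ^ 3 + 1.674 ^ 2 * x ^ 4 := by positivity
    nlinarith
  have hY : √(3 - r - (2 - r) * (1 - 2 * S ^ 2) - 2 * S * C) ≤ 1 - x := by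
    rw [Real.sqrt_le_left (by linarith)]
    have a1 : S ^ 2 ≤ x ^ 2 := pow_le_pow_left₀ hS0 s2 2
    have a2 : (x - 0.181 * x ^ 3) * (1 - 0.51 * x ^ 2) ≤ S * C := by
      refine mul_le_mul s1 c1 ?_ hS0
      nlinarith
    have a3 : 0 ≤ x ^ 5 := by positivity
    have a4 : x - 0.691 * x ^ 3 ≤ S * C := by nlinarith
    have a5 : (2 - r) * S ^ 2 ≤ 0.26795 * x ^ 2 := by nlinarith
    have a6 : x ^ 3 ≤ 0.262 * x ^ 2 := by nlinarith
    nlinarith
  have hfin : 2.41416 * x - 1.42038 * x ^ 2 - 0.3497 * x ^ 3 ≤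
      2 * q * (1 - C) + 2 * p * S - 2 * q * x + x - 1.674 * x ^ 2 := by
    have b1 : 2 * 0.2588 * (0.49 * x ^ 2) ≤ 2 * q * (1 - C) := by
      have : 0.49 * x ^ 2 ≤ 1 - C := by linarith
      nlinarith
    have b2 : 2 * 0.9659 * (x - 0.181 * x ^ 3) ≤ 2 * p * S := by
      have : 0 ≤ x - 0.181 * x ^ 3 := by nlinarith
      nlinarith
    have b3 : 2 * q * x ≤ 2 * 0.25882 * x := by nlinarith
    nlinarith
  linarith

theorem numF0 : 6784 / 10000 ≤ K 0 (th / 2) ∧ K 0 (th / 2) ≤ 67843 / 100000 ∧ K 0 0 = 2 / 3 := by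
  obtain ⟨hq2, hqp, hq1, hq3, hp1, hp2⟩ := aux_q
  rw [K_zero_half]
  refine ⟨by linarith, by linarith, ?_⟩
  have ht0 := aux_th_pos
  rw [K_zero le_rfl (by linarith), zero_div, sub_zero, Real.sin_zero, aux_sh]
  norm_num

theorem numF1 {s : ℝ} (hs : 0 ≤ s) (hs2 : s ≤ th / 2) :
    K s 0 - 2 / 3 ≤ (115 / 1000) * (K 0 (th / 2) - K s (th / 2)) := by
  have ht := aux_th_lt
  have ht0 := aux_th_pos
  have hc := c_lower hs hs2
  have hb : 3 * (K s 0 - 2 / 3) = (cos (s / 2) - 1) + (2 - √3) * sin (s / 2) := by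
    rw [K_zero hs hs2]
    have e : (th - s) / 2 = th / 2 - s / 2 := by ring
    rw [e, Real.sin_sub, aux_ch, aux_sh]
    ring
  obtain ⟨x, hx⟩ : ∃ x, x = s / 2 := ⟨_, rfl⟩
  have hx0 : 0 ≤ x := by rw [hx]; linarith
  have hx1 : x ≤ 0.262 := by rw [hx]; linarith
  rw [← hx] at hc hb
  obtain ⟨s1, s2, c1, c2⟩ := aux_sc hx0 hx1
  obtain ⟨r1, r2, r3⟩ := aux_r
  have hS0 : 0 ≤ sin x := aux_sin_nonneg hx0 (by linarith)
  have hb2 : (cos x - 1) + (2 - √3) * sin x ≤ 0.26795 * x - 0.49 * x ^ 2 := by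
    have : (2 - √3) * sin x ≤ 0.26795 * x := by nlinarith
    linarith
  have hx2 : 0 ≤ x ^ 2 := by positivity
  have h6 : x ^ 3 ≤ 0.262 * x ^ 2 := by nlinarith
  nlinarith

theorem numF4 {s : ℝ} (hs : 1 / 4 ≤ s) (hs2 : s ≤ th / 2) :
    PK s 0 - 1 / 12 ≤ 6 * (K 0 (th / 2) - K s (th / 2)) := by
  have ht := aux_th_lt
  have ht0 := aux_th_pos
  have hs0 : 0 ≤ s := by linarith
  have hc := c_lower hs0 hs2
  have hkn1 : kn s 0 = (2 * cos (th - s) - 1) ^ 2 / (4 * (2 * sin (s / 2)) ^ 3) := by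
    unfold kn
    rw [dd_zero hs0 (by linarith)]
  have hkn2 : kn (th - s) 0 = (2 * cos s - 1) ^ 2 / (4 * (2 * sin ((th - s) / 2)) ^ 3) := by
    unfold kn
    rw [dd_zero (by linarith) (by linarith)]
    have : th - (th - s) = s := by ring
    rw [this]
  have hkn3 : kn s th = (2 * cos (th - s) - 1) ^ 2 / 4 := by
    unfold kn
    rw [dd_th]
    norm_num
  have hkn4 : kn (th - s) th = (2 * cos s - 1) ^ 2 / 4 := by
    unfold kn
    rw [dd_th]
    have : th - (th - s) = s := by ring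
    rw [this]
    norm_num
  have hU : (2 * cos (th - s) - 1) ^ 2 + (2 * cos s - 1) ^ 2 ≤ 1.072 := by
    obtain ⟨r1, r2, r3⟩ := aux_r
    have hU1 : √3 / 2 ≤ cos (th / 2 - s) := by
      rw [← aux_ch]
      exact Real.cos_le_cos_of_nonneg_of_le_pi (by linarith)
        (by have := Real.pi_gt_three; linarith) (by linarith)
    have hU2 : cos (th / 2 - s) ≤ 1 := Real.cos_le_one _
    have e1 : cos (th / 2 - s) = √3 / 2 * cos s + 1 / 2 * sin s := by
      rw [Real.cos_sub, aux_ch, aux_sh]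
    have hsc := Real.sin_sq_add_cos_sq s
    have e2 : (2 * cos (th - s) - 1) ^ 2 + (2 * cos s - 1) ^ 2
        = 1 + (2 * cos (th / 2 - s) - √3) ^ 2 := by
      rw [e1, Real.cos_sub, aux_cth, aux_sth]
      linear_combination (sin s ^ 2 - cos s ^ 2 - 1 + 2 * cos s) * r3 + 2 * hsc
    rw [e2]
    nlinarith
  have hx1' : s / 2 ≤ th / 4 := by linarith
  have hS1 : sin (s / 2) ≤ sin (th / 4) :=
    Real.sin_le_sin_of_le_of_le_pi_div_two (by have := Real.pi_gt_three; linarith)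
      (by have := Real.pi_gt_three; linarith) hx1'
  have hC1' : cos (th / 4) ≤ cos (s / 2) :=
    Real.cos_le_cos_of_nonneg_of_le_pi (by linarith) (by have := Real.pi_gt_three; linarith) hx1'
  have hss : sin s ≤ 1 / 2 := by
    rw [← aux_sh]
    exact Real.sin_le_sin_of_le_of_le_pi_div_two (by have := Real.pi_gt_three; linarith)
      (by have := Real.pi_gt_three; linarith) hs2
  have hsh := aux_half_sin s
  have hn : 2 * cos (th - s) - 1 = 2 * sin (s / 2) * (√3 * cos (s / 2) - sin (s / 2)) := by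
    rw [Real.cos_sub, aux_cth, aux_sth, aux_half s, hsh]
    ring
  have hscx := Real.sin_sq_add_cos_sq (s / 2)
  have hD : 2 * sin ((th - s) / 2) = cos (s / 2) - √3 * sin (s / 2) := by
    have e : (th - s) / 2 = th / 2 - s / 2 := by ring
    rw [e, Real.sin_sub, aux_ch, aux_sh]
    ring
  obtain ⟨r1, r2, r3⟩ := aux_r
  have hm : 2 * cos s - 1 = (cos (s / 2) - √3 * sin (s / 2)) * (cos (s / 2) + √3 * sin (s / 2)) := by
    rw [aux_half s]
    linear_combination (sin (s / 2) ^ 2) * r3 - hscx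
  unfold PK
  rw [sub_zero, hkn1, hkn2, hkn3, hkn4, hD]
  obtain ⟨hq2, hqp, hq1, hq3, hp1, hp2⟩ := aux_q
  obtain ⟨x, hx⟩ : ∃ x, x = s / 2 := ⟨_, rfl⟩
  have hx0 : 1 / 8 ≤ x := by rw [hx]; linarith
  have hx1 : x ≤ 0.262 := by rw [hx]; linarith
  rw [← hx] at hc hS1 hC1' hsh hn hscx hm ⊢
  obtain ⟨s1, s2, c1, c2⟩ := aux_sc (by linarith) hx1
  obtain ⟨S, hS⟩ : ∃ S, S = sin x := ⟨_, rfl⟩
  obtain ⟨C, hC⟩ : ∃ C, C = cos x := ⟨_, rfl⟩
  rw [← hS, ← hC] at hn hscx hm hsh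
  rw [← hS] at s1 s2 hS1
  rw [← hC] at c1 c2 hC1'
  rw [← hS, ← hC]
  have hSl : 0.1246 ≤ S := by
    have : 0.1246 ≤ x - 0.181 * x ^ 3 := by
      nlinarith [mul_nonneg (sub_nonneg.2 hx0) (sub_nonneg.2 hx1), sq_nonneg x]
    linarith
  have hSu : S < 0.25882 := by linarith
  have hCl : 0.9659 < C := by linarith
  have hC1 : C ≤ 1 := by rw [hC]; exact Real.cos_le_one x
  obtain ⟨r, hr⟩ : ∃ r, r = √3 := ⟨_, rfl⟩
  rw [← hr] at r1 r2 r3 hn hm hq2
  rw [← hr]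
  have hCS : 0.5176 ≤ C - r * S := by
    have : r * S ≤ 1.7320509 * 0.25882 := mul_le_mul r2.le hSu.le (by linarith) (by norm_num)
    norm_num at this ⊢
    linarith
  have hSC : S * C ≤ 1 / 4 := by linarith
  -- the first term
  have t1 : (2 * cos (th - s) - 1) ^ 2 / (4 * (2 * S) ^ 3) ≤ 10.3 / 4 := by
    rw [hn]
    have e : (2 * S * (r * C - S)) ^ 2 / (4 * (2 * S) ^ 3) = (r * C - S) ^ 2 / (8 * S) := by
      have : S ≠ 0 := by linarith
      field_simp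
      ring
    rw [e, div_le_iff₀ (by linarith)]
    have e2 : (r * C - S) ^ 2 = 3 - 2 * r * (S * C) - 2 * S ^ 2 := by
      linear_combination (C ^ 2) * r3 + 3 * hscx
    rw [e2]
    have e3 : 0.1246 * 0.9659 ≤ S * C :=
      mul_le_mul hSl hCl.le (by norm_num) (by linarith)
    have e4 : 1.73205 * (0.1246 * 0.9659) ≤ r * (S * C) :=
      mul_le_mul r1.le e3 (by norm_num) (by linarith)
    have e5 : (0.1246 : ℝ) ^ 2 ≤ S ^ 2 := pow_le_pow_left₀ (by norm_num) hSl 2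
    norm_num at e4 e5
    linarith
  have t2 : (2 * cos s - 1) ^ 2 / (4 * (C - r * S) ^ 3) ≤ 3.87 / 4 := by
    rw [hm]
    have h0 : 0 < C - r * S := by linarith
    have e : ((C - r * S) * (C + r * S)) ^ 2 / (4 * (C - r * S) ^ 3)
        = (C + r * S) ^ 2 / (4 * (C - r * S)) := by
      have : C - r * S ≠ 0 := h0.ne'
      field_simp
    rw [e, div_le_iff₀ (by linarith)]
    have e2 : (C + r * S) ^ 2 = 1 + 2 * r * (S * C) + 2 * S ^ 2 := by
      linear_combination (S ^ 2) * r3 + hscx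
    have e3 : S ^ 2 ≤ (2 - r) / 4 := by
      rw [← hq2]
      exact pow_le_pow_left₀ (by linarith) hS1 2
    rw [e2]
    have e4 : r * (S * C) ≤ r * (1 / 4) := mul_le_mul_of_nonneg_left hSC (by linarith)
    linarith
  have hL : 0.2788 ≤ 2.41416 * x - 1.42038 * x ^ 2 - 0.3497 * x ^ 3 := by
    nlinarith [mul_nonneg (sub_nonneg.2 hx0) (sub_nonneg.2 hx1), sq_nonneg x]
  linarith

end Pool.Agent.Helper342.RV.E1
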