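import Pool.Agent.Helper342.RV.Defs

namespace Pool.Agent.Helper342.RV.E2

open Real

















theorem num_DD0 (w : ℝ) : DD 0 w = (2 * sin (w / 2)) ^ 2 := by
  unfold DD th
  have h1 : cos (π / 3 - 0) = 1 / 2 := by rw [sub_zero, Real.cos_pi_div_three]
  have h2 : cos (π / 3 - w) = 1 / 2 * cos w + sin (π / 3) * sin w := by
    rw [Real.cos_sub, Real.cos_pi_div_three]
  have h3 : cos (π / 3 + 0 + w) = 1 / 2 * cos w - sin (π / 3) * sin w := by
    rw [add_zero, Real.cos_add, Real.cos_pi_div_three]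
  have h4 : cos w = 1 - 2 * sin (w / 2) ^ 2 := by
    have h5 := Real.cos_two_mul (w / 2)
    rw [show 2 * (w / 2) = w by ring] at h5
    have h6 := Real.sin_sq_add_cos_sq (w / 2)
    linarith
  rw [h1, h2, h3, h4]
  ring

theorem num_DDth (w : ℝ) : DD th w = 1 := by
  unfold DD th
  have h1 : cos (π / 3 + π / 3 + w) = - cos (π / 3 - w) := by
    rw [← Real.cos_pi_sub]
    congr 1
    ring
  rw [h1, sub_self, Real.cos_zero]
  ring

theorem num_dd0 {w : ℝ} (h0 : 0 ≤ w) (h1 : w ≤ th) : dd 0 w = 2 * sin (w / 2) := by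
  unfold dd
  rw [num_DD0]
  apply Real.sqrt_sq
  have : 0 ≤ sin (w / 2) := by
    apply Real.sin_nonneg_of_nonneg_of_le_pi
    · linarith
    · unfold th at h1
      have := Real.pi_pos
      linarith
  linarith

theorem num_ddth (w : ℝ) : dd th w = 1 := by
  unfold dd
  rw [num_DDth, Real.sqrt_one]

theorem num_th_pos : 0 < th := by
  unfold th
  have := Real.pi_pos
  positivity

theorem num_K0 {r : ℝ} (hr : 0 ≤ r) (hr2 : r ≤ th / 2) :
    K 0 r = (4 / 3) * (sin (π / 12) * cos ((th / 2 - r) / 2)) + 1 / 3 := by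
  have hth := num_th_pos
  have hthpi : th ≤ π := by unfold th; have := Real.pi_pos; linarith
  have e1 : |sin ((r - 0) / 2)| = sin (r / 2) := by
    rw [sub_zero]
    apply abs_of_nonneg
    apply Real.sin_nonneg_of_nonneg_of_le_pi <;> linarith
  have e2 : |sin ((r - (th - 0)) / 2)| = sin ((th - r) / 2) := by
    rw [sub_zero, show (r - th) / 2 = -((th - r) / 2) by ring, Real.sin_neg, abs_neg]
    apply abs_of_nonneg
    apply Real.sin_nonneg_of_nonneg_of_le_pi <;> linarith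
  unfold K
  rw [e1, e2, sub_zero, num_ddth, num_ddth, num_dd0 hr (by linarith),
    num_dd0 (by linarith) (by linarith)]
  have e3 : sin (r / 2) + sin ((th - r) / 2) = 2 * (sin (π / 12) * cos ((th / 2 - r) / 2)) := by
    have a1 : sin (r / 2) = sin (π / 12 - (th / 2 - r) / 2) := by
      congr 1
      unfold th
      ring
    have a2 : sin ((th - r) / 2) = sin (π / 12 + (th / 2 - r) / 2) := by
      congr 1
      unfold th
      ring
    rw [a1, a2, Real.sin_sub, Real.sin_add]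
    ring
  linear_combination (2 / 3) * e3

theorem num_Kh {r : ℝ} (hr : 0 ≤ r) (hr2 : r ≤ th / 2) :
    K (th / 2) r = (2 * sin ((th / 2 - r) / 2) + dd (th / 2) r + dd (th / 2) (th - r)) / 3 := by
  have hth := num_th_pos
  have hthpi : th ≤ π := by unfold th; have := Real.pi_pos; linarith
  have e1 : |sin ((r - th / 2) / 2)| = sin ((th / 2 - r) / 2) := by
    rw [show (r - th / 2) / 2 = -((th / 2 - r) / 2) by ring, Real.sin_neg, abs_neg]
    apply abs_of_nonneg
    apply Real.sin_nonneg_of_nonneg_of_le_pi <;> linarith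
  unfold K
  rw [show th - th / 2 = th / 2 by ring, e1]
  ring

theorem num_DDh1 (r : ℝ) : DD (th / 2) r =
    (3 - √3) - (√3 - 1) * (cos (th / 2 - r) + sin (th / 2 - r)) := by
  obtain ⟨x, hx⟩ : ∃ x, x = th / 2 - r := ⟨_, rfl⟩
  rw [← hx]
  have hr : r = π / 6 - x := by rw [hx]; unfold th; ring
  unfold DD th
  have e1 : cos (π / 3 - π / 3 / 2) = √3 / 2 := by
    rw [show π / 3 - π / 3 / 2 = π / 6 by ring, Real.cos_pi_div_six]
  have e2 : cos (π / 3 - r) = √3 / 2 * cos x - 1 / 2 * sin x := by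
    rw [hr, show π / 3 - (π / 6 - x) = π / 6 + x by ring, Real.cos_add, Real.cos_pi_div_six,
      Real.sin_pi_div_six]
  have e3 : cos (π / 3 + π / 3 / 2 + r) = -(1 / 2) * cos x + √3 / 2 * sin x := by
    rw [hr, show π / 3 + π / 3 / 2 + (π / 6 - x) = π - (π / 3 + x) by ring, Real.cos_pi_sub,
      Real.cos_add, Real.cos_pi_div_three, Real.sin_pi_div_three]
    ring
  rw [e1, e2, e3]
  ring

theorem num_DDh2 (r : ℝ) : DD (th / 2) (th - r) =
    (3 - √3) - (√3 - 1) * (cos (th / 2 - r) - sin (th / 2 - r)) := by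
  rw [num_DDh1, show th / 2 - (th - r) = -(th / 2 - r) by ring, Real.cos_neg, Real.sin_neg]
  ring

theorem num_sqrt3 : 1.73205 < √3 ∧ √3 < 1.732051 := by
  constructor
  · rw [Real.lt_sqrt (by norm_num)]; norm_num
  · rw [Real.sqrt_lt' (by norm_num)]; norm_num

theorem num_sin12 : 0.2588 ≤ sin (π / 12) ∧ sin (π / 12) ≤ 0.25882 := by
  have h0 : 0 ≤ sin (π / 12) := by
    have := Real.pi_pos
    apply Real.sin_nonneg_of_nonneg_of_le_pi <;> linarith
  have h1 : sin (π / 12) ^ 2 = (2 - √3) / 4 := by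
    have h2 := Real.cos_two_mul (π / 12)
    have h3 := Real.sin_sq_add_cos_sq (π / 12)
    rw [show 2 * (π / 12) = π / 6 by ring, Real.cos_pi_div_six] at h2
    linarith
  obtain ⟨a1, a2⟩ := num_sqrt3
  constructor
  · by_contra h
    rw [not_le] at h
    nlinarith
  · by_contra h
    rw [not_le] at h
    nlinarith

/-- the sum of the two distances -/
theorem num_S {r : ℝ} (hr : 0 ≤ r) (hr2 : r ≤ th / 2) :
    1.4515 + 0.239 * (th / 2 - r) ^ 2 ≤ dd (th / 2) r + dd (th / 2) (th - r) ∧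
    dd (th / 2) r + dd (th / 2) (th - r) ≤ 1.46412 + 0.5002 * (th / 2 - r) ^ 2 := by
  have hxh : th / 2 - r ≤ 0.5236 := by
    unfold th
    have := Real.pi_lt_d4
    linarith
  have hx0 : 0 ≤ th / 2 - r := by linarith
  unfold dd
  rw [num_DDh1, num_DDh2]
  generalize th / 2 - r = x at hxh hx0
  obtain ⟨a1, a2⟩ := num_sqrt3
  have h3 : √3 ^ 2 = 3 := Real.sq_sqrt (by norm_num)
  set q := √3 with hq
  set c := cos x with hc
  set s := sin x with hs
  have hcs : s ^ 2 + c ^ 2 = 1 := Real.sin_sq_add_cos_sq x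
  have hb := Real.cos_bound (x := x) (by rw [abs_of_nonneg hx0]; linarith)
  rw [abs_of_nonneg hx0, abs_le] at hb
  have hcl : 1 - x ^ 2 / 2 ≤ c := Real.one_sub_sq_div_two_le_cos
  have hcu : c ≤ 1 - x ^ 2 / 2 + x ^ 4 * (5 / 96) := by linarith [hb.2]
  have hs1 : c + s ≤ 1.4143 := by nlinarith [sq_nonneg (c - s)]
  have hs2 : c - s ≤ 1.4143 := by nlinarith [sq_nonneg (c + s)]
  have hD1 : 0 ≤ (3 - q) - (q - 1) * (c + s) := by nlinarith
  have hD2 : 0 ≤ (3 - q) - (q - 1) * (c - s) := by nlinarith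
  set d1 := √((3 - q) - (q - 1) * (c + s)) with hd1
  set d2 := √((3 - q) - (q - 1) * (c - s)) with hd2
  have e1 : d1 ^ 2 = (3 - q) - (q - 1) * (c + s) := Real.sq_sqrt hD1
  have e2 : d2 ^ 2 = (3 - q) - (q - 1) * (c - s) := Real.sq_sqrt hD2
  have p1 : 0 ≤ d1 := Real.sqrt_nonneg _
  have p2 : 0 ≤ d2 := Real.sqrt_nonneg _
  have e3 : (d1 * d2) ^ 2 = (8 - 4 * q) * ((c - q / 2) ^ 2 + 1 / 4) := by
    rw [mul_pow, e1, e2]
    have hs2' : s ^ 2 = 1 - c ^ 2 := by linarith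
    calc ((3 - q) - (q - 1) * (c + s)) * ((3 - q) - (q - 1) * (c - s))
        = ((3 - q) - (q - 1) * c) ^ 2 - (q - 1) ^ 2 * s ^ 2 := by ring
      _ = ((3 - q) - (q - 1) * c) ^ 2 - (q - 1) ^ 2 * (1 - c ^ 2) := by rw [hs2']
      _ = (8 - 4 * q) * ((c - q / 2) ^ 2 + 1 / 4) := by
          linear_combination (2 * c ^ 2 - 2 * c - 2 + q) * h3
  have e4 : 0.5176 ≤ d1 * d2 := by
    have p3 : 0 ≤ d1 * d2 := mul_nonneg p1 p2
    have h5 : (8 - 4 * q) * (1 / 4) ≤ (d1 * d2) ^ 2 := by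
      rw [e3]
      apply mul_le_mul_of_nonneg_left _ (by linarith)
      have := sq_nonneg (c - q / 2)
      linarith
    by_contra h
    rw [not_le] at h
    have h6 : (d1 * d2) ^ 2 < 0.5176 ^ 2 := pow_lt_pow_left₀ h p3 (by norm_num)
    linarith
  have hx2 : x ^ 2 ≤ 0.27416 := by nlinarith only [hx0, hxh]
  have hx20 : 0 ≤ x ^ 2 := sq_nonneg x
  constructor
  · by_contra h
    rw [not_le] at h
    have h5 : (d1 + d2) ^ 2 < (1.4515 + 0.239 * x ^ 2) ^ 2 := by
      apply pow_lt_pow_left₀ h (by linarith) (by norm_num)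
    have h6 : (d1 + d2) ^ 2 = 2 * (3 - q) - 2 * (q - 1) * c + 2 * (d1 * d2) := by
      rw [add_sq, e1, e2]
      ring
    rw [h6] at h5
    have h7 : (q - 1) * c ≤ (q - 1) * (1 - x ^ 2 / 2 + x ^ 4 * (5 / 96)) :=
      mul_le_mul_of_nonneg_left hcu (by linarith)
    have hx4 : x ^ 4 ≤ 0.27416 * x ^ 2 := by nlinarith only [hx2, hx20]
    have hx40 : 0 ≤ x ^ 4 := by positivity
    have k1 : 0 ≤ (q - 1.73205) * x ^ 2 := mul_nonneg (by linarith) hx20
    have k2 : 0 ≤ (1.732051 - q) * x ^ 4 := mul_nonneg (by linarith) hx40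
    linarith
  · by_contra h
    rw [not_le] at h
    have h5 : (1.46412 + 0.5002 * x ^ 2) ^ 2 < (d1 + d2) ^ 2 := by
      apply pow_lt_pow_left₀ h (by positivity) (by norm_num)
    have h6 : (d1 + d2) ^ 2 ≤ 4 * ((3 - q) - (q - 1) * c) := by
      have k0 := sq_nonneg (d1 - d2)
      linarith
    have h7 : (q - 1) * (1 - x ^ 2 / 2) ≤ (q - 1) * c :=
      mul_le_mul_of_nonneg_left hcl (by linarith)
    have k1 : 0 ≤ (1.732051 - q) * x ^ 2 := mul_nonneg (by linarith) hx20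
    have k2 : 0 ≤ x ^ 4 := by positivity
    linarith

theorem num_x {r : ℝ} (hr : 0 ≤ r) (hr2 : r ≤ th / 2) :
    0 ≤ th / 2 - r ∧ th / 2 - r ≤ 0.5236 := by
  constructor
  · linarith
  · unfold th
    have := Real.pi_lt_d4
    linarith

theorem numF2 {r : ℝ} (hr : 0 ≤ r) (hr2 : r ≤ th / 2) :
    6671 / 10000 ≤ (945 / 1000) * K 0 r + (55 / 1000) * K (th / 2) r := by
  rw [num_K0 hr hr2, num_Kh hr hr2]
  have hS := (num_S hr hr2).1
  obtain ⟨hx0, hxh⟩ := num_x hr hr2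
  generalize dd (th / 2) r = A at hS
  generalize dd (th / 2) (th - r) = B at hS
  generalize th / 2 - r = x at hS hx0 hxh
  have h1 := num_sin12.1
  have h2 : 1 - (x / 2) ^ 2 / 2 ≤ cos (x / 2) := Real.one_sub_sq_div_two_le_cos
  have h3 := (abs_le.1 (Real.sin_bound (x := x / 2) (by
    rw [abs_of_nonneg (by linarith)]; linarith))).1
  rw [abs_of_nonneg (by linarith : 0 ≤ x / 2)] at h3
  have h4 : 0.2588 * (1 - (x / 2) ^ 2 / 2) ≤ sin (π / 12) * cos (x / 2) :=
    mul_le_mul h1 h2 (by nlinarith only [hx0, hxh]) (by linarith)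
  have h5 : x ^ 2 ≤ 0.5236 * x := by nlinarith only [hx0, hxh]
  have h6 : x ^ 3 ≤ 0.5236 * x ^ 2 := by nlinarith only [sq_nonneg x, hxh]
  have h7 : x ^ 4 ≤ 0.5236 * x ^ 3 := by nlinarith only [pow_nonneg hx0 3, hxh]
  have h8 : x ^ 5 ≤ 0.5236 * x ^ 4 := by nlinarith only [pow_nonneg hx0 4, hxh]
  linarith

theorem numF3 {r : ℝ} (hr : 0 ≤ r) (hr2 : r ≤ th / 2) :
    (93 / 100) * K 0 r + (7 / 100) * K (th / 2) r ≤ 67 / 100 := by
  rw [num_K0 hr hr2, num_Kh hr hr2]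
  have hS := (num_S hr hr2).2
  obtain ⟨hx0, hxh⟩ := num_x hr hr2
  generalize dd (th / 2) r = A at hS
  generalize dd (th / 2) (th - r) = B at hS
  generalize th / 2 - r = x at hS hx0 hxh
  have h1 := num_sin12.2
  have h0 := num_sin12.1
  have h2 := (abs_le.1 (Real.cos_bound (x := x / 2) (by
    rw [abs_of_nonneg (by linarith)]; linarith))).2
  rw [abs_of_nonneg (by linarith : 0 ≤ x / 2)] at h2
  have h3 : sin (x / 2) ≤ x / 2 := Real.sin_le (by linarith)
  have h5 : x ^ 2 ≤ 0.5236 * x := by nlinarith only [hx0, hxh]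
  have h6 : x ^ 3 ≤ 0.5236 * x ^ 2 := by nlinarith only [sq_nonneg x, hxh]
  have h7 : x ^ 4 ≤ 0.5236 * x ^ 3 := by nlinarith only [pow_nonneg hx0 3, hxh]
  have hc : 1 - (x / 2) ^ 2 / 2 ≤ cos (x / 2) := Real.one_sub_sq_div_two_le_cos
  have hc0 : 0 ≤ cos (x / 2) := by
    have : 0 ≤ 1 - (x / 2) ^ 2 / 2 := by nlinarith only [hx0, hxh]
    linarith
  have h4 : sin (π / 12) * cos (x / 2) ≤
      0.25882 * (1 - (x / 2) ^ 2 / 2 + (x / 2) ^ 4 * (5 / 96)) :=
    mul_le_mul h1 (by linarith) hc0 (by norm_num)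
  have h8 := sq_nonneg (x - 0.4143)
  linarith

end Pool.Agent.Helper342.RV.E2
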