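import Pool.Agent.Helper342.RV.Defs

namespace Pool.Agent.Helper342.RV.F1

open MeasureTheory

theorem em_multiset {Ω : Type*} (f : Ω → Ω → ℝ) (c : ℝ)
    (h : ∀ (n : ℕ) (x : Fin n → Ω), 1 ≤ n → ∃ y, (1 / (n : ℝ)) * ∑ i, f (x i) y ≤ c)
    (s : Multiset Ω) (hs : 1 ≤ Multiset.card s) :
    ∃ y, (s.map (fun x => f x y)).sum ≤ c * (Multiset.card s : ℝ) := by
  obtain ⟨l, rfl⟩ : ∃ l : List Ω, (l : Multiset Ω) = s := Quot.exists_rep s
  have hl : 1 ≤ l.length := hs
  obtain ⟨y, hy⟩ := h l.length (fun i => l[i]) hl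
  refine ⟨y, ?_⟩
  have h1 : ∑ i : Fin l.length, f (l[i]) y = (l.map (fun x => f x y)).sum :=
    Fin.sum_univ_fun_getElem l (fun x => f x y)
  have h2 : ((l : Multiset Ω).map (fun x => f x y)).sum = (l.map (fun x => f x y)).sum := by
    simp
  have h3 : Multiset.card (l : Multiset Ω) = l.length := rfl
  rw [h2, h3, ← h1]
  have hpos : (0 : ℝ) < l.length := by exact_mod_cast hl
  rw [one_div, inv_mul_le_iff₀ hpos] at hy
  linarith

/-- finite case -/
theorem em_finite {Ω : Type*} [MetricSpace Ω] [CompactSpace Ω] [Nonempty Ω]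
    [MeasurableSpace Ω] [BorelSpace Ω] (f : Ω → Ω → ℝ)
    (hf : Continuous (fun p : Ω × Ω => f p.1 p.2)) (c : ℝ)
    (h : ∀ (n : ℕ) (x : Fin n → Ω), 1 ≤ n → ∃ y, (1 / (n : ℝ)) * ∑ i, f (x i) y ≤ c)
    (F : Finset Ω) (ε : ℝ) (hε : 0 < ε) :
    ∃ ν : ProbabilityMeasure Ω, ∀ x ∈ F, ∫ y, f x y ∂(ν : Measure Ω) ≤ c + ε := by
  classical
  have hfx : ∀ x, Continuous (f x) := fun x => hf.comp (by fun_prop : Continuous fun y => (x, y))
  obtain ⟨B, hB⟩ := isCompact_univ.exists_bound_of_continuousOn (f := fun p : Ω × Ω => f p.1 p.2) hf.continuousOn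
  have hB' : ∀ x y, |f x y| ≤ B := fun x y => hB (x, y) (Set.mem_univ _)
  have hint : ∀ (x : Ω) (μ : Measure Ω) [IsFiniteMeasure μ], Integrable (f x) μ := by
    intro x μ _
    exact (integrable_const B).mono' (hfx x).aestronglyMeasurable (Filter.Eventually.of_forall (fun y => hB' x y))
  let T : Set (F → ℝ) := {v | ∀ i, v i < c + ε}
  let C : Set (F → ℝ) := {v | ∃ ν : ProbabilityMeasure Ω, ∀ i : F, v i = ∫ y, f i y ∂(ν : Measure Ω)}
  by_contra hno
  push Not at hno
  have hdisj : Disjoint T C := by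
    rw [Set.disjoint_left]
    rintro v hv ⟨ν, hν⟩
    obtain ⟨x, hx, hlt⟩ := hno ν
    have h1 := hv ⟨x, hx⟩
    rw [hν ⟨x, hx⟩] at h1
    linarith
  have hTconv : Convex ℝ T := by
    intro u hu v hv a b ha hb hab i
    have h1 := hu i
    have h2 := hv i
    simp only [Pi.add_apply, Pi.smul_apply, smul_eq_mul]
    have hb' : b = 1 - a := by linarith
    subst hb'
    rcases eq_or_lt_of_le ha with h0 | h0
    · subst h0; simpa using h2
    · nlinarith
  have hTopen : IsOpen T := by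
    have : T = ⋂ i : F, {v : F → ℝ | v i < c + ε} := by ext v; simp [T]
    rw [this]
    exact isOpen_iInter_of_finite (fun i => isOpen_lt (continuous_apply i) continuous_const)
  have hCconv : Convex ℝ C := by
    rintro u ⟨ν, hν⟩ v ⟨ρ, hρ⟩ a b ha hb hab
    have hprob : IsProbabilityMeasure (ENNReal.ofReal a • (ν : Measure Ω) + ENNReal.ofReal b • (ρ : Measure Ω)) := by
      constructor
      simp only [Measure.coe_add, Measure.coe_smul, Pi.add_apply, Pi.smul_apply, measure_univ, smul_eq_mul, mul_one]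
      rw [← ENNReal.ofReal_add ha hb, hab, ENNReal.ofReal_one]
    refine ⟨⟨_, hprob⟩, ?_⟩
    intro i
    simp only [ProbabilityMeasure.coe_mk, Pi.add_apply, Pi.smul_apply, smul_eq_mul]
    rw [integral_add_measure, integral_smul_measure, integral_smul_measure, ENNReal.toReal_ofReal ha,
      ENNReal.toReal_ofReal hb, hν, hρ]
    · rfl
    · exact (hint i _).smul_measure ENNReal.ofReal_ne_top
    · exact (hint i _).smul_measure ENNReal.ofReal_ne_top
  obtain ⟨L, u, hL1, hL2⟩ := geometric_hahn_banach_open hTconv hTopen hCconv hdisj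
  obtain ⟨q, hq⟩ : ∃ q : F → ℝ, q = fun i => L (Pi.single i 1) := ⟨_, rfl⟩
  have hLq : ∀ v : F → ℝ, L v = ∑ i, v i * q i := by
    intro v
    have := LinearMap.pi_apply_eq_sum_univ (L : (F → ℝ) →ₗ[ℝ] ℝ) v
    simp only [ContinuousLinearMap.coe_coe, smul_eq_mul] at this
    rw [this, hq]
    apply Finset.sum_congr rfl
    intro i _
    congr 2
    ext j
    simp [Pi.single_apply, eq_comm]
  have hdir : ∀ y : Ω, (fun i : F => f i y) ∈ C := by
    intro y
    refine ⟨⟨Measure.dirac y, inferInstance⟩, ?_⟩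
    intro i
    simp
  have hcT : (fun _ : F => c) ∈ T := fun i => by change c < c + ε; linarith
  have hq0 : ∀ i, 0 ≤ q i := by
    intro i
    by_contra hneg
    push Not at hneg
    obtain ⟨t, ht⟩ : ∃ t : ℝ, t = (u - L (fun _ => c)) / (- q i) := ⟨_, rfl⟩
    have h1 := hL1 _ hcT
    have ht0 : 0 ≤ t := by
      rw [ht]; exact div_nonneg (by linarith) (by linarith)
    have hvT : (fun _ : F => c) - t • (Pi.single i 1 : F → ℝ) ∈ T := by
      intro j
      simp only [Pi.sub_apply, Pi.smul_apply, smul_eq_mul]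
      have : 0 ≤ (Pi.single i 1 : F → ℝ) j := by
        by_cases hj : j = i
        · subst hj; simp
        · simp [hj]
      have := mul_nonneg ht0 this
      linarith
    have h2 := hL1 _ hvT
    rw [map_sub, map_smul, smul_eq_mul] at h2
    have h3 : L (Pi.single i 1) = q i := by rw [hq]
    rw [h3] at h2
    have h4 : t * q i = -(u - L (fun _ => c)) := by
      rw [ht, div_mul_eq_mul_div, div_eq_iff (by linarith)]
      ring
    linarith
  obtain ⟨y0⟩ := (inferInstance : Nonempty Ω)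
  obtain ⟨Q, hQ⟩ : ∃ Q, Q = ∑ i, q i := ⟨_, rfl⟩
  have hLow : ∀ y, Q * (c + ε / 2) < ∑ i : F, f i y * q i := by
    intro y
    have h1 := hL1 (fun _ : F => c + ε / 2) (fun i => by change c + ε / 2 < c + ε; linarith)
    have h2 := hL2 _ (hdir y)
    rw [hLq] at h1 h2
    rw [hQ, Finset.sum_mul]
    have h3 : ∑ i : F, (c + ε / 2) * q i = ∑ i : F, q i * (c + ε / 2) :=
      Finset.sum_congr rfl (fun i _ => mul_comm _ _)
    rw [← h3]
    linarith
  have hQpos : 0 < Q := by
    rcases eq_or_lt_of_le (show 0 ≤ Q by rw [hQ]; exact Finset.sum_nonneg (fun i _ => hq0 i)) with h0 | h0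
    · exfalso
      have h1 := hLow y0
      rw [← h0] at h1
      have h2 : ∀ i, q i = 0 := by
        intro i
        have := (Finset.sum_eq_zero_iff_of_nonneg (s := Finset.univ) (fun i _ => hq0 i)).1 (by rw [← hQ, ← h0])
        exact this i (Finset.mem_univ i)
      simp [h2] at h1
    · exact h0
  -- integer weights
  have hB0 : 0 ≤ B := le_trans (abs_nonneg _) (hB' y0 y0)
  obtain ⟨n, hn⟩ := exists_nat_gt ((F.card : ℝ) * (B + |c|) / (Q * (ε / 2)))
  obtain ⟨m, hm⟩ : ∃ m : F → ℕ, m = fun i => ⌊(n : ℝ) * q i⌋₊ + 1 := ⟨_, rfl⟩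
  have hm1 : ∀ i, (m i : ℝ) - n * q i ≤ 1 := by
    intro i
    have := Nat.floor_le (mul_nonneg (Nat.cast_nonneg n) (hq0 i))
    rw [hm]; push_cast; linarith
  have hm2 : ∀ i, 0 ≤ (m i : ℝ) - n * q i := by
    intro i
    have := Nat.lt_floor_add_one ((n : ℝ) * q i)
    rw [hm]; push_cast; linarith
  have hne : Nonempty F := by
    by_contra hc
    rw [not_nonempty_iff] at hc
    rw [hQ, Finset.univ_eq_empty, Finset.sum_empty] at hQpos
    exact lt_irrefl _ hQpos
  obtain ⟨i0⟩ := hne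
  obtain ⟨s, hs⟩ : ∃ s : Multiset Ω, s = ∑ i : F, m i • ({(i : Ω)} : Multiset Ω) := ⟨_, rfl⟩
  have hcard : Multiset.card s = ∑ i : F, m i := by
    have h1 : Multiset.card s = Multiset.cardHom s := rfl
    rw [h1, hs, map_sum]; simp
  have hscard : 1 ≤ Multiset.card s := by
    rw [hcard]
    calc 1 ≤ m i0 := by rw [hm]; exact Nat.le_add_left 1 _
      _ ≤ ∑ i : F, m i := Finset.single_le_sum (f := m) (fun i _ => Nat.zero_le _) (Finset.mem_univ i0)
  obtain ⟨y, hy⟩ := em_multiset f c h s hscard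
  have hsum : (s.map (fun x => f x y)).sum = ∑ i : F, (m i : ℝ) * f i y := by
    have h1 : (s.map (fun x => f x y)).sum =
        (Multiset.sumAddMonoidHom.comp (Multiset.mapAddMonoidHom (fun x => f x y))) s := rfl
    rw [h1, hs, map_sum]
    apply Finset.sum_congr rfl
    intro i _
    rw [map_nsmul]
    simp
  rw [hsum, hcard] at hy
  push_cast at hy
  rw [Finset.mul_sum] at hy
  have hy2 : ∑ i : F, (m i : ℝ) * (f i y - c) ≤ 0 := by
    have : ∑ i : F, (m i : ℝ) * (f i y - c) = ∑ i : F, (m i : ℝ) * f i y - ∑ i : F, c * (m i : ℝ) := by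
      rw [← Finset.sum_sub_distrib]
      exact Finset.sum_congr rfl (fun i _ => by ring)
    rw [this]; linarith
  have hy3 : ∑ i : F, (m i : ℝ) * (f i y - c) =
      n * (∑ i : F, f i y * q i - Q * c) + ∑ i : F, ((m i : ℝ) - n * q i) * (f i y - c) := by
    rw [hQ, Finset.sum_mul, ← Finset.sum_sub_distrib, Finset.mul_sum, ← Finset.sum_add_distrib]
    exact Finset.sum_congr rfl (fun i _ => by ring)
  have hy4 : -((F.card : ℝ) * (B + |c|)) ≤ ∑ i : F, ((m i : ℝ) - n * q i) * (f i y - c) := by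
    have : -((F.card : ℝ) * (B + |c|)) = ∑ i : F, (-(B + |c|)) := by
      rw [Finset.sum_const, Finset.card_univ, Fintype.card_coe, nsmul_eq_mul]; ring
    rw [this]
    apply Finset.sum_le_sum
    intro i _
    have h1 := hm1 i
    have h2 := hm2 i
    have h3 : |f i y - c| ≤ B + |c| := le_trans (abs_sub _ _) (by linarith [hB' i y])
    have h4 := neg_abs_le (f i y - c)
    have h5 : 0 ≤ |f i y - c| := abs_nonneg _
    nlinarith
  have hy5 := hLow y
  have hn0 : (0 : ℝ) ≤ n := Nat.cast_nonneg n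
  have hy6 : (n : ℝ) * (Q * (ε / 2)) ≤ n * (∑ i : F, f i y * q i - Q * c) := by
    apply mul_le_mul_of_nonneg_left _ hn0
    linarith
  rw [div_lt_iff₀ (by positivity)] at hn
  linarith

/-- Minimax existence of a minimising measure for a continuous kernel on a compact metric space. -/
theorem exists_min_measure {Ω : Type*} [MetricSpace Ω] [CompactSpace Ω] [Nonempty Ω]
    [MeasurableSpace Ω] [BorelSpace Ω] (f : Ω → Ω → ℝ)
    (hf : Continuous (fun p : Ω × Ω => f p.1 p.2)) (c : ℝ)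
    (h : ∀ (n : ℕ) (x : Fin n → Ω), 1 ≤ n → ∃ y, (1 / (n : ℝ)) * ∑ i, f (x i) y ≤ c) :
    ∃ ν : Measure Ω, IsProbabilityMeasure ν ∧ ∀ x, ∫ y, f x y ∂ν ≤ c := by
  classical
  have hfx : ∀ x, Continuous (f x) := fun x => hf.comp (by fun_prop : Continuous fun y => (x, y))
  let K : Ω × ℕ → Set (ProbabilityMeasure Ω) := fun p =>
    {ν | ∫ y, f p.1 y ∂(ν : Measure Ω) ≤ c + 1 / ((p.2 : ℝ) + 1)}
  have hK : ∀ p, IsClosed (K p) := by
    intro p
    have hcont : Continuous fun ν : ProbabilityMeasure Ω => ∫ y, f p.1 y ∂(ν : Measure Ω) :=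
      ProbabilityMeasure.continuous_integral_boundedContinuousFunction
        (BoundedContinuousFunction.mkOfCompact ⟨f p.1, hfx p.1⟩)
    exact isClosed_le hcont continuous_const
  have hfin : ∀ t : Finset (Ω × ℕ), (Set.univ ∩ ⋂ p ∈ t, K p).Nonempty := by
    intro t
    obtain ⟨k, hk⟩ : ∃ k : ℕ, ∀ p ∈ t, p.2 ≤ k :=
      ⟨t.sup Prod.snd, fun p hp => Finset.le_sup (f := Prod.snd) hp⟩
    obtain ⟨ν, hν⟩ := em_finite f hf c h (t.image Prod.fst) (1 / ((k : ℝ) + 1)) (by positivity)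
    refine ⟨ν, Set.mem_univ _, ?_⟩
    simp only [Set.mem_iInter]
    intro p hp
    have h1 := hν p.1 (Finset.mem_image_of_mem _ hp)
    have h2 : 1 / ((k : ℝ) + 1) ≤ 1 / ((p.2 : ℝ) + 1) := by
      apply one_div_le_one_div_of_le (by positivity)
      have : (p.2 : ℝ) ≤ k := by exact_mod_cast hk p hp
      linarith
    change ∫ y, f p.1 y ∂(ν : Measure Ω) ≤ c + 1 / ((p.2 : ℝ) + 1)
    linarith
  obtain ⟨ν, _, hν⟩ := isCompact_univ.inter_iInter_nonempty K hK hfin
  simp only [Set.mem_iInter] at hν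
  refine ⟨(ν : Measure Ω), inferInstance, ?_⟩
  intro x
  apply le_of_forall_pos_le_add
  intro ε hε
  obtain ⟨k, hk⟩ := exists_nat_one_div_lt hε
  have h1 : ∫ y, f x y ∂(ν : Measure Ω) ≤ c + 1 / ((k : ℝ) + 1) := hν (x, k)
  linarith

end Pool.Agent.Helper342.RV.F1
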