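import Pool.Agent.Helper342.RV.Defs

namespace Pool.Agent.Helper342.RV.F2

open MeasureTheory

theorem avg_measure_aux {Ω : Type*} [MeasurableSpace Ω] [TopologicalSpace Ω] [BorelSpace Ω]
    [MeasurableSingletonClass Ω]
    {ι : Type*} [Fintype ι] [Nonempty ι] (s : ι → Ω) :
    ∃ P : ProbabilityMeasure Ω, ∀ f : BoundedContinuousFunction Ω ℝ,
      ∫ ω, f ω ∂(P : Measure Ω) = (1 / (Fintype.card ι : ℝ)) * ∑ i, f (s i) := by
  have hc : (Fintype.card ι : ENNReal) ≠ 0 := by
    simp
  have hc' : (Fintype.card ι : ENNReal) ≠ ⊤ := by simp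
  refine ⟨⟨(Fintype.card ι : ENNReal)⁻¹ • ∑ i, Measure.dirac (s i), ⟨?_⟩⟩, ?_⟩
  · simp [ENNReal.inv_mul_cancel hc hc']
  · intro f
    simp only [ProbabilityMeasure.coe_mk]
    rw [integral_smul_measure, integral_finsetSum_measure]
    · simp
    · intro i _
      exact f.integrable _

/-- Limit of good configurations. -/
theorem exists_max_measure {Ω : Type*} [MetricSpace Ω] [CompactSpace Ω] [Nonempty Ω]
    [MeasurableSpace Ω] [BorelSpace Ω] (f : Ω → Ω → ℝ)
    (hf : Continuous (fun p : Ω × Ω => f p.1 p.2)) (c : ℝ)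
    (h : ∀ ε : ℝ, 0 < ε → ∃ (n : ℕ) (x : Fin n → Ω), 1 ≤ n ∧
      ∀ y, c - ε ≤ (1 / (n : ℝ)) * ∑ i, f (x i) y) :
    ∃ μ : Measure Ω, IsProbabilityMeasure μ ∧ ∀ y, c ≤ ∫ x, f x y ∂μ := by
  classical
  have hfy : ∀ y : Ω, Continuous (fun x => f x y) := fun y =>
    hf.comp (continuous_id.prodMk continuous_const)
  let F : Ω → BoundedContinuousFunction Ω ℝ := fun y =>
    BoundedContinuousFunction.mkOfCompact ⟨fun x => f x y, hfy y⟩
  have h1 : ∀ k : ℕ, ∃ P : ProbabilityMeasure Ω, ∀ y,
      c - 1 / ((k : ℝ) + 1) ≤ ∫ x, F y x ∂(P : Measure Ω) := by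
    intro k
    obtain ⟨n, x, hn, hx⟩ := h (1 / ((k : ℝ) + 1)) (by positivity)
    have : Nonempty (Fin n) := ⟨⟨0, hn⟩⟩
    obtain ⟨P, hP⟩ := avg_measure_aux x
    refine ⟨P, fun y => ?_⟩
    rw [hP (F y)]
    have h5 : ∀ i, (F y) (x i) = f (x i) y := fun i => rfl
    simp_rw [h5]
    simpa using hx y
  choose P hP using h1
  let U : Ultrafilter (ProbabilityMeasure Ω) := (Filter.hyperfilter ℕ).map P
  obtain ⟨ν, -, hν⟩ := isCompact_univ.ultrafilter_le_nhds U (by simp)
  have hlim : Filter.Tendsto P (Filter.hyperfilter ℕ) (nhds ν) := hν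
  have hν2 := ProbabilityMeasure.tendsto_iff_forall_integral_tendsto.1 hlim
  refine ⟨(ν : Measure Ω), inferInstance, fun y => ?_⟩
  have h3 := hν2 (F y)
  have h4 : Filter.Tendsto (fun k : ℕ => c - 1 / ((k : ℝ) + 1)) (Filter.hyperfilter ℕ)
      (nhds (c - 0)) := by
    have := (tendsto_one_div_add_atTop_nhds_zero_nat (𝕜 := ℝ)).const_sub c
    exact this.mono_left Nat.hyperfilter_le_atTop
  rw [sub_zero] at h4
  exact le_of_tendsto_of_tendsto' h4 h3 (fun k => hP k y)

/-! negative type -/

theorem int3 {X : Type*} [MeasurableSpace X] (μ : Measure X) {a b c : X → ℝ}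
    (ha : Integrable a μ) (hb : Integrable b μ) (hc : Integrable c μ) (k : ℝ) :
    ∫ x, (a x + b x - k * c x) ∂μ = ∫ x, a x ∂μ + ∫ x, b x ∂μ - k * ∫ x, c x ∂μ := by
  have h1 := integral_sub (ha.add hb) (hc.const_mul k)
  have h2 := integral_add ha hb
  simp only [Pi.add_apply] at h1 h2
  rw [h1, h2, integral_const_mul]

/-- half-line indicator -/
noncomputable def hh (s u : ℝ) : ℝ := if u < s then 1 else 0

theorem hh_mul (s t u : ℝ) : hh s u * hh t u = hh (min s t) u := by
  unfold hh
  by_cases h1 : u < s <;> by_cases h2 : u < t <;> simp [h1, h2]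

theorem hh_nonneg (s u : ℝ) : 0 ≤ hh s u := by unfold hh; split_ifs <;> norm_num
theorem hh_le (s u : ℝ) : hh s u ≤ 1 := by unfold hh; split_ifs <;> norm_num

theorem integral_hh {s R : ℝ} (h1 : -R ≤ s) (h2 : s ≤ R) :
    ∫ u in Set.Ioc (-R) R, hh s u = s + R := by
  have h3 : (fun u => hh s u) = Set.indicator (Set.Iio s) (fun _ => (1 : ℝ)) := by
    ext u; simp [hh, Set.indicator]
  rw [h3, integral_indicator measurableSet_Iio, Measure.restrict_restrict measurableSet_Iio]
  have h4 : Set.Iio s ∩ Set.Ioc (-R) R = Set.Ioo (-R) s := by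
    ext u
    simp only [Set.mem_inter_iff, Set.mem_Iio, Set.mem_Ioc, Set.mem_Ioo]
    constructor
    · rintro ⟨a, b, c⟩; exact ⟨b, a⟩
    · rintro ⟨a, b⟩; exact ⟨b, a, by linarith⟩
  rw [h4]
  simp
  linarith

theorem measurable_hh (s : ℝ) : Measurable (hh s) := by
  unfold hh
  exact Measurable.ite measurableSet_Iio measurable_const measurable_const

theorem integrable_hh (s R : ℝ) : Integrable (hh s) (volume.restrict (Set.Ioc (-R) R)) := by
  refine Integrable.of_bound (measurable_hh s).aestronglyMeasurable 1 ?_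
  filter_upwards with u
  rw [Real.norm_eq_abs, abs_of_nonneg (hh_nonneg _ _)]; exact hh_le _ _

theorem integral_kernel {s t R : ℝ} (hs : |s| ≤ R) (ht : |t| ≤ R) :
    ∫ u in Set.Ioc (-R) R, (hh s u + hh t u - 2 * (hh s u * hh t u)) = |s - t| := by
  rw [abs_le] at hs ht
  simp_rw [hh_mul]
  rw [int3 _ (integrable_hh s R) (integrable_hh t R) (integrable_hh _ R) 2,
    integral_hh hs.1 hs.2, integral_hh ht.1 ht.2,
    integral_hh (le_min hs.1 ht.1) (min_le_of_left_le hs.2)]
  rcases le_total s t with h | h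
  · rw [min_eq_left h, abs_of_nonpos (by linarith)]; ring
  · rw [min_eq_right h, abs_of_nonneg (by linarith)]; ring

theorem integral_abs_cos : ∫ θ in (0 : ℝ)..(2 * Real.pi), |Real.cos θ| = 4 := by
  have hp : Function.Periodic (fun θ : ℝ => |Real.cos θ|) (2 * Real.pi) := by
    intro θ; simp
  have h1 : ∫ θ in (0 : ℝ)..(2 * Real.pi), |Real.cos θ|
      = ∫ θ in (-(Real.pi / 2))..(-(Real.pi / 2) + 2 * Real.pi), |Real.cos θ| := by
    have := hp.intervalIntegral_add_eq 0 (-(Real.pi / 2))
    simpa using this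
  have hi : ∀ a b : ℝ, IntervalIntegrable (fun θ : ℝ => |Real.cos θ|) volume a b := fun a b =>
    (Real.continuous_cos.abs).intervalIntegrable a b
  rw [h1, ← intervalIntegral.integral_add_adjacent_intervals (hi _ (Real.pi / 2)) (hi _ _)]
  have h2 : ∫ θ in (-(Real.pi / 2))..(Real.pi / 2), |Real.cos θ| = 2 := by
    rw [intervalIntegral.integral_congr (g := Real.cos)]
    · simp; norm_num
    · intro θ hθ
      rw [Set.uIcc_of_le (by linarith [Real.pi_pos])] at hθ
      exact abs_of_nonneg (Real.cos_nonneg_of_mem_Icc ⟨by linarith [hθ.1], hθ.2⟩)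
  have h3 : ∫ θ in (Real.pi / 2)..(-(Real.pi / 2) + 2 * Real.pi), |Real.cos θ| = 2 := by
    rw [intervalIntegral.integral_congr (g := fun θ => - Real.cos θ)]
    · rw [intervalIntegral.integral_neg]
      simp only [integral_cos]
      have : Real.sin (-(Real.pi / 2) + 2 * Real.pi) = -1 := by
        rw [Real.sin_add_two_pi]; simp
      rw [this]; simp; norm_num
    · intro θ hθ
      rw [Set.uIcc_of_le (by linarith [Real.pi_pos])] at hθ
      refine abs_of_nonpos (Real.cos_nonpos_of_pi_div_two_le_of_le hθ.1 (by linarith [hθ.2]))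
  rw [h2, h3]; norm_num

theorem integral_abs_re (z : ℂ) :
    ∫ θ in Set.Ioc (0 : ℝ) (2 * Real.pi), |(Complex.exp (-(θ : ℂ) * Complex.I) * z).re| = 4 * ‖z‖ := by
  have h0 : ∀ θ : ℝ, |(Complex.exp (-(θ : ℂ) * Complex.I) * z).re|
      = ‖z‖ * |Real.cos (θ - z.arg)| := by
    intro θ
    have h1 : Complex.exp (-(θ : ℂ) * Complex.I) * z
        = (‖z‖ : ℂ) * Complex.exp (((z.arg - θ : ℝ) : ℂ) * Complex.I) := by
      conv_lhs => rw [← Complex.norm_mul_exp_arg_mul_I z]
      rw [← mul_assoc, mul_comm (Complex.exp _) (‖z‖ : ℂ), mul_assoc, ← Complex.exp_add]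
      congr 2
      push_cast; ring
    rw [h1, Complex.re_ofReal_mul, Complex.exp_ofReal_mul_I_re, abs_mul, abs_of_nonneg (norm_nonneg z)]
    congr 2
    rw [← Real.cos_neg]; congr 1; ring
  simp_rw [h0]
  rw [integral_const_mul, ← intervalIntegral.integral_of_le (by positivity)]
  have hp : Function.Periodic (fun θ : ℝ => |Real.cos θ|) (2 * Real.pi) := by
    intro θ; simp
  have h2 : ∫ θ in (0 : ℝ)..(2 * Real.pi), |Real.cos (θ - z.arg)|
      = ∫ θ in (0 : ℝ)..(2 * Real.pi), |Real.cos θ| := by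
    rw [intervalIntegral.integral_comp_sub_right (fun θ => |Real.cos θ|)]
    have := hp.intervalIntegral_add_eq (0 - z.arg) 0
    simp only [zero_add] at this
    rw [← this]
    congr 1; ring
  rw [h2, integral_abs_cos]; ring

/-- the parameter space of (direction, level) -/
noncomputable def nu (R : ℝ) : Measure (ℝ × ℝ) :=
  (volume.restrict (Set.Ioc (0 : ℝ) (2 * Real.pi))).prod (volume.restrict (Set.Ioc (-R) R))

instance (R : ℝ) : IsFiniteMeasure (nu R) := by unfold nu; infer_instance

/-- half-plane indicator -/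
noncomputable def gg (x : ℂ) (z : ℝ × ℝ) : ℝ := hh ((Complex.exp (-(z.1 : ℂ) * Complex.I) * x).re) z.2

theorem measurable_gg : Measurable (fun p : ℂ × (ℝ × ℝ) => gg p.1 p.2) := by
  unfold gg hh
  refine Measurable.ite ?_ measurable_const measurable_const
  apply IsOpen.measurableSet
  apply isOpen_lt
  · fun_prop
  · fun_prop

theorem gg_nonneg (x : ℂ) (z : ℝ × ℝ) : 0 ≤ gg x z := hh_nonneg _ _
theorem gg_le (x : ℂ) (z : ℝ × ℝ) : gg x z ≤ 1 := hh_le _ _

theorem measurable_gg_right (x : ℂ) : Measurable (gg x) :=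
  measurable_gg.comp (measurable_const.prodMk measurable_id)
theorem measurable_gg_left (z : ℝ × ℝ) : Measurable (fun x => gg x z) :=
  measurable_gg.comp (measurable_id.prodMk measurable_const)

theorem bdd_integrable {X : Type*} [MeasurableSpace X] (μ : Measure X) [IsFiniteMeasure μ]
    {f : X → ℝ} (hf : Measurable f) (C : ℝ) (h : ∀ x, |f x| ≤ C) : Integrable f μ :=
  Integrable.of_bound hf.aestronglyMeasurable C (Filter.Eventually.of_forall h)

theorem kernel_eq {R : ℝ} {x y : ℂ} (hx : ‖x‖ ≤ R) (hy : ‖y‖ ≤ R) :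
    ∫ z, (gg x z + gg y z - 2 * (gg x z * gg y z)) ∂(nu R) = 4 * ‖x - y‖ := by
  have hre : ∀ (θ : ℝ) (w : ℂ), ‖w‖ ≤ R → |(Complex.exp (-(θ : ℂ) * Complex.I) * w).re| ≤ R := by
    intro θ w hw
    refine (Complex.abs_re_le_norm _).trans ?_
    rw [norm_mul]
    have : ‖Complex.exp (-(θ : ℂ) * Complex.I)‖ = 1 := by
      have := Complex.norm_exp_ofReal_mul_I (-θ)
      simpa using this
    rw [this, one_mul]; exact hw
  unfold nu
  rw [integral_prod]
  · have h1 : ∀ θ : ℝ, ∫ u in Set.Ioc (-R) R, (gg x (θ, u) + gg y (θ, u) - 2 * (gg x (θ, u) * gg y (θ, u)))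
        = |(Complex.exp (-(θ : ℂ) * Complex.I) * (x - y)).re| := by
      intro θ
      have := integral_kernel (hre θ x hx) (hre θ y hy)
      unfold gg
      simp only
      rw [this, mul_sub, Complex.sub_re]
    simp_rw [h1]
    exact integral_abs_re (x - y)
  · refine bdd_integrable _ ?_ 4 ?_
    · exact ((measurable_gg_right x).add (measurable_gg_right y)).sub
        (((measurable_gg_right x).mul (measurable_gg_right y)).const_mul 2)
    · intro z
      have a1 := gg_nonneg x z
      have a2 := gg_le x z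
      have a3 := gg_nonneg y z
      have a4 := gg_le y z
      have a5 : gg x z * gg y z ≤ 1 := by nlinarith
      have a6 : 0 ≤ gg x z * gg y z := by positivity
      rw [abs_le]; constructor <;> linarith

/-- the mass function of half-planes -/
noncomputable def AA (α : Measure ℂ) (z : ℝ × ℝ) : ℝ := ∫ x, gg x z ∂α

theorem measurable_AA (α : Measure ℂ) [IsFiniteMeasure α] : Measurable (AA α) := by
  unfold AA
  have : StronglyMeasurable (fun p : (ℝ × ℝ) × ℂ => gg p.2 p.1) :=
    (measurable_gg.comp measurable_swap).stronglyMeasurable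
  exact this.integral_prod_right'.measurable

theorem AA_nonneg (α : Measure ℂ) (z : ℝ × ℝ) : 0 ≤ AA α z := integral_nonneg fun x => gg_nonneg x z

theorem AA_le (α : Measure ℂ) [IsFiniteMeasure α] (z : ℝ × ℝ) : AA α z ≤ α.real Set.univ := by
  unfold AA
  have h1 : ∫ x, gg x z ∂α ≤ ∫ _x, (1 : ℝ) ∂α := by
    apply integral_mono
    · refine bdd_integrable α (measurable_gg_left z) 1 ?_
      intro x; rw [abs_of_nonneg (gg_nonneg x z)]; exact gg_le x z
    · exact integrable_const _
    · intro x; exact gg_le x z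
  simpa using h1

theorem energy_formula (α β : Measure ℂ) [IsFiniteMeasure α] [IsFiniteMeasure β] (R : ℝ)
    (hα : α {x | R < ‖x‖} = 0) (hβ : β {x | R < ‖x‖} = 0) :
    4 * ∫ x, ∫ y, ‖x - y‖ ∂β ∂α =
      ∫ z, (β.real Set.univ * AA α z + α.real Set.univ * AA β z - 2 * (AA α z * AA β z)) ∂(nu R) := by
  have hα' : ∀ᵐ x ∂α, ‖x‖ ≤ R := by
    rw [ae_iff]; simpa using hα
  have hβ' : ∀ᵐ x ∂β, ‖x‖ ≤ R := by
    rw [ae_iff]; simpa using hβ
  -- inner integral over y
  have h1 : ∀ x, ‖x‖ ≤ R → 4 * ∫ y, ‖x - y‖ ∂β =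
      ∫ z, (β.real Set.univ * gg x z + AA β z - 2 * (gg x z * AA β z)) ∂(nu R) := by
    intro x hx
    have h2 : ∫ y, (∫ z, (gg x z + gg y z - 2 * (gg x z * gg y z)) ∂(nu R)) ∂β
        = ∫ y, 4 * ‖x - y‖ ∂β := by
      apply integral_congr_ae
      filter_upwards [hβ'] with y hy
      exact kernel_eq hx hy
    rw [← integral_const_mul, ← h2]
    have hI : Integrable (Function.uncurry fun (y : ℂ) (z : ℝ × ℝ) =>
        (gg x z + gg y z - 2 * (gg x z * gg y z))) (β.prod (nu R)) := by
      refine bdd_integrable _ ?_ 4 ?_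
      · have m1 : Measurable (fun p : ℂ × (ℝ × ℝ) => gg x p.2) :=
          (measurable_gg_right x).comp measurable_snd
        exact (m1.add measurable_gg).sub ((m1.mul measurable_gg).const_mul 2)
      · rintro ⟨y, z⟩
        simp only [Function.uncurry]
        have a1 := gg_nonneg x z
        have a2 := gg_le x z
        have a3 := gg_nonneg y z
        have a4 := gg_le y z
        have a5 : gg x z * gg y z ≤ 1 := by nlinarith
        have a6 : 0 ≤ gg x z * gg y z := by positivity
        rw [abs_le]; constructor <;> linarith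
    rw [integral_integral_swap hI]
    apply integral_congr_ae
    filter_upwards with z
    have i1 : Integrable (fun y => gg y z) β := by
      refine bdd_integrable β (measurable_gg_left z) 1 ?_
      intro y; rw [abs_of_nonneg (gg_nonneg y z)]; exact gg_le y z
    rw [int3 β (integrable_const (gg x z)) i1 (i1.const_mul (gg x z)) 2,
      integral_const, integral_const_mul]
    simp only [smul_eq_mul, AA]
  have h3 : 4 * ∫ x, ∫ y, ‖x - y‖ ∂β ∂α
      = ∫ x, (∫ z, (β.real Set.univ * gg x z + AA β z - 2 * (gg x z * AA β z)) ∂(nu R)) ∂α := by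
    rw [← integral_const_mul]
    apply integral_congr_ae
    filter_upwards [hα'] with x hx
    exact h1 x hx
  rw [h3]
  have hI : Integrable (Function.uncurry fun (x : ℂ) (z : ℝ × ℝ) =>
      (β.real Set.univ * gg x z + AA β z - 2 * (gg x z * AA β z))) (α.prod (nu R)) := by
    refine bdd_integrable _ ?_ (4 * β.real Set.univ) ?_
    · have m1 : Measurable (fun p : ℂ × (ℝ × ℝ) => AA β p.2) :=
        (measurable_AA β).comp measurable_snd
      exact ((measurable_gg.const_mul _).add m1).sub ((measurable_gg.mul m1).const_mul 2)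
    · rintro ⟨x, z⟩
      simp only [Function.uncurry]
      have a1 := gg_nonneg x z
      have a2 := gg_le x z
      have a3 := AA_nonneg β z
      have a4 := AA_le β z
      have a7 : 0 ≤ β.real Set.univ := measureReal_nonneg
      have a5 : gg x z * AA β z ≤ β.real Set.univ := by nlinarith
      have a6 : 0 ≤ gg x z * AA β z := by positivity
      have a8 : 0 ≤ β.real Set.univ * gg x z := by positivity
      have a9 : β.real Set.univ * gg x z ≤ β.real Set.univ := by nlinarith
      rw [abs_le]; constructor <;> linarith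
  rw [integral_integral_swap hI]
  apply integral_congr_ae
  filter_upwards with z
  have i1 : Integrable (fun y => gg y z) α := by
    refine bdd_integrable α (measurable_gg_left z) 1 ?_
    intro y; rw [abs_of_nonneg (gg_nonneg y z)]; exact gg_le y z
  have e1 : ∀ x, gg x z * AA β z = AA β z * gg x z := fun x => mul_comm _ _
  simp_rw [e1]
  rw [int3 α (i1.const_mul (β.real Set.univ)) (integrable_const (AA β z)) (i1.const_mul (AA β z)) 2,
    integral_const, integral_const_mul, integral_const_mul]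
  simp only [smul_eq_mul, AA]
  ring

/-- The Euclidean distance in the plane is of negative type: for finite measures `α, β` on the
plane with bounded support and equal mass, `I(α,α) + I(β,β) ≤ 2 I(α,β)`. -/
theorem energy_le (α β : Measure ℂ) [IsFiniteMeasure α] [IsFiniteMeasure β] (R : ℝ)
    (hα : α {x | R < ‖x‖} = 0) (hβ : β {x | R < ‖x‖} = 0)
    (hm : α Set.univ = β Set.univ) :
    (∫ x, ∫ y, ‖x - y‖ ∂α ∂α) + (∫ x, ∫ y, ‖x - y‖ ∂β ∂β) ≤ 2 * ∫ x, ∫ y, ‖x - y‖ ∂β ∂α := by
  have e1 := energy_formula α α R hα hα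
  have e2 := energy_formula β β R hβ hβ
  have e3 := energy_formula α β R hα hβ
  have hm' : α.real Set.univ = β.real Set.univ := by simp [Measure.real, hm]
  set m := β.real Set.univ with hmm
  rw [hm'] at e1 e3
  have hm0 : 0 ≤ m := measureReal_nonneg
  have bd : ∀ (α β : Measure ℂ) [IsFiniteMeasure α] [IsFiniteMeasure β], α.real Set.univ = m →
      β.real Set.univ = m →
      Integrable (fun z => m * AA α z + m * AA β z - 2 * (AA α z * AA β z)) (nu R) := by
    intro α β _ _ h1 h2
    refine bdd_integrable _ ?_ (4 * m ^ 2) ?_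
    · exact (((measurable_AA α).const_mul _).add ((measurable_AA β).const_mul _)).sub
        (((measurable_AA α).mul (measurable_AA β)).const_mul 2)
    · intro z
      have a1 := AA_nonneg α z
      have a2 := AA_le α z
      have a3 := AA_nonneg β z
      have a4 := AA_le β z
      rw [h1] at a2
      rw [h2] at a4
      have a5 : AA α z * AA β z ≤ m ^ 2 := by nlinarith
      have a6 : 0 ≤ AA α z * AA β z := by positivity
      have a7 : m * AA α z ≤ m ^ 2 := by nlinarith
      have a8 : m * AA β z ≤ m ^ 2 := by nlinarith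
      have a9 : 0 ≤ m * AA α z := by positivity
      have a10 : 0 ≤ m * AA β z := by positivity
      rw [abs_le]; constructor <;> nlinarith
  have i1 := bd α α hm' hm'
  have i2 := bd β β rfl rfl
  have i3 := bd α β hm' rfl
  have key : (∫ z, (m * AA α z + m * AA α z - 2 * (AA α z * AA α z)) ∂(nu R))
      + (∫ z, (m * AA β z + m * AA β z - 2 * (AA β z * AA β z)) ∂(nu R))
      ≤ 2 * ∫ z, (m * AA α z + m * AA β z - 2 * (AA α z * AA β z)) ∂(nu R) := by
    rw [← integral_add i1 i2, ← integral_const_mul]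
    apply integral_mono (i1.add i2) (i3.const_mul 2)
    intro z
    simp only [Pi.add_apply]
    nlinarith [sq_nonneg (AA α z - AA β z)]
  rw [← e1, ← e2, ← e3] at key
  linarith

end Pool.Agent.Helper342.RV.F2
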