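import Pool.Agent.Helper342.RV.Defs

namespace Pool.Agent.Helper342.RV.G1

open Real























/-! ### auxiliary -/

theorem fin3_cases (i j : Fin 3) : i = j ∨ i = j + 1 ∨ i = j + 2 := by
  revert i j; decide

theorem dK_self {x : Fin 3 × ℝ} {j : Fin 3} (h : x.1 = j) (r : ℝ) :
    dK x j r = 2 * |sin ((r - x.2) / 2)| := by simp [dK, h]
theorem eK_self {x : Fin 3 × ℝ} {j : Fin 3} (h : x.1 = j) (r : ℝ) :
    eK x j r = Real.sign (r - x.2) * cos ((r - x.2) / 2) := by simp [eK, h]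
theorem kK_self {x : Fin 3 × ℝ} {j : Fin 3} (h : x.1 = j) (r : ℝ) :
    kK x j r = 0 := by simp [kK, h]

theorem f3a (j : Fin 3) : j + 1 ≠ j := by revert j; decide
theorem f3b (j : Fin 3) : j + 2 ≠ j := by revert j; decide
theorem f3c (j : Fin 3) : j + 2 ≠ j + 1 := by revert j; decide

theorem dK_one {x : Fin 3 × ℝ} {j : Fin 3} (h : x.1 = j + 1) (r : ℝ) :
    dK x j r = dd x.2 (th - r) := by
  unfold dK; rw [h, if_neg (f3a j), if_pos rfl]
theorem eK_one {x : Fin 3 × ℝ} {j : Fin 3} (h : x.1 = j + 1) (r : ℝ) :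
    eK x j r = -de x.2 (th - r) := by
  unfold eK; rw [h, if_neg (f3a j), if_pos rfl]
theorem kK_one {x : Fin 3 × ℝ} {j : Fin 3} (h : x.1 = j + 1) (r : ℝ) :
    kK x j r = kn x.2 (th - r) := by
  unfold kK; rw [h, if_neg (f3a j), if_pos rfl]
theorem dK_two {x : Fin 3 × ℝ} {j : Fin 3} (h : x.1 = j + 2) (r : ℝ) :
    dK x j r = dd (th - x.2) r := by
  unfold dK; rw [h, if_neg (f3b j), if_neg (f3c j)]
theorem eK_two {x : Fin 3 × ℝ} {j : Fin 3} (h : x.1 = j + 2) (r : ℝ) :
    eK x j r = de (th - x.2) r := by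
  unfold eK; rw [h, if_neg (f3b j), if_neg (f3c j)]
theorem kK_two {x : Fin 3 × ℝ} {j : Fin 3} (h : x.1 = j + 2) (r : ℝ) :
    kK x j r = kn (th - x.2) r := by
  unfold kK; rw [h, if_neg (f3b j), if_neg (f3c j)]

theorem abs_sin_of_pos {y : ℝ} (h0 : 0 ≤ y) (h1 : y ≤ th) : |sin (y / 2)| = sin (y / 2) := by
  unfold th at h1
  exact abs_of_nonneg (sin_nonneg_of_nonneg_of_le_pi (by linarith) (by linarith [pi_pos]))

theorem abs_sin_of_neg {y : ℝ} (h0 : y ≤ 0) (h1 : -th ≤ y) : |sin (y / 2)| = -sin (y / 2) := by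
  have := abs_sin_of_pos (y := -y) (by linarith) (by linarith)
  rw [neg_div, sin_neg, abs_neg] at this
  exact this

theorem int_pos {θ a b : ℝ} (h1 : θ ≤ a) (h2 : a ≤ b) (h3 : b ≤ θ + th) :
    ∫ t in a..b, 2 * |sin ((t - θ) / 2)| = 4 * cos ((a - θ) / 2) - 4 * cos ((b - θ) / 2) := by
  have e1 : ∫ t in a..b, 2 * |sin ((t - θ) / 2)| = ∫ t in a..b, 2 * sin ((t - θ) / 2) := by
    apply intervalIntegral.integral_congr
    intro t ht
    rw [Set.uIcc_of_le h2] at ht
    show 2 * |sin ((t - θ) / 2)| = 2 * sin ((t - θ) / 2)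
    rw [abs_sin_of_pos (by linarith [ht.1]) (by linarith [ht.2])]
  rw [e1]
  have e2 : ∀ t ∈ Set.uIcc a b, HasDerivAt (fun t => -4 * cos ((t - θ) / 2)) (2 * sin ((t - θ) / 2)) t := by
    intro t _
    have h : HasDerivAt (fun t => -4 * cos ((t - θ) / 2)) (-4 * (-sin ((t - θ) / 2) * (1 / 2))) t :=
      (((hasDerivAt_id t).sub_const θ).div_const 2).cos.const_mul (-4)
    exact h.congr_deriv (by ring)
  rw [intervalIntegral.integral_eq_sub_of_hasDerivAt e2]
  · ring
  · apply Continuous.intervalIntegrable; fun_prop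

theorem int_neg {θ a b : ℝ} (h1 : θ - th ≤ a) (h2 : a ≤ b) (h3 : b ≤ θ) :
    ∫ t in a..b, 2 * |sin ((t - θ) / 2)| = 4 * cos ((b - θ) / 2) - 4 * cos ((a - θ) / 2) := by
  have e1 : ∫ t in a..b, 2 * |sin ((t - θ) / 2)| = ∫ t in a..b, -(2 * sin ((t - θ) / 2)) := by
    apply intervalIntegral.integral_congr
    intro t ht
    rw [Set.uIcc_of_le h2] at ht
    show 2 * |sin ((t - θ) / 2)| = -(2 * sin ((t - θ) / 2))
    rw [abs_sin_of_neg (by linarith [ht.2]) (by linarith [ht.1])]; ring
  rw [e1]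
  have e2 : ∀ t ∈ Set.uIcc a b, HasDerivAt (fun t => 4 * cos ((t - θ) / 2)) (-(2 * sin ((t - θ) / 2))) t := by
    intro t _
    have h : HasDerivAt (fun t => 4 * cos ((t - θ) / 2)) (4 * (-sin ((t - θ) / 2) * (1 / 2))) t :=
      (((hasDerivAt_id t).sub_const θ).div_const 2).cos.const_mul 4
    exact h.congr_deriv (by ring)
  rw [intervalIntegral.integral_eq_sub_of_hasDerivAt e2]
  apply Continuous.intervalIntegrable; fun_prop

theorem dK_lower
    (dd_lower : ∀ u : ℝ, u ∈ Set.Icc 0 th → ∀ p q : ℝ,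
      dd u p * cos ((q - p) / 2) + 2 * de u p * sin ((q - p) / 2) ≤ dd u q)
    {x : Fin 3 × ℝ} {j : Fin 3} {p q : ℝ} (hx : x.2 ∈ Set.Icc 0 th) (hp : p ∈ Set.Icc 0 th)
    (hq : q ∈ Set.Icc 0 th) :
    dK x j p * cos ((q - p) / 2) + 2 * eK x j p * sin ((q - p) / 2)
      + (if x = (j, p) then 2 * sin (|q - p| / 2) else 0) ≤ dK x j q := by
  obtain ⟨i, θ⟩ := x
  simp only at hx
  rcases fin3_cases i j with h | h | h
  · subst h
    rw [dK_self rfl, dK_self rfl, eK_self rfl]
    simp only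
    have hadd : sin ((q - θ) / 2) = sin ((p - θ) / 2) * cos ((q - p) / 2)
        + cos ((p - θ) / 2) * sin ((q - p) / 2) := by
      rw [← sin_add]; congr 1; ring
    rcases lt_trichotomy θ p with hlt | heq | hgt
    · rw [if_neg (by rintro h; simp at h; linarith), Real.sign_of_pos (by linarith),
        abs_sin_of_pos (by linarith) (by linarith [hp.2, hx.1])]
      have := le_abs_self (sin ((q - θ) / 2))
      rw [hadd] at this
      rw [hadd]
      linarith
    · subst heq
      rw [if_pos rfl]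
      have h1 : sin (|q - θ| / 2) = |sin ((q - θ) / 2)| := by
        rcases le_total 0 (q - θ) with h | h
        · rw [abs_of_nonneg h, abs_sin_of_pos h (by linarith [hq.2, hx.1])]
        · rw [abs_of_nonpos h, abs_sin_of_neg h (by linarith [hq.1, hx.2]), neg_div, sin_neg]
      rw [h1]; simp
    · rw [if_neg (by rintro h; simp at h; linarith), Real.sign_of_neg (by linarith),
        abs_sin_of_neg (by linarith) (by linarith [hp.1, hx.2])]
      have := neg_abs_le (sin ((q - θ) / 2))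
      rw [hadd] at this
      rw [hadd]
      linarith
  · rw [dK_one h, dK_one h, eK_one h, if_neg (by
      intro h'; rw [Prod.mk.injEq] at h'; exact f3a j (h ▸ h'.1))]
    simp only
    have := dd_lower θ hx (th - p) (th - q)
    have e : (th - q - (th - p)) / 2 = -((q - p) / 2) := by ring
    rw [e, cos_neg, sin_neg] at this
    linarith
  · rw [dK_two h, dK_two h, eK_two h, if_neg (by
      intro h'; rw [Prod.mk.injEq] at h'; exact f3b j (h ▸ h'.1))]
    simp only
    have := dd_lower (th - θ) ⟨by linarith [hx.2], by linarith [hx.1]⟩ p q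
    linarith

theorem dK_green0
    (DD_pos : ∀ u w : ℝ, u ∈ Set.Icc 0 th → w ∈ Set.Icc 0 th → (0 < u ∨ 0 < w) → 0 < DD u w)
    (dd_green : ∀ u p q : ℝ, (∀ t ∈ Set.uIcc p q, 0 < DD u t) →
      dd u q = dd u p * cos ((q - p) / 2) + 2 * de u p * sin ((q - p) / 2)
      + ∫ t in p..q, 2 * sin ((q - t) / 2) * kn u t)
    {x : Fin 3 × ℝ} {j : Fin 3} {s0 : ℝ} (hs : 0 < s0) (hs2 : s0 < th)
    (hx : x.2 ∈ Set.Ioo 0 th) (hne : x ≠ (j, s0)) :
    dK x j 0 = dK x j s0 * cos (s0 / 2) - 2 * eK x j s0 * sin (s0 / 2)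
      + (if x.1 = j ∧ x.2 < s0 then 4 * sin (x.2 / 2) else 0)
      + ∫ t in (0 : ℝ)..s0, 2 * sin (t / 2) * kK x j t := by
  obtain ⟨i, θ⟩ := x
  simp only at hx
  rcases fin3_cases i j with h | h | h
  · subst h
    have hne' : θ ≠ s0 := fun h => hne (by rw [h])
    rw [dK_self rfl, dK_self rfl, eK_self rfl]
    simp_rw [kK_self (x := (i, θ)) rfl]
    simp only [mul_zero, intervalIntegral.integral_zero, add_zero, true_and]
    have h0 : |sin ((0 - θ) / 2)| = sin (θ / 2) := by
      rw [abs_sin_of_neg (by linarith [hx.1]) (by linarith [hx.2])]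
      rw [← sin_neg]; congr 1; ring
    rw [h0]
    rcases lt_or_gt_of_ne hne' with hlt | hgt
    · rw [if_pos hlt, Real.sign_of_pos (by linarith), abs_sin_of_pos (by linarith) (by linarith [hx.1])]
      have : sin (θ / 2) = -(sin ((s0 - θ) / 2) * cos (s0 / 2) - cos ((s0 - θ) / 2) * sin (s0 / 2)) := by
        rw [← sin_sub, ← sin_neg]; congr 1; ring
      linarith
    · rw [if_neg (by linarith), Real.sign_of_neg (by linarith),
        abs_sin_of_neg (by linarith) (by linarith [hx.2])]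
      have : sin (θ / 2) = (-sin ((s0 - θ) / 2)) * cos (s0 / 2) + cos ((s0 - θ) / 2) * sin (s0 / 2) := by
        rw [← sin_neg, ← cos_neg ((s0 - θ) / 2), ← sin_add]; congr 1; ring
      linarith
  · have hij : ¬ (i = j ∧ θ < s0) := fun h' => f3a j (h ▸ h'.1)
    simp only
    rw [if_neg hij, dK_one h, dK_one h, eK_one h]
    simp_rw [kK_one (x := (i, θ)) (j := j) h]
    simp only [sub_zero, add_zero]
    have hg := dd_green θ (th - s0) th (fun t ht => by
      rw [Set.uIcc_of_le (by linarith)] at ht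
      exact DD_pos θ t ⟨hx.1.le, hx.2.le⟩ ⟨by linarith [ht.1], ht.2⟩ (Or.inl hx.1))
    have e : (th - (th - s0)) / 2 = s0 / 2 := by ring
    rw [e] at hg
    have hI : ∫ t in (0 : ℝ)..s0, 2 * sin (t / 2) * kn θ (th - t)
        = ∫ t in (th - s0)..th, 2 * sin ((th - t) / 2) * kn θ t := by
      have := intervalIntegral.integral_comp_sub_left (a := 0) (b := s0)
        (fun t => 2 * sin ((th - t) / 2) * kn θ t) th
      simp only [sub_sub_cancel, sub_zero] at this
      exact this
    rw [hI]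
    linarith
  · have hij : ¬ (i = j ∧ θ < s0) := fun h' => f3b j (h ▸ h'.1)
    simp only
    rw [if_neg hij, dK_two h, dK_two h, eK_two h]
    simp_rw [kK_two (x := (i, θ)) (j := j) h]
    simp only [add_zero]
    have hg := dd_green (th - θ) s0 0 (fun t ht => by
      rw [Set.uIcc_of_ge (by linarith)] at ht
      exact DD_pos (th - θ) t ⟨by linarith [hx.2], by linarith [hx.1]⟩ ⟨ht.1, by linarith [ht.2]⟩
        (Or.inl (by linarith [hx.2])))
    have e : (0 - s0) / 2 = -(s0 / 2) := by ring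
    rw [e, cos_neg, sin_neg] at hg
    have hI : ∫ t in s0..(0 : ℝ), 2 * sin ((0 - t) / 2) * kn (th - θ) t
        = ∫ t in (0 : ℝ)..s0, 2 * sin (t / 2) * kn (th - θ) t := by
      rw [intervalIntegral.integral_symm, ← intervalIntegral.integral_neg]
      apply intervalIntegral.integral_congr
      intro t _
      simp only
      have : (0 - t) / 2 = -(t / 2) := by ring
      rw [this, sin_neg]; ring
    rw [hI] at hg
    linarith

theorem dK_green1
    (DD_pos : ∀ u w : ℝ, u ∈ Set.Icc 0 th → w ∈ Set.Icc 0 th → (0 < u ∨ 0 < w) → 0 < DD u w)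
    (dd_green : ∀ u p q : ℝ, (∀ t ∈ Set.uIcc p q, 0 < DD u t) →
      dd u q = dd u p * cos ((q - p) / 2) + 2 * de u p * sin ((q - p) / 2)
      + ∫ t in p..q, 2 * sin ((q - t) / 2) * kn u t)
    {x : Fin 3 × ℝ} {j : Fin 3} {s0 : ℝ} (hs : 0 < s0) (hs2 : s0 < th)
    (hx : x.2 ∈ Set.Ioo 0 th) (hne : x ≠ (j, th - s0)) :
    dK x j th = dK x j (th - s0) * cos (s0 / 2) + 2 * eK x j (th - s0) * sin (s0 / 2)
      + (if x.1 = j ∧ th - s0 < x.2 then 4 * sin ((th - x.2) / 2) else 0)
      + ∫ t in (0 : ℝ)..s0, 2 * sin (t / 2) * kK x j (th - t) := by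
  obtain ⟨i, θ⟩ := x
  simp only at hx
  rcases fin3_cases i j with h | h | h
  · subst h
    have hne' : θ ≠ th - s0 := fun h => hne (by rw [h])
    rw [dK_self rfl, dK_self rfl, eK_self rfl]
    simp_rw [kK_self (x := (i, θ)) rfl]
    simp only [mul_zero, intervalIntegral.integral_zero, add_zero, true_and]
    have h0 : |sin ((th - θ) / 2)| = sin ((th - θ) / 2) :=
      abs_sin_of_pos (by linarith [hx.2]) (by linarith [hx.1])
    rw [h0]
    rcases lt_or_gt_of_ne hne' with hlt | hgt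
    · rw [if_neg (by linarith), Real.sign_of_pos (by linarith),
        abs_sin_of_pos (by linarith) (by linarith [hx.1])]
      have : sin ((th - θ) / 2) = sin ((th - s0 - θ) / 2) * cos (s0 / 2)
          + cos ((th - s0 - θ) / 2) * sin (s0 / 2) := by
        rw [← sin_add]; congr 1; ring
      linarith
    · rw [if_pos (by linarith), Real.sign_of_neg (by linarith),
        abs_sin_of_neg (by linarith) (by linarith [hx.2])]
      have : sin ((th - θ) / 2) = sin ((th - s0 - θ) / 2) * cos (s0 / 2)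
          + cos ((th - s0 - θ) / 2) * sin (s0 / 2) := by
        rw [← sin_add]; congr 1; ring
      linarith
  · have hij : ¬ (i = j ∧ th - s0 < θ) := fun h' => f3a j (h ▸ h'.1)
    simp only
    rw [if_neg hij, dK_one h, dK_one h, eK_one h]
    simp_rw [kK_one (x := (i, θ)) (j := j) h]
    simp only [sub_self, sub_sub_cancel, add_zero]
    have hg := dd_green θ s0 0 (fun t ht => by
      rw [Set.uIcc_of_ge (by linarith)] at ht
      exact DD_pos θ t ⟨hx.1.le, hx.2.le⟩ ⟨ht.1, by linarith [ht.2]⟩ (Or.inl hx.1))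
    have e : (0 - s0) / 2 = -(s0 / 2) := by ring
    rw [e, cos_neg, sin_neg] at hg
    have hI : ∫ t in s0..(0 : ℝ), 2 * sin ((0 - t) / 2) * kn θ t
        = ∫ t in (0 : ℝ)..s0, 2 * sin (t / 2) * kn θ t := by
      rw [intervalIntegral.integral_symm, ← intervalIntegral.integral_neg]
      apply intervalIntegral.integral_congr
      intro t _
      simp only
      have : (0 - t) / 2 = -(t / 2) := by ring
      rw [this, sin_neg]; ring
    rw [hI] at hg
    linarith
  · have hij : ¬ (i = j ∧ th - s0 < θ) := fun h' => f3b j (h ▸ h'.1)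
    simp only
    rw [if_neg hij, dK_two h, dK_two h, eK_two h]
    simp_rw [kK_two (x := (i, θ)) (j := j) h]
    simp only [add_zero]
    have hg := dd_green (th - θ) (th - s0) th (fun t ht => by
      rw [Set.uIcc_of_le (by linarith)] at ht
      exact DD_pos (th - θ) t ⟨by linarith [hx.2], by linarith [hx.1]⟩
        ⟨by linarith [ht.1], ht.2⟩ (Or.inl (by linarith [hx.2])))
    have e : (th - (th - s0)) / 2 = s0 / 2 := by ring
    rw [e] at hg
    have hI : ∫ t in (0 : ℝ)..s0, 2 * sin (t / 2) * kn (th - θ) (th - t)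
        = ∫ t in (th - s0)..th, 2 * sin ((th - t) / 2) * kn (th - θ) t := by
      have := intervalIntegral.integral_comp_sub_left (a := 0) (b := s0)
        (fun t => 2 * sin ((th - t) / 2) * kn (th - θ) t) th
      simp only [sub_sub_cancel, sub_zero] at this
      exact this
    rw [hI]
    linarith

theorem f3p : ∀ i j : Fin 3, i = j → i = j + 1 + 2 := by decide
theorem f3q : ∀ i j : Fin 3, i = j + 2 → i = j + 1 + 1 := by decide

theorem dK_vertex
    (dd_zero : ∀ u : ℝ, u ∈ Set.Icc 0 th → dd u 0 = 2 * sin (u / 2)) (dd_th : ∀ u : ℝ, dd u th = 1)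
    {x : Fin 3 × ℝ} {j : Fin 3} (hx : x.2 ∈ Set.Icc 0 th) : dK x j th = dK x (j + 1) 0 := by
  obtain ⟨i, θ⟩ := x
  simp only at hx
  rcases fin3_cases i j with h | h | h
  · have h' : i = j + 1 + 2 := f3p i j h
    rw [dK_self h, dK_two h']
    simp only
    rw [dd_zero _ ⟨by linarith [hx.2], by linarith [hx.1]⟩,
      abs_sin_of_pos (by linarith [hx.2]) (by linarith [hx.1])]
  · rw [dK_one h, dK_self h]
    simp only [sub_self]
    rw [dd_zero _ hx, abs_sin_of_neg (by linarith [hx.1]) (by linarith [hx.2])]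
    have : (0 - θ) / 2 = -(θ / 2) := by ring
    rw [this, sin_neg]; ring
  · have h' : i = j + 1 + 1 := f3q i j h
    rw [dK_two h, dK_one h', dd_th]
    simp only [sub_zero]
    rw [dd_th]

theorem eK_green
    (DD_pos : ∀ u w : ℝ, u ∈ Set.Icc 0 th → w ∈ Set.Icc 0 th → (0 < u ∨ 0 < w) → 0 < DD u w)
    (de_green : ∀ u p q : ℝ, (∀ t ∈ Set.uIcc p q, 0 < DD u t) →
      de u q - de u p + (1 / 4) * ∫ t in p..q, dd u t = ∫ t in p..q, kn u t)
    {x : Fin 3 × ℝ} {j : Fin 3} {p q : ℝ} (hp : 0 ≤ p) (hpq : p < q) (hq : q ≤ th)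
    (hx : x.2 ∈ Set.Ioo 0 th) (hnp : x ≠ (j, p)) (hnq : x ≠ (j, q)) :
    eK x j q - eK x j p + (1 / 4) * ∫ t in p..q, dK x j t
      = (∫ t in p..q, kK x j t) + (if x.1 = j ∧ p < x.2 ∧ x.2 < q then 2 else 0) := by
  obtain ⟨i, θ⟩ := x
  simp only at hx
  rcases fin3_cases i j with h | h | h
  · subst h
    have hnp' : θ ≠ p := fun h => hnp (by rw [h])
    have hnq' : θ ≠ q := fun h => hnq (by rw [h])
    rw [eK_self rfl, eK_self rfl]
    simp_rw [kK_self (x := (i, θ)) rfl, dK_self (x := (i, θ)) rfl]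
    simp only [intervalIntegral.integral_zero, zero_add, true_and]
    rcases lt_or_gt_of_ne hnp' with h1 | h1
    · rw [if_neg (by rintro ⟨h2, _⟩; linarith), int_pos h1.le hpq.le (by linarith [hx.1]),
        Real.sign_of_pos (by linarith), Real.sign_of_pos (by linarith)]
      ring
    · rcases lt_or_gt_of_ne hnq' with h2 | h2
      · rw [if_pos ⟨h1, h2⟩]
        have hsplit : ∫ t in p..q, 2 * |sin ((t - θ) / 2)|
            = (∫ t in p..θ, 2 * |sin ((t - θ) / 2)|) + ∫ t in θ..q, 2 * |sin ((t - θ) / 2)| := by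
          rw [intervalIntegral.integral_add_adjacent_intervals] <;>
          · apply Continuous.intervalIntegrable; fun_prop
        rw [hsplit, int_neg (by linarith [hx.2]) h1.le le_rfl, int_pos le_rfl h2.le (by linarith [hx.1]),
          Real.sign_of_pos (by linarith), Real.sign_of_neg (by linarith)]
        simp
        ring
      · rw [if_neg (by rintro ⟨_, h3⟩; linarith), int_neg (by linarith [hx.2]) hpq.le h2.le,
          Real.sign_of_neg (by linarith), Real.sign_of_neg (by linarith)]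
        ring
  · have hij : ¬ (i = j ∧ p < θ ∧ θ < q) := fun h' => f3a j (h ▸ h'.1)
    simp only
    rw [if_neg hij, eK_one h, eK_one h]
    simp_rw [kK_one (x := (i, θ)) (j := j) h, dK_one (x := (i, θ)) (j := j) h]
    simp only [add_zero]
    have hg := de_green θ (th - q) (th - p) (fun t ht => by
      rw [Set.uIcc_of_le (by linarith)] at ht
      exact DD_pos θ t ⟨hx.1.le, hx.2.le⟩ ⟨by linarith [ht.1], by linarith [ht.2]⟩ (Or.inl hx.1))
    have hI : ∫ t in p..q, dd θ (th - t) = ∫ t in (th - q)..(th - p), dd θ t :=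
      intervalIntegral.integral_comp_sub_left (fun t => dd θ t) th
    have hI2 : ∫ t in p..q, kn θ (th - t) = ∫ t in (th - q)..(th - p), kn θ t :=
      intervalIntegral.integral_comp_sub_left (fun t => kn θ t) th
    rw [hI, hI2, ← hg]
    ring
  · have hij : ¬ (i = j ∧ p < θ ∧ θ < q) := fun h' => f3b j (h ▸ h'.1)
    simp only
    rw [if_neg hij, eK_two h, eK_two h]
    simp_rw [kK_two (x := (i, θ)) (j := j) h, dK_two (x := (i, θ)) (j := j) h]
    simp only [add_zero]
    exact de_green (th - θ) p q (fun t ht => by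
      rw [Set.uIcc_of_le hpq.le] at ht
      exact DD_pos (th - θ) t ⟨by linarith [hx.2], by linarith [hx.1]⟩
        ⟨by linarith [ht.1], by linarith [ht.2]⟩ (Or.inl (by linarith [hx.2])))

theorem dK_rot (x : Fin 3 × ℝ) (j : Fin 3) (r : ℝ) : dK (x.1 + 1, x.2) (j + 1) r = dK x j r := by
  simp [dK, add_left_inj]

theorem f3n1 {i j : Fin 3} (h : i = j + 1) : -i = -j + 2 := by subst h; revert j; decide
theorem f3n2 {i j : Fin 3} (h : i = j + 2) : -i = -j + 1 := by subst h; revert j; decide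

theorem dK_refl (x : Fin 3 × ℝ) (j : Fin 3) (r : ℝ) :
    dK (-x.1, th - x.2) (-j) (th - r) = dK x j r := by
  obtain ⟨i, θ⟩ := x
  rcases fin3_cases i j with h | h | h
  · subst h
    rw [dK_self rfl, dK_self rfl]
    simp only
    have : (th - r - (th - θ)) / 2 = -((r - θ) / 2) := by ring
    rw [this, sin_neg, abs_neg]
  · rw [dK_one (x := (i, θ)) (j := j) h, dK_two (x := (-i, th - θ)) (j := -j) (f3n1 h)]
    simp
  · rw [dK_two (x := (i, θ)) (j := j) h, dK_one (x := (-i, th - θ)) (j := -j) (f3n2 h)]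
    simp

theorem eK_rot (x : Fin 3 × ℝ) (j : Fin 3) (r : ℝ) : eK (x.1 + 1, x.2) (j + 1) r = eK x j r := by
  simp [eK, add_left_inj]

theorem eK_refl (x : Fin 3 × ℝ) (j : Fin 3) (r : ℝ) :
    eK (-x.1, th - x.2) (-j) (th - r) = -eK x j r := by
  obtain ⟨i, θ⟩ := x
  rcases fin3_cases i j with h | h | h
  · subst h
    rw [eK_self rfl, eK_self rfl]
    simp only
    have e1 : (th - r - (th - θ)) = -(r - θ) := by ring
    rw [e1, Real.sign_neg, neg_div, cos_neg]
    ring
  · rw [eK_one (x := (i, θ)) (j := j) h, eK_two (x := (-i, th - θ)) (j := -j) (f3n1 h)]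
    simp
  · rw [eK_two (x := (i, θ)) (j := j) h, eK_one (x := (-i, th - θ)) (j := -j) (f3n2 h)]
    simp

end Pool.Agent.Helper342.RV.G1
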