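import Pool.Agent.Helper342.RV.Defs

namespace Pool.Agent.Helper342.RV.G2

open Real























open MeasureTheory





/-! ### helpers -/

structure h441_Ker : Prop where
    DD_pos : ∀ u w : ℝ, u ∈ Set.Icc 0 th → w ∈ Set.Icc 0 th → (0 < u ∨ 0 < w) → 0 < DD u w
    dd_zero : ∀ u : ℝ, u ∈ Set.Icc 0 th → dd u 0 = 2 * sin (u / 2)
    dd_th : ∀ u : ℝ, dd u th = 1
    dK_lower : ∀ (x : Fin 3 × ℝ) (j : Fin 3) (p q : ℝ), x.2 ∈ Set.Icc 0 th → p ∈ Set.Icc 0 th →
      q ∈ Set.Icc 0 th → dK x j p * cos ((q - p) / 2) + 2 * eK x j p * sin ((q - p) / 2)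
      + (if x = (j, p) then 2 * sin (|q - p| / 2) else 0) ≤ dK x j q
    dK_green0 : ∀ (x : Fin 3 × ℝ) (j : Fin 3) (s0 : ℝ), 0 < s0 → s0 < th →
      x.2 ∈ Set.Ioo 0 th → x ≠ (j, s0) →
      dK x j 0 = dK x j s0 * cos (s0 / 2) - 2 * eK x j s0 * sin (s0 / 2)
      + (if x.1 = j ∧ x.2 < s0 then 4 * sin (x.2 / 2) else 0)
      + ∫ t in (0 : ℝ)..s0, 2 * sin (t / 2) * kK x j t
    dK_green1 : ∀ (x : Fin 3 × ℝ) (j : Fin 3) (s0 : ℝ), 0 < s0 → s0 < th →
      x.2 ∈ Set.Ioo 0 th → x ≠ (j, th - s0) →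
      dK x j th = dK x j (th - s0) * cos (s0 / 2) + 2 * eK x j (th - s0) * sin (s0 / 2)
      + (if x.1 = j ∧ th - s0 < x.2 then 4 * sin ((th - x.2) / 2) else 0)
      + ∫ t in (0 : ℝ)..s0, 2 * sin (t / 2) * kK x j (th - t)
    dK_vertex : ∀ (x : Fin 3 × ℝ) (j : Fin 3), x.2 ∈ Set.Icc 0 th → dK x j th = dK x (j + 1) 0
    eK_green : ∀ (x : Fin 3 × ℝ) (j : Fin 3) (p q : ℝ), 0 ≤ p → p < q → q ≤ th →
      x.2 ∈ Set.Ioo 0 th → x ≠ (j, p) → x ≠ (j, q) →
      eK x j q - eK x j p + (1 / 4) * ∫ t in p..q, dK x j t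
      = (∫ t in p..q, kK x j t) + (if x.1 = j ∧ p < x.2 ∧ x.2 < q then 2 else 0)

lemma h441_th_pos : 0 < th := by
  unfold th
  have := Real.pi_pos
  linarith

lemma h441_contDD : Continuous (fun q : ℝ × ℝ => DD q.1 q.2) := by
  unfold DD
  fun_prop

lemma h441_contdd : Continuous (fun q : ℝ × ℝ => dd q.1 q.2) := by
  unfold dd
  exact h441_contDD.sqrt

lemma h441_contkn_num : Continuous (fun q : ℝ × ℝ => (2 * cos (th - q.1) - 1) ^ 2) := by
  fun_prop

lemma h441_measkn : Measurable (fun q : ℝ × ℝ => kn q.1 q.2) := by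
  unfold kn
  exact h441_contkn_num.measurable.div ((h441_contdd.measurable.pow_const 3).const_mul 4)

lemma h441_measde : Measurable (fun q : ℝ × ℝ => de q.1 q.2) := by
  unfold de
  apply Measurable.div _ h441_contdd.measurable
  fun_prop

lemma h441_meassign : Measurable Real.sign := by
  unfold Real.sign
  exact Measurable.ite measurableSet_Iio measurable_const
    (Measurable.ite measurableSet_Ioi measurable_const measurable_const)

lemma h441_measset (j : Fin 3) : MeasurableSet {p : (Fin 3 × ℝ) × ℝ | p.1.1 = j} :=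
  (measurable_fst.comp measurable_fst) (measurableSet_singleton j)

lemma h441_m1 : Measurable (fun p : (Fin 3 × ℝ) × ℝ => ((p.1.2, p.2) : ℝ × ℝ)) := by fun_prop
lemma h441_m2 : Measurable (fun p : (Fin 3 × ℝ) × ℝ => ((p.1.2, th - p.2) : ℝ × ℝ)) := by fun_prop
lemma h441_m3 : Measurable (fun p : (Fin 3 × ℝ) × ℝ => ((th - p.1.2, p.2) : ℝ × ℝ)) := by fun_prop

lemma h441_meas_dK (j : Fin 3) : Measurable (fun p : (Fin 3 × ℝ) × ℝ => dK p.1 j p.2) := by
  unfold dK
  have h1 : Measurable (fun p : (Fin 3 × ℝ) × ℝ => 2 * |sin ((p.2 - p.1.2) / 2)|) := by fun_prop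
  have h2 := h441_contdd.measurable.comp h441_m2
  have h3 := h441_contdd.measurable.comp h441_m3
  exact Measurable.ite (h441_measset j) h1 (Measurable.ite (h441_measset (j + 1)) h2 h3)

lemma h441_meas_eK (j : Fin 3) : Measurable (fun p : (Fin 3 × ℝ) × ℝ => eK p.1 j p.2) := by
  unfold eK
  have h0 : Measurable (fun p : (Fin 3 × ℝ) × ℝ => p.2 - p.1.2) := by fun_prop
  have h1 := h441_meassign.comp h0
  have h1' : Measurable (fun p : (Fin 3 × ℝ) × ℝ => cos ((p.2 - p.1.2) / 2)) := by fun_prop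
  have h2 := h441_measde.comp h441_m2
  have h3 := h441_measde.comp h441_m3
  exact Measurable.ite (h441_measset j) (h1.mul h1')
    (Measurable.ite (h441_measset (j + 1)) h2.neg h3)

lemma h441_meas_kK (j : Fin 3) : Measurable (fun p : (Fin 3 × ℝ) × ℝ => kK p.1 j p.2) := by
  unfold kK
  have h2 := h441_measkn.comp h441_m2
  have h3 := h441_measkn.comp h441_m3
  exact Measurable.ite (h441_measset j) measurable_const
    (Measurable.ite (h441_measset (j + 1)) h2 h3)

lemma h441_low (hk : h441_Ker) {z : ℝ} (hz : 0 < z) (hz2 : z < th / 2) :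
    ∃ d0 : ℝ, 0 < d0 ∧ ∀ u ∈ Set.Icc z (th - z), ∀ w ∈ Set.Icc 0 th, d0 ≤ dd u w := by
  have hth := h441_th_pos
  have hc : IsCompact (Set.Icc z (th - z) ×ˢ Set.Icc 0 th) := isCompact_Icc.prod isCompact_Icc
  have hne : (Set.Icc z (th - z) ×ˢ Set.Icc 0 th).Nonempty :=
    ⟨(z, 0), ⟨le_rfl, by linarith⟩, ⟨le_rfl, hth.le⟩⟩
  have hmn := hc.exists_isMinOn hne h441_contdd.continuousOn
  obtain ⟨⟨u0, w0⟩, hmem, hmin⟩ := hmn
  have hmin' : ∀ u ∈ Set.Icc z (th - z), ∀ w ∈ Set.Icc 0 th, dd u0 w0 ≤ dd u w := by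
    intro u hu w hw
    have h := hmin (show (u, w) ∈ Set.Icc z (th - z) ×ˢ Set.Icc 0 th from ⟨hu, hw⟩)
    exact h
  refine ⟨dd u0 w0, ?_, hmin'⟩
  unfold dd
  apply Real.sqrt_pos.mpr
  have h1 : u0 ∈ Set.Icc z (th - z) := hmem.1
  have h2 : w0 ∈ Set.Icc 0 th := hmem.2
  exact hk.DD_pos u0 w0 ⟨by linarith [h1.1], by linarith [h1.2]⟩ h2 (Or.inl (by linarith [h1.1]))

lemma h441_dd_le (u w : ℝ) : dd u w ≤ 3 := by
  unfold dd
  rw [Real.sqrt_le_iff]
  refine ⟨by norm_num, ?_⟩
  unfold DD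
  have := Real.neg_one_le_cos (th - u)
  have := Real.neg_one_le_cos (th - w)
  have := Real.neg_one_le_cos (th + u + w)
  linarith

lemma h441_dd_nonneg (u w : ℝ) : 0 ≤ dd u w := Real.sqrt_nonneg _

lemma h441_dK_bd (x : Fin 3 × ℝ) (j : Fin 3) (r : ℝ) : |dK x j r| ≤ 3 := by
  unfold dK
  split_ifs
  · have := Real.abs_sin_le_one ((r - x.2) / 2)
    rw [abs_mul, abs_abs, abs_of_pos (show (0 : ℝ) < 2 by norm_num)]
    linarith
  · rw [abs_of_nonneg (h441_dd_nonneg _ _)]
    exact h441_dd_le _ _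
  · rw [abs_of_nonneg (h441_dd_nonneg _ _)]
    exact h441_dd_le _ _

lemma h441_de_bd {d0 u w : ℝ} (hd : 0 < d0) (h : d0 ≤ dd u w) : |de u w| ≤ 2 / d0 := by
  unfold de
  rw [abs_div, abs_of_pos (lt_of_lt_of_le hd h)]
  apply div_le_div₀ (by norm_num) _ hd h
  have h1 := abs_sub (sin (th + u + w)) (sin (th - w))
  have := Real.abs_sin_le_one (th + u + w)
  have := Real.abs_sin_le_one (th - w)
  linarith

lemma h441_kn_bd {d0 u w : ℝ} (hd : 0 < d0) (h : d0 ≤ dd u w) : |kn u w| ≤ 9 / (4 * d0 ^ 3) := by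
  unfold kn
  have hp := lt_of_lt_of_le hd h
  rw [abs_of_nonneg (by positivity)]
  apply div_le_div₀ (by norm_num) _ (by positivity)
  · apply mul_le_mul_of_nonneg_left _ (by norm_num)
    exact pow_le_pow_left₀ hd.le h 3
  · have h1 := Real.neg_one_le_cos (th - u)
    have h2 := Real.cos_le_one (th - u)
    nlinarith

/-- the good set of sources -/
lemma h441_bds (hk : h441_Ker) {z : ℝ} (hz : 0 < z) (hz2 : z < th / 2) :
    ∃ C : ℝ, 0 < C ∧ ∀ x : Fin 3 × ℝ, x.2 ∈ Set.Icc z (th - z) → ∀ j : Fin 3,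
      (∀ r ∈ Set.Icc 0 th, |eK x j r| ≤ C ∧ |kK x j r| ≤ C) ∧
      ContinuousOn (fun t => kK x j t) (Set.Icc 0 th) := by
  obtain ⟨d0, hd0, hlow⟩ := h441_low hk hz hz2
  refine ⟨1 + 2 / d0 + 9 / (4 * d0 ^ 3), by positivity, ?_⟩
  intro x hx j
  have hx' : th - x.2 ∈ Set.Icc z (th - z) := ⟨by linarith [hx.2], by linarith [hx.1]⟩
  have h9 : 0 < 9 / (4 * d0 ^ 3) := by positivity
  have h2 : 0 < 2 / d0 := by positivity
  refine ⟨?_, ?_⟩
  · intro r hr
    have hr' : th - r ∈ Set.Icc 0 th := ⟨by linarith [hr.2], by linarith [hr.1]⟩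
    constructor
    · unfold eK
      split_ifs
      · rw [abs_mul]
        have h3 : |Real.sign (r - x.2)| ≤ 1 := by
          rcases Real.sign_apply_eq (r - x.2) with h | h | h <;> rw [h] <;> norm_num
        have h4 := Real.abs_cos_le_one ((r - x.2) / 2)
        have h5 : 0 ≤ |cos ((r - x.2) / 2)| := abs_nonneg _
        nlinarith
      · rw [abs_neg]
        have := h441_de_bd hd0 (hlow x.2 hx (th - r) hr')
        linarith
      · have := h441_de_bd hd0 (hlow (th - x.2) hx' r hr)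
        linarith
    · unfold kK
      split_ifs
      · rw [abs_zero]
        positivity
      · have := h441_kn_bd hd0 (hlow x.2 hx (th - r) hr')
        linarith
      · have := h441_kn_bd hd0 (hlow (th - x.2) hx' r hr)
        linarith
  · unfold kK
    split_ifs
    · exact continuousOn_const
    · unfold kn
      apply ContinuousOn.div
      · fun_prop
      · apply ContinuousOn.mul continuousOn_const
        apply ContinuousOn.pow
        have h := (h441_contdd.comp (by fun_prop : Continuous (fun t : ℝ => (x.2, th - t)))).continuousOn (s := Set.Icc 0 th)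
        exact h
      · intro t ht
        have := hlow x.2 hx (th - t) ⟨by linarith [ht.2], by linarith [ht.1]⟩
        have : 0 < dd x.2 (th - t) := lt_of_lt_of_le hd0 this
        positivity
    · unfold kn
      apply ContinuousOn.div
      · fun_prop
      · apply ContinuousOn.mul continuousOn_const
        apply ContinuousOn.pow
        have h := (h441_contdd.comp (by fun_prop : Continuous (fun t : ℝ => (th - x.2, t)))).continuousOn (s := Set.Icc 0 th)
        exact h
      · intro t ht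
        have := hlow (th - x.2) hx' t ht
        have : 0 < dd (th - x.2) t := lt_of_lt_of_le hd0 this
        positivity

lemma h441_fub {ν : Measure (Fin 3 × ℝ)} [IsProbabilityMeasure ν] (F : (Fin 3 × ℝ) → ℝ → ℝ)
    (hF : Measurable (Function.uncurry F)) (C p q : ℝ) (hpq : p ≤ q)
    (hb : ∀ᵐ x ∂ν, ∀ t ∈ Set.Icc p q, |F x t| ≤ C) :
    Integrable (fun x => ∫ t in p..q, F x t) ν ∧
    ∫ x, (∫ t in p..q, F x t) ∂ν = ∫ t in p..q, (∫ x, F x t ∂ν) := by
  have hint : Integrable (Function.uncurry F) (ν.prod (volume.restrict (Set.Ioc p q))) := by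
    apply Integrable.of_bound hF.aestronglyMeasurable C
    have hs : MeasurableSet {y : (Fin 3 × ℝ) × ℝ | ‖Function.uncurry F y‖ ≤ C} :=
      measurableSet_le hF.norm measurable_const
    have := (Measure.ae_prod_mem_iff_ae_ae_mem (μ := ν) (ν := volume.restrict (Set.Ioc p q)) hs).mpr (by
      filter_upwards [hb] with x hx
      rw [ae_restrict_iff' measurableSet_Ioc]
      exact Filter.Eventually.of_forall fun t ht => hx t ⟨ht.1.le, ht.2⟩)
    exact this
  simp only [intervalIntegral.integral_of_le hpq]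
  exact ⟨hint.integral_prod_left, integral_integral_swap hint⟩

section meas
variable {a s0 z : ℝ} {ν : Measure (Fin 3 × ℝ)}

lemma h441_G (hz2 : z < s0) (hs : s0 < th / 2) (h : Adm a s0 z ν) :
    ∀ᵐ x ∂ν, x.2 ∈ Set.Icc z (th - z) := by
  filter_upwards [h.supp] with x hx
  rcases hx with hx | hx | hx
  · exact ⟨by linarith [hx.1], by linarith [hx.2]⟩
  · exact ⟨by linarith, by linarith⟩
  · exact ⟨by linarith, by linarith⟩

lemma h441_sec {g : (Fin 3 × ℝ) × ℝ → ℝ} (hg : Measurable g) (r : ℝ) :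
    Measurable (fun x : Fin 3 × ℝ => g (x, r)) := by
  have h := hg.comp (measurable_id.prodMk measurable_const : Measurable (fun x : Fin 3 × ℝ => (x, r)))
  exact h

lemma h441_int_dK [IsProbabilityMeasure ν] (j : Fin 3) (r : ℝ) :
    Integrable (fun x => dK x j r) ν := by
  have hm := h441_sec (h441_meas_dK j) r
  apply Integrable.of_bound hm.aestronglyMeasurable 3
  exact Filter.Eventually.of_forall fun x => h441_dK_bd x j r

lemma h441_int_eK [IsProbabilityMeasure ν] (hk : h441_Ker) (hz : 0 < z) (hz2 : z < s0)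
    (hs : s0 < th / 2) (h : Adm a s0 z ν) (j : Fin 3) (r : ℝ) (hr : r ∈ Set.Icc 0 th) :
    Integrable (fun x => eK x j r) ν := by
  have hm := h441_sec (h441_meas_eK j) r
  obtain ⟨C, hC, hb⟩ := h441_bds hk hz (by linarith)
  apply Integrable.of_bound hm.aestronglyMeasurable C
  filter_upwards [h441_G hz2 hs h] with x hx
  exact ((hb x hx j).1 r hr).1

lemma h441_int_kK [IsProbabilityMeasure ν] (hk : h441_Ker) (hz : 0 < z) (hz2 : z < s0)
    (hs : s0 < th / 2) (h : Adm a s0 z ν) (j : Fin 3) (r : ℝ) (hr : r ∈ Set.Icc 0 th) :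
    Integrable (fun x => kK x j r) ν := by
  have hm := h441_sec (h441_meas_kK j) r
  obtain ⟨C, hC, hb⟩ := h441_bds hk hz (by linarith)
  apply Integrable.of_bound hm.aestronglyMeasurable C
  filter_upwards [h441_G hz2 hs h] with x hx
  exact ((hb x hx j).1 r hr).2

lemma h441_contP [IsProbabilityMeasure ν] (hk : h441_Ker) (hz : 0 < z) (hz2 : z < s0)
    (hs : s0 < th / 2) (h : Adm a s0 z ν) (j : Fin 3) :
    ContinuousOn (fun t => ∫ x, kK x j t ∂ν) (Set.Icc 0 th) := by
  obtain ⟨C, hC, hb⟩ := h441_bds hk hz (by linarith : z < th / 2)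
  apply continuousOn_of_dominated (bound := fun _ => C)
  · intro t ht
    exact (h441_sec (h441_meas_kK j) t).aestronglyMeasurable
  · intro t ht
    filter_upwards [h441_G hz2 hs h] with x hx
    exact ((hb x hx j).1 t ht).2
  · exact integrable_const C
  · filter_upwards [h441_G hz2 hs h] with x hx
    exact (hb x hx j).2

lemma h441_measP [IsProbabilityMeasure ν] (j : Fin 3) :
    Measurable (fun t => ∫ x, kK x j t ∂ν) := by
  have h := (h441_meas_kK j).stronglyMeasurable.integral_prod_left' (μ := ν)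
  exact h.measurable

lemma h441_lim (A a δ0 : ℝ) (hδ0 : 0 < δ0)
    (h : ∀ δ, 0 < δ → δ < δ0 → 2 * A * sin (δ / 2) ≤ a * (1 - cos (δ / 2))) : A ≤ 0 := by
  by_contra hA
  push Not at hA
  have hpi := Real.pi_pos
  have hpi3 := Real.pi_gt_three
  set c : ℝ := A / (|a| + 1) with hc
  have hcp : 0 < c := by positivity
  set δ : ℝ := min (δ0 / 2) (min 1 c) with hδ
  have hδp : 0 < δ := lt_min (by linarith) (lt_min one_pos hcp)
  have hδ1 : δ ≤ 1 := (min_le_right _ _).trans (min_le_left _ _)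
  have hδc : δ ≤ c := (min_le_right _ _).trans (min_le_right _ _)
  have hδ2 : δ < δ0 := lt_of_le_of_lt (min_le_left _ _) (by linarith)
  have h1 := h δ hδp hδ2
  have h2 : 2 / Real.pi * (δ / 2) ≤ sin (δ / 2) := Real.mul_le_sin (by linarith) (by linarith)
  have h3 : 1 - (δ / 2) ^ 2 / 2 ≤ cos (δ / 2) := Real.one_sub_sq_div_two_le_cos
  have h4 : a * (1 - cos (δ / 2)) ≤ |a| * ((δ / 2) ^ 2 / 2) := by
    have h5 : 0 ≤ 1 - cos (δ / 2) := by linarith [Real.cos_le_one (δ / 2)]
    calc a * (1 - cos (δ / 2)) ≤ |a| * (1 - cos (δ / 2)) :=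
          mul_le_mul_of_nonneg_right (le_abs_self a) h5
      _ ≤ |a| * ((δ / 2) ^ 2 / 2) := mul_le_mul_of_nonneg_left (by linarith) (abs_nonneg a)
  have h6 : 2 * A * (2 / Real.pi * (δ / 2)) ≤ |a| * ((δ / 2) ^ 2 / 2) :=
    (mul_le_mul_of_nonneg_left h2 (by linarith)).trans (h1.trans h4)
  have h7 : 2 / Real.pi ≥ 1 / 2 := by
    rw [ge_iff_le, div_le_div_iff₀ (by norm_num) hpi]
    have := Real.pi_lt_four
    linarith
  have h8 : 2 * A * (1 / 2 * (δ / 2)) ≤ 2 * A * (2 / Real.pi * (δ / 2)) := by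
    apply mul_le_mul_of_nonneg_left _ (by linarith)
    apply mul_le_mul_of_nonneg_right h7 (by linarith)
  have h9 : A / 2 ≤ |a| * δ / 8 := by
    have : (A / 2) * δ ≤ (|a| * δ / 8) * δ := by nlinarith
    exact le_of_mul_le_mul_right this hδp
  have h10 : |a| * δ ≤ |a| * c := mul_le_mul_of_nonneg_left hδc (abs_nonneg a)
  have h11 : |a| * c ≤ A := by
    rw [hc, ← mul_div_assoc, div_le_iff₀ (by positivity)]
    nlinarith [abs_nonneg a]
  linarith

lemma h441_intpt [IsProbabilityMeasure ν] (y : Fin 3 × ℝ) (c : ℝ) :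
    Integrable (fun x => if x = y then c else 0) ν ∧
    ∫ x, (if x = y then c else 0) ∂ν = c * ν.real {y} := by
  have h1 : (fun x => if x = y then c else (0 : ℝ)) = ({y} : Set (Fin 3 × ℝ)).indicator (fun _ => c) := by
    funext x
    by_cases hx : x = y
    · simp [hx]
    · simp [hx]
  rw [h1]
  constructor
  · exact (integrable_const c).indicator (measurableSet_singleton y)
  · rw [integral_indicator_const c (measurableSet_singleton y), smul_eq_mul, mul_comm]

lemma h441_Ezero [IsProbabilityMeasure ν] (hk : h441_Ker) (hz : 0 < z) (hz2 : z < s0)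
    (hs : s0 < th / 2) (h : Adm a s0 z ν) (j : Fin 3) (p : ℝ) (hp : p ∈ Set.Ioo s0 (th - s0)) :
    ∫ x, eK x j p ∂ν = 0 ∧ ν.real {(j, p)} = 0 := by
  have hth := h441_th_pos
  set E := ∫ x, eK x j p ∂ν with hE
  set m := ν.real {(j, p)} with hm
  have hm0 : 0 ≤ m := measureReal_nonneg
  have hpI : p ∈ Set.Icc 0 th := ⟨by linarith [hp.1], by linarith [hp.2]⟩
  have key : ∀ q ∈ Set.Icc s0 (th - s0), a * cos ((q - p) / 2) + 2 * E * sin ((q - p) / 2)
      + 2 * sin (|q - p| / 2) * m ≤ a := by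
    intro q hq
    have hqI : q ∈ Set.Icc 0 th := ⟨by linarith [hq.1], by linarith [hq.2]⟩
    have i1 : Integrable (fun x => dK x j p * cos ((q - p) / 2)) ν :=
      (h441_int_dK j p).mul_const _
    have i2 : Integrable (fun x => 2 * eK x j p * sin ((q - p) / 2)) ν :=
      ((h441_int_eK hk hz hz2 hs h j p hpI).const_mul 2).mul_const _
    have i12 : Integrable (fun x => dK x j p * cos ((q - p) / 2) +
      2 * eK x j p * sin ((q - p) / 2)) ν := i1.add i2
    have i3 := h441_intpt (ν := ν) (j, p) (2 * sin (|q - p| / 2))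
    have h1 : ∫ x, (dK x j p * cos ((q - p) / 2) + 2 * eK x j p * sin ((q - p) / 2)
      + (if x = (j, p) then 2 * sin (|q - p| / 2) else 0)) ∂ν ≤ ∫ x, dK x j q ∂ν := by
      apply integral_mono_ae ((i1.add i2).add i3.1) (h441_int_dK j q)
      filter_upwards [h441_G hz2 hs h] with x hx
      exact hk.dK_lower x j p q ⟨by linarith [hx.1], by linarith [hx.2]⟩ hpI hqI
    rw [integral_add i12 i3.1, integral_add i1 i2, i3.2, integral_mul_const,
      integral_mul_const, integral_const_mul, h.pot j p ⟨hp.1.le, hp.2.le⟩, h.pot j q hq] at h1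
    exact h1
  have hA : E + m ≤ 0 := by
    apply h441_lim (E + m) a (th - s0 - p) (by linarith [hp.2])
    intro δ hδ hδ2
    have h1 := key (p + δ) ⟨by linarith [hp.1], by linarith⟩
    rw [show p + δ - p = δ by ring, abs_of_pos hδ] at h1
    nlinarith
  have hB : m - E ≤ 0 := by
    apply h441_lim (m - E) a (p - s0) (by linarith [hp.1])
    intro δ hδ hδ2
    have h1 := key (p - δ) ⟨by linarith, by linarith [hp.2]⟩
    rw [show p - δ - p = -δ by ring, abs_neg, abs_of_pos hδ, neg_div, Real.cos_neg,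
      Real.sin_neg] at h1
    nlinarith
  constructor
  · linarith
  · linarith

lemma h441_null [IsProbabilityMeasure ν] (hk : h441_Ker) (hz : 0 < z) (hz2 : z < s0)
    (hs : s0 < th / 2) (h : Adm a s0 z ν) (j : Fin 3) (p : ℝ) (hp : p ∈ Set.Icc s0 (th - s0)) :
    ∫ x, eK x j p ∂ν = 0 ∧ ∀ᵐ x ∂ν, x ≠ (j, p) := by
  rcases eq_or_lt_of_le hp.1 with h1 | h1
  · refine ⟨by rw [← h1]; exact (h.der j).1, ?_⟩
    filter_upwards [h.supp] with x hx hxe
    have : x.2 = s0 := by rw [hxe, h1]
    rcases hx with hx | hx | hx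
    · linarith [hx.1]
    · linarith
    · linarith
  · rcases eq_or_lt_of_le hp.2 with h2 | h2
    · refine ⟨by rw [h2]; exact (h.der j).2, ?_⟩
      filter_upwards [h.supp] with x hx hxe
      have : x.2 = th - s0 := by rw [hxe, h2]
      rcases hx with hx | hx | hx
      · linarith [hx.2]
      · linarith
      · linarith
    · have h3 := h441_Ezero hk hz hz2 hs h j p ⟨h1, h2⟩
      refine ⟨h3.1, ?_⟩
      have h4 : ν {(j, p)} = 0 := by
        have := h3.2
        rwa [measureReal_eq_zero_iff] at this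
      rw [ae_iff]
      convert h4 using 2
      ext x
      simp

lemma h441_Ioo [IsProbabilityMeasure ν] (hk : h441_Ker) (hz : 0 < z) (hz2 : z < s0)
    (hs : s0 < th / 2) (h : Adm a s0 z ν) (j : Fin 3) (p q : ℝ) (hp : s0 ≤ p) (hpq : p < q)
    (hq : q ≤ th - s0) :
    ν.real ({j} ×ˢ Set.Ioo p q) = ∫ t in p..q, (1 / 2) * (a / 4 - ∫ x, kK x j t ∂ν) := by
  have hth := h441_th_pos
  obtain ⟨C, hC, hb⟩ := h441_bds hk hz (by linarith : z < th / 2)
  have hpI : p ∈ Set.Icc 0 th := ⟨by linarith, by linarith⟩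
  have hqI : q ∈ Set.Icc 0 th := ⟨by linarith, by linarith⟩
  have np := h441_null hk hz hz2 hs h j p ⟨hp, by linarith⟩
  have nq := h441_null hk hz hz2 hs h j q ⟨by linarith, hq⟩
  have fd := h441_fub (ν := ν) (fun x t => dK x j t) (h441_meas_dK j) 3 p q hpq.le
    (Filter.Eventually.of_forall fun x t _ => h441_dK_bd x j t)
  have fk := h441_fub (ν := ν) (fun x t => kK x j t) (h441_meas_kK j) C p q hpq.le (by
    filter_upwards [h441_G hz2 hs h] with x hx t ht
    exact ((hb x hx j).1 t ⟨by linarith [ht.1], by linarith [ht.2]⟩).2)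
  have hset : MeasurableSet (({j} : Set (Fin 3)) ×ˢ Set.Ioo p q) :=
    (measurableSet_singleton j).prod measurableSet_Ioo
  have hind : (fun x : Fin 3 × ℝ => if x.1 = j ∧ p < x.2 ∧ x.2 < q then (2 : ℝ) else 0) =
      (({j} : Set (Fin 3)) ×ˢ Set.Ioo p q).indicator (fun _ => 2) := by
    funext x
    by_cases hx : x.1 = j ∧ p < x.2 ∧ x.2 < q
    · rw [if_pos hx, Set.indicator_of_mem]
      exact ⟨hx.1, hx.2⟩
    · rw [if_neg hx, Set.indicator_of_notMem]
      intro hc
      exact hx ⟨hc.1, hc.2⟩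
  have i4 : Integrable (fun x : Fin 3 × ℝ => if x.1 = j ∧ p < x.2 ∧ x.2 < q then (2 : ℝ) else 0) ν := by
    rw [hind]
    exact (integrable_const 2).indicator hset
  have h1 : ∫ x, (eK x j q - eK x j p + (1 / 4) * ∫ t in p..q, dK x j t) ∂ν =
      ∫ x, ((∫ t in p..q, kK x j t) + (if x.1 = j ∧ p < x.2 ∧ x.2 < q then 2 else 0)) ∂ν := by
    apply integral_congr_ae
    filter_upwards [h441_G hz2 hs h, np.2, nq.2] with x hx h2 h3
    exact hk.eK_green x j p q (by linarith) hpq (by linarith)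
      ⟨by linarith [hx.1], by linarith [hx.2]⟩ h2 h3
  have i1 := h441_int_eK hk hz hz2 hs h j q hqI
  have i2 := h441_int_eK hk hz hz2 hs h j p hpI
  have i12 : Integrable (fun x => eK x j q - eK x j p) ν := i1.sub i2
  have i5 : Integrable (fun x => (1 / 4) * ∫ t in p..q, dK x j t) ν := fd.1.const_mul _
  rw [integral_add i12 i5, integral_sub i1 i2, np.1, nq.1,
    integral_const_mul, fd.2, integral_add fk.1 i4, fk.2, hind,
    integral_indicator_const _ hset] at h1
  have h2 : ∫ t in p..q, (∫ x, dK x j t ∂ν) = ∫ t in p..q, a := by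
    apply intervalIntegral.integral_congr
    intro t ht
    rw [Set.uIcc_of_le hpq.le] at ht
    exact h.pot j t ⟨by linarith [ht.1], by linarith [ht.2]⟩
  rw [h2, intervalIntegral.integral_const, smul_eq_mul, smul_eq_mul] at h1
  have hPint : IntervalIntegrable (fun t => ∫ x, kK x j t ∂ν) volume p q := by
    apply ContinuousOn.intervalIntegrable
    rw [Set.uIcc_of_le hpq.le]
    exact (h441_contP hk hz hz2 hs h j).mono (fun t ht => ⟨by linarith [ht.1], by linarith [ht.2]⟩)
  rw [intervalIntegral.integral_const_mul, intervalIntegral.integral_sub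
    intervalIntegrable_const hPint, intervalIntegral.integral_const, smul_eq_mul]
  linarith

end meas

/-- the density -/
noncomputable def h441_H (a : ℝ) (ν : Measure (Fin 3 × ℝ)) (j : Fin 3) (t : ℝ) : ℝ :=
  (1 / 2) * (a / 4 - ∫ x, kK x j t ∂ν)

section meas2
variable {a s0 z : ℝ} {ν : Measure (Fin 3 × ℝ)}

lemma h441_contH [IsProbabilityMeasure ν] (hk : h441_Ker) (hz : 0 < z) (hz2 : z < s0)
    (hs : s0 < th / 2) (h : Adm a s0 z ν) (j : Fin 3) :
    ContinuousOn (h441_H a ν j) (Set.Icc 0 th) := by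
  unfold h441_H
  exact continuousOn_const.mul (continuousOn_const.sub (h441_contP hk hz hz2 hs h j))

lemma h441_measH [IsProbabilityMeasure ν] (j : Fin 3) : Measurable (h441_H a ν j) := by
  unfold h441_H
  exact (measurable_const.sub (h441_measP j)).const_mul _

lemma h441_Hnn [IsProbabilityMeasure ν] (hk : h441_Ker) (hz : 0 < z) (hz2 : z < s0)
    (hs : s0 < th / 2) (h : Adm a s0 z ν) (j : Fin 3) (t : ℝ) (ht : t ∈ Set.Ioo s0 (th - s0)) :
    0 ≤ h441_H a ν j t := by
  by_contra hneg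
  push Not at hneg
  have hcont : ContinuousAt (h441_H a ν j) t :=
    (h441_contH hk hz hz2 hs h j).continuousAt (Icc_mem_nhds (by linarith [ht.1]) (by linarith [ht.2]))
  have hev := (hcont.eventually (gt_mem_nhds hneg)).and (Ioo_mem_nhds ht.1 ht.2)
  obtain ⟨δ, hδ, hball⟩ := Metric.eventually_nhds_iff.mp hev
  have hin : ∀ u ∈ Set.Icc (t - δ / 2) (t + δ / 2), h441_H a ν j u < 0 ∧ u ∈ Set.Ioo s0 (th - s0) := by
    intro u hu
    apply hball
    rw [Real.dist_eq, abs_lt]
    constructor <;> linarith [hu.1, hu.2]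
  have hl := (hin (t - δ / 2) ⟨le_rfl, by linarith⟩).2
  have hr := (hin (t + δ / 2) ⟨by linarith, le_rfl⟩).2
  have h1 := h441_Ioo hk hz hz2 hs h j (t - δ / 2) (t + δ / 2) hl.1.le (by linarith) hr.2.le
  have h2 : (0 : ℝ) ≤ ν.real ({j} ×ˢ Set.Ioo (t - δ / 2) (t + δ / 2)) := measureReal_nonneg
  have hint : IntervalIntegrable (fun u => -(h441_H a ν j u)) volume (t - δ / 2) (t + δ / 2) := by
    apply ContinuousOn.intervalIntegrable
    rw [Set.uIcc_of_le (by linarith)]
    exact ((h441_contH hk hz hz2 hs h j).mono (fun u hu => by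
      have := (hin u hu).2
      exact ⟨by linarith [this.1], by linarith [this.2]⟩)).neg
  have h3 := intervalIntegral.intervalIntegral_pos_of_pos_on hint (fun u hu => by
    have := (hin u ⟨hu.1.le, hu.2.le⟩).1
    linarith) (by linarith)
  rw [intervalIntegral.integral_neg] at h3
  have h4 : ∫ u in (t - δ / 2)..(t + δ / 2), h441_H a ν j u =
      ν.real ({j} ×ˢ Set.Ioo (t - δ / 2) (t + δ / 2)) := by
    rw [h1]
    rfl
  linarith

lemma h441_meq [IsProbabilityMeasure ν] (hk : h441_Ker) (hz : 0 < z) (hz2 : z < s0)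
    (hs : s0 < th / 2) (h : Adm a s0 z ν) (j : Fin 3) :
    (ν.restrict (({j} : Set (Fin 3)) ×ˢ Set.Ioo s0 (th - s0))).map Prod.snd =
      (volume.restrict (Set.Ioo s0 (th - s0))).withDensity
        (fun u => ENNReal.ofReal (h441_H a ν j u)) := by
  apply Real.measure_ext_Ioo_rat
  intro r s
  rw [Measure.map_apply measurable_snd measurableSet_Ioo,
    Measure.restrict_apply (measurable_snd measurableSet_Ioo),
    withDensity_apply _ measurableSet_Ioo, Measure.restrict_restrict measurableSet_Ioo,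
    Set.Ioo_inter_Ioo]
  have hset : (Prod.snd ⁻¹' Set.Ioo (r : ℝ) (s : ℝ)) ∩ (({j} : Set (Fin 3)) ×ˢ Set.Ioo s0 (th - s0)) =
      ({j} : Set (Fin 3)) ×ˢ Set.Ioo (max (r : ℝ) s0) (min (s : ℝ) (th - s0)) := by
    rw [← Set.Ioo_inter_Ioo]
    ext x
    simp only [Set.mem_inter_iff, Set.mem_preimage, Set.mem_prod, Set.mem_singleton_iff]
    tauto
  rw [hset]
  have e1 : (r : ℝ) ⊔ s0 = max (r : ℝ) s0 := rfl
  have e2 : (s : ℝ) ⊓ (th - s0) = min (s : ℝ) (th - s0) := rfl
  rw [e1, e2]
  have hp : s0 ≤ max (r : ℝ) s0 := le_max_right _ _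
  have hq : min (s : ℝ) (th - s0) ≤ th - s0 := min_le_right _ _
  generalize max (r : ℝ) s0 = p at hp
  generalize min (s : ℝ) (th - s0) = q at hq
  by_cases hpq : p < q
  · have h1 := h441_Ioo hk hz hz2 hs h j p q hp hpq hq
    rw [← ofReal_measureReal, h1, ← ofReal_integral_eq_lintegral_ofReal]
    · congr 1
      rw [intervalIntegral.integral_of_le hpq.le, integral_Ioc_eq_integral_Ioo]
      rfl
    · have hci : ContinuousOn (h441_H a ν j) (Set.Icc p q) :=
        (h441_contH hk hz hz2 hs h j).mono (fun u hu => ⟨by linarith [hu.1], by linarith [hu.2]⟩)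
      exact (hci.integrableOn_Icc).mono_set Set.Ioo_subset_Icc_self
    · rw [Filter.EventuallyLE, ae_restrict_iff' measurableSet_Ioo]
      exact Filter.Eventually.of_forall fun u hu =>
        h441_Hnn hk hz hz2 hs h j u ⟨by linarith [hu.1], by linarith [hu.2]⟩
  · rw [Set.Ioo_eq_empty hpq]
    simp

lemma h441_dens [IsProbabilityMeasure ν] (hk : h441_Ker) (hz : 0 < z) (hz2 : z < s0)
    (hs : s0 < th / 2) (h : Adm a s0 z ν) (j : Fin 3) (g : ℝ → ℝ) (hg : Measurable g) :
    ∫ x in ({j} : Set (Fin 3)) ×ˢ Set.Ioo s0 (th - s0), g x.2 ∂ν =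
      ∫ u in s0..(th - s0), h441_H a ν j u * g u := by
  have h1 := integral_map (μ := ν.restrict (({j} : Set (Fin 3)) ×ˢ Set.Ioo s0 (th - s0)))
    (φ := Prod.snd) measurable_snd.aemeasurable (f := g) hg.aestronglyMeasurable
  have hm : Measurable (fun u => ENNReal.ofReal (h441_H a ν j u)) :=
    ENNReal.measurable_ofReal.comp (h441_measH j)
  rw [← h1, h441_meq hk hz hz2 hs h j, integral_withDensity_eq_integral_toReal_smul hm
    (Filter.Eventually.of_forall fun u => ENNReal.ofReal_lt_top),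
    intervalIntegral.integral_of_le (by linarith), integral_Ioc_eq_integral_Ioo]
  apply setIntegral_congr_fun measurableSet_Ioo
  intro u hu
  simp only [Function.comp_apply, smul_eq_mul]
  rw [ENNReal.toReal_ofReal (h441_Hnn hk hz hz2 hs h j u hu)]

lemma h441_decomp [IsProbabilityMeasure ν] (hk : h441_Ker) (hz : 0 < z) (hz2 : z < s0)
    (hs : s0 < th / 2) (h : Adm a s0 z ν) (G : Fin 3 × ℝ → ℝ) (hG : Integrable G ν)
    (hGm : ∀ i, Measurable (fun u => G (i, u))) :
    ∫ x, G x ∂ν = ∑ i : Fin 3, (ν.real {(i, z)} * G (i, z) + ν.real {(i, th - z)} * G (i, th - z) +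
      ∫ u in s0..(th - s0), h441_H a ν i u * G (i, u)) := by
  classical
  have hsetC : ∀ i : Fin 3, MeasurableSet (({i} : Set (Fin 3)) ×ˢ Set.Ioo s0 (th - s0)) :=
    fun i => (measurableSet_singleton i).prod measurableSet_Ioo
  have hae : G =ᵐ[ν] fun x => ∑ i : Fin 3, (({((i : Fin 3), z)} : Set (Fin 3 × ℝ)).indicator G x +
      ({((i : Fin 3), th - z)} : Set (Fin 3 × ℝ)).indicator G x +
      (({i} : Set (Fin 3)) ×ˢ Set.Ioo s0 (th - s0)).indicator G x) := by
    filter_upwards [h.supp] with x hx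
    have hzne : z ≠ th - z := by linarith
    rw [Finset.sum_eq_single x.1]
    · rcases hx with hx | hx | hx
      · rw [Set.indicator_of_notMem, Set.indicator_of_notMem, Set.indicator_of_mem]
        · ring
        · exact ⟨rfl, hx⟩
        · intro hc
          have : x.2 = th - z := by
            have := congrArg Prod.snd (Set.mem_singleton_iff.mp hc)
            exact this
          linarith [hx.2]
        · intro hc
          have : x.2 = z := by
            have := congrArg Prod.snd (Set.mem_singleton_iff.mp hc)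
            exact this
          linarith [hx.1]
      · rw [Set.indicator_of_mem, Set.indicator_of_notMem, Set.indicator_of_notMem]
        · ring
        · intro hc
          have : x.2 ∈ Set.Ioo s0 (th - s0) := hc.2
          linarith [this.1]
        · intro hc
          have : x.2 = th - z := by
            have := congrArg Prod.snd (Set.mem_singleton_iff.mp hc)
            exact this
          exact hzne (hx.symm.trans this)
        · rw [Set.mem_singleton_iff]
          exact Prod.ext rfl hx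
      · rw [Set.indicator_of_notMem, Set.indicator_of_mem, Set.indicator_of_notMem]
        · ring
        · intro hc
          have : x.2 ∈ Set.Ioo s0 (th - s0) := hc.2
          linarith [this.2]
        · rw [Set.mem_singleton_iff]
          exact Prod.ext rfl hx
        · intro hc
          have : x.2 = z := by
            have := congrArg Prod.snd (Set.mem_singleton_iff.mp hc)
            exact this
          exact hzne (this.symm.trans hx)
    · intro i _ hi
      rw [Set.indicator_of_notMem, Set.indicator_of_notMem, Set.indicator_of_notMem]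
      · ring
      · intro hc
        exact hi hc.1.symm
      · intro hc
        exact hi (congrArg Prod.fst (Set.mem_singleton_iff.mp hc)).symm
      · intro hc
        exact hi (congrArg Prod.fst (Set.mem_singleton_iff.mp hc)).symm
    · intro hc
      exact absurd (Finset.mem_univ _) hc
  rw [integral_congr_ae hae, integral_finsetSum]
  · apply Finset.sum_congr rfl
    intro i _
    have j1 : Integrable (({((i : Fin 3), z)} : Set (Fin 3 × ℝ)).indicator G) ν :=
      hG.indicator (measurableSet_singleton _)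
    have j2 : Integrable (({((i : Fin 3), th - z)} : Set (Fin 3 × ℝ)).indicator G) ν :=
      hG.indicator (measurableSet_singleton _)
    have j3 : Integrable ((({i} : Set (Fin 3)) ×ˢ Set.Ioo s0 (th - s0)).indicator G) ν :=
      hG.indicator (hsetC i)
    have j12 : Integrable (fun x => ({((i : Fin 3), z)} : Set (Fin 3 × ℝ)).indicator G x +
      ({((i : Fin 3), th - z)} : Set (Fin 3 × ℝ)).indicator G x) ν := j1.add j2
    rw [integral_add j12 j3, integral_add j1 j2, integral_indicator (measurableSet_singleton _),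
      integral_indicator (measurableSet_singleton _), integral_indicator (hsetC i),
      integral_singleton, integral_singleton, smul_eq_mul, smul_eq_mul]
    congr 1
    rw [← h441_dens hk hz hz2 hs h i _ (hGm i)]
    apply setIntegral_congr_fun (hsetC i)
    intro x hx
    have : x.1 = i := hx.1
    show G x = G (i, x.2)
    rw [← this]
  · intro i _
    have j1 : Integrable (({((i : Fin 3), z)} : Set (Fin 3 × ℝ)).indicator G) ν :=
      hG.indicator (measurableSet_singleton _)
    have j2 : Integrable (({((i : Fin 3), th - z)} : Set (Fin 3 × ℝ)).indicator G) ν :=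
      hG.indicator (measurableSet_singleton _)
    have j3 : Integrable ((({i} : Set (Fin 3)) ×ˢ Set.Ioo s0 (th - s0)).indicator G) ν :=
      hG.indicator (hsetC i)
    exact (j1.add j2).add j3

lemma h441_sum3 (f : Fin 3 → ℝ) (j : Fin 3) : ∑ i, f i = f j + f (j + 1) + f (j + 2) := by
  rw [Fin.sum_univ_three]
  fin_cases j
  · show f 0 + f 1 + f 2 = f 0 + f 1 + f 2
    rfl
  · show f 0 + f 1 + f 2 = f 1 + f 2 + f 0
    ring
  · show f 0 + f 1 + f 2 = f 2 + f 0 + f 1
    ring

lemma h441_j1 (j : Fin 3) : j + 1 ≠ j := by revert j; decide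
lemma h441_j2 (j : Fin 3) : j + 2 ≠ j := by revert j; decide
lemma h441_j21 (j : Fin 3) : j + 2 ≠ j + 1 := by revert j; decide

lemma h441_kK0 (j : Fin 3) (u t : ℝ) : kK (j, u) j t = 0 := by
  unfold kK
  rw [if_pos rfl]
lemma h441_kK1 (j : Fin 3) (u t : ℝ) : kK (j + 1, u) j t = kn u (th - t) := by
  unfold kK
  rw [if_neg (h441_j1 j), if_pos rfl]
lemma h441_kK2 (j : Fin 3) (u t : ℝ) : kK (j + 2, u) j t = kn (th - u) t := by
  unfold kK
  rw [if_neg (h441_j2 j), if_neg (h441_j21 j)]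
lemma h441_dK0 (j : Fin 3) (u r : ℝ) : dK (j, u) j r = 2 * |sin ((r - u) / 2)| := by
  unfold dK
  rw [if_pos rfl]
lemma h441_dK1 (j : Fin 3) (u r : ℝ) : dK (j + 1, u) j r = dd u (th - r) := by
  unfold dK
  rw [if_neg (h441_j1 j), if_pos rfl]
lemma h441_dK2 (j : Fin 3) (u r : ℝ) : dK (j + 2, u) j r = dd (th - u) r := by
  unfold dK
  rw [if_neg (h441_j2 j), if_neg (h441_j21 j)]

lemma h441_sec2 {g : (Fin 3 × ℝ) × ℝ → ℝ} (hg : Measurable g) (i : Fin 3) (r : ℝ) :
    Measurable (fun u : ℝ => g ((i, u), r)) := by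
  have h0 : Measurable (fun u : ℝ => (((i, u), r) : (Fin 3 × ℝ) × ℝ)) := by fun_prop
  have h := hg.comp h0
  exact h

lemma h441_Pform [IsProbabilityMeasure ν] (hk : h441_Ker) (hz : 0 < z) (hz2 : z < s0)
    (hs : s0 < th / 2) (h : Adm a s0 z ν) (j : Fin 3) (t : ℝ) (ht : t ∈ Set.Icc 0 th) :
    ∫ x, kK x j t ∂ν = Pj s0 z (fun i => ν.real {(i, z)}) (fun i => ν.real {(i, th - z)})
      (h441_H a ν) j t := by
  rw [h441_decomp hk hz hz2 hs h (fun x => kK x j t) (h441_int_kK hk hz hz2 hs h j t ht)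
    (fun i => h441_sec2 (h441_meas_kK j) i t), h441_sum3 _ j]
  simp only [h441_kK0, h441_kK1, h441_kK2]
  unfold Pj
  simp only [mul_zero, intervalIntegral.integral_zero, add_zero, zero_add, sub_sub_cancel]
  ring

lemma h441_sinint (s0 : ℝ) : ∫ t in (0 : ℝ)..s0, 2 * sin (t / 2) = 4 * (1 - cos (s0 / 2)) := by
  have h1 : ∀ t ∈ Set.uIcc 0 s0, HasDerivAt (fun t : ℝ => -4 * cos (t / 2)) (2 * sin (t / 2)) t := by
    intro t _
    have h2 : HasDerivAt (fun t : ℝ => t / 2) (1 / 2) t := (hasDerivAt_id t).div_const 2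
    have h3 := (h2.cos).const_mul (-4)
    refine h3.congr_deriv ?_
    ring
  rw [intervalIntegral.integral_eq_sub_of_hasDerivAt h1]
  · simp
    ring
  · apply Continuous.intervalIntegrable
    fun_prop

end meas2

section meas3
variable {a s0 z : ℝ} {ν : Measure (Fin 3 × ℝ)}

lemma h441_gapint (hk : h441_Ker) (hz : 0 < z) (hz2 : z < s0) (hs : s0 < th / 2)
    [IsProbabilityMeasure ν] (h : Adm a s0 z ν) (j : Fin 3) (P : ℝ → ℝ)
    (hP : ContinuousOn P (Set.Icc 0 s0)) (m : ℝ)
    (he : a = a * cos (s0 / 2) + 4 * sin (z / 2) * m + ∫ t in (0 : ℝ)..s0, 2 * sin (t / 2) * P t) :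
    4 * m * sin (z / 2) = ∫ t in (0 : ℝ)..s0, 2 * sin (t / 2) * (a / 4 - P t) := by
  have h0 : (0 : ℝ) ≤ s0 := by linarith
  have i1 : IntervalIntegrable (fun t => 2 * sin (t / 2)) volume 0 s0 := by
    apply Continuous.intervalIntegrable
    fun_prop
  have i2 : IntervalIntegrable (fun t => 2 * sin (t / 2) * P t) volume 0 s0 := by
    apply ContinuousOn.intervalIntegrable
    rw [Set.uIcc_of_le h0]
    exact ContinuousOn.mul (by fun_prop) hP
  have e1 : ∫ t in (0 : ℝ)..s0, 2 * sin (t / 2) * (a / 4 - P t) =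
      (∫ t in (0 : ℝ)..s0, 2 * sin (t / 2)) * (a / 4) - ∫ t in (0 : ℝ)..s0, 2 * sin (t / 2) * P t := by
    rw [← intervalIntegral.integral_mul_const, ← intervalIntegral.integral_sub (i1.mul_const _) i2]
    apply intervalIntegral.integral_congr
    intro t _
    simp only
    ring
  rw [e1, h441_sinint]
  linarith

lemma h441_gap0 (hk : h441_Ker) (hz : 0 < z) (hz2 : z < s0) (hs : s0 < th / 2)
    [IsProbabilityMeasure ν] (h : Adm a s0 z ν) (j : Fin 3) :
    4 * ν.real {(j, z)} * sin (z / 2) =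
      ∫ t in (0 : ℝ)..s0, 2 * sin (t / 2) * (a / 4 - ∫ x, kK x j t ∂ν) := by
  have hth := h441_th_pos
  obtain ⟨C, hC, hb⟩ := h441_bds hk hz (by linarith : z < th / 2)
  apply h441_gapint hk hz hz2 hs h j
  · exact (h441_contP hk hz hz2 hs h j).mono (fun t ht => ⟨ht.1, by linarith [ht.2]⟩)
  have hs0I : s0 ∈ Set.Icc 0 th := ⟨by linarith, by linarith⟩
  have hmeas : Measurable (Function.uncurry (fun (x : Fin 3 × ℝ) (t : ℝ) => 2 * sin (t / 2) * kK x j t)) := by
    have h1 : Measurable (fun p : (Fin 3 × ℝ) × ℝ => 2 * sin (p.2 / 2)) := by fun_prop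
    exact h1.mul (h441_meas_kK j)
  have fk := h441_fub (ν := ν) (fun x t => 2 * sin (t / 2) * kK x j t) hmeas (2 * C) 0 s0
    (by linarith) (by
    filter_upwards [h441_G hz2 hs h] with x hx t ht
    have h1 := ((hb x hx j).1 t ⟨by linarith [ht.1], by linarith [ht.2]⟩).2
    have h2 := Real.abs_sin_le_one (t / 2)
    rw [abs_mul, abs_mul, abs_of_pos (show (0 : ℝ) < 2 by norm_num)]
    have h3 : 0 ≤ |kK x j t| := abs_nonneg _
    nlinarith)
  have np := h441_null hk hz hz2 hs h j s0 ⟨le_rfl, by linarith⟩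
  have i1 : Integrable (fun x => dK x j s0 * cos (s0 / 2)) ν := (h441_int_dK j s0).mul_const _
  have i2 : Integrable (fun x => 2 * eK x j s0 * sin (s0 / 2)) ν :=
    ((h441_int_eK hk hz hz2 hs h j s0 hs0I).const_mul 2).mul_const _
  have i12 : Integrable (fun x => dK x j s0 * cos (s0 / 2) - 2 * eK x j s0 * sin (s0 / 2)) ν :=
    i1.sub i2
  have i3 := h441_intpt (ν := ν) (j, z) (4 * sin (z / 2))
  have i123 : Integrable (fun x => dK x j s0 * cos (s0 / 2) - 2 * eK x j s0 * sin (s0 / 2)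
      + (if x = (j, z) then 4 * sin (z / 2) else 0)) ν := i12.add i3.1
  have h1 : ∫ x, dK x j 0 ∂ν = ∫ x, (dK x j s0 * cos (s0 / 2) - 2 * eK x j s0 * sin (s0 / 2)
      + (if x = (j, z) then 4 * sin (z / 2) else 0)
      + ∫ t in (0 : ℝ)..s0, 2 * sin (t / 2) * kK x j t) ∂ν := by
    apply integral_congr_ae
    filter_upwards [h441_G hz2 hs h, np.2, h.supp] with x hx h2 h3
    rw [hk.dK_green0 x j s0 (by linarith) (by linarith)
      ⟨by linarith [hx.1], by linarith [hx.2]⟩ h2]
    congr 2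
    by_cases hxz : x = (j, z)
    · rw [if_pos hxz, if_pos, hxz]
      rw [hxz]
      exact ⟨rfl, hz2⟩
    · rw [if_neg hxz, if_neg]
      rintro ⟨h4, h5⟩
      rcases h3 with h3 | h3 | h3
      · linarith [h3.1]
      · exact hxz (Prod.ext h4 h3)
      · linarith
  rw [integral_add i123 fk.1, integral_add i12 i3.1, integral_sub i1 i2, i3.2, integral_mul_const,
    integral_mul_const, integral_const_mul, h.vert j, h.pot j s0 ⟨le_rfl, by linarith⟩, np.1,
    fk.2] at h1
  simp only [integral_const_mul] at h1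
  linarith

lemma h441_gap1 (hk : h441_Ker) (hz : 0 < z) (hz2 : z < s0) (hs : s0 < th / 2)
    [IsProbabilityMeasure ν] (h : Adm a s0 z ν) (j : Fin 3) :
    4 * ν.real {(j, th - z)} * sin (z / 2) =
      ∫ t in (0 : ℝ)..s0, 2 * sin (t / 2) * (a / 4 - ∫ x, kK x j (th - t) ∂ν) := by
  have hth := h441_th_pos
  obtain ⟨C, hC, hb⟩ := h441_bds hk hz (by linarith : z < th / 2)
  apply h441_gapint hk hz hz2 hs h j
  · exact (h441_contP hk hz hz2 hs h j).comp (by fun_prop)
      (fun t ht => ⟨by linarith [ht.2], by linarith [ht.1]⟩)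
  have hs0I : th - s0 ∈ Set.Icc 0 th := ⟨by linarith, by linarith⟩
  have hmeas : Measurable (Function.uncurry
      (fun (x : Fin 3 × ℝ) (t : ℝ) => 2 * sin (t / 2) * kK x j (th - t))) := by
    have h1 : Measurable (fun p : (Fin 3 × ℝ) × ℝ => 2 * sin (p.2 / 2)) := by fun_prop
    have h2 : Measurable (fun p : (Fin 3 × ℝ) × ℝ => ((p.1, th - p.2) : (Fin 3 × ℝ) × ℝ)) := by
      fun_prop
    have h3 := (h441_meas_kK j).comp h2
    exact h1.mul h3
  have fk := h441_fub (ν := ν) (fun x t => 2 * sin (t / 2) * kK x j (th - t)) hmeas (2 * C) 0 s0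
    (by linarith) (by
    filter_upwards [h441_G hz2 hs h] with x hx t ht
    have h1 := ((hb x hx j).1 (th - t) ⟨by linarith [ht.2], by linarith [ht.1]⟩).2
    have h2 := Real.abs_sin_le_one (t / 2)
    rw [abs_mul, abs_mul, abs_of_pos (show (0 : ℝ) < 2 by norm_num)]
    have h3 : 0 ≤ |kK x j (th - t)| := abs_nonneg _
    nlinarith)
  have np := h441_null hk hz hz2 hs h j (th - s0) ⟨by linarith, le_rfl⟩
  have i1 : Integrable (fun x => dK x j (th - s0) * cos (s0 / 2)) ν :=
    (h441_int_dK j (th - s0)).mul_const _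
  have i2 : Integrable (fun x => 2 * eK x j (th - s0) * sin (s0 / 2)) ν :=
    ((h441_int_eK hk hz hz2 hs h j (th - s0) hs0I).const_mul 2).mul_const _
  have i12 : Integrable (fun x => dK x j (th - s0) * cos (s0 / 2) +
      2 * eK x j (th - s0) * sin (s0 / 2)) ν := i1.add i2
  have i3 := h441_intpt (ν := ν) (j, th - z) (4 * sin (z / 2))
  have i123 : Integrable (fun x => dK x j (th - s0) * cos (s0 / 2) +
      2 * eK x j (th - s0) * sin (s0 / 2)
      + (if x = (j, th - z) then 4 * sin (z / 2) else 0)) ν := i12.add i3.1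
  have h1 : ∫ x, dK x (j + 1) 0 ∂ν = ∫ x, (dK x j (th - s0) * cos (s0 / 2) +
      2 * eK x j (th - s0) * sin (s0 / 2)
      + (if x = (j, th - z) then 4 * sin (z / 2) else 0)
      + ∫ t in (0 : ℝ)..s0, 2 * sin (t / 2) * kK x j (th - t)) ∂ν := by
    apply integral_congr_ae
    filter_upwards [h441_G hz2 hs h, np.2, h.supp] with x hx h2 h3
    rw [← hk.dK_vertex x j ⟨by linarith [hx.1], by linarith [hx.2]⟩,
      hk.dK_green1 x j s0 (by linarith) (by linarith)
      ⟨by linarith [hx.1], by linarith [hx.2]⟩ h2]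
    congr 2
    by_cases hxz : x = (j, th - z)
    · rw [if_pos hxz, if_pos, hxz]
      · simp only [sub_sub_cancel]
      · rw [hxz]
        exact ⟨rfl, by simp only; linarith⟩
    · rw [if_neg hxz, if_neg]
      rintro ⟨h4, h5⟩
      rcases h3 with h3 | h3 | h3
      · linarith [h3.2]
      · linarith
      · exact hxz (Prod.ext h4 h3)
  rw [integral_add i123 fk.1, integral_add i12 i3.1, integral_add i1 i2, i3.2, integral_mul_const,
    integral_mul_const, integral_const_mul, h.vert (j + 1), h.pot j (th - s0) ⟨by linarith, le_rfl⟩,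
    np.1, fk.2] at h1
  simp only [integral_const_mul] at h1
  linarith

end meas3

theorem adm_data
    (DD_pos : ∀ u w : ℝ, u ∈ Set.Icc 0 th → w ∈ Set.Icc 0 th → (0 < u ∨ 0 < w) → 0 < DD u w)
    (dd_zero : ∀ u : ℝ, u ∈ Set.Icc 0 th → dd u 0 = 2 * sin (u / 2)) (dd_th : ∀ u : ℝ, dd u th = 1)
    (dK_lower : ∀ (x : Fin 3 × ℝ) (j : Fin 3) (p q : ℝ), x.2 ∈ Set.Icc 0 th → p ∈ Set.Icc 0 th →
      q ∈ Set.Icc 0 th → dK x j p * cos ((q - p) / 2) + 2 * eK x j p * sin ((q - p) / 2)
      + (if x = (j, p) then 2 * sin (|q - p| / 2) else 0) ≤ dK x j q)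
    (dK_green0 : ∀ (x : Fin 3 × ℝ) (j : Fin 3) (s0 : ℝ), 0 < s0 → s0 < th →
      x.2 ∈ Set.Ioo 0 th → x ≠ (j, s0) →
      dK x j 0 = dK x j s0 * cos (s0 / 2) - 2 * eK x j s0 * sin (s0 / 2)
      + (if x.1 = j ∧ x.2 < s0 then 4 * sin (x.2 / 2) else 0)
      + ∫ t in (0 : ℝ)..s0, 2 * sin (t / 2) * kK x j t)
    (dK_green1 : ∀ (x : Fin 3 × ℝ) (j : Fin 3) (s0 : ℝ), 0 < s0 → s0 < th →
      x.2 ∈ Set.Ioo 0 th → x ≠ (j, th - s0) →
      dK x j th = dK x j (th - s0) * cos (s0 / 2) + 2 * eK x j (th - s0) * sin (s0 / 2)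
      + (if x.1 = j ∧ th - s0 < x.2 then 4 * sin ((th - x.2) / 2) else 0)
      + ∫ t in (0 : ℝ)..s0, 2 * sin (t / 2) * kK x j (th - t))
    (dK_vertex : ∀ (x : Fin 3 × ℝ) (j : Fin 3), x.2 ∈ Set.Icc 0 th → dK x j th = dK x (j + 1) 0)
    (eK_green : ∀ (x : Fin 3 × ℝ) (j : Fin 3) (p q : ℝ), 0 ≤ p → p < q → q ≤ th →
      x.2 ∈ Set.Ioo 0 th → x ≠ (j, p) → x ≠ (j, q) →
      eK x j q - eK x j p + (1 / 4) * ∫ t in p..q, dK x j t
      = (∫ t in p..q, kK x j t) + (if x.1 = j ∧ p < x.2 ∧ x.2 < q then 2 else 0))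
    {a s0 z : ℝ} (hz : 0 < z) (hz2 : z < s0) (hs : s0 < th / 2)
    {ν : Measure (Fin 3 × ℝ)} (h : Adm a s0 z ν) :
    ∃ H : Fin 3 → ℝ → ℝ, (∀ j, ContinuousOn (H j) (Set.Icc s0 (th - s0))) ∧
      (∀ j, ∀ t ∈ Set.Icc s0 (th - s0), H j t = (1 / 2) * (a / 4
        - Pj s0 z (fun i => ν.real {(i, z)}) (fun i => ν.real {(i, th - z)}) H j t)) ∧
      (∀ j, ν.real {(j, z)} * (2 * sin (z / 2)) + ν.real {(j, th - z)} * (2 * sin ((th - z) / 2))
        + (∫ u in s0..(th - s0), H j u * (2 * sin (u / 2)))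
        + (ν.real {(j + 1, z)} + ν.real {(j + 1, th - z)} + ∫ u in s0..(th - s0), H (j + 1) u)
        + (ν.real {(j + 2, z)} * (2 * sin ((th - z) / 2))
        + ν.real {(j + 2, th - z)} * (2 * sin (z / 2))
        + ∫ u in s0..(th - s0), H (j + 2) u * (2 * sin ((th - u) / 2))) = a) ∧
      (∑ j, (ν.real {(j, z)} + ν.real {(j, th - z)} + ∫ u in s0..(th - s0), H j u) = 1) ∧
      (∀ j, 4 * ν.real {(j, z)} * sin (z / 2) = ∫ t in (0 : ℝ)..s0, 2 * sin (t / 2) * (a / 4
        - Pj s0 z (fun i => ν.real {(i, z)}) (fun i => ν.real {(i, th - z)}) H j t)) ∧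
      (∀ j, 4 * ν.real {(j, th - z)} * sin (z / 2)
        = ∫ t in (0 : ℝ)..s0, 2 * sin (t / 2) * (a / 4
        - Pj s0 z (fun i => ν.real {(i, z)}) (fun i => ν.real {(i, th - z)}) H j (th - t))) := by
  have hk : h441_Ker := ⟨DD_pos, dd_zero, dd_th, dK_lower, dK_green0, dK_green1, dK_vertex, eK_green⟩
  have hprob := h.prob
  have hth := h441_th_pos
  have hPf := fun (j : Fin 3) (t : ℝ) (ht : t ∈ Set.Icc 0 th) => h441_Pform hk hz hz2 hs h j t ht
  refine ⟨h441_H a ν, ?_, ?_, ?_, ?_, ?_, ?_⟩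
  · intro j
    exact (h441_contH hk hz hz2 hs h j).mono (fun t ht => ⟨by linarith [ht.1], by linarith [ht.2]⟩)
  · intro j t ht
    rw [← hPf j t ⟨by linarith [ht.1], by linarith [ht.2]⟩]
    rfl
  · intro j
    have h1 := h441_decomp hk hz hz2 hs h (fun x => dK x j 0) (h441_int_dK j 0)
      (fun i => h441_sec2 (h441_meas_dK j) i 0)
    rw [h.vert j, h441_sum3 _ j] at h1
    simp only [h441_dK0, h441_dK1, h441_dK2, sub_zero, dd_th, mul_one, sub_sub_cancel] at h1
    have habs : ∀ u ∈ Set.Icc 0 th, |sin ((0 - u) / 2)| = sin (u / 2) := by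
      intro u hu
      rw [zero_sub, neg_div, Real.sin_neg, abs_neg, abs_of_nonneg]
      apply Real.sin_nonneg_of_nonneg_of_le_pi
      · linarith [hu.1]
      · have := hu.2
        unfold th at this
        linarith [Real.pi_pos]
    have hzI : z ∈ Set.Icc 0 th := ⟨hz.le, by linarith⟩
    have hzI' : th - z ∈ Set.Icc 0 th := ⟨by linarith, by linarith⟩
    rw [habs z hzI, habs (th - z) hzI', dd_zero (th - z) hzI', dd_zero z hzI] at h1
    have hi0 : ∫ u in s0..(th - s0), h441_H a ν j u * (2 * |sin ((0 - u) / 2)|) =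
        ∫ u in s0..(th - s0), h441_H a ν j u * (2 * sin (u / 2)) := by
      apply intervalIntegral.integral_congr
      intro u hu
      rw [Set.uIcc_of_le (by linarith)] at hu
      simp only
      rw [habs u ⟨by linarith [hu.1], by linarith [hu.2]⟩]
    have hi2 : ∫ u in s0..(th - s0), h441_H a ν (j + 2) u * dd (th - u) 0 =
        ∫ u in s0..(th - s0), h441_H a ν (j + 2) u * (2 * sin ((th - u) / 2)) := by
      apply intervalIntegral.integral_congr
      intro u hu
      rw [Set.uIcc_of_le (by linarith)] at hu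
      simp only
      rw [dd_zero (th - u) ⟨by linarith [hu.2], by linarith [hu.1]⟩]
    rw [hi0, hi2] at h1
    linarith
  · have h1 := h441_decomp hk hz hz2 hs h (fun _ => (1 : ℝ)) (integrable_const 1)
      (fun i => measurable_const)
    rw [integral_const, smul_eq_mul, mul_one, probReal_univ] at h1
    simp only [mul_one] at h1
    exact h1.symm
  · intro j
    rw [h441_gap0 hk hz hz2 hs h j]
    apply intervalIntegral.integral_congr
    intro t ht
    rw [Set.uIcc_of_le (by linarith)] at ht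
    simp only
    rw [hPf j t ⟨ht.1, by linarith [ht.2]⟩]
  · intro j
    rw [h441_gap1 hk hz hz2 hs h j]
    apply intervalIntegral.integral_congr
    intro t ht
    rw [Set.uIcc_of_le (by linarith)] at ht
    simp only
    rw [hPf j (th - t) ⟨by linarith [ht.2], by linarith [ht.1]⟩]

end Pool.Agent.Helper342.RV.G2
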