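import Pool.Agent.Helper342.RV.Defs

namespace Pool.Agent.Helper342.RV.G3

open Real

























open MeasureTheory Set



theorem g3_param (a b c d : ℝ) (hab : a ≤ b) (hcd : c ≤ d) (F : ℝ → ℝ → ℝ)
    (hF : ContinuousOn (Function.uncurry F) (Set.Icc a b ×ˢ Set.Icc c d)) :
    ContinuousOn (fun t => ∫ u in c..d, F t u) (Set.Icc a b) := by
  have hG : Continuous (Function.uncurry (fun t u : ℝ =>
      F (Set.projIcc a b hab t : ℝ) (Set.projIcc c d hcd u : ℝ))) := by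
    have h1 : Continuous (fun p : ℝ × ℝ =>
        (((Set.projIcc a b hab p.1 : ℝ), (Set.projIcc c d hcd p.2 : ℝ)) : ℝ × ℝ)) := by
      apply Continuous.prodMk
      · exact continuous_subtype_val.comp (continuous_projIcc.comp continuous_fst)
      · exact continuous_subtype_val.comp (continuous_projIcc.comp continuous_snd)
    have h2 := hF.comp_continuous h1 (fun p =>
      ⟨(Set.projIcc a b hab p.1).2, (Set.projIcc c d hcd p.2).2⟩)
    exact h2
  have hI := intervalIntegral.continuous_parametric_intervalIntegral_of_continuous'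
    (μ := MeasureTheory.volume) hG c d
  refine hI.continuousOn.congr ?_
  intro t ht
  apply intervalIntegral.integral_congr
  intro u hu
  rw [Set.uIcc_of_le hcd] at hu
  show F t u = F (Set.projIcc a b hab t : ℝ) (Set.projIcc c d hcd u : ℝ)
  rw [Set.projIcc_of_mem hab ht, Set.projIcc_of_mem hcd hu]

theorem g3_kn_cont
    (DD_pos : ∀ u w : ℝ, u ∈ Set.Icc 0 th → w ∈ Set.Icc 0 th → (0 < u ∨ 0 < w) → 0 < DD u w)
    (S : Set (ℝ × ℝ)) (f g : ℝ × ℝ → ℝ) (hf : Continuous f) (hg : Continuous g)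
    (h1 : ∀ p ∈ S, f p ∈ Set.Icc 0 th) (h2 : ∀ p ∈ S, g p ∈ Set.Icc 0 th)
    (h3 : ∀ p ∈ S, 0 < f p) : ContinuousOn (fun p => kn (f p) (g p)) S := by
  unfold kn
  apply ContinuousOn.div
  · apply Continuous.continuousOn
    fun_prop
  · apply Continuous.continuousOn
    unfold dd DD
    fun_prop
  · intro p hp
    have := DD_pos _ _ (h1 p hp) (h2 p hp) (Or.inl (h3 p hp))
    have h : 0 < dd (f p) (g p) := Real.sqrt_pos.2 this
    positivity

theorem g3_int1
    (DD_pos : ∀ u w : ℝ, u ∈ Set.Icc 0 th → w ∈ Set.Icc 0 th → (0 < u ∨ 0 < w) → 0 < DD u w)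
    {s0 : ℝ} (hs0 : 0 < s0) (hs : s0 < th / 2) (H : ℝ → ℝ)
    (hH : ContinuousOn H (Set.Icc s0 (th - s0))) :
    ContinuousOn (Function.uncurry (fun t u => H u * kn (th - u) t))
      (Set.Icc 0 th ×ˢ Set.Icc s0 (th - s0)) := by
  apply ContinuousOn.mul
  · exact hH.comp continuous_snd.continuousOn (fun p hp => hp.2)
  · apply g3_kn_cont DD_pos _ (fun p : ℝ × ℝ => th - p.2) (fun p => p.1) (by fun_prop) (by fun_prop)
    · rintro p ⟨_, h2⟩
      rw [Set.mem_Icc] at h2
      constructor <;> linarith [h2.1, h2.2]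
    · rintro p ⟨h1, _⟩
      exact h1
    · rintro p ⟨_, h2⟩
      rw [Set.mem_Icc] at h2
      try simp only
      linarith [h2.1, h2.2]

theorem g3_int2
    (DD_pos : ∀ u w : ℝ, u ∈ Set.Icc 0 th → w ∈ Set.Icc 0 th → (0 < u ∨ 0 < w) → 0 < DD u w)
    {s0 : ℝ} (hs0 : 0 < s0) (hs : s0 < th / 2) (H : ℝ → ℝ)
    (hH : ContinuousOn H (Set.Icc s0 (th - s0))) :
    ContinuousOn (Function.uncurry (fun t u => H u * kn u (th - t)))
      (Set.Icc 0 th ×ˢ Set.Icc s0 (th - s0)) := by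
  apply ContinuousOn.mul
  · exact hH.comp continuous_snd.continuousOn (fun p hp => hp.2)
  · apply g3_kn_cont DD_pos _ (fun p : ℝ × ℝ => p.2) (fun p => th - p.1) (by fun_prop) (by fun_prop)
    · rintro p ⟨_, h2⟩
      rw [Set.mem_Icc] at h2
      constructor <;> linarith [h2.1, h2.2]
    · rintro p ⟨h1, _⟩
      rw [Set.mem_Icc] at h1
      constructor <;> linarith [h1.1, h1.2]
    · rintro p ⟨_, h2⟩
      rw [Set.mem_Icc] at h2
      try simp only
      linarith [h2.1, h2.2]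

theorem g3_slice {s0 : ℝ} (hs : s0 < th / 2) (F : ℝ → ℝ → ℝ)
    (hF : ContinuousOn (Function.uncurry F) (Set.Icc 0 th ×ˢ Set.Icc s0 (th - s0)))
    (t : ℝ) (ht : t ∈ Set.Icc 0 th) :
    IntervalIntegrable (fun u => F t u) MeasureTheory.volume s0 (th - s0) := by
  apply ContinuousOn.intervalIntegrable
  rw [Set.uIcc_of_le (by linarith)]
  have : ContinuousOn (fun u : ℝ => ((t, u) : ℝ × ℝ)) (Set.Icc s0 (th - s0)) :=
    (Continuous.prodMk continuous_const continuous_id).continuousOn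
  exact hF.comp this (fun u hu => ⟨ht, hu⟩)

/-- linearity of `Pj` -/
theorem g3_Pj_sub
    (DD_pos : ∀ u w : ℝ, u ∈ Set.Icc 0 th → w ∈ Set.Icc 0 th → (0 < u ∨ 0 < w) → 0 < DD u w)
    {s0 z : ℝ} (hs0 : 0 < s0) (hs : s0 < th / 2) (m0 m1 n0 n1 : Fin 3 → ℝ)
    (H1 H2 : Fin 3 → ℝ → ℝ) (hH1 : ∀ j, ContinuousOn (H1 j) (Set.Icc s0 (th - s0)))
    (hH2 : ∀ j, ContinuousOn (H2 j) (Set.Icc s0 (th - s0))) (j : Fin 3) (t : ℝ)
    (ht : t ∈ Set.Icc 0 th) :
    Pj s0 z (fun i => m0 i - n0 i) (fun i => m1 i - n1 i) (fun i u => H1 i u - H2 i u) j t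
      = Pj s0 z m0 m1 H1 j t - Pj s0 z n0 n1 H2 j t := by
  unfold Pj
  have e1 : (∫ u in s0..(th - s0), (H1 (j + 2) u - H2 (j + 2) u) * kn (th - u) t)
      = (∫ u in s0..(th - s0), H1 (j + 2) u * kn (th - u) t)
        - ∫ u in s0..(th - s0), H2 (j + 2) u * kn (th - u) t := by
    rw [← intervalIntegral.integral_sub
      (g3_slice hs _ (g3_int1 DD_pos hs0 hs _ (hH1 (j + 2))) t ht)
      (g3_slice hs _ (g3_int1 DD_pos hs0 hs _ (hH2 (j + 2))) t ht)]
    congr 1
    funext u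
    ring
  have e2 : (∫ u in s0..(th - s0), (H1 (j + 1) u - H2 (j + 1) u) * kn u (th - t))
      = (∫ u in s0..(th - s0), H1 (j + 1) u * kn u (th - t))
        - ∫ u in s0..(th - s0), H2 (j + 1) u * kn u (th - t) := by
    rw [← intervalIntegral.integral_sub
      (g3_slice hs _ (g3_int2 DD_pos hs0 hs _ (hH1 (j + 1))) t ht)
      (g3_slice hs _ (g3_int2 DD_pos hs0 hs _ (hH2 (j + 1))) t ht)]
    congr 1
    funext u
    ring
  rw [e1, e2]
  ring

/-- continuity of `Pj` in `t` -/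
theorem g3_Pj_cont
    (DD_pos : ∀ u w : ℝ, u ∈ Set.Icc 0 th → w ∈ Set.Icc 0 th → (0 < u ∨ 0 < w) → 0 < DD u w)
    {s0 z : ℝ} (hz : 0 < z) (hz2 : z < s0) (hs : s0 < th / 2) (m0 m1 : Fin 3 → ℝ)
    (H1 : Fin 3 → ℝ → ℝ) (hH1 : ∀ j, ContinuousOn (H1 j) (Set.Icc s0 (th - s0))) (j : Fin 3) :
    ContinuousOn (fun t => Pj s0 z m0 m1 H1 j t) (Set.Icc 0 th) := by
  have hs0 : 0 < s0 := hz.trans hz2
  have hc : ∀ (w : ℝ) (g : ℝ → ℝ), Continuous g → 0 < w → w ≤ th →
      (∀ t ∈ Set.Icc 0 th, g t ∈ Set.Icc 0 th) →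
      ContinuousOn (fun t => kn w (g t)) (Set.Icc 0 th) := by
    intro w g hg hw hw2 hgm
    have := g3_kn_cont DD_pos (Set.Icc 0 th ×ˢ Set.univ) (fun _ => w) (fun p => g p.1)
      continuous_const (by fun_prop) (fun p _ => ⟨hw.le, hw2⟩) (fun p hp => hgm _ hp.1)
      (fun _ _ => hw)
    exact this.comp (f := fun t : ℝ => ((t, (0:ℝ)) : ℝ × ℝ))
      (Continuous.prodMk continuous_id continuous_const).continuousOn
      (fun t ht => ⟨ht, trivial⟩)
  have hid : ∀ t ∈ Set.Icc 0 th, (fun t : ℝ => t) t ∈ Set.Icc 0 th := fun t ht => ht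
  have hre : ∀ t ∈ Set.Icc 0 th, (fun t : ℝ => th - t) t ∈ Set.Icc 0 th := by
    intro t ht
    constructor <;> simp only <;> linarith [ht.1, ht.2]
  unfold Pj
  refine ContinuousOn.add (ContinuousOn.add (ContinuousOn.add ?_ ?_) ?_)
    (ContinuousOn.add (ContinuousOn.add ?_ ?_) ?_)
  · exact continuousOn_const.mul (hc (th - z) (fun t => t) continuous_id (by linarith) (by linarith) hid)
  · exact continuousOn_const.mul (hc z (fun t => t) continuous_id hz (by linarith) hid)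
  · exact g3_param 0 th s0 (th - s0) (by linarith) (by linarith) _
      (g3_int1 DD_pos hs0 hs _ (hH1 (j + 2)))
  · exact continuousOn_const.mul (hc z (fun t => th - t) (by fun_prop) hz (by linarith) hre)
  · exact continuousOn_const.mul
      (hc (th - z) (fun t => th - t) (by fun_prop) (by linarith) (by linarith) hre)
  · exact g3_param 0 th s0 (th - s0) (by linarith) (by linarith) _
      (g3_int2 DD_pos hs0 hs _ (hH1 (j + 1)))

theorem g3_Hint {s0 : ℝ} (hs : s0 < th / 2) (H1 H2 : ℝ → ℝ) (w : ℝ → ℝ) (hw : Continuous w)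
    (hH1 : ContinuousOn H1 (Set.Icc s0 (th - s0)))
    (hH2 : ContinuousOn H2 (Set.Icc s0 (th - s0))) :
    (∫ u in s0..(th - s0), (H1 u - H2 u) * w u)
      = (∫ u in s0..(th - s0), H1 u * w u) - ∫ u in s0..(th - s0), H2 u * w u := by
  have hle : s0 ≤ th - s0 := by linarith
  rw [← intervalIntegral.integral_sub]
  · congr 1
    funext u
    ring
  · apply ContinuousOn.intervalIntegrable
    rw [Set.uIcc_of_le hle]
    exact hH1.mul hw.continuousOn
  · apply ContinuousOn.intervalIntegrable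
    rw [Set.uIcc_of_le hle]
    exact hH2.mul hw.continuousOn

theorem g3_Hint0 {s0 : ℝ} (hs : s0 < th / 2) (H1 H2 : ℝ → ℝ)
    (hH1 : ContinuousOn H1 (Set.Icc s0 (th - s0)))
    (hH2 : ContinuousOn H2 (Set.Icc s0 (th - s0))) :
    (∫ u in s0..(th - s0), (H1 u - H2 u))
      = (∫ u in s0..(th - s0), H1 u) - ∫ u in s0..(th - s0), H2 u := by
  have := g3_Hint hs H1 H2 (fun _ => 1) continuous_const hH1 hH2
  simpa using this

/-- the gap integral -/
theorem g3_gap
    (DD_pos : ∀ u w : ℝ, u ∈ Set.Icc 0 th → w ∈ Set.Icc 0 th → (0 < u ∨ 0 < w) → 0 < DD u w)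
    {a s0 z : ℝ} (hz : 0 < z) (hz2 : z < s0) (hs : s0 < th / 2) (m0 m1 n0 n1 : Fin 3 → ℝ)
    (H1 H2 : Fin 3 → ℝ → ℝ) (hH1 : ∀ j, ContinuousOn (H1 j) (Set.Icc s0 (th - s0)))
    (hH2 : ∀ j, ContinuousOn (H2 j) (Set.Icc s0 (th - s0))) (j : Fin 3) (g : ℝ → ℝ)
    (hg : Continuous g) (hgm : ∀ t ∈ Set.Icc 0 th, g t ∈ Set.Icc 0 th) :
    (∫ t in (0 : ℝ)..s0, 2 * sin (t / 2) * (a / 4 - Pj s0 z m0 m1 H1 j (g t)))
      - (∫ t in (0 : ℝ)..s0, 2 * sin (t / 2) * (a / 4 - Pj s0 z n0 n1 H2 j (g t)))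
    = -∫ t in (0 : ℝ)..s0, 2 * sin (t / 2) * Pj s0 z (fun i => m0 i - n0 i)
        (fun i => m1 i - n1 i) (fun i u => H1 i u - H2 i u) j (g t) := by
  have hs0 : 0 < s0 := hz.trans hz2
  have hsub : Set.Icc 0 s0 ⊆ Set.Icc 0 th := Set.Icc_subset_Icc le_rfl (by linarith)
  have hint : ∀ (m0 m1 : Fin 3 → ℝ) (H1 : Fin 3 → ℝ → ℝ)
      (_ : ∀ j, ContinuousOn (H1 j) (Set.Icc s0 (th - s0))),
      IntervalIntegrable (fun t => 2 * sin (t / 2) * (a / 4 - Pj s0 z m0 m1 H1 j (g t)))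
        MeasureTheory.volume 0 s0 := by
    intro m0 m1 H1 hH1
    apply ContinuousOn.intervalIntegrable
    rw [Set.uIcc_of_le hs0.le]
    apply ContinuousOn.mul
    · apply Continuous.continuousOn
      fun_prop
    · apply continuousOn_const.sub
      exact (g3_Pj_cont DD_pos hz hz2 hs m0 m1 H1 hH1 j).comp hg.continuousOn
        (fun t ht => hgm t (hsub ht))
  rw [← intervalIntegral.integral_sub (hint m0 m1 H1 hH1) (hint n0 n1 H2 hH2),
    ← intervalIntegral.integral_neg]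
  apply intervalIntegral.integral_congr
  intro t ht
  rw [Set.uIcc_of_le hs0.le] at ht
  simp only
  rw [g3_Pj_sub DD_pos hs0 hs m0 m1 n0 n1 H1 H2 hH1 hH2 j (g t) (hgm t (hsub ht))]
  ring

theorem adm_equal
    (DD_pos : ∀ u w : ℝ, u ∈ Set.Icc 0 th → w ∈ Set.Icc 0 th → (0 < u ∨ 0 < w) → 0 < DD u w)
    (dK_vertex : ∀ (x : Fin 3 × ℝ) (j : Fin 3), x.2 ∈ Set.Icc 0 th → dK x j th = dK x (j + 1) 0)
    (dK_rot : ∀ (x : Fin 3 × ℝ) (j : Fin 3) (r : ℝ), dK (x.1 + 1, x.2) (j + 1) r = dK x j r)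
    (dK_refl : ∀ (x : Fin 3 × ℝ) (j : Fin 3) (r : ℝ),
      dK (-x.1, th - x.2) (-j) (th - r) = dK x j r)
    (eK_rot : ∀ (x : Fin 3 × ℝ) (j : Fin 3) (r : ℝ), eK (x.1 + 1, x.2) (j + 1) r = eK x j r)
    (eK_refl : ∀ (x : Fin 3 × ℝ) (j : Fin 3) (r : ℝ),
      eK (-x.1, th - x.2) (-j) (th - r) = -eK x j r)
    (measurable_dK : ∀ (j : Fin 3) (r : ℝ), Measurable (fun x : Fin 3 × ℝ => dK x j r))
    (measurable_eK : ∀ (j : Fin 3) (r : ℝ), Measurable (fun x : Fin 3 × ℝ => eK x j r))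
    {a s0 z : ℝ} (hz : 0 < z) (hz2 : z < s0) (hs : s0 < th / 2)
    (adm_data : ∀ ν : Measure (Fin 3 × ℝ), Adm a s0 z ν →
      ∃ H : Fin 3 → ℝ → ℝ, (∀ j, ContinuousOn (H j) (Set.Icc s0 (th - s0))) ∧
      (∀ j, ∀ t ∈ Set.Icc s0 (th - s0), H j t = (1 / 2) * (a / 4
        - Pj s0 z (fun i => ν.real {(i, z)}) (fun i => ν.real {(i, th - z)}) H j t)) ∧
      (∀ j, ν.real {(j, z)} * (2 * sin (z / 2)) + ν.real {(j, th - z)} * (2 * sin ((th - z) / 2))
        + (∫ u in s0..(th - s0), H j u * (2 * sin (u / 2)))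
        + (ν.real {(j + 1, z)} + ν.real {(j + 1, th - z)} + ∫ u in s0..(th - s0), H (j + 1) u)
        + (ν.real {(j + 2, z)} * (2 * sin ((th - z) / 2))
        + ν.real {(j + 2, th - z)} * (2 * sin (z / 2))
        + ∫ u in s0..(th - s0), H (j + 2) u * (2 * sin ((th - u) / 2))) = a) ∧
      (∑ j, (ν.real {(j, z)} + ν.real {(j, th - z)} + ∫ u in s0..(th - s0), H j u) = 1) ∧
      (∀ j, 4 * ν.real {(j, z)} * sin (z / 2) = ∫ t in (0 : ℝ)..s0, 2 * sin (t / 2) * (a / 4
        - Pj s0 z (fun i => ν.real {(i, z)}) (fun i => ν.real {(i, th - z)}) H j t)) ∧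
      (∀ j, 4 * ν.real {(j, th - z)} * sin (z / 2)
        = ∫ t in (0 : ℝ)..s0, 2 * sin (t / 2) * (a / 4
        - Pj s0 z (fun i => ν.real {(i, z)}) (fun i => ν.real {(i, th - z)}) H j (th - t))))
    (lin_unique : ∀ (m0 m1 : Fin 3 → ℝ) (H : Fin 3 → ℝ → ℝ),
      (∀ j, ContinuousOn (H j) (Set.Icc s0 (th - s0))) →
      (∀ j, ∀ t ∈ Set.Icc s0 (th - s0), H j t = -(1 / 2) * Pj s0 z m0 m1 H j t) →
      (∀ j, m0 j * (2 * sin (z / 2)) + m1 j * (2 * sin ((th - z) / 2))
        + (∫ u in s0..(th - s0), H j u * (2 * sin (u / 2)))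
        + (m0 (j + 1) + m1 (j + 1) + ∫ u in s0..(th - s0), H (j + 1) u)
        + (m0 (j + 2) * (2 * sin ((th - z) / 2)) + m1 (j + 2) * (2 * sin (z / 2))
        + ∫ u in s0..(th - s0), H (j + 2) u * (2 * sin ((th - u) / 2))) = 0) →
      (∑ j, (m0 j + m1 j + ∫ u in s0..(th - s0), H j u) = 0) →
      (∀ j, 4 * m0 j * sin (z / 2)
        = -∫ t in (0 : ℝ)..s0, 2 * sin (t / 2) * Pj s0 z m0 m1 H j t) →
      (∀ j, 4 * m1 j * sin (z / 2)
        = -∫ t in (0 : ℝ)..s0, 2 * sin (t / 2) * Pj s0 z m0 m1 H j (th - t)) →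
      ∀ j, m0 j = 0 ∧ m1 j = 0)
    {ν : Measure (Fin 3 × ℝ)} (h : Adm a s0 z ν) (i j : Fin 3) :
    ν.real {(i, z)} = ν.real {(j, z)} ∧ ν.real {(i, z)} = ν.real {(j, th - z)} := by
  have hs0 : 0 < s0 := hz.trans hz2
  have hidm : ∀ t ∈ Set.Icc 0 th, (fun t : ℝ => t) t ∈ Set.Icc 0 th := fun t ht => ht
  have hrem : ∀ t ∈ Set.Icc 0 th, (fun t : ℝ => th - t) t ∈ Set.Icc 0 th := by
    intro t ht
    constructor <;> simp only <;> linarith [ht.1, ht.2]
  -- step 1
  have key : ∀ ν1 ν2 : Measure (Fin 3 × ℝ), Adm a s0 z ν1 → Adm a s0 z ν2 →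
      ∀ j, ν1.real {(j, z)} = ν2.real {(j, z)} := by
    intro ν1 ν2 h1 h2 j
    obtain ⟨H1, hc1, hp1, hv1, ht1, hg1, hk1⟩ := adm_data ν1 h1
    obtain ⟨H2, hc2, hp2, hv2, ht2, hg2, hk2⟩ := adm_data ν2 h2
    have := lin_unique (fun i => ν1.real {(i, z)} - ν2.real {(i, z)})
      (fun i => ν1.real {(i, th - z)} - ν2.real {(i, th - z)}) (fun i u => H1 i u - H2 i u)
      (fun i => (hc1 i).sub (hc2 i)) ?_ ?_ ?_ ?_ ?_ j
    · have h3 := this.1
      try simp only at h3
      linarith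
    · intro i t ht
      have htm : t ∈ Set.Icc 0 th := ⟨by linarith [ht.1], by linarith [ht.2]⟩
      rw [g3_Pj_sub DD_pos hs0 hs _ _ _ _ H1 H2 hc1 hc2 i t htm]
      have e1 := hp1 i t ht
      have e2 := hp2 i t ht
      linarith
    · intro i
      have e1 := hv1 i
      have e2 := hv2 i
      have i1 := g3_Hint hs (H1 i) (H2 i) (fun u => 2 * sin (u / 2)) (by fun_prop) (hc1 i) (hc2 i)
      have i2 := g3_Hint0 hs (H1 (i + 1)) (H2 (i + 1)) (hc1 (i + 1)) (hc2 (i + 1))
      have i3 := g3_Hint hs (H1 (i + 2)) (H2 (i + 2)) (fun u => 2 * sin ((th - u) / 2))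
        (by fun_prop) (hc1 (i + 2)) (hc2 (i + 2))
      try simp only at i1 i2 i3 ⊢
      rw [i1, i2, i3]
      linarith
    · have i2 := fun i => g3_Hint0 hs (H1 i) (H2 i) (hc1 i) (hc2 i)
      have h5 : (∑ j, (ν1.real {(j, z)} - ν2.real {(j, z)}
          + (ν1.real {(j, th - z)} - ν2.real {(j, th - z)})
          + ∫ u in s0..(th - s0), (H1 j u - H2 j u)))
          = (∑ j, (ν1.real {(j, z)} + ν1.real {(j, th - z)} + ∫ u in s0..(th - s0), H1 j u))
          - (∑ j, (ν2.real {(j, z)} + ν2.real {(j, th - z)} + ∫ u in s0..(th - s0), H2 j u)) := by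
        rw [← Finset.sum_sub_distrib]
        apply Finset.sum_congr rfl
        intro i _
        rw [i2 i]
        ring
      rw [ht1, ht2, sub_self] at h5
      exact h5
    · intro i
      have e1 := hg1 i
      have e2 := hg2 i
      have e3 := g3_gap (a := a) DD_pos hz hz2 hs (fun i => ν1.real {(i, z)})
        (fun i => ν1.real {(i, th - z)}) (fun i => ν2.real {(i, z)})
        (fun i => ν2.real {(i, th - z)}) H1 H2 hc1 hc2 i (fun t => t) continuous_id hidm
      try simp only at e3 ⊢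
      rw [← e3, ← e1, ← e2]
      ring
    · intro i
      have e1 := hk1 i
      have e2 := hk2 i
      have e3 := g3_gap (a := a) DD_pos hz hz2 hs (fun i => ν1.real {(i, z)})
        (fun i => ν1.real {(i, th - z)}) (fun i => ν2.real {(i, z)})
        (fun i => ν2.real {(i, th - z)}) H1 H2 hc1 hc2 i (fun t => th - t) (by fun_prop) hrem
      try simp only at e3 ⊢
      rw [← e3, ← e1, ← e2]
      ring
  -- step 2
  have hrotm : Measurable (fun x : Fin 3 × ℝ => ((x.1 + 1, x.2) : Fin 3 × ℝ)) :=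
    Measurable.prodMk ((measurable_of_countable (fun i : Fin 3 => i + 1)).comp measurable_fst)
      measurable_snd
  have hrefm : Measurable (fun x : Fin 3 × ℝ => ((-x.1, th - x.2) : Fin 3 × ℝ)) :=
    Measurable.prodMk ((measurable_of_countable (fun i : Fin 3 => -i)).comp measurable_fst)
      (measurable_const.sub measurable_snd)
  have hsm : MeasurableSet {x : Fin 3 × ℝ | x.2 ∈ Set.Ioo s0 (th - s0) ∨ x.2 = z ∨ x.2 = th - z} := by
    have : MeasurableSet {y : ℝ | y ∈ Set.Ioo s0 (th - s0) ∨ y = z ∨ y = th - z} := by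
      apply MeasurableSet.union measurableSet_Ioo
      exact MeasurableSet.union (measurableSet_singleton z) (measurableSet_singleton (th - z))
    exact measurable_snd this
  haveI := h.prob
  have hrot : Adm a s0 z (ν.map (fun x : Fin 3 × ℝ => ((x.1 + 1, x.2) : Fin 3 × ℝ))) := by
    refine ⟨Measure.isProbabilityMeasure_map hrotm.aemeasurable, ?_, ?_, ?_, ?_⟩
    · rw [ae_map_iff hrotm.aemeasurable hsm]
      exact h.supp
    · intro j r hr
      rw [integral_map hrotm.aemeasurable (measurable_dK j r).aestronglyMeasurable]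
      have e : ∀ x : Fin 3 × ℝ, dK ((x.1 + 1, x.2) : Fin 3 × ℝ) j r = dK x (j - 1) r := by
        intro x
        have := dK_rot x (j - 1) r
        rwa [sub_add_cancel] at this
      simp only [e]
      exact h.pot (j - 1) r hr
    · intro j
      rw [integral_map hrotm.aemeasurable (measurable_dK j 0).aestronglyMeasurable]
      have e : ∀ x : Fin 3 × ℝ, dK ((x.1 + 1, x.2) : Fin 3 × ℝ) j 0 = dK x (j - 1) 0 := by
        intro x
        have := dK_rot x (j - 1) 0
        rwa [sub_add_cancel] at this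
      simp only [e]
      exact h.vert (j - 1)
    · intro j
      have e : ∀ (r : ℝ) (x : Fin 3 × ℝ), eK ((x.1 + 1, x.2) : Fin 3 × ℝ) j r = eK x (j - 1) r := by
        intro r x
        have := eK_rot x (j - 1) r
        rwa [sub_add_cancel] at this
      constructor
      · rw [integral_map hrotm.aemeasurable (measurable_eK j _).aestronglyMeasurable]
        simp only [e]
        exact (h.der (j - 1)).1
      · rw [integral_map hrotm.aemeasurable (measurable_eK j _).aestronglyMeasurable]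
        simp only [e]
        exact (h.der (j - 1)).2
  have hedK : ∀ (j : Fin 3) (r : ℝ) (x : Fin 3 × ℝ),
      dK ((-x.1, th - x.2) : Fin 3 × ℝ) j r = dK x (-j) (th - r) := by
    intro j r x
    have := dK_refl x (-j) (th - r)
    rwa [neg_neg, sub_sub_cancel] at this
  have heeK : ∀ (j : Fin 3) (r : ℝ) (x : Fin 3 × ℝ),
      eK ((-x.1, th - x.2) : Fin 3 × ℝ) j r = -eK x (-j) (th - r) := by
    intro j r x
    have := eK_refl x (-j) (th - r)
    rwa [neg_neg, sub_sub_cancel] at this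
  have href : Adm a s0 z (ν.map (fun x : Fin 3 × ℝ => ((-x.1, th - x.2) : Fin 3 × ℝ))) := by
    refine ⟨Measure.isProbabilityMeasure_map hrefm.aemeasurable, ?_, ?_, ?_, ?_⟩
    · rw [ae_map_iff hrefm.aemeasurable hsm]
      filter_upwards [h.supp] with x hx
      rcases hx with hx | hx | hx
      · left
        constructor <;> linarith [hx.1, hx.2]
      · right; right
        try simp only
        rw [hx]
      · right; left
        try simp only
        rw [hx]
        ring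
    · intro j r hr
      rw [integral_map hrefm.aemeasurable (measurable_dK j r).aestronglyMeasurable]
      simp only [hedK]
      exact h.pot (-j) (th - r) ⟨by linarith [hr.2], by linarith [hr.1]⟩
    · intro j
      rw [integral_map hrefm.aemeasurable (measurable_dK j 0).aestronglyMeasurable]
      simp only [hedK, sub_zero]
      rw [← h.vert (-j + 1)]
      apply integral_congr_ae
      filter_upwards [h.supp] with x hx
      apply dK_vertex
      rcases hx with hx | hx | hx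
      · exact ⟨by linarith [hx.1], by linarith [hx.2]⟩
      · rw [hx]; exact ⟨by linarith, by linarith⟩
      · rw [hx]; exact ⟨by linarith, by linarith⟩
    · intro j
      constructor
      · rw [integral_map hrefm.aemeasurable (measurable_eK j _).aestronglyMeasurable]
        simp only [heeK]
        rw [integral_neg, (h.der (-j)).2, neg_zero]
      · rw [integral_map hrefm.aemeasurable (measurable_eK j _).aestronglyMeasurable]
        simp only [heeK, sub_sub_cancel]
        rw [integral_neg, (h.der (-j)).1, neg_zero]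
  -- step 3
  have hm1 : ∀ i : Fin 3, ν.real {(i, z)} = ν.real {(i - 1, z)} := by
    intro i
    have e1 := key _ _ hrot h i
    rw [map_measureReal_apply hrotm (measurableSet_singleton _)] at e1
    have e2 : (fun x : Fin 3 × ℝ => ((x.1 + 1, x.2) : Fin 3 × ℝ)) ⁻¹' {(i, z)} = {(i - 1, z)} := by
      ext x
      obtain ⟨x1, x2⟩ := x
      simp only [Set.mem_preimage, Set.mem_singleton_iff, Prod.mk.injEq]
      rw [eq_sub_iff_add_eq]
    rw [e2] at e1
    exact e1.symm
  have hm2 : ∀ i : Fin 3, ν.real {(i, z)} = ν.real {(-i, th - z)} := by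
    intro i
    have e1 := key _ _ href h i
    rw [map_measureReal_apply hrefm (measurableSet_singleton _)] at e1
    have e2 : (fun x : Fin 3 × ℝ => ((-x.1, th - x.2) : Fin 3 × ℝ)) ⁻¹' {(i, z)}
        = {(-i, th - z)} := by
      ext x
      obtain ⟨x1, x2⟩ := x
      simp only [Set.mem_preimage, Set.mem_singleton_iff, Prod.mk.injEq]
      constructor
      · rintro ⟨h1, h2⟩
        exact ⟨by rw [← h1, neg_neg], by linarith⟩
      · rintro ⟨h1, h2⟩
        exact ⟨by rw [h1, neg_neg], by linarith⟩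
    rw [e2] at e1
    exact e1.symm
  have hall : ∀ i j : Fin 3, ν.real {(i, z)} = ν.real {(j, z)} := by
    have h0 := hm1 0
    have h1 := hm1 1
    have h2 := hm1 2
    have a0 : (0 : Fin 3) - 1 = 2 := by decide
    have a1 : (1 : Fin 3) - 1 = 0 := by decide
    have a2 : (2 : Fin 3) - 1 = 1 := by decide
    rw [a0] at h0
    rw [a1] at h1
    rw [a2] at h2
    have hz' : ∀ i : Fin 3, ν.real {(i, z)} = ν.real {(0, z)} := by
      intro i
      fin_cases i
      · rfl
      · exact h1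
      · exact h0.symm
    intro i j
    rw [hz' i, hz' j]
  refine ⟨hall i j, ?_⟩
  have := hm2 (-j)
  rw [neg_neg] at this
  rw [hall i (-j), this]

end Pool.Agent.Helper342.RV.G3
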