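import Pool.Agent.Helper342.RV.Defs

namespace Pool.Agent.Helper342.RV.H1

open Real


















theorem q_th_pos : 0 < th := by unfold th; positivity

theorem q_cos_th : cos th = 1 / 2 := by unfold th; exact cos_pi_div_three

theorem q_sin_th : sin th = √3 / 2 := by unfold th; exact sin_pi_div_three

theorem q_s3 : √3 ^ 2 = 3 := Real.sq_sqrt (by norm_num)

theorem q_c2 (x : ℝ) : cos (2 * x) = 1 - 2 * sin x ^ 2 := by
  have h1 := Real.cos_two_mul x
  have h2 := Real.sin_sq_add_cos_sq x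
  linarith

theorem q_DDxy (x y : ℝ) : DD (2 * x) (2 * y) = 4 * sin x ^ 2 + 4 * sin y ^ 2
    - 4 * sin x ^ 2 * sin y ^ 2 + 4 * sin x * cos x * sin y * cos y
    - 4 * √3 * sin x * sin y * (sin x * cos y + cos x * sin y) := by
  unfold DD
  rw [show th + 2 * x + 2 * y = th + (2 * x + 2 * y) by ring, cos_sub, cos_sub, cos_add th,
    cos_add (2 * x), sin_add (2 * x), q_c2, q_c2, sin_two_mul, sin_two_mul, q_cos_th, q_sin_th]
  ring

theorem q_DD1 (u w : ℝ) : DD u w = (2 * sin (u / 2)) ^ 2 + (2 * sin (w / 2)) ^ 2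
    + 2 * (2 * sin (u / 2)) * (2 * sin (w / 2)) * cos (th + (u + w) / 2) := by
  have h := q_DDxy (u / 2) (w / 2)
  rw [show 2 * (u / 2) = u by ring, show 2 * (w / 2) = w by ring] at h
  rw [h, show (u + w) / 2 = u / 2 + w / 2 by ring, cos_add th, cos_add, sin_add, q_cos_th,
    q_sin_th]
  ring

theorem q_DD2 (u w : ℝ) : DD u w = (2 * sin (w / 2)) ^ 2
    + (2 * sin (u / 2)) * (4 * cos (th + w / 2) * sin ((u + w) / 2)) := by
  have h := q_DDxy (u / 2) (w / 2)
  rw [show 2 * (u / 2) = u by ring, show 2 * (w / 2) = w by ring] at h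
  have h2 := Real.sin_sq_add_cos_sq (w / 2)
  rw [h, show (u + w) / 2 = u / 2 + w / 2 by ring, cos_add th, sin_add, q_cos_th, q_sin_th]
  linear_combination (-4 * sin (u / 2) ^ 2) * h2

theorem q_DDsymm (u w : ℝ) : DD u w = DD w u := by
  unfold DD
  rw [show th + w + u = th + u + w by ring]
  ring

theorem q_th_le : th ≤ 1.0473 := by
  unfold th
  have := Real.pi_lt_d4
  linarith

theorem q_th_ge : 1.047 ≤ th := by
  unfold th
  have := Real.pi_gt_d4
  linarith

theorem q_pi : Real.pi = 3 * th := by unfold th; ring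

theorem q_sin_half_nonneg {u : ℝ} (hu : u ∈ Set.Icc 0 th) : 0 ≤ sin (u / 2) := by
  have := q_pi
  have := q_th_pos
  exact sin_nonneg_of_nonneg_of_le_pi (by linarith [hu.1]) (by linarith [hu.2])

theorem q_DD_ge_b {u w : ℝ} (hu : u ∈ Set.Icc 0 th) (hw : w ∈ Set.Icc 0 th) :
    (2 * sin (w / 2)) ^ 2 ≤ DD u w := by
  have h1 := q_sin_half_nonneg hu
  have hp := q_pi
  have ht := q_th_pos
  have h2 : 0 ≤ cos (th + w / 2) :=
    cos_nonneg_of_neg_pi_div_two_le_of_le (by linarith [hw.1]) (by linarith [hw.2])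
  have h3 : 0 ≤ sin ((u + w) / 2) :=
    sin_nonneg_of_nonneg_of_le_pi (by linarith [hu.1, hw.1]) (by linarith [hu.2, hw.2])
  rw [q_DD2]
  have : 0 ≤ (2 * sin (u / 2)) * (4 * cos (th + w / 2) * sin ((u + w) / 2)) := by positivity
  linarith

theorem q_DD_ge_a {u w : ℝ} (hu : u ∈ Set.Icc 0 th) (hw : w ∈ Set.Icc 0 th) :
    (2 * sin (u / 2)) ^ 2 ≤ DD u w := by
  rw [q_DDsymm]
  exact q_DD_ge_b hw hu

theorem q_DD_ge_ab {u w : ℝ} (hu : u ∈ Set.Icc 0 th) (hw : w ∈ Set.Icc 0 th)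
    (huw : u + w ≤ th) : (2 * sin (u / 2)) ^ 2 + (2 * sin (w / 2)) ^ 2 ≤ DD u w := by
  have h1 := q_sin_half_nonneg hu
  have h1' := q_sin_half_nonneg hw
  have hp := q_pi
  have ht := q_th_pos
  have h2 : 0 ≤ cos (th + (u + w) / 2) :=
    cos_nonneg_of_neg_pi_div_two_le_of_le (by linarith [hw.1, hu.1]) (by linarith [hw.2])
  rw [q_DD1]
  have : 0 ≤ 2 * (2 * sin (u / 2)) * (2 * sin (w / 2)) * cos (th + (u + w) / 2) := by positivity
  linarith

theorem q_DD3 (α β : ℝ) : DD (th - α) (th - β)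
    = 1 - 8 * sin (α / 2) * sin (β / 2) * cos (α / 2 + β / 2) := by
  unfold DD
  rw [show th - (th - α) = 2 * (α / 2) by ring, show th - (th - β) = 2 * (β / 2) by ring,
    show th + (th - α) + (th - β) = Real.pi - (2 * (α / 2) + 2 * (β / 2)) by rw [q_pi]; ring,
    cos_pi_sub, cos_add (2 * (α / 2)), q_c2, q_c2, sin_two_mul, sin_two_mul, cos_add]
  ring

theorem q_DD_le {u w : ℝ} (hu : u ∈ Set.Icc 0 th) (hw : w ∈ Set.Icc 0 th) : DD u w ≤ 1 := by
  have h := q_DD3 (th - u) (th - w)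
  rw [show th - (th - u) = u by ring, show th - (th - w) = w by ring] at h
  have hp := q_pi
  have ht := q_th_pos
  have h1 : 0 ≤ sin ((th - u) / 2) :=
    sin_nonneg_of_nonneg_of_le_pi (by linarith [hu.2]) (by linarith [hu.1])
  have h2 : 0 ≤ sin ((th - w) / 2) :=
    sin_nonneg_of_nonneg_of_le_pi (by linarith [hw.2]) (by linarith [hw.1])
  have h3 : 0 ≤ cos ((th - u) / 2 + (th - w) / 2) :=
    cos_nonneg_of_neg_pi_div_two_le_of_le (by linarith [hw.2, hu.2]) (by linarith [hw.1, hu.1])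
  rw [h]
  have : 0 ≤ 8 * sin ((th - u) / 2) * sin ((th - w) / 2) * cos ((th - u) / 2 + (th - w) / 2) := by
    positivity
  linarith

theorem q_sin_lower {t : ℝ} (ht : t ∈ Set.Icc 0 th) : t / th ≤ 2 * sin (t / 2) := by
  have hp := q_pi
  have h0 := q_th_pos
  have hc := strictConcaveOn_sin_Icc.concaveOn
  have h1 : (0 : ℝ) ∈ Set.Icc 0 Real.pi := ⟨le_rfl, Real.pi_pos.le⟩
  have h2 : th / 2 ∈ Set.Icc 0 Real.pi := ⟨by linarith, by linarith⟩
  have h3 : 0 ≤ 1 - t / th := by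
    rw [sub_nonneg, div_le_one h0]; exact ht.2
  have h4 : 0 ≤ t / th := div_nonneg ht.1 h0.le
  have h5 := hc.2 h1 h2 h3 h4 (by ring)
  simp only [smul_eq_mul, mul_zero, sin_zero, zero_add] at h5
  have h6 : sin (th / 2) = 1 / 2 := by
    unfold th
    rw [show Real.pi / 3 / 2 = Real.pi / 6 by ring]
    exact sin_pi_div_six
  have h7 : t / th * (th / 2) = t / 2 := by field_simp
  rw [h7, h6] at h5
  linarith

theorem q_N1 (u : ℝ) : 2 * cos (th - u) - 1
    = 2 * sin (u / 2) * (√3 * cos (u / 2) - sin (u / 2)) := by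
  have h : u = 2 * (u / 2) := by ring
  conv_lhs => rw [h]
  rw [cos_sub, q_c2, sin_two_mul, q_cos_th, q_sin_th]
  ring

theorem q_cos_ge {u : ℝ} (hu : u ∈ Set.Icc 0 th) : 1 / 2 ≤ cos (th - u) := by
  have hp := q_pi
  have h0 := q_th_pos
  rw [← q_cos_th]
  exact cos_le_cos_of_nonneg_of_le_pi (by linarith [hu.2]) (by linarith) (by linarith [hu.1])

theorem q_N_le_a {u : ℝ} (hu : u ∈ Set.Icc 0 th) :
    (2 * cos (th - u) - 1) ^ 2 ≤ 3 * (2 * sin (u / 2)) ^ 2 := by
  have h1 := q_cos_ge hu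
  have h2 := q_sin_half_nonneg hu
  have h3 : 2 * cos (th - u) - 1 ≤ √3 * (2 * sin (u / 2)) := by
    rw [q_N1]
    have h4 : √3 * cos (u / 2) - sin (u / 2) ≤ √3 := by
      have : √3 * cos (u / 2) ≤ √3 * 1 :=
        mul_le_mul_of_nonneg_left (cos_le_one _) (Real.sqrt_nonneg 3)
      linarith
    calc 2 * sin (u / 2) * (√3 * cos (u / 2) - sin (u / 2)) ≤ 2 * sin (u / 2) * √3 :=
          mul_le_mul_of_nonneg_left h4 (by linarith)
      _ = √3 * (2 * sin (u / 2)) := by ring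
  calc (2 * cos (th - u) - 1) ^ 2 ≤ (√3 * (2 * sin (u / 2))) ^ 2 :=
        pow_le_pow_left₀ (by linarith) h3 2
    _ = √3 ^ 2 * (2 * sin (u / 2)) ^ 2 := by ring
    _ = 3 * (2 * sin (u / 2)) ^ 2 := by rw [q_s3]

theorem q_N_le_u {u : ℝ} (hu : u ∈ Set.Icc 0 th) :
    (2 * cos (th - u) - 1) ^ 2 ≤ 3 * u ^ 2 := by
  refine (q_N_le_a hu).trans ?_
  have h2 := q_sin_half_nonneg hu
  have h3 : 2 * sin (u / 2) ≤ u := by
    have := Real.sin_le (show 0 ≤ u / 2 by linarith [hu.1])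
    linarith
  have := pow_le_pow_left₀ (by linarith) h3 2
  linarith

theorem q_N_le_one {u : ℝ} (hu : u ∈ Set.Icc 0 th) :
    (2 * cos (th - u) - 1) ^ 2 ≤ 1 := by
  have h1 := q_cos_ge hu
  have h2 := cos_le_one (th - u)
  nlinarith

theorem q_kn_le {u w d N : ℝ} (hd : 0 < d) (hdd : d ≤ dd u w)
    (hN : (2 * cos (th - u) - 1) ^ 2 ≤ N) : kn u w ≤ N / (4 * d ^ 3) := by
  unfold kn
  have h0 : 0 ≤ N := (sq_nonneg _).trans hN
  have h1 : d ^ 3 ≤ dd u w ^ 3 := pow_le_pow_left₀ hd.le hdd 3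
  exact div_le_div₀ h0 hN (by positivity) (by linarith)

theorem q_kn_nonneg (u w : ℝ) : 0 ≤ kn u w := by
  unfold kn
  have : 0 ≤ dd u w := Real.sqrt_nonneg _
  positivity

theorem q_dd_ge_b {u w : ℝ} (hu : u ∈ Set.Icc 0 th) (hw : w ∈ Set.Icc 0 th) :
    2 * sin (w / 2) ≤ dd u w := by
  unfold dd
  have h := q_sin_half_nonneg hw
  rw [← Real.sqrt_sq (show 0 ≤ 2 * sin (w / 2) by linarith)]
  exact Real.sqrt_le_sqrt (q_DD_ge_b hu hw)

theorem q_dd_ge_a {u w : ℝ} (hu : u ∈ Set.Icc 0 th) (hw : w ∈ Set.Icc 0 th) :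
    2 * sin (u / 2) ≤ dd u w := by
  unfold dd
  have h := q_sin_half_nonneg hu
  rw [← Real.sqrt_sq (show 0 ≤ 2 * sin (u / 2) by linarith)]
  exact Real.sqrt_le_sqrt (q_DD_ge_a hu hw)

theorem q_dd_le {u w : ℝ} (hu : u ∈ Set.Icc 0 th) (hw : w ∈ Set.Icc 0 th) : dd u w ≤ 1 := by
  unfold dd
  have := Real.sqrt_le_sqrt (q_DD_le hu hw)
  rwa [Real.sqrt_one] at this

theorem q_dd_ge1 {z t : ℝ} (hz : 0 < z) (hz2 : z ≤ 1 / 80) :
    1 - z ≤ dd (th - z) t := by
  have h := q_DD3 z (th - t)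
  rw [show th - (th - t) = t by ring] at h
  have h1 : 2 * sin ((th - t) / 2) * cos (z / 2 + (th - t) / 2)
      = sin (z / 2 + (th - t)) - sin (z / 2) := by
    rw [show z / 2 + (th - t) = (z / 2 + (th - t) / 2) + (th - t) / 2 by ring,
      sin_add (z / 2 + (th - t) / 2)]
    have : sin (z / 2) = sin ((z / 2 + (th - t) / 2) - (th - t) / 2) := by
      congr 1; ring
    rw [this, sin_sub]
    ring
  have hs0 : 0 ≤ sin (z / 2) :=
    sin_nonneg_of_nonneg_of_le_pi (by linarith) (by linarith [Real.pi_gt_three])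
  have hs1 : sin (z / 2) ≤ z / 2 := Real.sin_le (by linarith)
  have h2 : (1 - 2 * sin (z / 2)) ^ 2 ≤ DD (th - z) t := by
    have h3 : 8 * sin (z / 2) * sin ((th - t) / 2) * cos (z / 2 + (th - t) / 2)
        = 4 * sin (z / 2) * (sin (z / 2 + (th - t)) - sin (z / 2)) := by
      rw [← h1]; ring
    rw [h, h3]
    have h4 := sin_le_one (z / 2 + (th - t))
    nlinarith
  have h5 : 1 - 2 * sin (z / 2) ≤ dd (th - z) t := by
    unfold dd
    rw [← Real.sqrt_sq (show 0 ≤ 1 - 2 * sin (z / 2) by linarith)]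
    exact Real.sqrt_le_sqrt h2
  linarith

theorem q_ss (a y : ℝ) : sin (a + y) + sin (a - y) = 2 * sin a * cos y := by
  rw [sin_add, sin_sub]; ring

theorem q_small {x : ℝ} (h0 : 0 ≤ x) (h1 : x ≤ 1 / 4) : (996 / 1000) * x ≤ 2 * sin (x / 2) := by
  rcases h0.eq_or_lt with h | h
  · rw [← h]; simp
  · have h2 := Real.sin_gt_sub_cube (x := x / 2) (by linarith)
    have h3 : (x / 2) ^ 3 ≤ (x / 2) * (1 / 64) := by
      have : (x / 2) ^ 2 ≤ 1 / 64 := by nlinarith
      calc (x / 2) ^ 3 = (x / 2) * (x / 2) ^ 2 := by ring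
        _ ≤ (x / 2) * (1 / 64) := mul_le_mul_of_nonneg_left this (by linarith)
    linarith

theorem q_hd1 (u t : ℝ) : HasDerivAt (fun t => DD u t)
    (2 * (sin (th + u + t) - sin (th - t))) t := by
  unfold DD
  have h1 : HasDerivAt (fun t : ℝ => cos (th - t)) (sin (th - t)) t := by
    have := (hasDerivAt_id t).const_sub th
    have h := this.cos
    simpa using h
  have h2 : HasDerivAt (fun t : ℝ => cos (th + u + t)) (-sin (th + u + t)) t := by
    have := (hasDerivAt_id t).const_add (th + u)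
    have h := this.cos
    simpa using h
  have h3 := ((hasDerivAt_const t (3 - 2 * cos (th - u))).sub (h1.const_mul 2)).sub
    (h2.const_mul 2)
  exact h3.congr_deriv (by ring)

theorem q_hd2 {u t : ℝ} (h : 0 < DD u t) : HasDerivAt (fun t => dd u t) (de u t) t := by
  have h1 := (q_hd1 u t).sqrt h.ne'
  refine HasDerivAt.congr_deriv (f := fun t => dd u t) h1 ?_
  unfold de dd
  have : √(DD u t) ≠ 0 := (Real.sqrt_pos.2 h).ne'
  field_simp

theorem q_Nid (u t : ℝ) : (2 * cos (th - u) - 1) ^ 2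
    = DD u t * (2 * (3 - 2 * cos (th - u)) - DD u t)
      - (2 * (sin (th + u + t) - sin (th - t))) ^ 2 := by
  unfold DD
  have h1 := Real.sin_sq_add_cos_sq (th - t)
  have h2 := Real.sin_sq_add_cos_sq (th + u + t)
  have h3 : cos (th - t) * cos (th + u + t) - sin (th - t) * sin (th + u + t)
      = - cos (th - u) := by
    rw [← cos_add, show th - t + (th + u + t) = Real.pi - (th - u) by rw [q_pi]; ring, cos_pi_sub]
  linear_combination 4 * h1 + 4 * h2 + 8 * h3

theorem q_hd3 {u t : ℝ} (h : 0 < DD u t) :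
    HasDerivAt (fun t => de u t) (kn u t - dd u t / 4) t := by
  have hs : 0 < dd u t := Real.sqrt_pos.2 h
  have hsq : dd u t ^ 2 = DD u t := Real.sq_sqrt h.le
  have h1 : HasDerivAt (fun t : ℝ => sin (th - t)) (-cos (th - t)) t := by
    have := (hasDerivAt_id t).const_sub th
    have h := this.sin
    simpa using h
  have h2 : HasDerivAt (fun t : ℝ => sin (th + u + t)) (cos (th + u + t)) t := by
    have := (hasDerivAt_id t).const_add (th + u)
    have h := this.sin
    simpa using h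
  have h3 := (h2.sub h1).div (q_hd2 h) hs.ne'
  have h4 : (fun t => de u t) = (fun t => (sin (th + u + t) - sin (th - t)) / dd u t) := rfl
  rw [h4]
  refine h3.congr_deriv (Eq.symm ?_)
  have hN := q_Nid u t
  unfold kn
  rw [hN]
  unfold de
  rw [← hsq]
  have hP : 2 * cos (th - t) + 2 * cos (th + u + t) = (3 - 2 * cos (th - u)) - dd u t ^ 2 := by
    rw [hsq]; unfold DD; ring
  have hP2 : 3 - 2 * cos (th - u) = dd u t ^ 2 + 2 * cos (th - t) + 2 * cos (th + u + t) := by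
    linarith
  rw [hP2]
  simp only [Pi.sub_apply]
  field_simp
  ring

theorem q_intkn {u : ℝ} (hu : 0 < u) (hu2 : u < th) :
    (∫ t in (0 : ℝ)..th, kn u t) ≤ sin (th - u) - sin ((th - u) / 2) + th / 4 := by
  have ht := q_th_pos
  have hp := q_pi
  have hpos : ∀ t ∈ Set.uIcc 0 th, 0 < DD u t := by
    intro t ht'
    rw [Set.uIcc_of_le ht.le] at ht'
    have h1 : 0 < sin (u / 2) := sin_pos_of_pos_of_lt_pi (by linarith) (by linarith)
    have := q_DD_ge_a ⟨hu.le, hu2.le⟩ ht'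
    have : 0 < (2 * sin (u / 2)) ^ 2 := by positivity
    linarith
  have cdd : ContinuousOn (fun t => dd u t) (Set.uIcc 0 th) := fun t ht' =>
    (q_hd2 (hpos t ht')).continuousAt.continuousWithinAt
  have ckn : ContinuousOn (fun t => kn u t) (Set.uIcc 0 th) := by
    unfold kn
    refine ContinuousOn.div continuousOn_const ((cdd.pow 3).const_mul 4) ?_
    intro t ht'
    have : 0 < dd u t := Real.sqrt_pos.2 (hpos t ht')
    positivity
  have idd : IntervalIntegrable (fun t => dd u t) MeasureTheory.volume 0 th :=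
    cdd.intervalIntegrable
  have ikn : IntervalIntegrable (fun t => kn u t) MeasureTheory.volume 0 th :=
    ckn.intervalIntegrable
  have h1 := intervalIntegral.integral_eq_sub_of_hasDerivAt (a := 0) (b := th)
    (f := fun t => de u t) (f' := fun t => kn u t - dd u t / 4)
    (fun t ht' => q_hd3 (hpos t ht')) (ikn.sub (idd.div_const 4))
  rw [intervalIntegral.integral_sub ikn (idd.div_const 4), intervalIntegral.integral_div] at h1
  have h2 : (∫ t in (0 : ℝ)..th, dd u t) ≤ th := by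
    have h3 : (∫ t in (0 : ℝ)..th, dd u t) ≤ ∫ t in (0 : ℝ)..th, (1 : ℝ) := by
      refine intervalIntegral.integral_mono_on ht.le idd intervalIntegrable_const ?_
      intro t ht'
      exact q_dd_le ⟨hu.le, hu2.le⟩ ht'
    simpa using h3
  have e1 : de u th = sin (th - u) := by
    have hDD : DD u th = 1 := by
      unfold DD
      rw [sub_self, cos_zero, show th + u + th = Real.pi - (th - u) by rw [q_pi]; ring,
        cos_pi_sub]
      ring
    unfold de dd
    rw [hDD, sub_self, sin_zero, show th + u + th = Real.pi - (th - u) by rw [q_pi]; ring,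
      sin_pi_sub]
    simp
  have e2 : de u 0 = sin ((th - u) / 2) := by
    have h3 : 0 < sin (u / 2) := sin_pos_of_pos_of_lt_pi (by linarith) (by linarith)
    have hDD : DD u 0 = (2 * sin (u / 2)) ^ 2 := by
      rw [q_DD1]; simp
    unfold de dd
    rw [hDD, Real.sqrt_sq (by linarith), sub_zero, add_zero]
    have h4 : sin (th + u) - sin th = 2 * sin (u / 2) * cos (th + u / 2) := by
      rw [show th + u = (th + u / 2) + u / 2 by ring]
      have h5 : sin th = sin ((th + u / 2) - u / 2) := by congr 1; ring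
      rw [h5, sin_add, sin_sub]
      ring
    rw [h4]
    have h6 : cos (th + u / 2) = sin ((th - u) / 2) := by
      rw [← cos_pi_div_two_sub]
      congr 1
      rw [q_pi]; ring
    rw [h6]
    field_simp
  rw [e1, e2] at h1
  linarith

theorem kE1 {z t : ℝ} (hz : 0 < z) (hz2 : z ≤ 1 / 80) (ht : t ∈ Set.Icc 0 th) :
    |kn (th - z) t - 1 / 4| ≤ (4 / 5) * z := by
  have h1 := q_dd_ge1 (t := t) hz hz2
  have hth := q_th_ge
  have h2 : dd (th - z) t ≤ 1 := q_dd_le ⟨by linarith, by linarith⟩ ht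
  set d := dd (th - z) t with hd
  have hdpos : 0 < d := by linarith
  have hkn : kn (th - z) t = (2 * cos z - 1) ^ 2 / (4 * d ^ 3) := by
    unfold kn
    rw [show th - (th - z) = z by ring]
  have hc1 := Real.one_sub_sq_div_two_le_cos (x := z)
  have hc2 := cos_le_one z
  have hzz : z ^ 2 ≤ 1 := by nlinarith
  have hc0 : 0 ≤ cos z := by linarith
  have hN1 : (2 * cos z - 1) ^ 2 ≤ 1 := by nlinarith [mul_nonneg hc0 (sub_nonneg.2 hc2)]
  have hN2 : 1 - 2 * z ^ 2 ≤ (2 * cos z - 1) ^ 2 := by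
    have : 0 ≤ 1 - z ^ 2 := by nlinarith
    have h3 : 1 - z ^ 2 ≤ 2 * cos z - 1 := by linarith
    have := pow_le_pow_left₀ this h3 2
    nlinarith [sq_nonneg (z ^ 2)]
  have hd3 : (1 - z) ^ 3 ≤ d ^ 3 := pow_le_pow_left₀ (by linarith) h1 3
  have hd3' : d ^ 3 ≤ 1 := pow_le_one₀ hdpos.le h2
  have hd3p : 0 < d ^ 3 := by positivity
  rw [hkn, abs_le]
  constructor
  · have : 1 / 4 - (4 / 5) * z ≤ (2 * cos z - 1) ^ 2 / (4 * d ^ 3) := by
      rw [le_div_iff₀ (by positivity)]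
      have h5 : (1 - (16 / 5) * z) * d ^ 3 ≤ (1 - (16 / 5) * z) * 1 :=
        mul_le_mul_of_nonneg_left hd3' (by linarith)
      nlinarith
    linarith
  · have : (2 * cos z - 1) ^ 2 / (4 * d ^ 3) ≤ 1 / 4 + (4 / 5) * z := by
      rw [div_le_iff₀ (by positivity)]
      have h5 : (1 + (16 / 5) * z) * (1 - z) ^ 3 ≤ (1 + (16 / 5) * z) * d ^ 3 :=
        mul_le_mul_of_nonneg_left hd3 (by linarith)
      have h6 : 1 ≤ (1 + (16 / 5) * z) * (1 - z) ^ 3 := by
        have h7 : (1 + (16 / 5) * z) * (1 - z) ^ 3 - 1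
            = z * (1 / 5 - z * (33 / 5 - z * (43 / 5 - z * (16 / 5)))) := by ring
        have h8 : 0 ≤ 1 / 5 - z * (33 / 5 - z * (43 / 5 - z * (16 / 5))) := by
          have h9 : 0 ≤ z * (43 / 5 - z * (16 / 5)) := mul_nonneg hz.le (by nlinarith)
          nlinarith
        have := mul_nonneg hz.le h8
        linarith
      linarith
    linarith

theorem kE2 {z t : ℝ} (hz : z ∈ Set.Icc 0 th) (ht : 0 < t) (ht2 : t ≤ th) :
    kn z t ≤ (87 / 100) * z ^ 2 / t ^ 3 := by
  have hth := q_th_pos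
  have ht' : t ∈ Set.Icc 0 th := ⟨ht.le, ht2⟩
  have h1 := q_sin_lower ht'
  have h2 := q_dd_ge_b hz ht'
  have h3 : 0 < t / th := div_pos ht hth
  have h4 := q_kn_le (u := z) (w := t) h3 (h1.trans h2) (q_N_le_u hz)
  refine h4.trans ?_
  rw [div_pow]
  have h5 : 3 * z ^ 2 / (4 * (t ^ 3 / th ^ 3)) = (3 / 4 * th ^ 3) * z ^ 2 / t ^ 3 := by
    field_simp
  rw [h5]
  have h6 : 3 / 4 * th ^ 3 ≤ 87 / 100 := by
    have := q_th_le
    have h7 : th ^ 3 ≤ 1.0473 ^ 3 := pow_le_pow_left₀ hth.le this 3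
    norm_num at h7 ⊢
    linarith
  gcongr

theorem kE3 {u : ℝ} (hu : 0 < u) (hu2 : u < th) :
    (∫ t in (0 : ℝ)..th, kn u t) + (∫ t in (0 : ℝ)..th, kn (th - u) t) ≤ 103 / 100 := by
  have h1 := q_intkn hu hu2
  have h2 := q_intkn (u := th - u) (by linarith) (by linarith)
  rw [show th - (th - u) = u by ring] at h2
  have hp := q_pi
  have ht := q_th_pos
  have h3 : sin (th - u) + sin u ≤ 1 := by
    have h4 : sin (th - u) + sin u = cos (th / 2 - u) := by
      have h5 := q_ss (th / 2) (th / 2 - u)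
      have h7 : sin (th / 2) = 1 / 2 := by
        unfold th
        rw [show Real.pi / 3 / 2 = Real.pi / 6 by ring]
        exact sin_pi_div_six
      rw [show th / 2 + (th / 2 - u) = th - u by ring, show th / 2 - (th / 2 - u) = u by ring,
        h7] at h5
      rw [h5]; ring
    rw [h4]; exact cos_le_one _
  have h8 : 1 / 2 ≤ sin ((th - u) / 2) + sin (u / 2) := by
    have h9 : sin ((th - u) / 2) + sin (u / 2) = 2 * sin (th / 4) * cos (th / 4 - u / 2) := by
      have h5 := q_ss (th / 4) (th / 4 - u / 2)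
      rw [show th / 4 + (th / 4 - u / 2) = (th - u) / 2 by ring,
        show th / 4 - (th / 4 - u / 2) = u / 2 by ring] at h5
      exact h5
    have h10 : cos (th / 4) ≤ cos (th / 4 - u / 2) := by
      rw [← cos_abs (th / 4 - u / 2)]
      refine cos_le_cos_of_nonneg_of_le_pi (abs_nonneg _) (by linarith) ?_
      rw [abs_le]; constructor <;> linarith
    have h11 : 0 ≤ sin (th / 4) := sin_nonneg_of_nonneg_of_le_pi (by linarith) (by linarith)
    have h12 : 2 * sin (th / 4) * cos (th / 4) = 1 / 2 := by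
      rw [← sin_two_mul]
      unfold th
      rw [show 2 * (Real.pi / 3 / 4) = Real.pi / 6 by ring]
      exact sin_pi_div_six
    rw [h9, ← h12]
    exact mul_le_mul_of_nonneg_left h10 (by linarith)
  have := q_th_le
  linarith

theorem kE4 {z s0 : ℝ} (hz : 0 < z) (hz2 : z ≤ 1 / 80) (hs : 0 < s0) (hs2 : s0 ≤ 1 / 4) :
    (∫ t in (0 : ℝ)..s0, 2 * sin (t / 2) * kn z t) ≤ (76 / 100) * z := by
  have hth := q_th_ge
  set g : ℝ → ℝ := fun t => (76 / 100 * z ^ 2) * (t / (√(z ^ 2 + t ^ 2)) ^ 3) with hg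
  have hpos : ∀ t : ℝ, 0 < z ^ 2 + t ^ 2 := fun t => by positivity
  have hcg : Continuous g := by
    rw [hg]
    refine Continuous.mul continuous_const ?_
    refine Continuous.div continuous_id (by fun_prop) ?_
    intro t
    have := Real.sqrt_pos.2 (hpos t)
    positivity
  have hbd : ∀ t ∈ Set.Ioc 0 s0, ‖2 * sin (t / 2) * kn z t‖ ≤ g t := by
    intro t ht
    have ht1 : t ∈ Set.Icc 0 th := ⟨ht.1.le, by linarith [ht.2]⟩
    have hz1 : z ∈ Set.Icc 0 th := ⟨hz.le, by linarith⟩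
    have hs0 := q_sin_half_nonneg ht1
    have hs1 : 2 * sin (t / 2) ≤ t := by
      have := Real.sin_le (show 0 ≤ t / 2 by linarith [ht.1])
      linarith
    rw [Real.norm_of_nonneg (mul_nonneg (by linarith) (q_kn_nonneg z t))]
    have hD := q_DD_ge_ab hz1 ht1 (by linarith [ht.2])
    have ha := q_small hz.le (by linarith)
    have hb := q_small ht.1.le (by linarith [ht.2])
    have hD2 : ((996 / 1000) * √(z ^ 2 + t ^ 2)) ^ 2 ≤ DD z t := by
      rw [mul_pow, Real.sq_sqrt (hpos t).le]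
      have h1 := pow_le_pow_left₀ (by linarith) ha 2
      have h2 := pow_le_pow_left₀ (by linarith [ht.1]) hb 2
      calc (996 / 1000 : ℝ) ^ 2 * (z ^ 2 + t ^ 2)
          = (996 / 1000 * z) ^ 2 + (996 / 1000 * t) ^ 2 := by ring
        _ ≤ (2 * sin (z / 2)) ^ 2 + (2 * sin (t / 2)) ^ 2 := by linarith
        _ ≤ DD z t := hD
    have hsp := Real.sqrt_pos.2 (hpos t)
    have hdd : (996 / 1000) * √(z ^ 2 + t ^ 2) ≤ dd z t := by
      unfold dd
      rw [← Real.sqrt_sq (show 0 ≤ (996 / 1000) * √(z ^ 2 + t ^ 2) by positivity)]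
      exact Real.sqrt_le_sqrt hD2
    have hk := q_kn_le (u := z) (w := t) (by positivity) hdd (q_N_le_u hz1)
    calc 2 * sin (t / 2) * kn z t ≤ t * (3 * z ^ 2 / (4 * ((996 / 1000) * √(z ^ 2 + t ^ 2)) ^ 3)) :=
          mul_le_mul hs1 hk (q_kn_nonneg z t) ht.1.le
      _ = (3 / (4 * (996 / 1000) ^ 3) * z ^ 2) * (t / (√(z ^ 2 + t ^ 2)) ^ 3) := by
          field_simp
      _ ≤ g t := by
          rw [hg]
          refine mul_le_mul_of_nonneg_right ?_ (by have := ht.1; positivity)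
          refine mul_le_mul_of_nonneg_right ?_ (by positivity)
          norm_num
  have h1 := intervalIntegral.norm_integral_le_of_norm_le (μ := MeasureTheory.volume) hs.le
    (Filter.Eventually.of_forall hbd) (hcg.intervalIntegrable 0 s0)
  have h2 : (∫ t in (0 : ℝ)..s0, g t) = (76 / 100 * z ^ 2) * (1 / z - 1 / √(z ^ 2 + s0 ^ 2)) := by
    have hd : ∀ t ∈ Set.uIcc 0 s0, HasDerivAt
        (fun t : ℝ => (76 / 100 * z ^ 2) * (-(√(z ^ 2 + t ^ 2))⁻¹)) (g t) t := by
      intro t _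
      have h3 : HasDerivAt (fun t : ℝ => z ^ 2 + t ^ 2) (2 * t) t := by
        have := (hasDerivAt_pow 2 t).const_add (z ^ 2)
        simpa using this
      have h4 := h3.sqrt (hpos t).ne'
      have hsp := Real.sqrt_pos.2 (hpos t)
      have h5 := ((h4.inv hsp.ne').neg).const_mul (76 / 100 * z ^ 2)
      refine h5.congr_deriv ?_
      show _ = (76 / 100 * z ^ 2) * (t / (√(z ^ 2 + t ^ 2)) ^ 3)
      field_simp
    rw [intervalIntegral.integral_eq_sub_of_hasDerivAt hd (hcg.intervalIntegrable 0 s0)]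
    have h6 : √(z ^ 2 + 0 ^ 2) = z := by
      rw [show z ^ 2 + (0 : ℝ) ^ 2 = z ^ 2 by ring, Real.sqrt_sq hz.le]
    rw [h6]
    simp only [one_div]
    ring
  rw [h2] at h1
  refine (le_abs_self _).trans ?_
  rw [Real.norm_eq_abs] at h1
  refine h1.trans ?_
  have h7 : 0 ≤ 1 / √(z ^ 2 + s0 ^ 2) := by positivity
  calc (76 / 100 * z ^ 2) * (1 / z - 1 / √(z ^ 2 + s0 ^ 2)) ≤ (76 / 100 * z ^ 2) * (1 / z) := by
        refine mul_le_mul_of_nonneg_left (by linarith) (by positivity)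
    _ = 76 / 100 * z := by field_simp

theorem kE5 {v s0 : ℝ} (hs : 0 < s0) (hs2 : s0 ≤ 1 / 4) (hv : v ∈ Set.Icc s0 (th - s0)) :
    (∫ t in (0 : ℝ)..s0, 2 * sin (t / 2) * kn v t) ≤ (3 / 10) * s0 := by
  have hth := q_th_ge
  have hbd : ∀ t ∈ Set.uIoc 0 s0, ‖2 * sin (t / 2) * kn v t‖ ≤ 3 / 10 := by
    intro t ht
    rw [Set.uIoc_of_le hs.le] at ht
    have ht1 : t ∈ Set.Icc 0 th := ⟨ht.1.le, by linarith [ht.2]⟩
    have hv1 : v ∈ Set.Icc 0 th := ⟨by linarith [hv.1], by linarith [hv.2]⟩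
    have hs0 := q_sin_half_nonneg ht1
    rw [Real.norm_of_nonneg (mul_nonneg (by linarith) (q_kn_nonneg v t))]
    have hD := q_DD_ge_ab hv1 ht1 (by linarith [ht.2, hv.2])
    have hb0 : 0 < sin (t / 2) := sin_pos_of_pos_of_lt_pi (by linarith [ht.1])
      (by linarith [Real.pi_gt_three, ht.2])
    set a := 2 * sin (v / 2) with ha
    set b := 2 * sin (t / 2) with hb
    have hbp : 0 < b := by positivity
    have hr : 0 < a ^ 2 + b ^ 2 := by positivity
    set r := √(a ^ 2 + b ^ 2) with hrdef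
    have hrp : 0 < r := Real.sqrt_pos.2 hr
    have hr2 : r ^ 2 = a ^ 2 + b ^ 2 := Real.sq_sqrt hr.le
    have hdd : r ≤ dd v t := by
      unfold dd
      exact Real.sqrt_le_sqrt hD
    have hk := q_kn_le (u := v) (w := t) hrp hdd (q_N_le_a hv1)
    calc b * kn v t ≤ b * (3 * a ^ 2 / (4 * r ^ 3)) := mul_le_mul_of_nonneg_left hk hbp.le
      _ = (3 * (b * a ^ 2)) / (4 * r ^ 3) := by ring
      _ ≤ 3 / 10 := by
          rw [div_le_iff₀ (by positivity)]
          have h1 : b * a ^ 2 ≤ (2 / 5) * r ^ 3 := by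
            have ha2 : a ^ 2 = r ^ 2 - b ^ 2 := by linarith
            rw [ha2]
            have h2 : b ≤ r := by
              rw [hrdef]
              refine Real.le_sqrt_of_sq_le ?_
              nlinarith [sq_nonneg a]
            nlinarith [mul_nonneg hrp.le (sq_nonneg (r - (26 / 15) * b)),
              mul_nonneg hbp.le (sq_nonneg (r - (26 / 15) * b)), mul_pos hrp hbp,
              mul_nonneg hrp.le (sq_nonneg r), pow_pos hbp 3, pow_pos hrp 3]
          linarith
  have h1 := intervalIntegral.norm_integral_le_of_norm_le_const hbd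
  refine (le_abs_self _).trans ?_
  rw [Real.norm_eq_abs] at h1
  refine h1.trans ?_
  rw [sub_zero, abs_of_pos hs]

theorem kE5' {v s0 : ℝ} (hs : 0 < s0) (hs2 : s0 ≤ 1 / 4) (hv : v ∈ Set.Icc s0 (th - s0)) :
    (∫ t in (0 : ℝ)..s0, 2 * sin (t / 2) * kn v (th - t)) ≤ (1 / 10) * s0 := by
  have hth := q_th_ge
  have hth0 := q_th_pos
  have hth1 := q_th_le
  have hbd : ∀ t ∈ Set.Ioc 0 s0, ‖2 * sin (t / 2) * kn v (th - t)‖ ≤ (8 / 10) * t := by
    intro t ht
    have ht1 : t ∈ Set.Icc 0 th := ⟨ht.1.le, by linarith [ht.2]⟩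
    have ht3 : th - t ∈ Set.Icc 0 th := ⟨by linarith [ht.2], by linarith [ht.1]⟩
    have hv1 : v ∈ Set.Icc 0 th := ⟨by linarith [hv.1], by linarith [hv.2]⟩
    have hs0 := q_sin_half_nonneg ht1
    have hs1 : 2 * sin (t / 2) ≤ t := by
      have := Real.sin_le (show 0 ≤ t / 2 by linarith [ht.1])
      linarith
    rw [Real.norm_of_nonneg (mul_nonneg (by linarith) (q_kn_nonneg v (th - t)))]
    have h1 := q_sin_lower ht3
    have h2 := q_dd_ge_b hv1 ht3
    have h3 : (3 / 4 : ℝ) ≤ (th - t) / th := by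
      rw [le_div_iff₀ hth0]
      linarith [ht.2]
    have hk := q_kn_le (u := v) (w := th - t) (show (0 : ℝ) < 3 / 4 by norm_num)
      (h3.trans (h1.trans h2)) (q_N_le_one hv1)
    calc 2 * sin (t / 2) * kn v (th - t) ≤ t * (1 / (4 * (3 / 4) ^ 3)) :=
          mul_le_mul hs1 hk (q_kn_nonneg _ _) ht.1.le
      _ ≤ (8 / 10) * t := by
          have := ht.1
          nlinarith
  have h1 := intervalIntegral.norm_integral_le_of_norm_le (μ := MeasureTheory.volume) hs.le
    (Filter.Eventually.of_forall hbd)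
    ((continuous_const.mul continuous_id).intervalIntegrable 0 s0)
  have h2 : (∫ t in (0 : ℝ)..s0, (8 / 10) * t) = (8 / 10) * (s0 ^ 2 / 2) := by
    rw [intervalIntegral.integral_const_mul, integral_id]
    ring
  refine (le_abs_self _).trans ?_
  rw [Real.norm_eq_abs] at h1
  refine h1.trans ?_
  have h3 : (∫ t in (0 : ℝ)..s0, (8 / 10) * id t) = (8 / 10) * (s0 ^ 2 / 2) := h2
  first
    | rw [h3]
    | rw [h2]
  nlinarith

end Pool.Agent.Helper342.RV.H1
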