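import Pool.Agent.Helper342.RV.Defs

namespace Pool.Agent.Helper342.RV.H2

open Real



















open MeasureTheory Set

lemma th_gt833 : (1.047 : ℝ) < th := by unfold th; linarith [Real.pi_gt_d4]
lemma th_lt833 : th < (1.0472 : ℝ) := by unfold th; linarith [Real.pi_lt_d4]

lemma kn_nonneg833 (u w : ℝ) : 0 ≤ kn u w := by
  have h : 0 ≤ dd u w := Real.sqrt_nonneg _
  unfold kn
  positivity

lemma kn_cont833 : ContinuousOn (fun p : ℝ × ℝ => kn p.1 p.2) {p | 0 < DD p.1 p.2} := by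
  unfold kn
  apply ContinuousOn.div
  · fun_prop
  · have : Continuous (fun p : ℝ × ℝ => dd p.1 p.2) := by
      unfold dd DD
      fun_prop
    fun_prop
  · intro p hp
    have : 0 < dd p.1 p.2 := Real.sqrt_pos.mpr hp
    positivity

/-- Fubini for continuous kernels -/
lemma fubK833 {a b c d : ℝ} (hab : a ≤ b) (hcd : c ≤ d) (k : ℝ → ℝ → ℝ) (G φ : ℝ → ℝ)
    (hk : ContinuousOn (fun p : ℝ × ℝ => k p.1 p.2) (Icc a b ×ˢ Icc c d))
    (hG : ContinuousOn G (Icc a b)) (hφ : ContinuousOn φ (Icc c d)) :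
    IntervalIntegrable (fun t => φ t * ∫ u in a..b, G u * k u t) volume c d ∧
    IntervalIntegrable (fun u => G u * ∫ t in c..d, φ t * k u t) volume a b ∧
    ∫ t in c..d, (φ t * ∫ u in a..b, G u * k u t) = ∫ u in a..b, (G u * ∫ t in c..d, φ t * k u t) := by
  have hF : ContinuousOn (fun p : ℝ × ℝ => G p.1 * (φ p.2 * k p.1 p.2)) (Icc a b ×ˢ Icc c d) := by
    refine ContinuousOn.mul (hG.comp continuousOn_fst fun p hp => hp.1) ?_
    exact ContinuousOn.mul (hφ.comp continuousOn_snd fun p hp => hp.2) hk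
  have hI : Integrable (fun p : ℝ × ℝ => G p.1 * (φ p.2 * k p.1 p.2))
      ((volume.restrict (Icc a b)).prod (volume.restrict (Icc c d))) := by
    rw [Measure.prod_restrict]
    exact hF.integrableOn_compact (isCompact_Icc.prod isCompact_Icc)
  have e1 : ∀ (t : ℝ), (φ t * ∫ u in a..b, G u * k u t)
      = ∫ u in Icc a b, G u * (φ t * k u t) := by
    intro t
    rw [← intervalIntegral.integral_const_mul, intervalIntegral.integral_of_le hab,
      ← integral_Icc_eq_integral_Ioc]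
    congr 1; funext u; ring
  have e2 : ∀ (u : ℝ), (G u * ∫ t in c..d, φ t * k u t)
      = ∫ t in Icc c d, G u * (φ t * k u t) := by
    intro u
    rw [← intervalIntegral.integral_const_mul, intervalIntegral.integral_of_le hcd,
      ← integral_Icc_eq_integral_Ioc]
  refine ⟨?_, ?_, ?_⟩
  · rw [intervalIntegrable_iff_integrableOn_Icc_of_le hcd]
    have := hI.integral_prod_right
    unfold IntegrableOn
    refine this.congr (Filter.Eventually.of_forall fun t => ?_)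
    exact (e1 t).symm
  · rw [intervalIntegrable_iff_integrableOn_Icc_of_le hab]
    have := hI.integral_prod_left
    unfold IntegrableOn
    refine this.congr (Filter.Eventually.of_forall fun u => ?_)
    exact (e2 u).symm
  · have h3 := integral_integral_swap (f := fun u t => G u * (φ t * k u t))
      (μ := volume.restrict (Icc a b)) (ν := volume.restrict (Icc c d)) hI
    rw [intervalIntegral.integral_of_le hcd, ← integral_Icc_eq_integral_Ioc,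
      intervalIntegral.integral_of_le hab, ← integral_Icc_eq_integral_Ioc]
    simp only [e1, e2]
    exact h3.symm

/-- `sin x + sin y ≥ 1/2` etc. -/
lemma sin_sum833 {u : ℝ} (h0 : 0 ≤ u) (h1 : u ≤ th) :
    1 / 2 ≤ sin (u / 2) + sin ((th - u) / 2) := by
  have hth := th_lt833
  have hpi := Real.pi_gt_d4
  have e : sin (u / 2 + (th - u) / 2) = 1 / 2 := by
    have : u / 2 + (th - u) / 2 = Real.pi / 6 := by unfold th; ring
    rw [this, Real.sin_pi_div_six]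
  rw [Real.sin_add] at e
  have s1 : 0 ≤ sin (u / 2) := Real.sin_nonneg_of_nonneg_of_le_pi (by linarith) (by linarith)
  have s2 : 0 ≤ sin ((th - u) / 2) :=
    Real.sin_nonneg_of_nonneg_of_le_pi (by linarith) (by linarith)
  nlinarith [Real.cos_le_one (u / 2), Real.cos_le_one ((th - u) / 2)]

lemma sin_half_le833 {u : ℝ} (h0 : 0 ≤ u) (h1 : u ≤ th) : 2 * sin (u / 2) ≤ 1 := by
  have hpi := Real.pi_gt_d4
  have hth := th_lt833
  have e : sin (th / 2) = 1 / 2 := by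
    have : th / 2 = Real.pi / 6 := by unfold th; ring
    rw [this, Real.sin_pi_div_six]
  have : sin (u / 2) ≤ sin (th / 2) :=
    Real.sin_le_sin_of_le_of_le_pi_div_two (by linarith) (by linarith) (by linarith)
  linarith

lemma sin_th_z833 {z : ℝ} (h0 : 0 ≤ z) : 1 - 2 * sin ((th - z) / 2) ≤ z := by
  have e : sin (th / 2) = 1 / 2 := by
    have : th / 2 = Real.pi / 6 := by unfold th; ring
    rw [this, Real.sin_pi_div_six]
  have h := Real.abs_sin_sub_sin_le (th / 2) ((th - z) / 2)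
  have h2 : |th / 2 - (th - z) / 2| = z / 2 := by
    rw [abs_of_nonneg (by linarith)]; ring
  rw [h2, e] at h
  have := le_abs_self (1 / 2 - sin ((th - z) / 2))
  linarith


lemma kcomp833 {X : Type*} [TopologicalSpace X] {s : Set X} {f g : X → ℝ} (hf : ContinuousOn f s)
    (hg : ContinuousOn g s) (hpos : ∀ x ∈ s, 0 < DD (f x) (g x)) :
    ContinuousOn (fun x => kn (f x) (g x)) s := by
  have h := ContinuousOn.comp (g := fun p : ℝ × ℝ => kn p.1 p.2) (f := fun x => (f x, g x))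
    (t := {p : ℝ × ℝ | 0 < DD p.1 p.2}) kn_cont833 (hf.prodMk hg) (fun x hx => hpos x hx)
  exact h

lemma real_bd833 {p q r s X1 X2 Y1 Y2 I1 I2 J1 J2 M z : ℝ} (hM : 0 ≤ M)
    (hp : |p| ≤ M) (hq : |q| ≤ M) (hr : |r| ≤ M) (hs : |s| ≤ M)
    (hX1 : |X1 - 1 / 4| ≤ (4 / 5) * z) (hX2 : |X2 - 1 / 4| ≤ (4 / 5) * z)
    (hY1 : 0 ≤ Y1) (hY2 : 0 ≤ Y2) (hI1 : |I1| ≤ J1) (hI2 : |I2| ≤ J2) :
    |p * X1 + q * Y1 + I1 + (r * Y2 + s * X2 + I2)| ≤
      M * Y1 + M * Y2 + (|p + s| / 4 + (8 / 5) * z * M) + J1 + J2 := by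
  have h1 : |p * (X1 - 1 / 4)| ≤ M * ((4 / 5) * z) := by
    rw [abs_mul]; exact mul_le_mul hp hX1 (abs_nonneg _) hM
  have h2 : |s * (X2 - 1 / 4)| ≤ M * ((4 / 5) * z) := by
    rw [abs_mul]; exact mul_le_mul hs hX2 (abs_nonneg _) hM
  have h3 : |q * Y1| ≤ M * Y1 := by
    rw [abs_mul, abs_of_nonneg hY1]; exact mul_le_mul_of_nonneg_right hq hY1
  have h4 : |r * Y2| ≤ M * Y2 := by
    rw [abs_mul, abs_of_nonneg hY2]; exact mul_le_mul_of_nonneg_right hr hY2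
  have h5 := abs_le.mp (le_refl |p + s|)
  have h1' := abs_le.mp h1
  have h2' := abs_le.mp h2
  have h3' := abs_le.mp h3
  have h4' := abs_le.mp h4
  have h6 := abs_le.mp hI1
  have h7 := abs_le.mp hI2
  rw [abs_le]
  constructor
  · linarith [h1'.1, h2'.1, h3'.1, h4'.1, h5.1, h6.1, h7.1]
  · linarith [h1'.2, h2'.2, h3'.2, h4'.2, h5.2, h6.2, h7.2]

/-- pointwise bound of the operator -/
lemma Pbound833
    (kE1 : ∀ z t : ℝ, 0 < z → z ≤ 1 / 80 → t ∈ Set.Icc 0 th →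
      |kn (th - z) t - 1 / 4| ≤ (4 / 5) * z)
    {s0 z : ℝ} (hz : 0 < z) (hz80 : z ≤ 1 / 80) (hab : s0 ≤ th - s0)
    (m0 m1 : Fin 3 → ℝ) (H : Fin 3 → ℝ → ℝ) {M : ℝ} (hM : 0 ≤ M)
    (h0 : ∀ j, |m0 j| ≤ M) (h1 : ∀ j, |m1 j| ≤ M) (j : Fin 3) {t : ℝ} (ht : t ∈ Icc 0 th) :
    |Pj s0 z m0 m1 H j t| ≤ M * kn z t + M * kn z (th - t)
      + (|m0 (j + 2) + m1 (j + 1)| / 4 + (8 / 5) * z * M)
      + (∫ u in s0..(th - s0), |H (j + 2) u| * kn (th - u) t)
      + ∫ u in s0..(th - s0), |H (j + 1) u| * kn u (th - t) := by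
  have ht' : th - t ∈ Icc 0 th := ⟨by linarith [ht.2], by linarith [ht.1]⟩
  have J1 : |∫ u in s0..(th - s0), H (j + 2) u * kn (th - u) t| ≤
      ∫ u in s0..(th - s0), |H (j + 2) u| * kn (th - u) t := by
    refine (intervalIntegral.abs_integral_le_integral_abs hab).trans (le_of_eq ?_)
    refine intervalIntegral.integral_congr (fun u _ => ?_)
    simp only [abs_mul, abs_of_nonneg (kn_nonneg833 _ _)]
  have J2 : |∫ u in s0..(th - s0), H (j + 1) u * kn u (th - t)| ≤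
      ∫ u in s0..(th - s0), |H (j + 1) u| * kn u (th - t) := by
    refine (intervalIntegral.abs_integral_le_integral_abs hab).trans (le_of_eq ?_)
    refine intervalIntegral.integral_congr (fun u _ => ?_)
    simp only [abs_mul, abs_of_nonneg (kn_nonneg833 _ _)]
  unfold Pj
  exact real_bd833 hM (h0 _) (h1 _) (h0 _) (h1 _) (kE1 z t hz hz80 ht) (kE1 z (th - t) hz hz80 ht')
    (kn_nonneg833 _ _) (kn_nonneg833 _ _) J1 J2

lemma split5_833 {c d : ℝ} {φ f1 f2 Q R : ℝ → ℝ} (M C : ℝ)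
    (i1 : IntervalIntegrable (fun t => φ t * f1 t) volume c d)
    (i2 : IntervalIntegrable (fun t => φ t * f2 t) volume c d)
    (i3 : IntervalIntegrable φ volume c d)
    (i4 : IntervalIntegrable (fun t => φ t * Q t) volume c d)
    (i5 : IntervalIntegrable (fun t => φ t * R t) volume c d) :
    IntervalIntegrable (fun t => φ t * (M * f1 t + M * f2 t + C + Q t + R t)) volume c d ∧
    ∫ t in c..d, φ t * (M * f1 t + M * f2 t + C + Q t + R t) =
      M * (∫ t in c..d, φ t * f1 t) + M * (∫ t in c..d, φ t * f2 t) + C * (∫ t in c..d, φ t)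
        + (∫ t in c..d, φ t * Q t) + ∫ t in c..d, φ t * R t := by
  have e : (fun t => φ t * (M * f1 t + M * f2 t + C + Q t + R t)) =
      fun t => (((M * (φ t * f1 t) + M * (φ t * f2 t)) + C * φ t) + φ t * Q t) + φ t * R t := by
    funext t; ring
  rw [e]
  have a1 := (i1.const_mul M)
  have a2 := (i2.const_mul M)
  have a3 := (i3.const_mul C)
  refine ⟨(((a1.add a2).add a3).add i4).add i5, ?_⟩
  rw [intervalIntegral.integral_add (((a1.add a2).add a3).add i4) i5,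
    intervalIntegral.integral_add ((a1.add a2).add a3) i4,
    intervalIntegral.integral_add (a1.add a2) a3,
    intervalIntegral.integral_add a1 a2,
    intervalIntegral.integral_const_mul, intervalIntegral.integral_const_mul,
    intervalIntegral.integral_const_mul]

/-- bound of a double integral through the inner bound -/
lemma fubB833 {a b c d : ℝ} (hab : a ≤ b) (hcd : c ≤ d) (k : ℝ → ℝ → ℝ) (G φ : ℝ → ℝ)
    (hk : ContinuousOn (fun p : ℝ × ℝ => k p.1 p.2) (Icc a b ×ˢ Icc c d))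
    (hG : ContinuousOn G (Icc a b)) (hφ : ContinuousOn φ (Icc c d)) (hG0 : ∀ u ∈ Icc a b, 0 ≤ G u)
    {C : ℝ} (hC : ∀ u ∈ Icc a b, ∫ t in c..d, φ t * k u t ≤ C) :
    ∫ t in c..d, (φ t * ∫ u in a..b, G u * k u t) ≤ C * ∫ u in a..b, G u := by
  obtain ⟨-, i2, e⟩ := fubK833 hab hcd k G φ hk hG hφ
  rw [e, ← intervalIntegral.integral_const_mul]
  refine intervalIntegral.integral_mono_on hab i2
    ((hG.intervalIntegrable_of_Icc hab).const_mul C) (fun u hu => ?_)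
  have := mul_le_mul_of_nonneg_left (hC u hu) (hG0 u hu)
  linarith

/-- tail integral -/
lemma tail833
    (DD_pos : ∀ u w : ℝ, u ∈ Set.Icc 0 th → w ∈ Set.Icc 0 th → (0 < u ∨ 0 < w) → 0 < DD u w)
    (kE2 : ∀ z t : ℝ, z ∈ Set.Icc 0 th → 0 < t → t ≤ th → kn z t ≤ (87 / 100) * z ^ 2 / t ^ 3)
    {s0 z : ℝ} (hz : 0 < z) (hz80 : z ≤ 1 / 80) (hs0 : 0 < s0) (hab : s0 ≤ th - s0) :
    ∫ t in s0..(th - s0), kn z t ≤ (435 / 1000) * (z ^ 2 / s0 ^ 2) := by
  have hth := th_gt833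
  have hsub : Icc s0 (th - s0) ⊆ Icc 0 th := Icc_subset_Icc hs0.le (by linarith)
  have hzI : z ∈ Icc 0 th := ⟨hz.le, by linarith⟩
  have i1 : IntervalIntegrable (fun t => kn z t) volume s0 (th - s0) := by
    refine ContinuousOn.intervalIntegrable_of_Icc hab ?_
    exact kcomp833 continuousOn_const continuousOn_id
      (fun t ht => DD_pos z t hzI (hsub ht) (Or.inl hz))
  have hd : ∀ t ∈ uIcc s0 (th - s0),
      HasDerivAt (fun t => -((87 / 200) * z ^ 2 * (t ^ 2)⁻¹)) ((87 / 100) * z ^ 2 / t ^ 3) t := by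
    intro t ht
    rw [uIcc_of_le hab] at ht
    have ht0 : t ≠ 0 := by linarith [ht.1]
    have h1 : HasDerivAt (fun t : ℝ => (t ^ 2)⁻¹) (-(2 * t) / (t ^ 2) ^ 2) t := by
      have h2 : HasDerivAt (fun t : ℝ => t ^ 2) (2 * t) t := by
        simpa using hasDerivAt_pow 2 t
      exact h2.fun_inv (pow_ne_zero 2 ht0)
    have h3 := (h1.const_mul ((87 / 200) * z ^ 2)).neg
    have h4 : (87 / 100) * z ^ 2 / t ^ 3 = -((87 / 200) * z ^ 2 * (-(2 * t) / (t ^ 2) ^ 2)) := by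
      field_simp
      ring
    rw [h4]
    exact h3
  have i2 : IntervalIntegrable (fun t => (87 / 100) * z ^ 2 / t ^ 3) volume s0 (th - s0) := by
    refine ContinuousOn.intervalIntegrable_of_Icc hab ?_
    refine ContinuousOn.div continuousOn_const (by fun_prop) (fun t ht => ?_)
    have : 0 < t := lt_of_lt_of_le hs0 ht.1
    positivity
  have h1 : ∫ t in s0..(th - s0), kn z t ≤ ∫ t in s0..(th - s0), (87 / 100) * z ^ 2 / t ^ 3 := by
    refine intervalIntegral.integral_mono_on hab i1 i2 (fun t ht => ?_)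
    exact kE2 z t hzI (lt_of_lt_of_le hs0 ht.1) (hsub ht).2
  rw [intervalIntegral.integral_eq_sub_of_hasDerivAt hd i2] at h1
  have h2 : 0 ≤ (87 / 200) * z ^ 2 * ((th - s0) ^ 2)⁻¹ := by positivity
  have h3 : (87 / 200) * z ^ 2 * (s0 ^ 2)⁻¹ = (435 / 1000) * (z ^ 2 / s0 ^ 2) := by
    rw [div_eq_mul_inv (z ^ 2)]; ring
  linarith

/-- step (4): the masses near a vertex almost cancel -/
lemma alpha833
    {s0 z : ℝ} (hz : 0 < z) (hz80 : z ≤ 1 / 80) (hs0 : 0 < s0) (hab : s0 ≤ th - s0)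
    (m0 m1 : Fin 3 → ℝ) (H : Fin 3 → ℝ → ℝ)
    (hHc : ∀ j, ContinuousOn (H j) (Set.Icc s0 (th - s0))) {M : ℝ} (hM : 0 ≤ M)
    (h0 : ∀ j, |m0 j| ≤ M) (h1 : ∀ j, |m1 j| ≤ M)
    (hV : ∀ j, m0 j * (2 * sin (z / 2)) + m1 j * (2 * sin ((th - z) / 2))
      + (∫ u in s0..(th - s0), H j u * (2 * sin (u / 2)))
      + (m0 (j + 1) + m1 (j + 1) + ∫ u in s0..(th - s0), H (j + 1) u)
      + (m0 (j + 2) * (2 * sin ((th - z) / 2)) + m1 (j + 2) * (2 * sin (z / 2))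
      + ∫ u in s0..(th - s0), H (j + 2) u * (2 * sin ((th - u) / 2))) = 0)
    (hT : ∑ j, (m0 j + m1 j + ∫ u in s0..(th - s0), H j u) = 0) :
    ∑ j : Fin 3, |m0 j + m1 (j + 2)| ≤ 12 * z * M + ∑ j : Fin 3, ∫ u in s0..(th - s0), |H j u| := by
  have hth := th_gt833
  have hth2 := th_lt833
  have hpi := Real.pi_gt_d4
  have hsub : ∀ u ∈ Icc s0 (th - s0), 0 ≤ u ∧ u ≤ th := fun u hu =>
    ⟨by linarith [hu.1], by linarith [hu.2]⟩
  -- the two weights
  let w1 : ℝ → ℝ := fun u => 1 - 2 * sin (u / 2)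
  let w2 : ℝ → ℝ := fun u => 1 - 2 * sin ((th - u) / 2)
  have w1c : Continuous w1 := by fun_prop
  have w2c : Continuous w2 := by fun_prop
  have w1n : ∀ u ∈ Icc s0 (th - s0), 0 ≤ w1 u := fun u hu => by
    have := sin_half_le833 (hsub u hu).1 (hsub u hu).2
    show 0 ≤ 1 - 2 * sin (u / 2)
    linarith
  have w2n : ∀ u ∈ Icc s0 (th - s0), 0 ≤ w2 u := fun u hu => by
    have := sin_half_le833 (u := th - u) (by linarith [(hsub u hu).2]) (by linarith [(hsub u hu).1])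
    show 0 ≤ 1 - 2 * sin ((th - u) / 2)
    linarith
  have Hc' : ∀ j, ContinuousOn (fun u => |H j u|) (Icc s0 (th - s0)) := fun j => (hHc j).abs
  have hsz : sin (z / 2) ≤ z / 2 := (Real.sin_lt (by linarith)).le
  have hsz0 : 0 ≤ sin (z / 2) :=
    Real.sin_nonneg_of_nonneg_of_le_pi (by linarith) (by linarith)
  have hw2z : 1 - 2 * sin ((th - z) / 2) ≤ z := sin_th_z833 hz.le
  have hw2z0 : 0 ≤ 1 - 2 * sin ((th - z) / 2) := by
    have := sin_half_le833 (u := th - z) (by linarith) (by linarith)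
    linarith
  -- difference for each j
  have key : ∀ j : Fin 3, (m0 j + m1 j + ∫ u in s0..(th - s0), H j u)
      + (m0 (j + 1) + m1 (j + 1) + ∫ u in s0..(th - s0), H (j + 1) u)
      + (m0 (j + 2) + m1 (j + 2) + ∫ u in s0..(th - s0), H (j + 2) u) = 0 → 
      |m0 j + m1 (j + 2)| ≤ 4 * z * M + (∫ u in s0..(th - s0), |H j u| * w1 u)
        + ∫ u in s0..(th - s0), |H (j + 2) u| * w2 u := by
    intro j hTj
    have hVj := hV j
    have ia : ∀ i, IntervalIntegrable (H i) volume s0 (th - s0) :=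
      fun i => (hHc i).intervalIntegrable_of_Icc hab
    have ib : ∀ i, IntervalIntegrable (fun u => H i u * (2 * sin (u / 2))) volume s0 (th - s0) :=
      fun i => ((hHc i).mul (by fun_prop)).intervalIntegrable_of_Icc hab
    have ic : ∀ i, IntervalIntegrable (fun u => H i u * (2 * sin ((th - u) / 2))) volume
        s0 (th - s0) := fun i => ((hHc i).mul (by fun_prop)).intervalIntegrable_of_Icc hab
    have d1 : ∫ u in s0..(th - s0), H j u * w1 u = (∫ u in s0..(th - s0), H j u)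
        - ∫ u in s0..(th - s0), H j u * (2 * sin (u / 2)) := by
      rw [← intervalIntegral.integral_sub (ia j) (ib j)]
      refine intervalIntegral.integral_congr (fun u _ => ?_)
      show H j u * (1 - 2 * sin (u / 2)) = H j u - H j u * (2 * sin (u / 2))
      ring
    have d2 : ∫ u in s0..(th - s0), H (j + 2) u * w2 u = (∫ u in s0..(th - s0), H (j + 2) u)
        - ∫ u in s0..(th - s0), H (j + 2) u * (2 * sin ((th - u) / 2)) := by
      rw [← intervalIntegral.integral_sub (ia (j + 2)) (ic (j + 2))]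
      refine intervalIntegral.integral_congr (fun u _ => ?_)
      show H (j + 2) u * (1 - 2 * sin ((th - u) / 2)) =
        H (j + 2) u - H (j + 2) u * (2 * sin ((th - u) / 2))
      ring
    have a1 : |∫ u in s0..(th - s0), H j u * w1 u| ≤ ∫ u in s0..(th - s0), |H j u| * w1 u := by
      refine (intervalIntegral.abs_integral_le_integral_abs hab).trans (le_of_eq ?_)
      refine intervalIntegral.integral_congr (fun u hu => ?_)
      rw [uIcc_of_le hab] at hu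
      simp only [abs_mul, abs_of_nonneg (w1n u hu)]
    have a2 : |∫ u in s0..(th - s0), H (j + 2) u * w2 u| ≤
        ∫ u in s0..(th - s0), |H (j + 2) u| * w2 u := by
      refine (intervalIntegral.abs_integral_le_integral_abs hab).trans (le_of_eq ?_)
      refine intervalIntegral.integral_congr (fun u hu => ?_)
      rw [uIcc_of_le hab] at hu
      simp only [abs_mul, abs_of_nonneg (w2n u hu)]
    have e : m0 j + m1 (j + 2) = m0 j * (2 * sin (z / 2)) + m1 (j + 2) * (2 * sin (z / 2))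
        - m1 j * (1 - 2 * sin ((th - z) / 2)) - m0 (j + 2) * (1 - 2 * sin ((th - z) / 2))
        - (∫ u in s0..(th - s0), H j u * w1 u) - ∫ u in s0..(th - s0), H (j + 2) u * w2 u := by
      rw [d1, d2]
      linarith
    have b1 : |m0 j * (2 * sin (z / 2))| ≤ M * z := by
      rw [abs_mul, abs_of_nonneg (by linarith : 0 ≤ 2 * sin (z / 2))]
      exact mul_le_mul (h0 j) (by linarith) (by linarith) hM
    have b2 : |m1 (j + 2) * (2 * sin (z / 2))| ≤ M * z := by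
      rw [abs_mul, abs_of_nonneg (by linarith : 0 ≤ 2 * sin (z / 2))]
      exact mul_le_mul (h1 _) (by linarith) (by linarith) hM
    have b3 : |m1 j * (1 - 2 * sin ((th - z) / 2))| ≤ M * z := by
      rw [abs_mul, abs_of_nonneg hw2z0]
      exact mul_le_mul (h1 _) hw2z hw2z0 hM
    have b4 : |m0 (j + 2) * (1 - 2 * sin ((th - z) / 2))| ≤ M * z := by
      rw [abs_mul, abs_of_nonneg hw2z0]
      exact mul_le_mul (h0 _) hw2z hw2z0 hM
    rw [e, abs_le]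
    have b1' := abs_le.mp b1
    have b2' := abs_le.mp b2
    have b3' := abs_le.mp b3
    have b4' := abs_le.mp b4
    have a1' := abs_le.mp a1
    have a2' := abs_le.mp a2
    constructor
    · linarith [b1'.1, b2'.1, b3'.2, b4'.2, a1'.2, a2'.2]
    · linarith [b1'.2, b2'.2, b3'.1, b4'.1, a1'.1, a2'.1]
  have i1 : ∀ j, IntervalIntegrable (fun u => |H j u| * w1 u) volume s0 (th - s0) := fun j =>
    ((Hc' j).mul w1c.continuousOn).intervalIntegrable_of_Icc hab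
  have i2 : ∀ j, IntervalIntegrable (fun u => |H j u| * w2 u) volume s0 (th - s0) := fun j =>
    ((Hc' j).mul w2c.continuousOn).intervalIntegrable_of_Icc hab
  have c : ∀ j, (∫ u in s0..(th - s0), |H j u| * w1 u) + (∫ u in s0..(th - s0), |H j u| * w2 u)
      ≤ ∫ u in s0..(th - s0), |H j u| := by
    intro j
    rw [← intervalIntegral.integral_add (i1 j) (i2 j)]
    refine intervalIntegral.integral_mono_on hab ((i1 j).add (i2 j))
      ((Hc' j).intervalIntegrable_of_Icc hab) (fun u hu => ?_)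
    have hw : w1 u + w2 u ≤ 1 := by
      show (1 - 2 * sin (u / 2)) + (1 - 2 * sin ((th - u) / 2)) ≤ 1
      linarith [sin_sum833 (hsub u hu).1 (hsub u hu).2]
    nlinarith [abs_nonneg (H j u)]
  have f1 : (0 : Fin 3) + 1 = 1 := rfl
  have f2 : (0 : Fin 3) + 2 = 2 := rfl
  have f3 : (1 : Fin 3) + 1 = 2 := rfl
  have f4 : (1 : Fin 3) + 2 = 0 := rfl
  have f5 : (2 : Fin 3) + 1 = 0 := rfl
  have f6 : (2 : Fin 3) + 2 = 1 := rfl
  rw [Fin.sum_univ_three] at hT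
  have k0 := key 0
  have k1 := key 1
  have k2 := key 2
  rw [f1, f2] at k0
  rw [f3, f4] at k1
  rw [f5, f6] at k2
  have k0' := k0 (by linarith)
  have k1' := k1 (by linarith)
  have k2' := k2 (by linarith)
  rw [Fin.sum_univ_three, Fin.sum_univ_three, f2, f4, f6]
  linarith [c 0, c 1, c 2]


lemma kc1_833
    (DD_pos : ∀ u w : ℝ, u ∈ Set.Icc 0 th → w ∈ Set.Icc 0 th → (0 < u ∨ 0 < w) → 0 < DD u w)
    {s0 c d : ℝ} (hs0 : 0 < s0) (hc : 0 ≤ c) (hd : d ≤ th) :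
    ContinuousOn (fun p : ℝ × ℝ => kn (th - p.1) p.2) (Icc s0 (th - s0) ×ˢ Icc c d) := by
  refine kcomp833 (by fun_prop) (by fun_prop) (fun p hp => ?_)
  obtain ⟨⟨h1, h2⟩, ⟨h3, h4⟩⟩ := hp
  exact DD_pos _ _ ⟨by linarith, by linarith⟩ ⟨by linarith, by linarith⟩ (Or.inl (by linarith))

lemma kc2_833
    (DD_pos : ∀ u w : ℝ, u ∈ Set.Icc 0 th → w ∈ Set.Icc 0 th → (0 < u ∨ 0 < w) → 0 < DD u w)
    {s0 c d : ℝ} (hs0 : 0 < s0) (hc : 0 ≤ c) (hd : d ≤ th) :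
    ContinuousOn (fun p : ℝ × ℝ => kn p.1 (th - p.2)) (Icc s0 (th - s0) ×ˢ Icc c d) := by
  refine kcomp833 (by fun_prop) (by fun_prop) (fun p hp => ?_)
  obtain ⟨⟨h1, h2⟩, ⟨h3, h4⟩⟩ := hp
  exact DD_pos _ _ ⟨by linarith, by linarith⟩ ⟨by linarith, by linarith⟩ (Or.inl (by linarith))

lemma kc3_833
    (DD_pos : ∀ u w : ℝ, u ∈ Set.Icc 0 th → w ∈ Set.Icc 0 th → (0 < u ∨ 0 < w) → 0 < DD u w)
    {s0 c d : ℝ} (hs0 : 0 < s0) (hc : 0 ≤ c) (hd : d ≤ th) :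
    ContinuousOn (fun p : ℝ × ℝ => kn (th - p.1) (th - p.2)) (Icc s0 (th - s0) ×ˢ Icc c d) := by
  refine kcomp833 (by fun_prop) (by fun_prop) (fun p hp => ?_)
  obtain ⟨⟨h1, h2⟩, ⟨h3, h4⟩⟩ := hp
  exact DD_pos _ _ ⟨by linarith, by linarith⟩ ⟨by linarith, by linarith⟩ (Or.inl (by linarith))

lemma kc4_833
    (DD_pos : ∀ u w : ℝ, u ∈ Set.Icc 0 th → w ∈ Set.Icc 0 th → (0 < u ∨ 0 < w) → 0 < DD u w)
    {s0 c d : ℝ} (hs0 : 0 < s0) (hc : 0 ≤ c) (hd : d ≤ th) :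
    ContinuousOn (fun p : ℝ × ℝ => kn p.1 p.2) (Icc s0 (th - s0) ×ˢ Icc c d) := by
  refine kcomp833 (by fun_prop) (by fun_prop) (fun p hp => ?_)
  obtain ⟨⟨h1, h2⟩, ⟨h3, h4⟩⟩ := hp
  exact DD_pos _ _ ⟨by linarith, by linarith⟩ ⟨by linarith, by linarith⟩ (Or.inl (by linarith))

/-- step (2) -/
lemma step2_833
    (DD_pos : ∀ u w : ℝ, u ∈ Set.Icc 0 th → w ∈ Set.Icc 0 th → (0 < u ∨ 0 < w) → 0 < DD u w)
    (kE1 : ∀ z t : ℝ, 0 < z → z ≤ 1 / 80 → t ∈ Set.Icc 0 th →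
      |kn (th - z) t - 1 / 4| ≤ (4 / 5) * z)
    (kE2 : ∀ z t : ℝ, z ∈ Set.Icc 0 th → 0 < t → t ≤ th → kn z t ≤ (87 / 100) * z ^ 2 / t ^ 3)
    (kE3 : ∀ u : ℝ, 0 < u → u < th →
      (∫ t in (0 : ℝ)..th, kn u t) + (∫ t in (0 : ℝ)..th, kn (th - u) t) ≤ 103 / 100)
    {s0 z : ℝ} (hz : 0 < z) (hz80 : z ≤ 1 / 80) (hs0 : 0 < s0) (hab : s0 ≤ th - s0)
    (m0 m1 : Fin 3 → ℝ) (H : Fin 3 → ℝ → ℝ)
    (hHc : ∀ j, ContinuousOn (H j) (Set.Icc s0 (th - s0)))
    (hH : ∀ j, ∀ t ∈ Set.Icc s0 (th - s0), H j t = -(1 / 2) * Pj s0 z m0 m1 H j t)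
    {M : ℝ} (hM : 0 ≤ M) (h0 : ∀ j, |m0 j| ≤ M) (h1 : ∀ j, |m1 j| ≤ M) :
    2 * (∑ j : Fin 3, ∫ u in s0..(th - s0), |H j u|) ≤
      6 * ((435 / 1000) * (z ^ 2 / s0 ^ 2)) * M
      + (th - 2 * s0) * ((∑ j : Fin 3, |m0 j + m1 (j + 2)|) / 4) + 3 * (th - 2 * s0) * ((8 / 5) * z * M)
      + (103 / 100) * (∑ j : Fin 3, ∫ u in s0..(th - s0), |H j u|) := by
  have hth := th_gt833
  have hsub : Icc s0 (th - s0) ⊆ Icc 0 th := Icc_subset_Icc hs0.le (by linarith)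
  have hzI : z ∈ Icc 0 th := ⟨hz.le, by linarith⟩
  have Hc' : ∀ j, ContinuousOn (fun u => |H j u|) (Icc s0 (th - s0)) := fun j => (hHc j).abs
  have hX := tail833 DD_pos kE2 hz hz80 hs0 hab
  have hY : ∫ t in s0..(th - s0), kn z (th - t) ≤ (435 / 1000) * (z ^ 2 / s0 ^ 2) := by
    have e := intervalIntegral.integral_comp_sub_left (a := s0) (b := th - s0)
      (fun t => kn z t) th
    rw [e, sub_sub_cancel]
    exact hX
  have kk1 := fun i : Fin 3 => fubK833 hab hab (fun u t => kn (th - u) t) (fun u => |H i u|)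
    (fun _ => (1 : ℝ)) (kc1_833 DD_pos hs0 hs0.le (by linarith)) (Hc' i) continuousOn_const
  have kk2 := fun i : Fin 3 => fubK833 hab hab (fun u t => kn u (th - t)) (fun u => |H i u|)
    (fun _ => (1 : ℝ)) (kc2_833 DD_pos hs0 hs0.le (by linarith)) (Hc' i) continuousOn_const
  -- the sum over both sides
  have hqr : ∀ i : Fin 3, (∫ t in s0..(th - s0), (1 : ℝ) * ∫ u in s0..(th - s0), |H i u| * kn (th - u) t)
      + (∫ t in s0..(th - s0), (1 : ℝ) * ∫ u in s0..(th - s0), |H i u| * kn u (th - t))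
      ≤ (103 / 100) * ∫ u in s0..(th - s0), |H i u| := by
    intro i
    rw [(kk1 i).2.2, (kk2 i).2.2, ← intervalIntegral.integral_add (kk1 i).2.1 (kk2 i).2.1,
      ← intervalIntegral.integral_const_mul]
    refine intervalIntegral.integral_mono_on hab ((kk1 i).2.1.add (kk2 i).2.1)
      (((Hc' i).intervalIntegrable_of_Icc hab).const_mul _) (fun u hu => ?_)
    have hu0 : 0 < u := lt_of_lt_of_le hs0 hu.1
    have hu1 : u < th := by linarith [hu.2]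
    have g1 : ∫ t in s0..(th - s0), (1 : ℝ) * kn (th - u) t ≤ ∫ t in (0 : ℝ)..th, kn (th - u) t := by
      simp only [one_mul]
      refine intervalIntegral.integral_mono_interval hs0.le hab (by linarith)
        (Filter.Eventually.of_forall fun t => kn_nonneg833 _ _) ?_
      refine ContinuousOn.intervalIntegrable_of_Icc (by linarith) ?_
      exact kcomp833 continuousOn_const continuousOn_id (fun t ht => DD_pos _ t
        ⟨by linarith, by linarith⟩ ht (Or.inl (by linarith)))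
    have g2 : ∫ t in s0..(th - s0), (1 : ℝ) * kn u (th - t) ≤ ∫ t in (0 : ℝ)..th, kn u t := by
      simp only [one_mul]
      have e := intervalIntegral.integral_comp_sub_left (a := s0) (b := th - s0)
        (fun t => kn u t) th
      rw [e, sub_sub_cancel]
      refine intervalIntegral.integral_mono_interval hs0.le hab (by linarith)
        (Filter.Eventually.of_forall fun t => kn_nonneg833 _ _) ?_
      refine ContinuousOn.intervalIntegrable_of_Icc (by linarith) ?_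
      exact kcomp833 continuousOn_const continuousOn_id (fun t ht => DD_pos _ t
        ⟨by linarith, by linarith⟩ ht (Or.inl (by linarith)))
    have g3 := kE3 u hu0 hu1
    have g4 : (∫ t in s0..(th - s0), (1 : ℝ) * kn (th - u) t)
        + (∫ t in s0..(th - s0), (1 : ℝ) * kn u (th - t)) ≤ 103 / 100 := by linarith
    have g5 := mul_le_mul_of_nonneg_left g4 (abs_nonneg (H i u))
    linarith
  have hj : ∀ j : Fin 3, 2 * (∫ u in s0..(th - s0), |H j u|) ≤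
      M * ((435 / 1000) * (z ^ 2 / s0 ^ 2)) + M * ((435 / 1000) * (z ^ 2 / s0 ^ 2))
      + (|m0 (j + 2) + m1 (j + 1)| / 4 + (8 / 5) * z * M) * (th - 2 * s0)
      + (∫ t in s0..(th - s0), (1 : ℝ) * ∫ u in s0..(th - s0), |H (j + 2) u| * kn (th - u) t)
      + (∫ t in s0..(th - s0), (1 : ℝ) * ∫ u in s0..(th - s0), |H (j + 1) u| * kn u (th - t)) := by
    intro j
    have c1 : ContinuousOn (fun t => kn z t) (Icc s0 (th - s0)) :=
      kcomp833 continuousOn_const continuousOn_id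
        (fun t ht => DD_pos z t hzI (hsub ht) (Or.inl hz))
    have c2 : ContinuousOn (fun t => kn z (th - t)) (Icc s0 (th - s0)) :=
      kcomp833 continuousOn_const (by fun_prop)
        (fun t ht => DD_pos z (th - t) hzI ⟨by linarith [ht.2], by linarith [ht.1]⟩ (Or.inl hz))
    have i1 : IntervalIntegrable (fun t => (1 : ℝ) * kn z t) volume s0 (th - s0) := by
      simpa only [one_mul] using c1.intervalIntegrable_of_Icc hab
    have i2 : IntervalIntegrable (fun t => (1 : ℝ) * kn z (th - t)) volume s0 (th - s0) := by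
      simpa only [one_mul] using c2.intervalIntegrable_of_Icc hab
    have i3 : IntervalIntegrable (fun _ : ℝ => (1 : ℝ)) volume s0 (th - s0) :=
      intervalIntegrable_const
    obtain ⟨i6, e6⟩ := split5_833 (φ := fun _ => (1 : ℝ)) M
      (|m0 (j + 2) + m1 (j + 1)| / 4 + (8 / 5) * z * M) i1 i2 i3 (kk1 (j + 2)).1 (kk2 (j + 1)).1
    have hle : 2 * (∫ u in s0..(th - s0), |H j u|) ≤ ∫ t in s0..(th - s0),
        (1 : ℝ) * (M * kn z t + M * kn z (th - t)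
        + (|m0 (j + 2) + m1 (j + 1)| / 4 + (8 / 5) * z * M)
        + (∫ u in s0..(th - s0), |H (j + 2) u| * kn (th - u) t)
        + ∫ u in s0..(th - s0), |H (j + 1) u| * kn u (th - t)) := by
      rw [← intervalIntegral.integral_const_mul]
      refine intervalIntegral.integral_mono_on hab
        (((Hc' j).intervalIntegrable_of_Icc hab).const_mul _) i6 (fun t ht => ?_)
      have hb := Pbound833 kE1 hz hz80 hab m0 m1 H hM h0 h1 j (hsub ht)
      have e7 : 2 * |H j t| = |Pj s0 z m0 m1 H j t| := by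
        rw [hH j t ht, abs_mul]
        norm_num
        ring
      rw [e7, one_mul]
      exact hb
    rw [e6] at hle
    simp only [one_mul] at hle ⊢
    have hone : ∫ _t in s0..(th - s0), (1 : ℝ) = th - 2 * s0 := by
      rw [intervalIntegral.integral_const]; simp; ring
    rw [hone] at hle
    have g1 := mul_le_mul_of_nonneg_left hX hM
    have g2 := mul_le_mul_of_nonneg_left hY hM
    linarith
  have f1 : (0 : Fin 3) + 1 = 1 := rfl
  have f2 : (0 : Fin 3) + 2 = 2 := rfl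
  have f3 : (1 : Fin 3) + 1 = 2 := rfl
  have f4 : (1 : Fin 3) + 2 = 0 := rfl
  have f5 : (2 : Fin 3) + 1 = 0 := rfl
  have f6 : (2 : Fin 3) + 2 = 1 := rfl
  have k0 := hj 0
  have k1 := hj 1
  have k2 := hj 2
  rw [f1, f2] at k0
  rw [f3, f4] at k1
  rw [f5, f6] at k2
  rw [Fin.sum_univ_three, Fin.sum_univ_three, f2, f4, f6]
  have q0 := hqr 0
  have q1 := hqr 1
  have q2 := hqr 2
  linarith

/-- the boundary equations -/
lemma last833 {P f1 f2 G1 G2 : ℝ → ℝ} {k1 k2 : ℝ → ℝ → ℝ} {M C s0 ε1 ε2 δ1 δ2 : ℝ}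
    (hs0 : 0 < s0) (hs : s0 ≤ 1 / 4) (hab : s0 ≤ th - s0) (hM : 0 ≤ M) (hC : 0 ≤ C)
    (hP : ∀ t ∈ Icc 0 s0, |P t| ≤ M * f1 t + M * f2 t + C
      + (∫ u in s0..(th - s0), G1 u * k1 u t) + ∫ u in s0..(th - s0), G2 u * k2 u t)
    (f1c : ContinuousOn f1 (Icc 0 s0)) (f2c : ContinuousOn f2 (Icc 0 s0))
    (k1c : ContinuousOn (fun p : ℝ × ℝ => k1 p.1 p.2) (Icc s0 (th - s0) ×ˢ Icc 0 s0))
    (k2c : ContinuousOn (fun p : ℝ × ℝ => k2 p.1 p.2) (Icc s0 (th - s0) ×ˢ Icc 0 s0))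
    (G1c : ContinuousOn G1 (Icc s0 (th - s0))) (G2c : ContinuousOn G2 (Icc s0 (th - s0)))
    (G1n : ∀ u ∈ Icc s0 (th - s0), 0 ≤ G1 u) (G2n : ∀ u ∈ Icc s0 (th - s0), 0 ≤ G2 u)
    (hf1 : ∫ t in (0 : ℝ)..s0, 2 * sin (t / 2) * f1 t ≤ δ1)
    (hf2 : ∫ t in (0 : ℝ)..s0, 2 * sin (t / 2) * f2 t ≤ δ2)
    (hk1 : ∀ u ∈ Icc s0 (th - s0), ∫ t in (0 : ℝ)..s0, 2 * sin (t / 2) * k1 u t ≤ ε1)
    (hk2 : ∀ u ∈ Icc s0 (th - s0), ∫ t in (0 : ℝ)..s0, 2 * sin (t / 2) * k2 u t ≤ ε2) :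
    |∫ t in (0 : ℝ)..s0, 2 * sin (t / 2) * P t| ≤ M * δ1 + M * δ2 + C * (s0 ^ 2 / 2)
      + ε1 * (∫ u in s0..(th - s0), G1 u) + ε2 * ∫ u in s0..(th - s0), G2 u := by
  have hpi := Real.pi_gt_d4
  have φc : ContinuousOn (fun t : ℝ => 2 * sin (t / 2)) (Icc 0 s0) := by fun_prop
  have φn : ∀ t ∈ Icc (0 : ℝ) s0, 0 ≤ 2 * sin (t / 2) := fun t ht => by
    have := Real.sin_nonneg_of_nonneg_of_le_pi (x := t / 2) (by linarith [ht.1])
      (by linarith [ht.2])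
    linarith
  have F1 := fubK833 hab hs0.le k1 G1 (fun t => 2 * sin (t / 2)) k1c G1c φc
  have F2 := fubK833 hab hs0.le k2 G2 (fun t => 2 * sin (t / 2)) k2c G2c φc
  have B1 := fubB833 hab hs0.le k1 G1 (fun t => 2 * sin (t / 2)) k1c G1c φc G1n hk1
  have B2 := fubB833 hab hs0.le k2 G2 (fun t => 2 * sin (t / 2)) k2c G2c φc G2n hk2
  obtain ⟨i6, e6⟩ := split5_833 (φ := fun t => 2 * sin (t / 2)) M C
    ((φc.mul f1c).intervalIntegrable_of_Icc hs0.le)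
    ((φc.mul f2c).intervalIntegrable_of_Icc hs0.le)
    (φc.intervalIntegrable_of_Icc hs0.le) F1.1 F2.1
  have hle := intervalIntegral.norm_integral_le_of_norm_le (μ := volume) hs0.le
    (f := fun t => 2 * sin (t / 2) * P t)
    (Filter.Eventually.of_forall fun t ht => by
      have ht' : t ∈ Icc (0 : ℝ) s0 := ⟨ht.1.le, ht.2⟩
      show ‖2 * sin (t / 2) * P t‖ ≤ _
      rw [Real.norm_eq_abs, abs_mul, abs_of_nonneg (φn t ht')]
      exact mul_le_mul_of_nonneg_left (hP t ht') (φn t ht')) i6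
  rw [Real.norm_eq_abs, e6] at hle
  have hφ : ∫ t in (0 : ℝ)..s0, 2 * sin (t / 2) ≤ s0 ^ 2 / 2 := by
    have h1 : ∫ t in (0 : ℝ)..s0, 2 * sin (t / 2) ≤ ∫ t in (0 : ℝ)..s0, t := by
      refine intervalIntegral.integral_mono_on hs0.le (φc.intervalIntegrable_of_Icc hs0.le)
        (continuous_id.intervalIntegrable _ _) (fun t ht => ?_)
      have := Real.sin_le (x := t / 2) (by linarith [ht.1])
      linarith
    rw [integral_id] at h1
    linarith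
  have g1 := mul_le_mul_of_nonneg_left hf1 hM
  have g2 := mul_le_mul_of_nonneg_left hf2 hM
  have g3 := mul_le_mul_of_nonneg_left hφ hC
  linarith

lemma far833
    (DD_pos : ∀ u w : ℝ, u ∈ Set.Icc 0 th → w ∈ Set.Icc 0 th → (0 < u ∨ 0 < w) → 0 < DD u w)
    (kE2 : ∀ z t : ℝ, z ∈ Set.Icc 0 th → 0 < t → t ≤ th → kn z t ≤ (87 / 100) * z ^ 2 / t ^ 3)
    {s0 z : ℝ} (hz : 0 < z) (hz80 : z ≤ 1 / 80) (hs0 : 0 < s0) (hs : s0 ≤ 1 / 4) :
    ∫ t in (0 : ℝ)..s0, 2 * sin (t / 2) * kn z (th - t) ≤ (9 / 10) * s0 ^ 2 * z ^ 2 := by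
  have hth := th_gt833
  have hpi := Real.pi_gt_d4
  have hzI : z ∈ Icc 0 th := ⟨hz.le, by linarith⟩
  have c2 : ContinuousOn (fun t => kn z (th - t)) (Icc 0 s0) :=
    kcomp833 continuousOn_const (by fun_prop)
      (fun t ht => DD_pos z (th - t) hzI ⟨by linarith [ht.2], by linarith [ht.1]⟩ (Or.inl hz))
  have φc : ContinuousOn (fun t : ℝ => 2 * sin (t / 2)) (Icc 0 s0) := by fun_prop
  have h1 : ∫ t in (0 : ℝ)..s0, 2 * sin (t / 2) * kn z (th - t) ≤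
      ∫ t in (0 : ℝ)..s0, (9 / 5) * z ^ 2 * t := by
    refine intervalIntegral.integral_mono_on hs0.le ((φc.mul c2).intervalIntegrable_of_Icc hs0.le)
      ((continuous_const.mul continuous_id).intervalIntegrable _ _) (fun t ht => ?_)
    have s1 := Real.sin_le (x := t / 2) (by linarith [ht.1])
    have s2 := Real.sin_nonneg_of_nonneg_of_le_pi (x := t / 2) (by linarith [ht.1])
      (by linarith [ht.2])
    have k1 := kE2 z (th - t) hzI (by linarith [ht.2]) (by linarith [ht.1])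
    have hT : (0.797 : ℝ) ≤ th - t := by linarith [ht.2]
    have hT3 : (0.5 : ℝ) ≤ (th - t) ^ 3 := by
      have : (0.797 : ℝ) ^ 3 ≤ (th - t) ^ 3 := pow_le_pow_left₀ (by norm_num) hT 3
      have e : (0.5 : ℝ) ≤ (0.797 : ℝ) ^ 3 := by norm_num
      linarith
    have k2 : (87 / 100) * z ^ 2 / (th - t) ^ 3 ≤ (9 / 5) * z ^ 2 := by
      rw [div_le_iff₀ (by linarith)]
      nlinarith [sq_nonneg z]
    have k3 : kn z (th - t) ≤ (9 / 5) * z ^ 2 := k1.trans k2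
    calc 2 * sin (t / 2) * kn z (th - t) ≤ t * ((9 / 5) * z ^ 2) :=
          mul_le_mul (by linarith) k3 (kn_nonneg833 _ _) ht.1
      _ = (9 / 5) * z ^ 2 * t := by ring
  rw [intervalIntegral.integral_const_mul, integral_id] at h1
  nlinarith


lemma num833 {M z s0 N A al n1 n2 a0 a1 sn : ℝ} (hM : 0 < M) (hz : 0 < z) (hz80 : z ≤ 1 / 80)
    (hs0 : 0 < s0) (hs : s0 ≤ 1 / 4) (hN0 : 0 ≤ N) (hNb : N ≤ (12.3 : ℝ) * (z * M))
    (hAb : A ≤ (24.3 : ℝ) * (z * M)) (hal0 : 0 ≤ al) (hα : al ≤ A) (n10 : 0 ≤ n1) (n20 : 0 ≤ n2)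
    (hnN2 : n1 + n2 ≤ N) (ha0 : 0 ≤ a0) (ha1 : 0 ≤ a1) (hsinz : (1.999 : ℝ) * z ≤ 4 * sn)
    (L0 : 4 * a0 * sn ≤ M * ((76 / 100) * z) + M * ((9 / 10) * s0 ^ 2 * z ^ 2)
      + (al / 4 + (8 / 5) * z * M) * (s0 ^ 2 / 2) + (3 / 10) * s0 * n2 + (1 / 10) * s0 * n1)
    (L1 : 4 * a1 * sn ≤ M * ((9 / 10) * s0 ^ 2 * z ^ 2) + M * ((76 / 100) * z)
      + (al / 4 + (8 / 5) * z * M) * (s0 ^ 2 / 2) + (1 / 10) * s0 * n2 + (3 / 10) * s0 * n1) :
    a0 < M ∧ a1 < M := by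
  have hzM : 0 < z * M := mul_pos hz hM
  have hs2 : s0 ^ 2 ≤ 1 / 16 := by nlinarith
  have r1 : M * ((9 / 10) * s0 ^ 2 * z ^ 2) ≤ (0.001 : ℝ) * (z * M) := by
    have h1 : s0 ^ 2 * z ≤ (1 / 16) * (1 / 80) := mul_le_mul hs2 hz80 hz.le (by norm_num)
    have h2 : (9 / 10) * (s0 ^ 2 * z) ≤ (0.001 : ℝ) := by linarith
    have h3 := mul_le_mul_of_nonneg_right h2 hzM.le
    calc M * ((9 / 10) * s0 ^ 2 * z ^ 2) = (9 / 10) * (s0 ^ 2 * z) * (z * M) := by ring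
      _ ≤ _ := h3
  have r2 : (al / 4 + (8 / 5) * z * M) * (s0 ^ 2 / 2) ≤ (0.24 : ℝ) * (z * M) := by
    have h3 : al / 4 + (8 / 5) * z * M ≤ (7.675 : ℝ) * (z * M) := by linarith
    have h4 : s0 ^ 2 / 2 ≤ 1 / 32 := by linarith
    have h5 := mul_le_mul h3 h4 (by positivity) (by positivity)
    linarith
  have r3 : (3 / 10) * s0 * N ≤ (0.9225 : ℝ) * (z * M) := by
    have h1 : s0 * N ≤ (1 / 4) * (12.3 * (z * M)) := mul_le_mul hs hNb hN0 (by norm_num)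
    linarith
  have h6 : s0 * (n1 + n2) ≤ s0 * N := mul_le_mul_of_nonneg_left hnN2 hs0.le
  have h7 : 0 ≤ s0 * n1 := mul_nonneg hs0.le n10
  have h8 : 0 ≤ s0 * n2 := mul_nonneg hs0.le n20
  constructor
  · by_contra hcon
    push Not at hcon
    have g1 : M * ((1.999 : ℝ) * z) ≤ a0 * (4 * sn) :=
      mul_le_mul hcon hsinz (by positivity) ha0
    linarith
  · by_contra hcon
    push Not at hcon
    have g1 : M * ((1.999 : ℝ) * z) ≤ a1 * (4 * sn) :=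
      mul_le_mul hcon hsinz (by positivity) ha1
    linarith


lemma numb833 {M z s0 N A : ℝ} (hM : 0 < M) (hz : 0 < z) (hz2 : z ≤ s0 ^ 2 / 5)
    (hs0 : 0 < s0) (hab : s0 ≤ th - s0) (hN0 : 0 ≤ N) (hA0 : 0 ≤ A)
    (S2 : 2 * N ≤ 6 * ((435 / 1000) * (z ^ 2 / s0 ^ 2)) * M
      + (th - 2 * s0) * (A / 4) + 3 * (th - 2 * s0) * ((8 / 5) * z * M) + (103 / 100) * N)
    (S4 : A ≤ 12 * z * M + N) :
    N ≤ (12.3 : ℝ) * (z * M) ∧ A ≤ (24.3 : ℝ) * (z * M) := by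
  have hth2 := th_lt833
  have hzM : 0 < z * M := mul_pos hz hM
  have hr : z ^ 2 / s0 ^ 2 ≤ z / 5 := by
    rw [div_le_iff₀ (by positivity)]
    nlinarith
  have hr2 : 6 * ((435 / 1000) * (z ^ 2 / s0 ^ 2)) * M ≤ (0.522 : ℝ) * (z * M) := by
    have := mul_le_mul_of_nonneg_right hr hM.le
    linarith
  have t1 : (th - 2 * s0) * (A / 4) ≤ (0.2618 : ℝ) * A := by
    have : (th - 2 * s0) * (A / 4) ≤ 1.0472 * (A / 4) :=
      mul_le_mul_of_nonneg_right (by linarith) (by linarith)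
    linarith
  have t2 : 3 * (th - 2 * s0) * ((8 / 5) * z * M) ≤ (5.03 : ℝ) * (z * M) := by
    have : (th - 2 * s0) * (z * M) ≤ 1.0472 * (z * M) :=
      mul_le_mul_of_nonneg_right (by linarith) hzM.le
    linarith
  constructor
  · linarith
  · linarith

/-- the contraction estimate -/
lemma core833
    (DD_pos : ∀ u w : ℝ, u ∈ Set.Icc 0 th → w ∈ Set.Icc 0 th → (0 < u ∨ 0 < w) → 0 < DD u w)
    (kE1 : ∀ z t : ℝ, 0 < z → z ≤ 1 / 80 → t ∈ Set.Icc 0 th →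
      |kn (th - z) t - 1 / 4| ≤ (4 / 5) * z)
    (kE2 : ∀ z t : ℝ, z ∈ Set.Icc 0 th → 0 < t → t ≤ th → kn z t ≤ (87 / 100) * z ^ 2 / t ^ 3)
    (kE3 : ∀ u : ℝ, 0 < u → u < th →
      (∫ t in (0 : ℝ)..th, kn u t) + (∫ t in (0 : ℝ)..th, kn (th - u) t) ≤ 103 / 100)
    (kE4 : ∀ z s0 : ℝ, 0 < z → z ≤ 1 / 80 → 0 < s0 → s0 ≤ 1 / 4 →
      (∫ t in (0 : ℝ)..s0, 2 * sin (t / 2) * kn z t) ≤ (76 / 100) * z)
    (kE5 : ∀ v s0 : ℝ, 0 < s0 → s0 ≤ 1 / 4 → v ∈ Set.Icc s0 (th - s0) →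
      (∫ t in (0 : ℝ)..s0, 2 * sin (t / 2) * kn v t) ≤ (3 / 10) * s0)
    (kE5' : ∀ v s0 : ℝ, 0 < s0 → s0 ≤ 1 / 4 → v ∈ Set.Icc s0 (th - s0) →
      (∫ t in (0 : ℝ)..s0, 2 * sin (t / 2) * kn v (th - t)) ≤ (1 / 10) * s0)
    {s0 z : ℝ} (hz : 0 < z) (hz2 : z ≤ s0 ^ 2 / 5) (hs0 : 0 < s0) (hs : s0 ≤ 1 / 4)
    (m0 m1 : Fin 3 → ℝ) (H : Fin 3 → ℝ → ℝ)
    (hHc : ∀ j, ContinuousOn (H j) (Set.Icc s0 (th - s0)))
    (hH : ∀ j, ∀ t ∈ Set.Icc s0 (th - s0), H j t = -(1 / 2) * Pj s0 z m0 m1 H j t)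
    (hV : ∀ j, m0 j * (2 * sin (z / 2)) + m1 j * (2 * sin ((th - z) / 2))
      + (∫ u in s0..(th - s0), H j u * (2 * sin (u / 2)))
      + (m0 (j + 1) + m1 (j + 1) + ∫ u in s0..(th - s0), H (j + 1) u)
      + (m0 (j + 2) * (2 * sin ((th - z) / 2)) + m1 (j + 2) * (2 * sin (z / 2))
      + ∫ u in s0..(th - s0), H (j + 2) u * (2 * sin ((th - u) / 2))) = 0)
    (hT : ∑ j, (m0 j + m1 j + ∫ u in s0..(th - s0), H j u) = 0)
    (hG0 : ∀ j, 4 * m0 j * sin (z / 2) = -∫ t in (0 : ℝ)..s0, 2 * sin (t / 2) * Pj s0 z m0 m1 H j t)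
    (hG1 : ∀ j, 4 * m1 j * sin (z / 2)
      = -∫ t in (0 : ℝ)..s0, 2 * sin (t / 2) * Pj s0 z m0 m1 H j (th - t))
    {M : ℝ} (hM : 0 < M) (h0 : ∀ j, |m0 j| ≤ M) (h1 : ∀ j, |m1 j| ≤ M) (j : Fin 3) :
    |m0 j| < M ∧ |m1 j| < M := by
  have hth := th_gt833
  have hth2 := th_lt833
  have hz80 : z ≤ 1 / 80 := by nlinarith
  have hab : s0 ≤ th - s0 := by linarith
  have hzI : z ∈ Icc 0 th := ⟨hz.le, by linarith⟩
  have Hc' : ∀ j, ContinuousOn (fun u => |H j u|) (Icc s0 (th - s0)) := fun j => (hHc j).abs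
  have S2 := step2_833 DD_pos kE1 kE2 kE3 hz hz80 hs0 hab m0 m1 H hHc hH hM.le h0 h1
  have S4 := alpha833 hz hz80 hs0 hab m0 m1 H hHc hM.le h0 h1 hV hT
  have nH0 : ∀ i, 0 ≤ ∫ u in s0..(th - s0), |H i u| := fun i =>
    intervalIntegral.integral_nonneg hab (fun u _ => abs_nonneg _)
  obtain ⟨N, hN⟩ : ∃ N, N = ∑ j : Fin 3, ∫ u in s0..(th - s0), |H j u| := ⟨_, rfl⟩
  obtain ⟨A, hA⟩ : ∃ A, A = ∑ j : Fin 3, |m0 j + m1 (j + 2)| := ⟨_, rfl⟩
  rw [← hN, ← hA] at S2 S4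
  have hN0 : 0 ≤ N := by rw [hN]; exact Finset.sum_nonneg (fun i _ => nH0 i)
  have hA0 : 0 ≤ A := by rw [hA]; exact Finset.sum_nonneg (fun i _ => abs_nonneg _)
  obtain ⟨hNb, hAb⟩ := numb833 hM hz hz2 hs0 hab hN0 hA0 S2 S4
  have hαA : ∀ j : Fin 3, |m0 (j + 2) + m1 (j + 1)| ≤ A := by
    intro j
    have e : |m0 (j + 2) + m1 (j + 1)| = |m0 (j + 2) + m1 ((j + 2) + 2)| := by
      have : (j + 2) + 2 = j + 1 := by fin_cases j <;> rfl
      rw [this]
    rw [e, hA]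
    exact Finset.single_le_sum (f := fun i : Fin 3 => |m0 i + m1 (i + 2)|)
      (fun i _ => abs_nonneg _) (Finset.mem_univ (j + 2))
  have hnN : ∀ i, (∫ u in s0..(th - s0), |H i u|) ≤ N := by
    intro i
    rw [hN]
    exact Finset.single_le_sum (f := fun i : Fin 3 => ∫ u in s0..(th - s0), |H i u|)
      (fun i _ => nH0 i) (Finset.mem_univ i)
  have hnN2 : (∫ u in s0..(th - s0), |H (j + 1) u|) + (∫ u in s0..(th - s0), |H (j + 2) u|) ≤ N := by
    rw [hN, Fin.sum_univ_three]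
    have f1 : (0 : Fin 3) + 1 = 1 := rfl
    have f2 : (0 : Fin 3) + 2 = 2 := rfl
    have f3 : (1 : Fin 3) + 1 = 2 := rfl
    have f4 : (1 : Fin 3) + 2 = 0 := rfl
    have f5 : (2 : Fin 3) + 1 = 0 := rfl
    have f6 : (2 : Fin 3) + 2 = 1 := rfl
    have a0 := nH0 0
    have a1 := nH0 1
    have a2 := nH0 2
    fin_cases j
    · show (∫ u in s0..(th - s0), |H (0 + 1) u|) + (∫ u in s0..(th - s0), |H (0 + 2) u|) ≤ _
      rw [f1, f2]; linarith
    · show (∫ u in s0..(th - s0), |H (1 + 1) u|) + (∫ u in s0..(th - s0), |H (1 + 2) u|) ≤ _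
      rw [f3, f4]; linarith
    · show (∫ u in s0..(th - s0), |H (2 + 1) u|) + (∫ u in s0..(th - s0), |H (2 + 2) u|) ≤ _
      rw [f5, f6]; linarith
  have hsinz : (1.999 : ℝ) * z ≤ 4 * sin (z / 2) := by
    have := Real.sin_gt_sub_cube (x := z / 2) (by linarith)
    have hz2' : z ^ 2 ≤ 1 / 6400 := by nlinarith
    have : (z / 2) ^ 3 / 6 = z * z ^ 2 / 48 := by ring
    nlinarith
  have hc1 : ContinuousOn (fun t => kn z t) (Icc 0 s0) :=
    kcomp833 continuousOn_const continuousOn_id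
      (fun t ht => DD_pos z t hzI ⟨ht.1, by linarith [ht.2]⟩ (Or.inl hz))
  have hc2 : ContinuousOn (fun t => kn z (th - t)) (Icc 0 s0) :=
    kcomp833 continuousOn_const (by fun_prop)
      (fun t ht => DD_pos z (th - t) hzI ⟨by linarith [ht.2], by linarith [ht.1]⟩ (Or.inl hz))
  have hC : 0 ≤ |m0 (j + 2) + m1 (j + 1)| / 4 + (8 / 5) * z * M := by positivity
  have hfar := far833 DD_pos kE2 hz hz80 hs0 hs
  have hnear := kE4 z s0 hz hz80 hs0 hs
  have hmem : ∀ u ∈ Icc s0 (th - s0), th - u ∈ Icc s0 (th - s0) := fun u hu =>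
    ⟨by linarith [hu.2], by linarith [hu.1]⟩
  have L0 := last833 (P := fun t => Pj s0 z m0 m1 H j t) (f1 := fun t => kn z t)
    (f2 := fun t => kn z (th - t)) (G1 := fun u => |H (j + 2) u|) (G2 := fun u => |H (j + 1) u|)
    (k1 := fun u t => kn (th - u) t) (k2 := fun u t => kn u (th - t)) hs0 hs hab hM.le hC
    (fun t ht => Pbound833 kE1 hz hz80 hab m0 m1 H hM.le h0 h1 j ⟨ht.1, by linarith [ht.2]⟩)
    hc1 hc2 (kc1_833 DD_pos hs0 le_rfl (by linarith)) (kc2_833 DD_pos hs0 le_rfl (by linarith))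
    (Hc' _) (Hc' _) (fun u _ => abs_nonneg _) (fun u _ => abs_nonneg _) hnear hfar
    (fun u hu => kE5 (th - u) s0 hs0 hs (hmem u hu)) (fun u hu => kE5' u s0 hs0 hs hu)
  have L1 := last833 (P := fun t => Pj s0 z m0 m1 H j (th - t)) (f1 := fun t => kn z (th - t))
    (f2 := fun t => kn z t) (G1 := fun u => |H (j + 2) u|) (G2 := fun u => |H (j + 1) u|)
    (k1 := fun u t => kn (th - u) (th - t)) (k2 := fun u t => kn u t) hs0 hs hab hM.le hC
    (fun t ht => by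
      have := Pbound833 kE1 hz hz80 hab m0 m1 H hM.le h0 h1 j (t := th - t)
        ⟨by linarith [ht.2], by linarith [ht.1]⟩
      rw [sub_sub_cancel] at this
      exact this)
    hc2 hc1 (kc3_833 DD_pos hs0 le_rfl (by linarith)) (kc4_833 DD_pos hs0 le_rfl (by linarith))
    (Hc' _) (Hc' _) (fun u _ => abs_nonneg _) (fun u _ => abs_nonneg _) hfar hnear
    (fun u hu => kE5' (th - u) s0 hs0 hs (hmem u hu)) (fun u hu => kE5 u s0 hs0 hs hu)
  have hsin0 : 0 < sin (z / 2) := by linarith only [hsinz, hz]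
  have e0 : 4 * |m0 j| * sin (z / 2) = |∫ t in (0 : ℝ)..s0, 2 * sin (t / 2) * Pj s0 z m0 m1 H j t| := by
    have a : |4 * m0 j * sin (z / 2)| = 4 * |m0 j| * sin (z / 2) := by
      rw [abs_mul, abs_mul, abs_of_pos hsin0, abs_of_pos (by norm_num : (0 : ℝ) < 4)]
    rw [← a, hG0 j, abs_neg]
  have e1 : 4 * |m1 j| * sin (z / 2) =
      |∫ t in (0 : ℝ)..s0, 2 * sin (t / 2) * Pj s0 z m0 m1 H j (th - t)| := by
    have a : |4 * m1 j * sin (z / 2)| = 4 * |m1 j| * sin (z / 2) := by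
      rw [abs_mul, abs_mul, abs_of_pos hsin0, abs_of_pos (by norm_num : (0 : ℝ) < 4)]
    rw [← a, hG1 j, abs_neg]
  obtain ⟨n1, hn1⟩ : ∃ n1, n1 = ∫ u in s0..(th - s0), |H (j + 1) u| := ⟨_, rfl⟩
  obtain ⟨n2, hn2⟩ : ∃ n2, n2 = ∫ u in s0..(th - s0), |H (j + 2) u| := ⟨_, rfl⟩
  have n10 : 0 ≤ n1 := hn1 ▸ nH0 _
  have n20 : 0 ≤ n2 := hn2 ▸ nH0 _
  rw [← hn1, ← hn2] at hnN2 L0 L1
  rw [← e0] at L0
  rw [← e1] at L1
  have hα := hαA j
  obtain ⟨al, hal⟩ : ∃ al, al = |m0 (j + 2) + m1 (j + 1)| := ⟨_, rfl⟩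
  rw [← hal] at L0 L1 hα
  have hal0 : 0 ≤ al := hal ▸ abs_nonneg _
  clear hV hT hG0 hG1 hH hHc Hc' S2 S4 hN hA nH0 hαA hnN hc1 hc2 hC hfar hnear hmem DD_pos kE1 kE2 kE3 kE4 kE5 kE5' hn1 hn2 hal e0 e1
  exact num833 hM hz hz80 hs0 hs hN0 hNb hAb hal0 hα n10 n20 hnN2 (abs_nonneg _) (abs_nonneg _)
    hsinz L0 L1


theorem lin_unique
    (DD_pos : ∀ u w : ℝ, u ∈ Set.Icc 0 th → w ∈ Set.Icc 0 th → (0 < u ∨ 0 < w) → 0 < DD u w)
    (kE1 : ∀ z t : ℝ, 0 < z → z ≤ 1 / 80 → t ∈ Set.Icc 0 th →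
      |kn (th - z) t - 1 / 4| ≤ (4 / 5) * z)
    (kE2 : ∀ z t : ℝ, z ∈ Set.Icc 0 th → 0 < t → t ≤ th → kn z t ≤ (87 / 100) * z ^ 2 / t ^ 3)
    (kE3 : ∀ u : ℝ, 0 < u → u < th →
      (∫ t in (0 : ℝ)..th, kn u t) + (∫ t in (0 : ℝ)..th, kn (th - u) t) ≤ 103 / 100)
    (kE4 : ∀ z s0 : ℝ, 0 < z → z ≤ 1 / 80 → 0 < s0 → s0 ≤ 1 / 4 →
      (∫ t in (0 : ℝ)..s0, 2 * sin (t / 2) * kn z t) ≤ (76 / 100) * z)
    (kE5 : ∀ v s0 : ℝ, 0 < s0 → s0 ≤ 1 / 4 → v ∈ Set.Icc s0 (th - s0) →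
      (∫ t in (0 : ℝ)..s0, 2 * sin (t / 2) * kn v t) ≤ (3 / 10) * s0)
    (kE5' : ∀ v s0 : ℝ, 0 < s0 → s0 ≤ 1 / 4 → v ∈ Set.Icc s0 (th - s0) →
      (∫ t in (0 : ℝ)..s0, 2 * sin (t / 2) * kn v (th - t)) ≤ (1 / 10) * s0)
    {s0 z : ℝ} (hz : 0 < z) (hz2 : z ≤ s0 ^ 2 / 5) (hs0 : 0 < s0) (hs : s0 ≤ 1 / 4)
    (m0 m1 : Fin 3 → ℝ) (H : Fin 3 → ℝ → ℝ)
    (hHc : ∀ j, ContinuousOn (H j) (Set.Icc s0 (th - s0)))
    (hH : ∀ j, ∀ t ∈ Set.Icc s0 (th - s0), H j t = -(1 / 2) * Pj s0 z m0 m1 H j t)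
    (hV : ∀ j, m0 j * (2 * sin (z / 2)) + m1 j * (2 * sin ((th - z) / 2))
      + (∫ u in s0..(th - s0), H j u * (2 * sin (u / 2)))
      + (m0 (j + 1) + m1 (j + 1) + ∫ u in s0..(th - s0), H (j + 1) u)
      + (m0 (j + 2) * (2 * sin ((th - z) / 2)) + m1 (j + 2) * (2 * sin (z / 2))
      + ∫ u in s0..(th - s0), H (j + 2) u * (2 * sin ((th - u) / 2))) = 0)
    (hT : ∑ j, (m0 j + m1 j + ∫ u in s0..(th - s0), H j u) = 0)
    (hG0 : ∀ j, 4 * m0 j * sin (z / 2) = -∫ t in (0 : ℝ)..s0, 2 * sin (t / 2) * Pj s0 z m0 m1 H j t)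
    (hG1 : ∀ j, 4 * m1 j * sin (z / 2)
      = -∫ t in (0 : ℝ)..s0, 2 * sin (t / 2) * Pj s0 z m0 m1 H j (th - t)) :
    ∀ j, m0 j = 0 ∧ m1 j = 0 := by
  obtain ⟨j0, hj0⟩ := Finite.exists_max (fun j : Fin 3 => max |m0 j| |m1 j|)
  obtain ⟨M, hM⟩ : ∃ M, M = max |m0 j0| |m1 j0| := ⟨_, rfl⟩
  have hle : ∀ j, |m0 j| ≤ M ∧ |m1 j| ≤ M := fun j => by
    have h : max |m0 j| |m1 j| ≤ max |m0 j0| |m1 j0| := hj0 j
    rw [← hM] at h
    exact ⟨(le_max_left _ _).trans h, (le_max_right _ _).trans h⟩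
  rcases lt_or_ge 0 M with hpos | hneg
  · have h := core833 DD_pos kE1 kE2 kE3 kE4 kE5 kE5' hz hz2 hs0 hs m0 m1 H hHc hH hV hT hG0 hG1
      hpos (fun j => (hle j).1) (fun j => (hle j).2) j0
    exact absurd (max_lt h.1 h.2) (by rw [← hM]; exact lt_irrefl _)
  · intro j
    constructor
    · exact abs_nonpos_iff.1 ((hle j).1.trans hneg)
    · exact abs_nonpos_iff.1 ((hle j).2.trans hneg)

end Pool.Agent.Helper342.RV.H2
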