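import Pool.Agent.Helper342.RV.Defs

namespace Pool.Agent.Helper342.RV.I1

open Real



























open MeasureTheory Set

theorem sqrt3_sq : (√3 : ℝ) ^ 2 = 3 := Real.sq_sqrt (by norm_num)

theorem om_sq : om ^ 2 = -1 - om := by
  apply Complex.ext
  · simp [om, pow_two]
    nlinarith [sqrt3_sq]
  · simp [om, pow_two]
    ring

theorem om_cube : om ^ 3 = 1 := by
  have h := om_sq
  have : om ^ 3 = om * om ^ 2 := by ring
  rw [this, h]
  have : om * (-1 - om) = -om - om ^ 2 := by ring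
  rw [this, h]; ring

theorem norm_om : ‖om‖ = 1 := by
  have h : ‖om‖ ^ 3 = 1 := by
    rw [← norm_pow, om_cube, norm_one]
  have h0 : 0 ≤ ‖om‖ := norm_nonneg _
  nlinarith [sq_nonneg (‖om‖ + 1/2), sq_nonneg (‖om‖ - 1)]

theorem om_re : om.re = -1 / 2 := rfl
theorem om_im : om.im = √3 / 2 := rfl

noncomputable def pA (s : ℝ) : ℂ := Complex.exp (s * Complex.I)
noncomputable def pB (s : ℝ) : ℂ := 1 + om * pA s
noncomputable def pC (s : ℝ) : ℂ := 1 + om + om ^ 2 * pA s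

theorem norm_pA (s : ℝ) : ‖pA s‖ = 1 := Complex.norm_exp_ofReal_mul_I s

theorem pA_re (s : ℝ) : (pA s).re = Real.cos s := by
  rw [pA, Complex.exp_ofReal_mul_I_re]

theorem pA_im (s : ℝ) : (pA s).im = Real.sin s := by
  rw [pA, Complex.exp_ofReal_mul_I_im]

theorem norm_sq_eq (z : ℂ) : ‖z‖ ^ 2 = z.re ^ 2 + z.im ^ 2 := by
  rw [← Complex.normSq_eq_norm_sq, Complex.normSq_apply]; ring

theorem pt_zero (s : ℝ) : pt (0, s) = pA s := by simp [pt, pA]
theorem pt_one (s : ℝ) : pt (1, s) = pB s := by simp [pt, pA, pB]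
theorem pt_two (s : ℝ) : pt (2, s) = pC s := by simp [pt, pA, pC]

theorem norm_AA (φ t : ℝ) : ‖pA φ - pA t‖ = 2 * |Real.sin ((t - φ) / 2)| := by
  have h : ‖pA φ - pA t‖ ^ 2 = 2 - 2 * Real.cos (t - φ) := by
    rw [norm_sq_eq]
    simp only [Complex.sub_re, Complex.sub_im, pA_re, pA_im]
    rw [Real.cos_sub]
    nlinarith [Real.sin_sq_add_cos_sq φ, Real.sin_sq_add_cos_sq t]
  have h2 : Real.cos (t - φ) = 1 - 2 * Real.sin ((t - φ) / 2) ^ 2 := by
    have := Real.cos_two_mul ((t - φ) / 2)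
    rw [show 2 * ((t - φ) / 2) = t - φ by ring] at this
    rw [this]
    have := Real.sin_sq_add_cos_sq ((t - φ) / 2)
    linarith
  rw [h2] at h
  have h3 : ‖pA φ - pA t‖ ^ 2 = (2 * |Real.sin ((t - φ) / 2)|) ^ 2 := by
    rw [h, mul_pow, sq_abs]; ring
  exact (pow_left_inj₀ (norm_nonneg _) (by positivity) two_ne_zero).1 h3

theorem cos_th : Real.cos th = 1 / 2 := Real.cos_pi_div_three
theorem sin_th : Real.sin th = √3 / 2 := Real.sin_pi_div_three

theorem norm_AB (ψ χ : ℝ) : ‖pA ψ - pB χ‖ = dd χ (th - ψ) := by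
  rw [dd, ← Real.sqrt_sq (norm_nonneg (pA ψ - pB χ))]
  congr 1
  rw [norm_sq_eq]
  simp only [pB, Complex.sub_re, Complex.sub_im, Complex.add_re, Complex.add_im, Complex.mul_re,
    Complex.mul_im, pA_re, pA_im, om_re, om_im, Complex.one_re, Complex.one_im]
  unfold DD
  have e1 : th - (th - ψ) = ψ := by ring
  have e2 : th + χ + (th - ψ) = th + th + (χ - ψ) := by ring
  rw [e1, e2, Real.cos_add (th + th), Real.cos_add th th, Real.sin_add th th, Real.cos_sub th χ,
    Real.cos_sub χ ψ, Real.sin_sub χ ψ, cos_th, sin_th]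
  have h1 := Real.sin_sq_add_cos_sq ψ
  have h2 := Real.sin_sq_add_cos_sq χ
  have h3 := sqrt3_sq
  generalize Real.sin ψ = a at *
  generalize Real.cos ψ = b at *
  generalize Real.sin χ = c at *
  generalize Real.cos χ = d at *
  generalize (√3 : ℝ) = r at *
  linear_combination h1 + h2 + (c ^ 2 / 4 + d ^ 2 / 4 - (d * b + c * a) / 2) * h3

theorem dist_BC (ψ χ : ℝ) : ‖pB ψ - pC χ‖ = ‖pA ψ - pB χ‖ := by
  have : pB ψ - pC χ = om * (pA ψ - pB χ) := by
    simp only [pB, pC]; ring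
  rw [this, norm_mul, norm_om, one_mul]

theorem dist_CA (ψ χ : ℝ) : ‖pC ψ - pA χ‖ = ‖pA ψ - pB χ‖ := by
  have : pC ψ - pA χ = om ^ 2 * (pA ψ - pB χ) := by
    simp only [pB, pC]
    have h2 := om_sq
    have h3 := om_cube
    linear_combination h2 + (pA χ) * h3
  rw [this, norm_mul, norm_pow, norm_om, one_pow, one_mul]

theorem dist_BB (ψ χ : ℝ) : ‖pB ψ - pB χ‖ = ‖pA ψ - pA χ‖ := by
  have : pB ψ - pB χ = om * (pA ψ - pA χ) := by
    simp only [pB]; ring
  rw [this, norm_mul, norm_om, one_mul]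

theorem dist_CC (ψ χ : ℝ) : ‖pC ψ - pC χ‖ = ‖pA ψ - pA χ‖ := by
  have : pC ψ - pC χ = om ^ 2 * (pA ψ - pA χ) := by
    simp only [pC]; ring
  rw [this, norm_mul, norm_pow, norm_om, one_pow, one_mul]

theorem dd_symm (u w : ℝ) : dd u w = dd w u := by
  unfold dd DD
  congr 1
  rw [show th + u + w = th + w + u by ring]
  ring

theorem pt_continuous : Continuous pt := by
  have h : pt = fun x : Fin 3 × ℝ => if x.1 = 0 then Complex.exp (x.2 * Complex.I)
      else if x.1 = 1 then 1 + om * Complex.exp (x.2 * Complex.I)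
      else 1 + om + om ^ 2 * Complex.exp (x.2 * Complex.I) := rfl
  rw [h]
  have hclopen : ∀ i : Fin 3, IsClopen {x : Fin 3 × ℝ | x.1 = i} := fun i =>
    (isClopen_discrete ({i} : Set (Fin 3))).preimage continuous_fst
  refine Continuous.if ?_ (by fun_prop) (Continuous.if ?_ (by fun_prop) (by fun_prop))
  · intro a ha
    rw [(hclopen 0).frontier_eq] at ha
    exact absurd ha (by simp)
  · intro a ha
    rw [(hclopen 1).frontier_eq] at ha
    exact absurd ha (by simp)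

theorem dist_pt' (x : Fin 3 × ℝ) (j : Fin 3) (r : ℝ) :
    ‖pt x - pt (j, r)‖ = dK x j r := by
  obtain ⟨i, s⟩ := x
  fin_cases i <;> fin_cases j
  · show ‖pt (0, s) - pt (0, r)‖ = dK (0, s) 0 r
    rw [pt_zero, pt_zero, norm_AA]; simp [dK]
  · show ‖pt (0, s) - pt (1, r)‖ = dK (0, s) 1 r
    rw [pt_zero, pt_one, norm_AB, dd_symm]; simp [dK]
  · show ‖pt (0, s) - pt (2, r)‖ = dK (0, s) 2 r
    rw [pt_zero, pt_two, norm_sub_rev, dist_CA, norm_AB]; simp [dK]
  · show ‖pt (1, s) - pt (0, r)‖ = dK (1, s) 0 r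
    rw [pt_one, pt_zero, norm_sub_rev, norm_AB]; simp [dK]
  · show ‖pt (1, s) - pt (1, r)‖ = dK (1, s) 1 r
    rw [pt_one, pt_one, dist_BB, norm_AA]; simp [dK]
  · show ‖pt (1, s) - pt (2, r)‖ = dK (1, s) 2 r
    rw [pt_one, pt_two, dist_BC, norm_AB, dd_symm]; simp [dK]
  · show ‖pt (2, s) - pt (0, r)‖ = dK (2, s) 0 r
    rw [pt_two, pt_zero, dist_CA, norm_AB, dd_symm]; simp [dK]
  · show ‖pt (2, s) - pt (1, r)‖ = dK (2, s) 1 r
    rw [pt_two, pt_one, norm_sub_rev, dist_BC, norm_AB]; simp [dK]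
  · show ‖pt (2, s) - pt (2, r)‖ = dK (2, s) 2 r
    rw [pt_two, pt_two, dist_CC, norm_AA]; simp [dK]

theorem dist_pt {x : Fin 3 × ℝ} {j : Fin 3} {r : ℝ} (hx : x.2 ∈ Icc 0 th) (hr : r ∈ Icc 0 th) :
    ‖pt x - pt (j, r)‖ = dK x j r := dist_pt' x j r

/-! ### symmetrised measures -/

noncomputable def phg (g : Fin 3 × Bool) (s : ℝ) : ℂ := pt (g.1, if g.2 then th - s else s)

theorem phg_continuous (g : Fin 3 × Bool) : Continuous (phg g) := by
  unfold phg
  apply pt_continuous.comp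
  apply continuous_const.prodMk
  cases g.2
  · simp only [Bool.false_eq_true, if_false]; fun_prop
  · simp only [if_true]; fun_prop

theorem norm_pt_le (x : Fin 3 × ℝ) : ‖pt x‖ ≤ 3 := by
  obtain ⟨i, s⟩ := x
  have hA := norm_pA s
  have ho := norm_om
  have h1 : ‖pt (0, s)‖ ≤ 3 := by rw [pt_zero, hA]; norm_num
  have h2 : ‖pt (1, s)‖ ≤ 3 := by
    rw [pt_one, pB]
    calc ‖1 + om * pA s‖ ≤ ‖(1:ℂ)‖ + ‖om * pA s‖ := norm_add_le _ _
      _ ≤ 3 := by rw [norm_mul, hA, ho]; norm_num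
  have h3 : ‖pt (2, s)‖ ≤ 3 := by
    rw [pt_two, pC]
    calc ‖1 + om + om ^ 2 * pA s‖ ≤ ‖(1:ℂ) + om‖ + ‖om ^ 2 * pA s‖ := norm_add_le _ _
      _ ≤ ‖(1:ℂ)‖ + ‖om‖ + ‖om ^ 2 * pA s‖ := by gcongr; exact norm_add_le _ _
      _ ≤ 3 := by rw [norm_mul, norm_pow, hA, ho]; norm_num
  fin_cases i
  · exact h1
  · exact h2
  · exact h3

theorem norm_phg_le (g : Fin 3 × Bool) (s : ℝ) : ‖phg g s‖ ≤ 3 := norm_pt_le _

noncomputable def av (μ : Measure ℝ) : Measure ℂ := ∑ g : Fin 3 × Bool, μ.map (phg g)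

theorem av_apply (μ : Measure ℝ) (s : Set ℂ) : av μ s = ∑ g : Fin 3 × Bool, μ.map (phg g) s := by
  unfold av
  rw [Measure.coe_finset_sum, Finset.sum_apply]

theorem av_univ (μ : Measure ℝ) : av μ univ = ∑ g : Fin 3 × Bool, μ univ := by
  rw [av_apply]
  refine Finset.sum_congr rfl fun g _ => ?_
  rw [Measure.map_apply (phg_continuous g).measurable MeasurableSet.univ, preimage_univ]

theorem av_null (μ : Measure ℝ) : av μ {x | 3 < ‖x‖} = 0 := by
  rw [av_apply]
  refine Finset.sum_eq_zero fun g _ => ?_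
  rw [Measure.map_apply (phg_continuous g).measurable
    (measurableSet_lt measurable_const measurable_norm)]
  have : phg g ⁻¹' {x | 3 < ‖x‖} = ∅ := by
    ext s
    simp only [mem_preimage, mem_setOf_eq, mem_empty_iff_false, iff_false, not_lt]
    exact norm_phg_le g s
  rw [this, measure_empty]

theorem av_finite (μ : Measure ℝ) [IsFiniteMeasure μ] : IsFiniteMeasure (av μ) := by
  constructor
  rw [av_univ]
  exact ENNReal.sum_lt_top.2 fun g _ => measure_lt_top μ univ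

theorem int_of_cont (μ : Measure ℝ) [IsFiniteMeasure μ] {F : ℂ → ℝ} (hF : Continuous F)
    (g : Fin 3 × Bool) : Integrable (fun s => F (phg g s)) μ := by
  obtain ⟨C, hC⟩ := (isCompact_closedBall (0:ℂ) 3).exists_bound_of_continuousOn hF.continuousOn
  refine Integrable.of_bound (hF.comp (phg_continuous g)).aestronglyMeasurable C ?_
  refine Filter.Eventually.of_forall fun s => ?_
  exact hC _ (by rw [Metric.mem_closedBall, dist_zero_right]; exact norm_phg_le g s)

theorem av_integral (μ : Measure ℝ) [IsFiniteMeasure μ] {F : ℂ → ℝ} (hF : Continuous F) :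
    ∫ x, F x ∂(av μ) = ∑ g : Fin 3 × Bool, ∫ s, F (phg g s) ∂μ := by
  unfold av
  rw [integral_finset_sum_measure]
  · refine Finset.sum_congr rfl fun g _ => ?_
    rw [integral_map (phg_continuous g).aemeasurable hF.aestronglyMeasurable]
  · intro g _
    rw [integrable_map_measure hF.aestronglyMeasurable (phg_continuous g).aemeasurable]
    exact int_of_cont μ hF g

theorem cont_dist (x : ℂ) : Continuous (fun y : ℂ => ‖x - y‖) := by fun_prop

theorem cont_pot (ν : Measure ℝ) [IsFiniteMeasure ν] (g : Fin 3 × Bool) :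
    Continuous (fun x : ℂ => ∫ s, ‖x - phg g s‖ ∂ν) := by
  apply LipschitzWith.continuous (K := ⟨ν.real univ, measureReal_nonneg⟩)
  apply LipschitzWith.of_dist_le_mul
  intro x y
  rw [Real.dist_eq, ← integral_sub (int_of_cont ν (cont_dist x) g) (int_of_cont ν (cont_dist y) g)]
  have h := norm_integral_le_of_norm_le_const (μ := ν)
    (f := fun s => ‖x - phg g s‖ - ‖y - phg g s‖) (C := dist x y)
    (Filter.Eventually.of_forall fun s => by
      rw [Real.norm_eq_abs, dist_eq_norm]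
      have := abs_norm_sub_norm_le (x - phg g s) (y - phg g s)
      rwa [sub_sub_sub_cancel_right] at this)
  rw [Real.norm_eq_abs, mul_comm] at h
  exact h

theorem K_reflect (s r : ℝ) : K (th - s) r = K s r := by
  unfold K
  rw [show th - (th - s) = s by ring]
  ring

theorem pointwise_K (K_symm : ∀ s r : ℝ, K s r = K r s)
    (sum_dK : ∀ (x : Fin 3 × ℝ) (r : ℝ), ∑ j, (dK x j r + dK x j (th - r)) = 6 * K x.2 r)
    (r s : ℝ) :
    ∑ g : Fin 3 × Bool, ∑ g' : Fin 3 × Bool, ‖phg g r - phg g' s‖ = 36 * K s r := by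
  have h1 : ∀ g : Fin 3 × Bool, ∑ g' : Fin 3 × Bool, ‖phg g r - phg g' s‖ = 6 * K s r := by
    intro g
    have h2 : ∑ g' : Fin 3 × Bool, ‖phg g r - phg g' s‖ =
        ∑ j, (dK (g.1, if g.2 then th - r else r) j s +
          dK (g.1, if g.2 then th - r else r) j (th - s)) := by
      rw [Fintype.sum_prod_type]
      refine Finset.sum_congr rfl fun j _ => ?_
      rw [Fintype.sum_bool]
      unfold phg
      rw [dist_pt', dist_pt', add_comm]
      simp
    rw [h2, sum_dK]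
    dsimp only
    congr 1
    cases g.2
    · simpa using K_symm r s
    · simpa using (K_reflect r s).trans (K_symm r s)
  rw [Finset.sum_congr rfl fun g _ => h1 g, Finset.sum_const, Finset.card_univ]
  simp
  ring

theorem av_double (K_symm : ∀ s r : ℝ, K s r = K r s)
    (sum_dK : ∀ (x : Fin 3 × ℝ) (r : ℝ), ∑ j, (dK x j r + dK x j (th - r)) = 6 * K x.2 r)
    (μ ν : Measure ℝ) [IsFiniteMeasure μ] [IsFiniteMeasure ν] :
    ∫ x, ∫ y, ‖x - y‖ ∂(av ν) ∂(av μ) = 36 * ∫ r, ∫ s, K s r ∂ν ∂μ := by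
  have h1 : ∀ x : ℂ, ∫ y, ‖x - y‖ ∂(av ν) = ∑ g' : Fin 3 × Bool, ∫ s, ‖x - phg g' s‖ ∂ν :=
    fun x => av_integral ν (cont_dist x)
  have hc : Continuous (fun x : ℂ => ∑ g' : Fin 3 × Bool, ∫ s, ‖x - phg g' s‖ ∂ν) :=
    continuous_finset_sum _ fun g' _ => cont_pot ν g'
  simp only [h1]
  rw [av_integral μ hc, ← integral_finset_sum _ (fun g _ => int_of_cont μ hc g),
    ← integral_const_mul]
  refine integral_congr_ae (Filter.Eventually.of_forall fun r => ?_)
  dsimp only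
  rw [← integral_const_mul]
  have h2 : ∀ g : Fin 3 × Bool, ∑ g' : Fin 3 × Bool, ∫ s, ‖phg g r - phg g' s‖ ∂ν =
      ∫ s, ∑ g' : Fin 3 × Bool, ‖phg g r - phg g' s‖ ∂ν := by
    intro g
    rw [integral_finset_sum _ (fun g' _ => int_of_cont ν (cont_dist (phg g r)) g')]
  rw [Finset.sum_congr rfl fun g _ => h2 g, ← integral_finset_sum]
  · refine integral_congr_ae (Filter.Eventually.of_forall fun s => ?_)
    dsimp only
    exact pointwise_K K_symm sum_dK r s
  · intro g _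
    exact integrable_finset_sum _ fun g' _ => int_of_cont ν (cont_dist (phg g r)) g'

/-- energy inequality for the averaged kernel -/
theorem energy_K
    (K_symm : ∀ s r : ℝ, K s r = K r s)
    (sum_dK : ∀ (x : Fin 3 × ℝ) (r : ℝ), ∑ j, (dK x j r + dK x j (th - r)) = 6 * K x.2 r)
    (continuous_K : Continuous (fun p : ℝ × ℝ => K p.1 p.2))
    (K_nonneg : ∀ s r : ℝ, 0 ≤ K s r) (K_le : ∀ s r : ℝ, K s r ≤ 4)
    (energy_le : ∀ (α β : Measure ℂ) [IsFiniteMeasure α] [IsFiniteMeasure β] (R : ℝ),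
      α {x | R < ‖x‖} = 0 → β {x | R < ‖x‖} = 0 → α univ = β univ →
      (∫ x, ∫ y, ‖x - y‖ ∂α ∂α) + (∫ x, ∫ y, ‖x - y‖ ∂β ∂β) ≤ 2 * ∫ x, ∫ y, ‖x - y‖ ∂β ∂α)
    (α β : Measure ℝ) [IsFiniteMeasure α] [IsFiniteMeasure β]
    (hα : α (Icc 0 th)ᶜ = 0) (hβ : β (Icc 0 th)ᶜ = 0) (hm : α univ = β univ) :
    (∫ r, ∫ s, K s r ∂α ∂α) + (∫ r, ∫ s, K s r ∂β ∂β) ≤ 2 * ∫ r, ∫ s, K s r ∂β ∂α := by
  haveI := av_finite α
  haveI := av_finite β
  have h := energy_le (av α) (av β) 3 (av_null α) (av_null β) (by rw [av_univ, av_univ, hm])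
  rw [av_double K_symm sum_dK α α, av_double K_symm sum_dK β β, av_double K_symm sum_dK α β] at h
  linarith

end Pool.Agent.Helper342.RV.I1
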