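import Pool.Agent.Helper342.RV.Defs

namespace Pool.Agent.Helper342.RV.I2

open Real



























open Set




theorem th_pos' : 0 < th := by unfold th; positivity

theorem th_lt_pi' : th < Real.pi := by unfold th; linarith [Real.pi_pos]

theorem aux_sqrt3_sq : (√3 : ℝ) ^ 2 = 3 := Real.sq_sqrt (by norm_num)

theorem aux_om_sq : om ^ 2 = -1 - om := by
  apply Complex.ext
  · simp [om, pow_two]
    nlinarith [aux_sqrt3_sq]
  · simp [om, pow_two]
    ring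

theorem aux_om_cube : om ^ 3 = 1 := by
  have h := aux_om_sq
  have : om ^ 3 = om * om ^ 2 := by ring
  rw [this, h]
  have : om * (-1 - om) = -om - om ^ 2 := by ring
  rw [this, h]; ring

theorem aux_norm_om : ‖om‖ = 1 := by
  have h : ‖om‖ ^ 3 = 1 := by
    rw [← norm_pow, aux_om_cube, norm_one]
  have h0 : 0 ≤ ‖om‖ := norm_nonneg _
  nlinarith [sq_nonneg (‖om‖ + 1/2), sq_nonneg (‖om‖ - 1)]

/-- the solid triangle -/
def auxT : Set ℂ := {z | ‖z‖ ≤ 1 ∧ ‖z - 1‖ ≤ 1 ∧ ‖z - (1 + om)‖ ≤ 1}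

noncomputable def auxA (s : ℝ) : ℂ := Complex.exp (s * Complex.I)
noncomputable def auxB (s : ℝ) : ℂ := 1 + om * auxA s
noncomputable def auxC (s : ℝ) : ℂ := 1 + om + om ^ 2 * auxA s

theorem aux_norm_A (s : ℝ) : ‖auxA s‖ = 1 := Complex.norm_exp_ofReal_mul_I s

theorem aux_A_re (s : ℝ) : (auxA s).re = Real.cos s := by
  rw [auxA, Complex.exp_ofReal_mul_I_re]

theorem aux_A_im (s : ℝ) : (auxA s).im = Real.sin s := by
  rw [auxA, Complex.exp_ofReal_mul_I_im]

theorem aux_norm_sq_eq (z : ℂ) : ‖z‖ ^ 2 = z.re ^ 2 + z.im ^ 2 := by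
  rw [← Complex.normSq_eq_norm_sq, Complex.normSq_apply]; ring

theorem aux_norm_A_sub_sq (a b : ℝ) : ‖auxA a - auxA b‖ ^ 2 = 2 - 2 * Real.cos (a - b) := by
  rw [aux_norm_sq_eq]
  simp only [Complex.sub_re, Complex.sub_im, aux_A_re, aux_A_im]
  rw [Real.cos_sub]
  nlinarith [Real.sin_sq_add_cos_sq a, Real.sin_sq_add_cos_sq b]

theorem aux_A_zero : auxA 0 = 1 := by simp [auxA]

theorem aux_A_th : auxA th = 1 + om := by
  rw [auxA, Complex.exp_mul_I, ← Complex.ofReal_cos, ← Complex.ofReal_sin]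
  rw [th, Real.cos_pi_div_three, Real.sin_pi_div_three]
  apply Complex.ext
  · simp [om]; norm_num
  · simp [om]

theorem aux_B_zero : auxB 0 = 1 + om := by rw [auxB, aux_A_zero, mul_one]

theorem aux_B_th : auxB th = 0 := by
  rw [auxB, aux_A_th]
  linear_combination aux_om_sq

theorem aux_C_zero : auxC 0 = 0 := by
  rw [auxC, aux_A_zero]
  linear_combination aux_om_sq

theorem aux_C_th : auxC th = 1 := by
  rw [auxC, aux_A_th]
  linear_combination aux_om_sq + aux_om_cube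

theorem aux_norm_A_sub_le_one_iff (a b : ℝ) :
    ‖auxA a - auxA b‖ ≤ 1 ↔ 1 / 2 ≤ Real.cos (a - b) := by
  have h := aux_norm_A_sub_sq a b
  have h0 := norm_nonneg (auxA a - auxA b)
  constructor
  · intro h1; nlinarith
  · intro h1; nlinarith

theorem aux_cos_ge_half {x : ℝ} (h0 : |x| ≤ th) : 1 / 2 ≤ Real.cos x := by
  rw [← Real.cos_pi_div_three, ← Real.cos_abs x]
  apply Real.cos_le_cos_of_nonneg_of_le_pi (abs_nonneg x)
  · linarith [Real.pi_pos]
  · exact h0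

theorem aux_abs_le_of_cos_ge_half {x : ℝ} (h0 : |x| ≤ Real.pi) (h : 1 / 2 ≤ Real.cos x) :
    |x| ≤ th := by
  by_contra hc
  push Not at hc
  have h1 : Real.cos |x| < Real.cos th := by
    apply Real.cos_lt_cos_of_nonneg_of_le_pi th_pos'.le h0 hc
  rw [Real.cos_abs, th, Real.cos_pi_div_three] at h1
  linarith

theorem aux_A_mem {s : ℝ} (hs : s ∈ Icc 0 th) : auxA s ∈ auxT := by
  refine ⟨(aux_norm_A s).le, ?_, ?_⟩
  · rw [← aux_A_zero, aux_norm_A_sub_le_one_iff, sub_zero]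
    exact aux_cos_ge_half (by rw [abs_of_nonneg hs.1]; exact hs.2)
  · rw [← aux_A_th, aux_norm_A_sub_le_one_iff]
    apply aux_cos_ge_half
    rw [abs_le]
    constructor <;> linarith [hs.1, hs.2]

theorem aux_exists_param {z : ℂ} (hz : z ∈ auxT) (h1 : ‖z‖ = 1) : ∃ s ∈ Icc 0 th, z = auxA s := by
  have hz1 : z = auxA (Complex.arg z) := by
    have := Complex.norm_mul_exp_arg_mul_I z
    rw [h1] at this
    simpa [auxA] using this.symm
  have ha := Complex.neg_pi_lt_arg z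
  have hb := Complex.arg_le_pi z
  refine ⟨Complex.arg z, ?_, hz1⟩
  obtain ⟨-, h2, h3⟩ := hz
  rw [hz1, ← aux_A_zero, aux_norm_A_sub_le_one_iff, sub_zero] at h2
  rw [hz1, ← aux_A_th, aux_norm_A_sub_le_one_iff] at h3
  have h4 := aux_abs_le_of_cos_ge_half (abs_le.2 ⟨by linarith, hb⟩) h2
  rw [abs_le] at h4
  have hth : th = Real.pi / 3 := rfl
  have hpi := Real.pi_pos
  have h5 := aux_abs_le_of_cos_ge_half (x := Complex.arg z - th)
    (abs_le.2 ⟨by linarith, by linarith⟩) h3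
  rw [abs_le] at h5
  exact ⟨by linarith, by linarith⟩

noncomputable def auxrot (z : ℂ) : ℂ := 1 + om * z

theorem auxrot_mem {z : ℂ} : auxrot z ∈ auxT ↔ z ∈ auxT := by
  have h1 : ‖auxrot z‖ = ‖z - (1 + om)‖ := by
    have : auxrot z = om * (z - (1 + om)) := by
      rw [auxrot]
      linear_combination aux_om_sq
    rw [this, norm_mul, aux_norm_om, one_mul]
  have h2 : ‖auxrot z - 1‖ = ‖z‖ := by
    have : auxrot z - 1 = om * z := by rw [auxrot]; ring
    rw [this, norm_mul, aux_norm_om, one_mul]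
  have h3 : ‖auxrot z - (1 + om)‖ = ‖z - 1‖ := by
    have : auxrot z - (1 + om) = om * (z - 1) := by rw [auxrot]; ring
    rw [this, norm_mul, aux_norm_om, one_mul]
  simp only [auxT, Set.mem_ofPred_eq, h1, h2, h3]
  tauto

theorem auxT_closed : IsClosed auxT := by
  have h1 : IsClosed {z : ℂ | ‖z‖ ≤ 1} := isClosed_le (by fun_prop) (by fun_prop)
  have h2 : IsClosed {z : ℂ | ‖z - 1‖ ≤ 1} := isClosed_le (by fun_prop) (by fun_prop)
  have h3 : IsClosed {z : ℂ | ‖z - (1 + om)‖ ≤ 1} := isClosed_le (by fun_prop) (by fun_prop)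
  exact h1.inter (h2.inter h3)

theorem aux_not_mem_interior {z c : ℂ} (hc : ∀ z ∈ auxT, ‖z - c‖ ≤ 1) (h : ‖z - c‖ = 1) :
    z ∉ interior auxT := by
  intro hi
  have h1 : auxT ⊆ Metric.closedBall c 1 := fun w hw => by
    rw [Metric.mem_closedBall, dist_eq_norm]; exact hc w hw
  have h2 := interior_mono h1 hi
  rw [interior_closedBall c one_ne_zero, Metric.mem_ball, dist_eq_norm] at h2
  linarith

theorem aux_mem_frontier_iff {z : ℂ} :
    z ∈ frontier auxT ↔ z ∈ auxT ∧ (‖z‖ = 1 ∨ ‖z - 1‖ = 1 ∨ ‖z - (1 + om)‖ = 1) := by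
  rw [auxT_closed.frontier_eq]
  constructor
  · rintro ⟨h1, h2⟩
    refine ⟨h1, ?_⟩
    by_contra hc
    push Not at hc
    apply h2
    rw [mem_interior]
    refine ⟨{w : ℂ | ‖w‖ < 1} ∩ ({w : ℂ | ‖w - 1‖ < 1} ∩ {w : ℂ | ‖w - (1 + om)‖ < 1}), ?_, ?_, ?_⟩
    · rintro w ⟨a, b, c⟩
      exact ⟨le_of_lt a, le_of_lt b, le_of_lt c⟩
    · have h1 : IsOpen {z : ℂ | ‖z‖ < 1} := isOpen_lt (by fun_prop) (by fun_prop)
      have h2 : IsOpen {z : ℂ | ‖z - 1‖ < 1} := isOpen_lt (by fun_prop) (by fun_prop)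
      have h3 : IsOpen {z : ℂ | ‖z - (1 + om)‖ < 1} := isOpen_lt (by fun_prop) (by fun_prop)
      exact h1.inter (h2.inter h3)
    · exact ⟨lt_of_le_of_ne h1.1 hc.1, lt_of_le_of_ne h1.2.1 hc.2.1, lt_of_le_of_ne h1.2.2 hc.2.2⟩
  · rintro ⟨h1, h2⟩
    refine ⟨h1, ?_⟩
    rcases h2 with h2 | h2 | h2
    · exact aux_not_mem_interior (c := 0) (fun z hz => by rw [sub_zero]; exact hz.1)
        (by rw [sub_zero]; exact h2)
    · exact aux_not_mem_interior (c := 1) (fun z hz => hz.2.1) h2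
    · exact aux_not_mem_interior (c := 1 + om) (fun z hz => hz.2.2) h2

theorem auxrot_A (s : ℝ) : auxrot (auxA s) = auxB s := rfl

theorem auxrot_B (s : ℝ) : auxrot (auxB s) = auxC s := by
  simp only [auxrot, auxB, auxC]; ring

theorem aux_A_mem_frontier {s : ℝ} (hs : s ∈ Icc 0 th) : auxA s ∈ frontier auxT :=
  aux_mem_frontier_iff.2 ⟨aux_A_mem hs, Or.inl (aux_norm_A s)⟩

theorem aux_B_mem_frontier {s : ℝ} (hs : s ∈ Icc 0 th) : auxB s ∈ frontier auxT := by
  refine aux_mem_frontier_iff.2 ⟨by rw [← auxrot_A, auxrot_mem]; exact aux_A_mem hs,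
    Or.inr (Or.inl ?_)⟩
  have : auxB s - 1 = om * auxA s := by rw [auxB]; ring
  rw [this, norm_mul, aux_norm_om, aux_norm_A, one_mul]

theorem aux_C_mem_frontier {s : ℝ} (hs : s ∈ Icc 0 th) : auxC s ∈ frontier auxT := by
  refine aux_mem_frontier_iff.2 ⟨by rw [← auxrot_B, auxrot_mem, ← auxrot_A, auxrot_mem]; exact aux_A_mem hs,
    Or.inr (Or.inr ?_)⟩
  have : auxC s - (1 + om) = om ^ 2 * auxA s := by rw [auxC]; ring
  rw [this, norm_mul, norm_pow, aux_norm_om, aux_norm_A, one_pow, one_mul]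

theorem aux_frontier_param {z : ℂ} (hz : z ∈ frontier auxT) :
    ∃ s ∈ Icc 0 th, z = auxA s ∨ z = auxB s ∨ z = auxC s := by
  rw [aux_mem_frontier_iff] at hz
  obtain ⟨h1, h2 | h2 | h2⟩ := hz
  · obtain ⟨s, hs, h⟩ := aux_exists_param h1 h2
    exact ⟨s, hs, Or.inl h⟩
  · have hz : z = auxrot (om ^ 2 * (z - 1)) := by
      rw [auxrot]; linear_combination (-(z - 1)) * aux_om_cube
    have h3 : om ^ 2 * (z - 1) ∈ auxT := by
      rw [← auxrot_mem, ← hz]; exact h1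
    have h4 : ‖om ^ 2 * (z - 1)‖ = 1 := by
      rw [norm_mul, norm_pow, aux_norm_om, h2]; norm_num
    obtain ⟨s, hs, h⟩ := aux_exists_param h3 h4
    exact ⟨s, hs, Or.inr (Or.inl (by rw [hz, h, auxrot_A]))⟩
  · have hz : z = auxrot (auxrot (om * (z - (1 + om)))) := by
      rw [auxrot, auxrot]; linear_combination (-(z - 1 - om)) * aux_om_cube
    have h3 : om * (z - (1 + om)) ∈ auxT := by
      rw [← auxrot_mem, ← auxrot_mem, ← hz]; exact h1
    have h4 : ‖om * (z - (1 + om))‖ = 1 := by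
      rw [norm_mul, aux_norm_om, h2]; norm_num
    obtain ⟨s, hs, h⟩ := aux_exists_param h3 h4
    exact ⟨s, hs, Or.inr (Or.inr (by rw [hz, h, auxrot_A, auxrot_B]))⟩

theorem auxT_compact : IsCompact auxT := by
  apply Metric.isCompact_of_isClosed_isBounded auxT_closed
  apply (Metric.isBounded_closedBall (x := (0:ℂ)) (r := 1)).subset
  intro z hz
  rw [Metric.mem_closedBall, dist_zero_right]
  exact hz.1

theorem aux_continuous_A : Continuous auxA := by unfold auxA; fun_prop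
theorem aux_continuous_B : Continuous auxB := by
  unfold auxB; exact continuous_const.add (continuous_const.mul aux_continuous_A)
theorem aux_continuous_C : Continuous auxC := by
  unfold auxC; exact continuous_const.add (continuous_const.mul aux_continuous_A)

theorem aux_pt0 (s : ℝ) : pt (0, s) = auxA s := by simp [pt, auxA]
theorem aux_pt1 (s : ℝ) : pt (1, s) = auxB s := by simp [pt, auxB, auxA]
theorem aux_pt2 (s : ℝ) : pt (2, s) = auxC s := by
  simp [pt, auxC, auxA]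

/-- distance between points of different sides -/
theorem aux_dist_AB (a b : ℝ) : ‖auxA a - auxB b‖ ^ 2
    = 3 - 2 * cos a - 2 * cos (th - b) - 2 * cos (th + (th - a) + b) := by
  have h3 := aux_sqrt3_sq
  have e1 : cos (th - b) = cos b / 2 + √3 / 2 * sin b := by
    rw [Real.cos_sub, th, Real.cos_pi_div_three, Real.sin_pi_div_three]; ring
  have e2 : cos (th + (th - a) + b) = -cos (a - b) / 2 + √3 / 2 * sin (a - b) := by
    have : th + (th - a) + b = Real.pi - (th + (a - b)) := by unfold th; ring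
    rw [this, Real.cos_pi_sub, Real.cos_add, th, Real.cos_pi_div_three, Real.sin_pi_div_three]; ring
  rw [e1, e2, Real.cos_sub, Real.sin_sub, aux_norm_sq_eq]
  have hr : (auxA a - auxB b).re = cos a - 1 + cos b / 2 + √3 / 2 * sin b := by
    rw [auxB]
    simp only [Complex.sub_re, Complex.add_re, Complex.mul_re, Complex.one_re, aux_A_re, aux_A_im, om]
    ring
  have hi : (auxA a - auxB b).im = sin a + sin b / 2 - √3 / 2 * cos b := by
    rw [auxB]
    simp only [Complex.sub_im, Complex.add_im, Complex.mul_im, Complex.one_im, aux_A_re, aux_A_im, om]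
    ring
  rw [hr, hi]
  have ha := Real.sin_sq_add_cos_sq a
  have hb := Real.sin_sq_add_cos_sq b
  linear_combination ha + hb * (1 / 4 + (√3) ^ 2 / 4) + h3 / 4

theorem aux_key {a b : ℝ} (ha : a ∈ Icc 0 th) (hb : b ∈ Icc 0 th) :
    1 ≤ cos a + cos b - cos (a + b) := by
  have h1 : cos a + cos b - cos (a + b) = 1 + 4 * cos ((a + b) / 2) * sin (a / 2) * sin (b / 2) := by
    have e1 : a = 2 * (a / 2) := by ring
    have e2 : b = 2 * (b / 2) := by ring
    have e3 : (a + b) / 2 = a / 2 + b / 2 := by ring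
    have e4 : cos a = 2 * cos (a / 2) ^ 2 - 1 := by
      conv_lhs => rw [e1]
      exact Real.cos_two_mul _
    have e5 : cos b = 2 * cos (b / 2) ^ 2 - 1 := by
      conv_lhs => rw [e2]
      exact Real.cos_two_mul _
    have e6 : cos (a + b) = 2 * cos ((a + b) / 2) ^ 2 - 1 := by
      have : a + b = 2 * ((a + b) / 2) := by ring
      conv_lhs => rw [this]
      exact Real.cos_two_mul _
    rw [e4, e5, e6, e3, Real.cos_add]
    have hA := Real.sin_sq_add_cos_sq (a / 2)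
    have hB := Real.sin_sq_add_cos_sq (b / 2)
    linear_combination 2 * sin (a / 2) ^ 2 * hB + 2 * (1 - cos (b / 2) ^ 2) * hA
  have hth : th = Real.pi / 3 := rfl
  have hpi := Real.pi_pos
  obtain ⟨a0, a1⟩ := ha
  obtain ⟨b0, b1⟩ := hb
  have c1 : 0 ≤ cos ((a + b) / 2) := Real.cos_nonneg_of_mem_Icc ⟨by linarith, by linarith⟩
  have c2 : 0 ≤ sin (a / 2) := Real.sin_nonneg_of_nonneg_of_le_pi (by linarith) (by linarith)
  have c3 : 0 ≤ sin (b / 2) := Real.sin_nonneg_of_nonneg_of_le_pi (by linarith) (by linarith)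
  rw [h1]
  have := mul_nonneg (mul_nonneg c1 c2) c3
  nlinarith

theorem aux_dist_AB_le {a b : ℝ} (ha : a ∈ Icc 0 th) (hb : b ∈ Icc 0 th) :
    ‖auxA a - auxB b‖ ≤ 1 := by
  have h := aux_dist_AB a b
  have hk := aux_key (a := a) (b := th - b) ha ⟨by linarith [hb.2], by linarith [hb.1]⟩
  have e : cos (th + (th - a) + b) = - cos (a + (th - b)) := by
    have : th + (th - a) + b = Real.pi - (a + (th - b)) := by unfold th; ring
    rw [this, Real.cos_pi_sub]
  rw [e] at h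
  have h0 := norm_nonneg (auxA a - auxB b)
  nlinarith

theorem aux_dist_AA_le {a b : ℝ} (ha : a ∈ Icc 0 th) (hb : b ∈ Icc 0 th) :
    ‖auxA a - auxA b‖ ≤ 1 := by
  rw [aux_norm_A_sub_le_one_iff]
  apply aux_cos_ge_half
  rw [abs_le]
  constructor <;> linarith [ha.1, ha.2, hb.1, hb.2]

theorem aux_dist_BC (a b : ℝ) : ‖auxB a - auxC b‖ = ‖auxA a - auxB b‖ := by
  rw [← auxrot_B, ← auxrot_A a]
  have : auxrot (auxA a) - auxrot (auxB b) = om * (auxA a - auxB b) := by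
    simp only [auxrot]; ring
  rw [this, norm_mul, aux_norm_om, one_mul]

theorem aux_dist_CA (a b : ℝ) : ‖auxC a - auxA b‖ = ‖auxA a - auxB b‖ := by
  have : auxC a - auxA b = om ^ 2 * (auxA a - auxB b) := by
    simp only [auxC, auxB]
    linear_combination (auxA b) * aux_om_cube + aux_om_sq
  rw [this, norm_mul, norm_pow, aux_norm_om, one_pow, one_mul]

theorem aux_dist_BB (a b : ℝ) : ‖auxB a - auxB b‖ = ‖auxA a - auxA b‖ := by
  have : auxB a - auxB b = om * (auxA a - auxA b) := by simp only [auxB]; ring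
  rw [this, norm_mul, aux_norm_om, one_mul]

theorem aux_dist_CC (a b : ℝ) : ‖auxC a - auxC b‖ = ‖auxA a - auxA b‖ := by
  have : auxC a - auxC b = om ^ 2 * (auxA a - auxA b) := by simp only [auxC]; ring
  rw [this, norm_mul, norm_pow, aux_norm_om, one_pow, one_mul]

theorem aux_frontier_dist {z w : ℂ} (hz : z ∈ frontier auxT) (hw : w ∈ frontier auxT) :
    ‖z - w‖ ≤ 1 := by
  obtain ⟨a, ha, h1⟩ := aux_frontier_param hz
  obtain ⟨b, hb, h2⟩ := aux_frontier_param hw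
  rcases h1 with rfl | rfl | rfl <;> rcases h2 with rfl | rfl | rfl
  · exact aux_dist_AA_le ha hb
  · exact aux_dist_AB_le ha hb
  · rw [norm_sub_rev, aux_dist_CA]; exact aux_dist_AB_le hb ha
  · rw [norm_sub_rev]; exact aux_dist_AB_le hb ha
  · rw [aux_dist_BB]; exact aux_dist_AA_le ha hb
  · rw [aux_dist_BC]; exact aux_dist_AB_le ha hb
  · rw [aux_dist_CA]; exact aux_dist_AB_le ha hb
  · rw [norm_sub_rev, aux_dist_BC]; exact aux_dist_AB_le hb ha
  · rw [aux_dist_CC]; exact aux_dist_AA_le ha hb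

theorem aux_zero_frontier : (0 : ℂ) ∈ frontier auxT := by
  rw [← aux_C_zero]; exact aux_C_mem_frontier ⟨le_rfl, th_pos'.le⟩

theorem aux_one_frontier : (1 : ℂ) ∈ frontier auxT := by
  rw [← aux_A_zero]; exact aux_A_mem_frontier ⟨le_rfl, th_pos'.le⟩

theorem aux_exists_frontier {z w : ℂ} (hz : z ∈ auxT) :
    ∃ z' ∈ frontier auxT, ‖z - w‖ ≤ ‖z' - w‖ := by
  have hne : auxT.Nonempty := ⟨z, hz⟩
  have hd : DiffContOnCl ℂ (fun x : ℂ => x - w) auxT :=
    (differentiable_id.sub_const w).diffContOnCl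
  obtain ⟨z', hz', hmax⟩ := Complex.exists_mem_frontier_isMaxOn_norm auxT_compact.isBounded hne hd
  refine ⟨z', hz', ?_⟩
  have := hmax (subset_closure hz)
  simpa using this

theorem aux_solid_dist {z w : ℂ} (hz : z ∈ auxT) (hw : w ∈ auxT) : ‖z - w‖ ≤ 1 := by
  obtain ⟨z', hz', h1⟩ := aux_exists_frontier (w := w) hz
  obtain ⟨w', hw', h2⟩ := aux_exists_frontier (w := z') hw
  calc ‖z - w‖ ≤ ‖z' - w‖ := h1
    _ = ‖w - z'‖ := norm_sub_rev _ _
    _ ≤ ‖w' - z'‖ := h2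
    _ ≤ 1 := aux_frontier_dist hw' hz'

theorem EJ_compact (z1 z2 : ℝ) : IsCompact (EJ z1 z2) := by
  have h : EJ z1 z2 = (({0} : Set (Fin 3)) ×ˢ (Icc 0 th \ Ioo z1 z2))
      ∪ (({1, 2} : Set (Fin 3)) ×ˢ Icc 0 th) := by
    ext ⟨j, s⟩
    simp only [EJ, Set.mem_ofPred_eq, Set.mem_union, Set.mem_prod, Set.mem_singleton_iff,
      Set.mem_insert_iff, Set.mem_sdiff]
    fin_cases j <;> simp
  rw [h]
  apply IsCompact.union
  · apply IsCompact.prod (Set.finite_singleton _).isCompact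
    exact isCompact_Icc.diff isOpen_Ioo
  · exact (Set.toFinite _).isCompact.prod isCompact_Icc

theorem aux_own_le {s r : ℝ} (hs : s ∈ Icc 0 th) (hr : r ∈ Icc 0 th) :
    2 * |sin ((r - s) / 2)| ≤ 1 := by
  have hth : th = Real.pi / 3 := rfl
  have hpi := Real.pi_pos
  have h2 : |(r - s) / 2| ≤ Real.pi / 6 := by
    rw [abs_le]; constructor <;> linarith [hs.1, hs.2, hr.1, hr.2]
  have h3 : |sin ((r - s) / 2)| ≤ 1 / 2 := by
    rw [← Real.sin_pi_div_six, abs_le]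
    rw [abs_le] at h2
    constructor
    · rw [← Real.sin_neg]
      exact Real.sin_le_sin_of_le_of_le_pi_div_two (by linarith) (by linarith) h2.1
    · exact Real.sin_le_sin_of_le_of_le_pi_div_two (by linarith) (by linarith) h2.2
  linarith

theorem dK_le_one
    (dd_le_one : ∀ u w : ℝ, u ∈ Set.Icc 0 th → w ∈ Set.Icc 0 th → dd u w ≤ 1)
    {x : Fin 3 × ℝ} {j : Fin 3} {r : ℝ} (hx : x.2 ∈ Icc 0 th) (hr : r ∈ Icc 0 th) :
    dK x j r ≤ 1 := by
  have hx' : th - x.2 ∈ Icc 0 th := ⟨by linarith [hx.2], by linarith [hx.1]⟩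
  have hr' : th - r ∈ Icc 0 th := ⟨by linarith [hr.2], by linarith [hr.1]⟩
  unfold dK
  split_ifs
  · exact aux_own_le hx hr
  · exact dd_le_one _ _ hx hr'
  · exact dd_le_one _ _ hx' hr

theorem pt_EJ_eq {z1 z2 : ℝ} (h1 : 0 < z1) (h2 : z1 < z2) (h3 : z2 < th) :
    pt '' EJ z1 z2 = ((auxA '' Icc 0 z1 ∪ auxC '' Icc 0 th) ∪ auxB '' Icc 0 th)
      ∪ auxA '' Icc z2 th := by
  ext z
  constructor
  · rintro ⟨⟨j, s⟩, ⟨hs, hj⟩, rfl⟩
    simp only at hs hj
    fin_cases j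
    · have hj' : s ∉ Ioo z1 z2 := fun h => hj ⟨rfl, h⟩
      change pt (0, s) ∈ _
      rw [aux_pt0]
      by_cases h : s ≤ z1
      · exact Or.inl (Or.inl (Or.inl ⟨s, ⟨hs.1, h⟩, rfl⟩))
      · refine Or.inr ⟨s, ⟨?_, hs.2⟩, rfl⟩
        by_contra hc
        exact hj' ⟨not_le.1 h, not_le.1 hc⟩
    · change pt (1, s) ∈ _
      rw [aux_pt1]
      exact Or.inl (Or.inr ⟨s, hs, rfl⟩)
    · change pt (2, s) ∈ _
      rw [aux_pt2]
      exact Or.inl (Or.inl (Or.inr ⟨s, hs, rfl⟩))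
  · rintro (((⟨s, hs, rfl⟩ | ⟨s, hs, rfl⟩) | ⟨s, hs, rfl⟩) | ⟨s, hs, rfl⟩)
    · refine ⟨(0, s), ⟨⟨hs.1, by linarith [hs.2]⟩, ?_⟩, aux_pt0 s⟩
      rintro ⟨-, h⟩
      exact absurd hs.2 (not_le.2 h.1)
    · refine ⟨(2, s), ⟨hs, ?_⟩, aux_pt2 s⟩
      rintro ⟨h, -⟩
      exact absurd h (by simp)
    · refine ⟨(1, s), ⟨hs, ?_⟩, aux_pt1 s⟩
      rintro ⟨h, -⟩
      exact absurd h (by simp)
    · refine ⟨(0, s), ⟨⟨by linarith [hs.1], hs.2⟩, ?_⟩, aux_pt0 s⟩
      rintro ⟨-, h⟩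
      exact absurd hs.1 (not_le.2 h.2)

theorem pt_EJ_connected {z1 z2 : ℝ} (h1 : 0 < z1) (h2 : z1 < z2) (h3 : z2 < th) :
    IsConnected (pt '' EJ z1 z2) := by
  rw [pt_EJ_eq h1 h2 h3]
  have cA1 : IsConnected (auxA '' Icc 0 z1) :=
    (isConnected_Icc h1.le).image _ aux_continuous_A.continuousOn
  have cA2 : IsConnected (auxA '' Icc z2 th) :=
    (isConnected_Icc h3.le).image _ aux_continuous_A.continuousOn
  have cB : IsConnected (auxB '' Icc 0 th) :=
    (isConnected_Icc th_pos'.le).image _ aux_continuous_B.continuousOn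
  have cC : IsConnected (auxC '' Icc 0 th) :=
    (isConnected_Icc th_pos'.le).image _ aux_continuous_C.continuousOn
  have i1 : (auxA '' Icc 0 z1 ∩ auxC '' Icc 0 th).Nonempty :=
    ⟨1, ⟨0, ⟨le_rfl, h1.le⟩, aux_A_zero⟩, ⟨th, ⟨th_pos'.le, le_rfl⟩, aux_C_th⟩⟩
  have c1 := IsConnected.union i1 cA1 cC
  have i2 : ((auxA '' Icc 0 z1 ∪ auxC '' Icc 0 th) ∩ auxB '' Icc 0 th).Nonempty :=
    ⟨0, Or.inr ⟨0, ⟨le_rfl, th_pos'.le⟩, aux_C_zero⟩, ⟨th, ⟨th_pos'.le, le_rfl⟩, aux_B_th⟩⟩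
  have c2 := IsConnected.union i2 c1 cB
  have i3 : (((auxA '' Icc 0 z1 ∪ auxC '' Icc 0 th) ∪ auxB '' Icc 0 th)
      ∩ auxA '' Icc z2 th).Nonempty :=
    ⟨1 + om, Or.inr ⟨0, ⟨le_rfl, th_pos'.le⟩, aux_B_zero⟩, ⟨th, ⟨h3.le, le_rfl⟩, aux_A_th⟩⟩
  exact IsConnected.union i3 c2 cA2

theorem pt_EJ_nontrivial {z1 z2 : ℝ} (h1 : 0 < z1) (h2 : z1 < z2) (h3 : z2 < th) :
    (pt '' EJ z1 z2).Nontrivial := by
  rw [pt_EJ_eq h1 h2 h3]
  refine ⟨1, ?_, 0, ?_, one_ne_zero⟩
  · exact Or.inl (Or.inl (Or.inl ⟨0, ⟨le_rfl, h1.le⟩, aux_A_zero⟩))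
  · exact Or.inl (Or.inl (Or.inr ⟨0, ⟨le_rfl, th_pos'.le⟩, aux_C_zero⟩))

/-- the frontier of the solid triangle is the full curve -/
theorem frontier_eq : frontier {z : ℂ | ‖z‖ ≤ 1 ∧ ‖z - 1‖ ≤ 1 ∧ ‖z - (1 + om)‖ ≤ 1}
    = pt '' {x | x.2 ∈ Icc 0 th} := by
  change frontier auxT = _
  ext z
  constructor
  · intro hz
    obtain ⟨s, hs, h⟩ := aux_frontier_param hz
    rcases h with rfl | rfl | rfl
    · exact ⟨(0, s), hs, aux_pt0 s⟩
    · exact ⟨(1, s), hs, aux_pt1 s⟩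
    · exact ⟨(2, s), hs, aux_pt2 s⟩
  · rintro ⟨⟨j, s⟩, hs, rfl⟩
    have hs' : s ∈ Icc 0 th := hs
    fin_cases j
    · change pt (0, s) ∈ _
      rw [aux_pt0]; exact aux_A_mem_frontier hs'
    · change pt (1, s) ∈ _
      rw [aux_pt1]; exact aux_B_mem_frontier hs'
    · change pt (2, s) ∈ _
      rw [aux_pt2]; exact aux_C_mem_frontier hs'

theorem diam_frontier : Metric.diam (frontier {z : ℂ | ‖z‖ ≤ 1 ∧ ‖z - 1‖ ≤ 1 ∧ ‖z - (1 + om)‖ ≤ 1})
    = 1 := by
  change Metric.diam (frontier auxT) = 1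
  apply le_antisymm
  · apply Metric.diam_le_of_forall_dist_le zero_le_one
    intro z hz w hw
    rw [dist_eq_norm]; exact aux_frontier_dist hz hw
  · have hb : Bornology.IsBounded (frontier auxT) :=
      auxT_compact.isBounded.subset auxT_closed.frontier_subset
    have := Metric.dist_le_diam_of_mem hb aux_zero_frontier aux_one_frontier
    simpa using this

theorem diam_solid : Metric.diam {z : ℂ | ‖z‖ ≤ 1 ∧ ‖z - 1‖ ≤ 1 ∧ ‖z - (1 + om)‖ ≤ 1} = 1 := by
  change Metric.diam auxT = 1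
  apply le_antisymm
  · apply Metric.diam_le_of_forall_dist_le zero_le_one
    intro z hz w hw
    rw [dist_eq_norm]; exact aux_solid_dist hz hw
  · have := Metric.dist_le_diam_of_mem auxT_compact.isBounded
      (auxT_closed.frontier_subset aux_zero_frontier) (auxT_closed.frontier_subset aux_one_frontier)
    simpa using this

end Pool.Agent.Helper342.RV.I2
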