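import Pool.Agent.Helper342.RV.Defs

namespace Pool.Agent.Helper342.RV.K1f

open Real























theorem dd_symm6999 (u w : ℝ) : dd u w = dd w u := by
  unfold dd DD
  have : th + u + w = th + w + u := by ring
  rw [this]
  congr 1
  ring

theorem abs_sin_neg6999 (x y : ℝ) (h : x = -y) : |sin x| = |sin y| := by
  rw [h, Real.sin_neg, abs_neg]

theorem ident6999 (u w : ℝ) : DD u w = (1 - (cos (th + u + w) + cos (th - w))) ^ 2 +
    (sin (th + u + w) - sin (th - w)) ^ 2 := by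
  have h1 : cos ((th + u + w) + (th - w)) = -cos (th - u) := by
    rw [← Real.cos_pi_sub]
    congr 1
    unfold th; ring
  rw [Real.cos_add] at h1
  have h2 := Real.sin_sq_add_cos_sq (th + u + w)
  have h3 := Real.sin_sq_add_cos_sq (th - w)
  unfold DD
  linear_combination (-2) * h1 - h2 - h3

theorem abs_de_le6999 (u w : ℝ) : |de u w| ≤ 1 := by
  unfold de dd
  rw [abs_div, abs_of_nonneg (Real.sqrt_nonneg _)]
  apply div_le_one_of_le₀ _ (Real.sqrt_nonneg _)
  apply Real.abs_le_sqrt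
  rw [ident6999]
  nlinarith [sq_nonneg (1 - (cos (th + u + w) + cos (th - w)))]

theorem DD_pos6999 {u w : ℝ} (hu0 : 0 ≤ u) (hu1 : u ≤ th) (hw0 : 0 < w) (hw1 : w ≤ th) :
    0 < DD u w := by
  by_contra hcon
  push Not at hcon
  have hpi := Real.pi_pos
  rw [ident6999] at hcon
  obtain ⟨A, hA⟩ : ∃ A, A = cos (th + u + w) + cos (th - w) := ⟨_, rfl⟩
  obtain ⟨B, hB⟩ : ∃ B, B = sin (th + u + w) - sin (th - w) := ⟨_, rfl⟩
  rw [← hA, ← hB] at hcon
  have hA1 : 1 - A = 0 := by
    have : (1 - A) ^ 2 ≤ 0 := by nlinarith [sq_nonneg B]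
    exact pow_eq_zero_iff (two_ne_zero) |>.1 (le_antisymm this (sq_nonneg _))
  have hB0 : B = 0 := by
    have : B ^ 2 ≤ 0 := by nlinarith [sq_nonneg (1 - A)]
    exact pow_eq_zero_iff (two_ne_zero) |>.1 (le_antisymm this (sq_nonneg _))
  have e1 : th + u + w = (th + u / 2) + (w + u / 2) := by ring
  have e2 : th - w = (th + u / 2) - (w + u / 2) := by ring
  have hAe : A = 2 * cos (th + u / 2) * cos (w + u / 2) := by
    rw [hA, e1, e2, Real.cos_add, Real.cos_sub]; ring
  have hBe : B = 2 * cos (th + u / 2) * sin (w + u / 2) := by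
    rw [hB, e1, e2, Real.sin_add, Real.sin_sub]; ring
  have hs : 0 < sin (w + u / 2) := by
    apply Real.sin_pos_of_pos_of_lt_pi
    · linarith
    · unfold th at hu1 hw1; linarith
  rw [hBe] at hB0
  rcases mul_eq_zero.1 hB0 with h | h
  · rw [hAe, h, zero_mul] at hA1
    linarith
  · exact hs.ne' h

theorem DD_symm6999 (u w : ℝ) : DD u w = DD w u := by
  unfold DD
  have : th + u + w = th + w + u := by ring
  rw [this]
  ring

theorem DD_cont6999 : Continuous (fun p : ℝ × ℝ => DD p.1 p.2) := by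
  unfold DD; fun_prop

theorem dd_cont6999 : Continuous (fun p : ℝ × ℝ => dd p.1 p.2) := by
  unfold dd; exact DD_cont6999.sqrt

theorem kn_cont6999 : ContinuousOn (fun p : ℝ × ℝ => kn p.1 p.2) {p | 0 < DD p.1 p.2} := by
  unfold kn
  apply ContinuousOn.div
  · apply Continuous.continuousOn; fun_prop
  · apply Continuous.continuousOn
    exact continuous_const.mul (dd_cont6999.pow 3)
  · intro p hp
    have : 0 < dd p.1 p.2 := Real.sqrt_pos.2 hp
    positivity

theorem PK_cont6999 (S : Set (ℝ × ℝ)) (h : ∀ p ∈ S, 0 < DD p.1 p.2 ∧ 0 < DD (th - p.1) p.2 ∧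
    0 < DD p.1 (th - p.2) ∧ 0 < DD (th - p.1) (th - p.2)) :
    ContinuousOn (fun p : ℝ × ℝ => PK p.1 p.2) S := by
  unfold PK
  apply ContinuousOn.div_const
  have c1 : ContinuousOn (fun p : ℝ × ℝ => kn p.1 p.2) S :=
    kn_cont6999.mono (fun p hp => (h p hp).1)
  have c2 : ContinuousOn (fun p : ℝ × ℝ => kn (th - p.1) p.2) S :=
    kn_cont6999.comp (f := fun p : ℝ × ℝ => (th - p.1, p.2)) (by fun_prop) (fun p hp => (h p hp).2.1)
  have c3 : ContinuousOn (fun p : ℝ × ℝ => kn p.1 (th - p.2)) S :=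
    kn_cont6999.comp (f := fun p : ℝ × ℝ => (p.1, th - p.2)) (by fun_prop)
      (fun p hp => (h p hp).2.2.1)
  have c4 : ContinuousOn (fun p : ℝ × ℝ => kn (th - p.1) (th - p.2)) S :=
    kn_cont6999.comp (f := fun p : ℝ × ℝ => (th - p.1, th - p.2)) (by fun_prop)
      (fun p hp => (h p hp).2.2.2)
  exact ((c1.add c2).add c3).add c4

theorem measurable_sign6999 : Measurable Real.sign := by
  unfold Real.sign
  exact Measurable.ite measurableSet_Iio measurable_const
    (Measurable.ite measurableSet_Ioi measurable_const measurable_const)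

theorem measurable_de6999 : Measurable (fun p : ℝ × ℝ => de p.1 p.2) := by
  unfold de
  apply Measurable.div
  · fun_prop
  · exact dd_cont6999.measurable

theorem abs_sign_cos6999 (x y : ℝ) : |Real.sign x * cos y| ≤ 1 := by
  rw [abs_mul]
  have h1 : |Real.sign x| ≤ 1 := by
    rcases Real.sign_apply_eq x with h | h | h <;> rw [h] <;> norm_num
  have h2 := Real.abs_cos_le_one y
  calc _ ≤ (1 : ℝ) * 1 := mul_le_mul h1 h2 (abs_nonneg _) (by norm_num)
    _ = 1 := one_mul 1

theorem dd_le6999 (u w : ℝ) : dd u w ≤ 3 := by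
  unfold dd
  rw [Real.sqrt_le_left (by norm_num)]
  unfold DD
  have h1 := Real.neg_one_le_cos (th - u)
  have h2 := Real.neg_one_le_cos (th - w)
  have h3 := Real.neg_one_le_cos (th + u + w)
  linarith

theorem dd_nonneg6999 (u w : ℝ) : 0 ≤ dd u w := Real.sqrt_nonneg _

theorem sign_cos_neg6999 (x y : ℝ) (h : x = -y) :
    Real.sign x * cos (x / 2) = -(Real.sign y * cos (y / 2)) := by
  rw [h, Real.sign_neg, neg_div, Real.cos_neg]
  ring

theorem K_refl_s (s r : ℝ) : K (th - s) r = K s r := by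
  unfold K
  rw [sub_sub_cancel]
  ring

theorem K_refl_r (s r : ℝ) : K s (th - r) = K s r := by
  unfold K
  rw [sub_sub_cancel, abs_sin_neg6999 ((th - r - s) / 2) ((r - (th - s)) / 2) (by ring),
    abs_sin_neg6999 ((th - r - (th - s)) / 2) ((r - s) / 2) (by ring)]
  ring

theorem K_symm (s r : ℝ) : K s r = K r s := by
  unfold K
  rw [abs_sin_neg6999 ((r - s) / 2) ((s - r) / 2) (by ring), dd_symm6999 r s,
    dd_symm6999 (th - r) s, dd_symm6999 r (th - s), dd_symm6999 (th - r) (th - s)]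
  have : (r - (th - s)) / 2 = (s - (th - r)) / 2 := by ring
  rw [this]
  ring

theorem K1_refl_s (s r : ℝ) : K1 (th - s) r = K1 s r := by
  unfold K1
  rw [sub_sub_cancel]
  ring

theorem K1_refl_r (s r : ℝ) : K1 s (th - r) = -K1 s r := by
  unfold K1
  rw [sub_sub_cancel, sign_cos_neg6999 (th - r - s) (r - (th - s)) (by ring),
    sign_cos_neg6999 (th - r - (th - s)) (r - s) (by ring)]
  ring

theorem PK_refl_s (s t : ℝ) : PK (th - s) t = PK s t := by
  unfold PK
  rw [sub_sub_cancel]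
  ring

theorem PK_refl_t (s t : ℝ) : PK s (th - t) = PK s t := by
  unfold PK
  rw [sub_sub_cancel]
  ring

theorem kn_nonneg6999 (u w : ℝ) : 0 ≤ kn u w := by
  unfold kn
  have := dd_nonneg6999 u w
  positivity

theorem PK_nonneg (s t : ℝ) : 0 ≤ PK s t := by
  unfold PK
  have h1 := kn_nonneg6999 s t
  have h2 := kn_nonneg6999 (th - s) t
  have h3 := kn_nonneg6999 s (th - t)
  have h4 := kn_nonneg6999 (th - s) (th - t)
  positivity

theorem PK_zero (t : ℝ) : PK 0 t = 1 / 12 := by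
  have h1 : ∀ t, kn 0 t = 0 := by
    intro t
    unfold kn th
    rw [sub_zero, Real.cos_pi_div_three]
    norm_num
  have h2 : ∀ t, kn th t = 1 / 4 := by
    intro t
    have h3 : DD th t = 1 := by
      unfold DD
      have h4 : cos (th + th + t) = -cos (th - t) := by
        rw [← Real.cos_pi_sub]
        congr 1
        unfold th; ring
      rw [h4, sub_self, Real.cos_zero]
      ring
    unfold kn dd
    rw [h3, sub_self, Real.cos_zero]
    norm_num
  unfold PK
  rw [sub_zero, h1, h1, h2, h2]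
  norm_num

/-- averaging over the six images of the target -/
theorem sum_dK (x : Fin 3 × ℝ) (r : ℝ) : ∑ j, (dK x j r + dK x j (th - r)) = 6 * K x.2 r := by
  obtain ⟨i, s⟩ := x
  have h1 := abs_sin_neg6999 ((th - r - s) / 2) ((r - (th - s)) / 2) (by ring)
  rw [Fin.sum_univ_three]
  unfold dK K
  fin_cases i <;> simp [h1] <;> ring

theorem sum_eK (x : Fin 3 × ℝ) (r : ℝ) : ∑ j, (eK x j r - eK x j (th - r)) = 6 * K1 x.2 r := by
  obtain ⟨i, s⟩ := x
  have h1 := sign_cos_neg6999 (th - r - s) (r - (th - s)) (by ring)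
  rw [Fin.sum_univ_three]
  unfold eK K1
  fin_cases i <;> simp [h1] <;> ring

theorem continuous_K : Continuous (fun p : ℝ × ℝ => K p.1 p.2) := by
  unfold K
  have c1 : Continuous (fun p : ℝ × ℝ => dd p.1 p.2) := dd_cont6999
  have c2 : Continuous (fun p : ℝ × ℝ => dd (th - p.1) p.2) :=
    dd_cont6999.comp (f := fun p : ℝ × ℝ => (th - p.1, p.2)) (by fun_prop)
  have c3 : Continuous (fun p : ℝ × ℝ => dd p.1 (th - p.2)) :=
    dd_cont6999.comp (f := fun p : ℝ × ℝ => (p.1, th - p.2)) (by fun_prop)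
  have c4 : Continuous (fun p : ℝ × ℝ => dd (th - p.1) (th - p.2)) :=
    dd_cont6999.comp (f := fun p : ℝ × ℝ => (th - p.1, th - p.2)) (by fun_prop)
  fun_prop

theorem continuous_dK (j : Fin 3) : Continuous (fun p : (Fin 3 × ℝ) × ℝ => dK p.1 j p.2) := by
  unfold dK
  have hcl : ∀ i : Fin 3, IsClopen {p : (Fin 3 × ℝ) × ℝ | p.1.1 = i} := by
    intro i
    have h1 : IsClopen ({i} : Set (Fin 3)) := isClopen_discrete _
    exact h1.preimage (f := fun p : (Fin 3 × ℝ) × ℝ => p.1.1) (by fun_prop)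
  have c2 : Continuous (fun p : (Fin 3 × ℝ) × ℝ => dd (th - p.1.2) p.2) :=
    dd_cont6999.comp (f := fun p : (Fin 3 × ℝ) × ℝ => (th - p.1.2, p.2)) (by fun_prop)
  have c3 : Continuous (fun p : (Fin 3 × ℝ) × ℝ => dd p.1.2 (th - p.2)) :=
    dd_cont6999.comp (f := fun p : (Fin 3 × ℝ) × ℝ => (p.1.2, th - p.2)) (by fun_prop)
  apply Continuous.if
  · intro a ha
    rw [(hcl j).frontier_eq] at ha
    exact absurd ha (Set.notMem_empty _)
  · fun_prop
  · apply Continuous.if
    · intro a ha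
      rw [(hcl (j + 1)).frontier_eq] at ha
      exact absurd ha (Set.notMem_empty _)
    · exact c3
    · exact c2

theorem measurable_K1 (r : ℝ) : Measurable (fun s => K1 s r) := by
  unfold K1
  have m1 : Measurable (fun s : ℝ => de s r) :=
    measurable_de6999.comp (g := fun p : ℝ × ℝ => de p.1 p.2) (f := fun s : ℝ => (s, r)) (by fun_prop)
  have m2 : Measurable (fun s : ℝ => de (th - s) r) :=
    measurable_de6999.comp (g := fun p : ℝ × ℝ => de p.1 p.2) (f := fun s : ℝ => (th - s, r)) (by fun_prop)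
  have m3 : Measurable (fun s : ℝ => de s (th - r)) :=
    measurable_de6999.comp (g := fun p : ℝ × ℝ => de p.1 p.2) (f := fun s : ℝ => (s, th - r)) (by fun_prop)
  have m4 : Measurable (fun s : ℝ => de (th - s) (th - r)) :=
    measurable_de6999.comp (g := fun p : ℝ × ℝ => de p.1 p.2) (f := fun s : ℝ => (th - s, th - r)) (by fun_prop)
  have m5 : Measurable (fun s : ℝ => Real.sign (r - s)) :=
    measurable_sign6999.comp (by fun_prop)
  have m6 : Measurable (fun s : ℝ => Real.sign (r - (th - s))) :=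
    measurable_sign6999.comp (by fun_prop)
  fun_prop

theorem measurable_eK (j : Fin 3) (r : ℝ) : Measurable (fun x : Fin 3 × ℝ => eK x j r) := by
  unfold eK
  have m2 : Measurable (fun x : Fin 3 × ℝ => de (th - x.2) r) :=
    measurable_de6999.comp (g := fun p : ℝ × ℝ => de p.1 p.2)
      (f := fun x : Fin 3 × ℝ => (th - x.2, r)) (by fun_prop)
  have m3 : Measurable (fun x : Fin 3 × ℝ => de x.2 (th - r)) :=
    measurable_de6999.comp (g := fun p : ℝ × ℝ => de p.1 p.2)
      (f := fun x : Fin 3 × ℝ => (x.2, th - r)) (by fun_prop)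
  have m5 : Measurable (fun x : Fin 3 × ℝ => Real.sign (r - x.2)) :=
    measurable_sign6999.comp (by fun_prop)
  have hset : ∀ i : Fin 3, MeasurableSet {x : Fin 3 × ℝ | x.1 = i} := fun i =>
    measurable_fst (measurableSet_singleton i)
  apply Measurable.ite (hset j)
  · fun_prop
  · apply Measurable.ite (hset (j + 1))
    · exact m3.neg
    · exact m2

theorem abs_K1_le {s r : ℝ} (hs : s ∈ Set.Icc 0 th) (hr : r ∈ Set.Icc 0 th) : |K1 s r| ≤ 1 := by
  unfold K1
  have h1 := abs_le.1 (abs_sign_cos6999 (r - s) ((r - s) / 2))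
  have h2 := abs_le.1 (abs_sign_cos6999 (r - (th - s)) ((r - (th - s)) / 2))
  have h3 := abs_le.1 (abs_de_le6999 s r)
  have h4 := abs_le.1 (abs_de_le6999 (th - s) r)
  have h5 := abs_le.1 (abs_de_le6999 s (th - r))
  have h6 := abs_le.1 (abs_de_le6999 (th - s) (th - r))
  rw [abs_le]
  constructor <;> linarith [h1.1, h1.2, h2.1, h2.2, h3.1, h3.2, h4.1, h4.2, h5.1, h5.2, h6.1, h6.2]

theorem abs_eK_le {x : Fin 3 × ℝ} {j : Fin 3} {r : ℝ} (hx : x.2 ∈ Set.Icc 0 th)
    (hr : r ∈ Set.Icc 0 th) : |eK x j r| ≤ 1 := by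
  unfold eK
  split_ifs
  · exact abs_sign_cos6999 _ _
  · rw [abs_neg]; exact abs_de_le6999 _ _
  · exact abs_de_le6999 _ _

theorem K_nonneg (s r : ℝ) : 0 ≤ K s r := by
  unfold K
  have h1 := dd_nonneg6999 s r
  have h2 := dd_nonneg6999 (th - s) r
  have h3 := dd_nonneg6999 s (th - r)
  have h4 := dd_nonneg6999 (th - s) (th - r)
  positivity

theorem K_le (s r : ℝ) : K s r ≤ 4 := by
  unfold K
  have h1 := dd_le6999 s r
  have h2 := dd_le6999 (th - s) r
  have h3 := dd_le6999 s (th - r)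
  have h4 := dd_le6999 (th - s) (th - r)
  have h5 := Real.abs_sin_le_one ((r - s) / 2)
  have h6 := Real.abs_sin_le_one ((r - (th - s)) / 2)
  linarith

theorem continuousOn_PK : ContinuousOn (fun p : ℝ × ℝ => PK p.1 p.2)
    (Set.Icc 0 th ×ˢ Set.Ioo 0 th) := by
  apply PK_cont6999
  rintro ⟨s, t⟩ ⟨⟨h1, h2⟩, ⟨h3, h4⟩⟩
  simp only at h1 h2 h3 h4 ⊢
  refine ⟨?_, ?_, ?_, ?_⟩ <;> apply DD_pos6999 <;> linarith

/-- if all sources are away from the vertices, `PK` is continuous up to the vertices -/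
theorem continuousOn_PK' : ContinuousOn (fun p : ℝ × ℝ => PK p.1 p.2)
    (Set.Ioo 0 th ×ˢ Set.Icc 0 th) := by
  apply PK_cont6999
  rintro ⟨s, t⟩ ⟨⟨h1, h2⟩, ⟨h3, h4⟩⟩
  simp only at h1 h2 h3 h4 ⊢
  refine ⟨?_, ?_, ?_, ?_⟩ <;> rw [DD_symm6999] <;> apply DD_pos6999 <;> linarith

end Pool.Agent.Helper342.RV.K1f
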