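import Pool.Agent.Helper342.RV.Defs

namespace Pool.Agent.Helper342.RV.K2

open Real

















theorem th_pos : 0 < th := by unfold th; positivity

theorem th_lt : th < Real.pi := by unfold th; linarith [Real.pi_pos]

theorem own_eq {θ p q : ℝ} (hp1 : |p - θ| ≤ th) (hq1 : |q - θ| ≤ th)
    (h : (θ < p ∧ θ ≤ q) ∨ (p < θ ∧ q ≤ θ)) :
    2 * |sin ((q - θ) / 2)| = 2 * |sin ((p - θ) / 2)| * cos ((q - p) / 2)
      + 2 * (Real.sign (p - θ) * cos ((p - θ) / 2)) * sin ((q - p) / 2) := by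
  have hpi := Real.pi_pos
  have hth := th_lt
  have e : (q - θ) / 2 = (p - θ) / 2 + (q - p) / 2 := by ring
  rw [abs_le] at hp1 hq1
  rcases h with ⟨h1, h2⟩ | ⟨h1, h2⟩
  · have a1 : 0 ≤ sin ((q - θ) / 2) := sin_nonneg_of_nonneg_of_le_pi (by linarith) (by linarith)
    have a2 : 0 ≤ sin ((p - θ) / 2) := sin_nonneg_of_nonneg_of_le_pi (by linarith) (by linarith)
    rw [abs_of_nonneg a1, abs_of_nonneg a2, Real.sign_of_pos (by linarith), e, sin_add]
    ring
  · have a1 : sin ((q - θ) / 2) ≤ 0 := by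
      have := sin_nonneg_of_nonneg_of_le_pi (x := (θ - q) / 2) (by linarith) (by linarith)
      have e2 : (q - θ) / 2 = -((θ - q) / 2) := by ring
      rw [e2, sin_neg]; linarith
    have a2 : sin ((p - θ) / 2) ≤ 0 := by
      have := sin_nonneg_of_nonneg_of_le_pi (x := (θ - p) / 2) (by linarith) (by linarith)
      have e2 : (p - θ) / 2 = -((θ - p) / 2) := by ring
      rw [e2, sin_neg]; linarith
    rw [abs_of_nonpos a1, abs_of_nonpos a2, Real.sign_of_neg (by linarith), e, sin_add]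
    ring

theorem own_lower {θ p q : ℝ} (hp1 : |p - θ| ≤ th) (hqp : |q - p| ≤ th) :
    2 * |sin ((p - θ) / 2)| * cos ((q - p) / 2)
      + 2 * (Real.sign (p - θ) * cos ((p - θ) / 2)) * sin ((q - p) / 2)
      + (if θ = p then 2 * sin (|q - p| / 2) else 0) ≤ 2 * |sin ((q - θ) / 2)| := by
  have hpi := Real.pi_pos
  have hth := th_lt
  have e : (q - θ) / 2 = (p - θ) / 2 + (q - p) / 2 := by ring
  rw [abs_le] at hp1
  rcases lt_trichotomy θ p with h | h | h
  · have a2 : 0 ≤ sin ((p - θ) / 2) := sin_nonneg_of_nonneg_of_le_pi (by linarith) (by linarith)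
    rw [if_neg (ne_of_lt h), abs_of_nonneg a2, Real.sign_of_pos (by linarith)]
    have := le_abs_self (sin ((q - θ) / 2))
    rw [e, sin_add] at this
    rw [e, sin_add]
    linarith
  · subst h
    rw [if_pos rfl]
    simp only [sub_self, zero_div, sin_zero, abs_zero, Real.sign_zero, mul_zero, zero_mul, zero_add]
    have h1 : 0 ≤ sin (|q - θ| / 2) :=
      sin_nonneg_of_nonneg_of_le_pi (by positivity) (by linarith)
    have h2 : |sin ((q - θ) / 2)| = sin (|q - θ| / 2) := by
      rcases le_total 0 (q - θ) with h3 | h3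
      · rw [abs_of_nonneg h3] at h1 ⊢
        rw [abs_of_nonneg h1]
      · rw [abs_of_nonpos h3] at h1 ⊢
        have e2 : -(q - θ) / 2 = -((q - θ) / 2) := by ring
        rw [e2, sin_neg] at h1 ⊢
        rw [abs_of_nonpos (by linarith)]
    rw [h2]
  · have a2 : sin ((p - θ) / 2) ≤ 0 := by
      have := sin_nonneg_of_nonneg_of_le_pi (x := (θ - p) / 2) (by linarith) (by linarith)
      have e2 : (p - θ) / 2 = -((θ - p) / 2) := by ring
      rw [e2, sin_neg]; linarith
    rw [if_neg (ne_of_gt h), abs_of_nonpos a2, Real.sign_of_neg (by linarith)]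
    have := neg_le_abs (sin ((q - θ) / 2))
    rw [e, sin_add] at this
    rw [e, sin_add]
    linarith

theorem own_lower' {θ p q : ℝ} (hp1 : |p - θ| ≤ th) (hqp : |q - p| ≤ th) :
    2 * |sin ((p - θ) / 2)| * cos ((q - p) / 2)
      + 2 * (Real.sign (p - θ) * cos ((p - θ) / 2)) * sin ((q - p) / 2) ≤ 2 * |sin ((q - θ) / 2)| := by
  have h := own_lower hp1 hqp
  have hpi := Real.pi_pos
  have hth := th_lt
  have h1 : 0 ≤ sin (|q - p| / 2) :=
      sin_nonneg_of_nonneg_of_le_pi (by positivity) (by linarith)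
  split_ifs at h <;> linarith

theorem abs_sub_le_th {a b : ℝ} (ha : a ∈ Set.Icc 0 th) (hb : b ∈ Set.Icc 0 th) : |a - b| ≤ th := by
  rw [abs_le]
  constructor <;> linarith [ha.1, ha.2, hb.1, hb.2]

theorem sub_mem {s : ℝ} (hs : s ∈ Set.Icc 0 th) : th - s ∈ Set.Icc 0 th :=
  ⟨by linarith [hs.2], by linarith [hs.1]⟩

theorem K_lower
    (dd_lower : ∀ u : ℝ, u ∈ Set.Icc 0 th → ∀ p q : ℝ,
      dd u p * cos ((q - p) / 2) + 2 * de u p * sin ((q - p) / 2) ≤ dd u q)
    {s p q : ℝ} (hs : s ∈ Set.Icc 0 th) (hp : p ∈ Set.Icc 0 th) (hq : q ∈ Set.Icc 0 th) :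
    K s p * cos ((q - p) / 2) + 2 * K1 s p * sin ((q - p) / 2)
      + (if s = p then sin (|q - p| / 2) / 3 else 0) ≤ K s q := by
  have hs' := sub_mem hs
  have o1 := own_lower (abs_sub_le_th hp hs) (abs_sub_le_th hq hp)
  have o2 := own_lower' (abs_sub_le_th hp hs') (abs_sub_le_th hq hp)
  have d1 := dd_lower s hs p q
  have d2 := dd_lower (th - s) hs' p q
  have d3 := dd_lower s hs (th - p) (th - q)
  have d4 := dd_lower (th - s) hs' (th - p) (th - q)
  have e : (th - q - (th - p)) / 2 = -((q - p) / 2) := by ring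
  rw [e, cos_neg, sin_neg] at d3 d4
  have e3 : (if s = p then sin (|q - p| / 2) / 3 else 0) = (if s = p then 2 * sin (|q - p| / 2) else 0) / 6 := by
    split_ifs <;> ring
  rw [e3]
  unfold K K1
  linarith

theorem kn_cont {u : ℝ} {S : Set ℝ} (h : ∀ t ∈ S, 0 < DD u t) : ContinuousOn (fun t => kn u t) S := by
  have hDD : Continuous (fun t => DD u t) := by unfold DD; fun_prop
  have hdd : Continuous (fun t => dd u t) := by unfold dd; exact hDD.sqrt
  unfold kn
  apply ContinuousOn.div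
  · exact continuousOn_const
  · exact (continuous_const.mul (hdd.pow 3)).continuousOn
  · intro t ht
    have : 0 < dd u t := Real.sqrt_pos.2 (h t ht)
    positivity

theorem main_green
    (dd_green : ∀ u p q : ℝ, (∀ t ∈ Set.uIcc p q, 0 < DD u t) →
      dd u q = dd u p * cos ((q - p) / 2) + 2 * de u p * sin ((q - p) / 2)
      + ∫ t in p..q, 2 * sin ((q - t) / 2) * kn u t)
    {s p q : ℝ}
    (h1 : ∀ t ∈ Set.uIcc p q, 0 < DD s t) (h2 : ∀ t ∈ Set.uIcc p q, 0 < DD (th - s) t)
    (h3 : ∀ t ∈ Set.uIcc p q, 0 < DD s (th - t)) (h4 : ∀ t ∈ Set.uIcc p q, 0 < DD (th - s) (th - t)) :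
    dd s q + dd (th - s) q + dd s (th - q) + dd (th - s) (th - q) =
      (dd s p + dd (th - s) p + dd s (th - p) + dd (th - s) (th - p)) * cos ((q - p) / 2)
      + 2 * (de s p + de (th - s) p - de s (th - p) - de (th - s) (th - p)) * sin ((q - p) / 2)
      + 6 * ∫ t in p..q, 2 * sin ((q - t) / 2) * PK s t := by
  have refl : ∀ u : ℝ, (∀ t ∈ Set.uIcc p q, 0 < DD u (th - t)) →
      dd u (th - q) = dd u (th - p) * cos ((q - p) / 2) - 2 * de u (th - p) * sin ((q - p) / 2)
      + ∫ t in p..q, 2 * sin ((q - t) / 2) * kn u (th - t) := by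
    intro u hu
    have hu' : ∀ t ∈ Set.uIcc (th - p) (th - q), 0 < DD u t := by
      intro t ht
      have : th - t ∈ Set.uIcc p q := by
        rw [Set.mem_uIcc] at ht ⊢
        rcases ht with ⟨a, b⟩ | ⟨a, b⟩
        · right; constructor <;> linarith
        · left; constructor <;> linarith
      have h := hu _ this
      rwa [sub_sub_cancel] at h
    have h := dd_green u (th - p) (th - q) hu'
    have e : (th - q - (th - p)) / 2 = -((q - p) / 2) := by ring
    rw [e, cos_neg, sin_neg] at h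
    have hI : (∫ t in (th - p)..(th - q), 2 * sin ((th - q - t) / 2) * kn u t) =
        ∫ t in p..q, 2 * sin ((q - t) / 2) * kn u (th - t) := by
      have h5 := intervalIntegral.integral_comp_sub_left (a := p) (b := q)
        (fun t => 2 * sin ((th - q - t) / 2) * kn u t) th
      rw [intervalIntegral.integral_symm, ← h5, ← intervalIntegral.integral_neg]
      apply intervalIntegral.integral_congr
      intro t _
      have e2 : (th - q - (th - t)) / 2 = -((q - t) / 2) := by ring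
      simp only [e2, sin_neg]
      ring
    rw [hI] at h
    rw [h]; ring
  have g1 := dd_green s p q h1
  have g2 := dd_green (th - s) p q h2
  have g3 := refl s h3
  have g4 := refl (th - s) h4
  have cs : Continuous (fun t : ℝ => 2 * sin ((q - t) / 2)) := by fun_prop
  have maps : ∀ S : Set ℝ, ContinuousOn (fun t : ℝ => th - t) S := fun S => by fun_prop
  have i1 : IntervalIntegrable (fun t => 2 * sin ((q - t) / 2) * kn s t) MeasureTheory.volume p q :=
    (cs.continuousOn.mul (kn_cont h1)).intervalIntegrable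
  have i2 : IntervalIntegrable (fun t => 2 * sin ((q - t) / 2) * kn (th - s) t) MeasureTheory.volume p q :=
    (cs.continuousOn.mul (kn_cont h2)).intervalIntegrable
  have i3 : IntervalIntegrable (fun t => 2 * sin ((q - t) / 2) * kn s (th - t)) MeasureTheory.volume p q := by
    apply ContinuousOn.intervalIntegrable
    apply cs.continuousOn.mul
    have := kn_cont (u := s) (S := (fun t : ℝ => th - t) '' Set.uIcc p q) (by
      rintro _ ⟨t, ht, rfl⟩; exact h3 t ht)
    exact this.comp (maps _) (Set.mapsTo_image _ _)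
  have i4 : IntervalIntegrable (fun t => 2 * sin ((q - t) / 2) * kn (th - s) (th - t)) MeasureTheory.volume p q := by
    apply ContinuousOn.intervalIntegrable
    apply cs.continuousOn.mul
    have := kn_cont (u := th - s) (S := (fun t : ℝ => th - t) '' Set.uIcc p q) (by
      rintro _ ⟨t, ht, rfl⟩; exact h4 t ht)
    exact this.comp (maps _) (Set.mapsTo_image _ _)
  have hsum : 6 * (∫ t in p..q, 2 * sin ((q - t) / 2) * PK s t) =
      (((∫ t in p..q, 2 * sin ((q - t) / 2) * kn s t) + ∫ t in p..q, 2 * sin ((q - t) / 2) * kn (th - s) t)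
      + ∫ t in p..q, 2 * sin ((q - t) / 2) * kn s (th - t))
      + ∫ t in p..q, 2 * sin ((q - t) / 2) * kn (th - s) (th - t) := by
    rw [← intervalIntegral.integral_add i1 i2, ← intervalIntegral.integral_add (i1.add i2) i3,
      ← intervalIntegral.integral_add ((i1.add i2).add i3) i4, ← intervalIntegral.integral_const_mul]
    apply intervalIntegral.integral_congr
    intro t _
    simp only [PK, Pi.add_apply]
    ring
  rw [hsum, g1, g2, g3, g4]
  ring

theorem mem_pos {p q t : ℝ} (hp : p ∈ Set.Ioo 0 th) (hq : q ∈ Set.Ioo 0 th) (ht : t ∈ Set.uIcc p q) :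
    t ∈ Set.Ioo 0 th := by
  rw [Set.mem_uIcc] at ht
  rcases ht with ⟨a, b⟩ | ⟨a, b⟩
  · exact ⟨by linarith [hp.1], by linarith [hq.2]⟩
  · exact ⟨by linarith [hq.1], by linarith [hp.2]⟩

/-- exact Green identity when the own side images of the source are outside of `[p,q]` -/
theorem K_green
    (DD_pos : ∀ u w : ℝ, u ∈ Set.Icc 0 th → w ∈ Set.Icc 0 th → (0 < u ∨ 0 < w) → 0 < DD u w)
    (dd_green : ∀ u p q : ℝ, (∀ t ∈ Set.uIcc p q, 0 < DD u t) →
      dd u q = dd u p * cos ((q - p) / 2) + 2 * de u p * sin ((q - p) / 2)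
      + ∫ t in p..q, 2 * sin ((q - t) / 2) * kn u t)
    {s p q : ℝ} (hs : s ∈ Set.Icc 0 th) (hp : p ∈ Set.Ioo 0 th) (hq : q ∈ Set.Ioo 0 th)
    (h1 : s ∉ Set.uIcc p q) (h2 : th - s ∉ Set.uIcc p q) :
    K s q = K s p * cos ((q - p) / 2) + 2 * K1 s p * sin ((q - p) / 2)
      + ∫ t in p..q, 2 * sin ((q - t) / 2) * PK s t := by
  have hs' := sub_mem hs
  have hp' : p ∈ Set.Icc 0 th := ⟨hp.1.le, hp.2.le⟩
  have hq' : q ∈ Set.Icc 0 th := ⟨hq.1.le, hq.2.le⟩
  have key : ∀ θ : ℝ, θ ∉ Set.uIcc p q → (θ < p ∧ θ ≤ q) ∨ (p < θ ∧ q ≤ θ) := by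
    intro θ hθ
    rw [Set.mem_uIcc] at hθ
    push Not at hθ
    rcases lt_trichotomy θ p with h | h | h
    · left
      refine ⟨h, ?_⟩
      by_contra h5
      push Not at h5
      exact absurd (hθ.2 h5.le) (not_lt.2 h.le)
    · exfalso
      rcases le_total p q with h5 | h5
      · exact absurd (hθ.1 h.symm.le) (not_lt.2 (h.trans_le h5))
      · exact absurd (hθ.2 (h5.trans h.symm.le)) (not_lt.2 h.le)
    · right
      exact ⟨h, (hθ.1 h.le).le⟩
  have o1 := own_eq (abs_sub_le_th hp' hs) (abs_sub_le_th hq' hs) (key s h1)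
  have o2 := own_eq (abs_sub_le_th hp' hs') (abs_sub_le_th hq' hs') (key _ h2)
  have hm := main_green dd_green (s := s) (p := p) (q := q)
    (fun t ht => DD_pos s t hs ⟨(mem_pos hp hq ht).1.le, (mem_pos hp hq ht).2.le⟩ (Or.inr (mem_pos hp hq ht).1))
    (fun t ht => DD_pos _ t hs' ⟨(mem_pos hp hq ht).1.le, (mem_pos hp hq ht).2.le⟩ (Or.inr (mem_pos hp hq ht).1))
    (fun t ht => DD_pos s _ hs (sub_mem ⟨(mem_pos hp hq ht).1.le, (mem_pos hp hq ht).2.le⟩)
      (Or.inr (by linarith [(mem_pos hp hq ht).2])))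
    (fun t ht => DD_pos _ _ hs' (sub_mem ⟨(mem_pos hp hq ht).1.le, (mem_pos hp hq ht).2.le⟩)
      (Or.inr (by linarith [(mem_pos hp hq ht).2])))
  unfold K K1
  linarith

/-- Green inequality (own side masses between `p` and `q` dropped) -/
theorem K_green_ge
    (DD_pos : ∀ u w : ℝ, u ∈ Set.Icc 0 th → w ∈ Set.Icc 0 th → (0 < u ∨ 0 < w) → 0 < DD u w)
    (dd_green : ∀ u p q : ℝ, (∀ t ∈ Set.uIcc p q, 0 < DD u t) →
      dd u q = dd u p * cos ((q - p) / 2) + 2 * de u p * sin ((q - p) / 2)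
      + ∫ t in p..q, 2 * sin ((q - t) / 2) * kn u t)
    {s p q : ℝ} (hs : s ∈ Set.Icc 0 th) (hp : p ∈ Set.Ioo 0 th) (hq : q ∈ Set.Ioo 0 th) :
    K s p * cos ((q - p) / 2) + 2 * K1 s p * sin ((q - p) / 2)
      + (∫ t in p..q, 2 * sin ((q - t) / 2) * PK s t) ≤ K s q := by
  have hs' := sub_mem hs
  have hp' : p ∈ Set.Icc 0 th := ⟨hp.1.le, hp.2.le⟩
  have hq' : q ∈ Set.Icc 0 th := ⟨hq.1.le, hq.2.le⟩
  have o1 := own_lower' (abs_sub_le_th hp' hs) (abs_sub_le_th hq' hp')
  have o2 := own_lower' (abs_sub_le_th hp' hs') (abs_sub_le_th hq' hp')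
  have hm := main_green dd_green (s := s) (p := p) (q := q)
    (fun t ht => DD_pos s t hs ⟨(mem_pos hp hq ht).1.le, (mem_pos hp hq ht).2.le⟩ (Or.inr (mem_pos hp hq ht).1))
    (fun t ht => DD_pos _ t hs' ⟨(mem_pos hp hq ht).1.le, (mem_pos hp hq ht).2.le⟩ (Or.inr (mem_pos hp hq ht).1))
    (fun t ht => DD_pos s _ hs (sub_mem ⟨(mem_pos hp hq ht).1.le, (mem_pos hp hq ht).2.le⟩)
      (Or.inr (by linarith [(mem_pos hp hq ht).2])))
    (fun t ht => DD_pos _ _ hs' (sub_mem ⟨(mem_pos hp hq ht).1.le, (mem_pos hp hq ht).2.le⟩)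
      (Or.inr (by linarith [(mem_pos hp hq ht).2])))
  unfold K K1
  linarith

/-- Green identity between `s0` and the vertex for a source in `(0, th)`; the own side image
nearer to the vertex than `s0` contributes the extra term -/
theorem K_green_vertex
    (DD_pos : ∀ u w : ℝ, u ∈ Set.Icc 0 th → w ∈ Set.Icc 0 th → (0 < u ∨ 0 < w) → 0 < DD u w)
    (dd_green : ∀ u p q : ℝ, (∀ t ∈ Set.uIcc p q, 0 < DD u t) →
      dd u q = dd u p * cos ((q - p) / 2) + 2 * de u p * sin ((q - p) / 2)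
      + ∫ t in p..q, 2 * sin ((q - t) / 2) * kn u t)
    {s s0 : ℝ} (hs : 0 < s) (hs2 : s ≤ th / 2) (h0 : 0 < s0) (h1 : s0 < th / 2) (hne : s ≠ s0) :
    K s 0 = K s s0 * cos (s0 / 2) - 2 * K1 s s0 * sin (s0 / 2)
      + (if s < s0 then (2 / 3) * sin (s / 2) else 0)
      + ∫ t in (0 : ℝ)..s0, 2 * sin (t / 2) * PK s t := by
  have hth := th_pos
  have hsm : s ∈ Set.Icc 0 th := ⟨hs.le, by linarith⟩
  have hs' := sub_mem hsm
  have hp' : s0 ∈ Set.Icc 0 th := ⟨h0.le, by linarith⟩
  have hq' : (0 : ℝ) ∈ Set.Icc 0 th := ⟨le_refl _, hth.le⟩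
  have ht : ∀ t ∈ Set.uIcc s0 0, t ∈ Set.Icc 0 th := by
    intro t ht
    rw [Set.uIcc_of_ge h0.le] at ht
    exact ⟨ht.1, by linarith [ht.2]⟩
  have hm := main_green dd_green (s := s) (p := s0) (q := 0)
    (fun t h => DD_pos s t hsm (ht t h) (Or.inl hs))
    (fun t h => DD_pos _ t hs' (ht t h) (Or.inl (by linarith)))
    (fun t h => DD_pos s _ hsm (sub_mem (ht t h)) (Or.inl hs))
    (fun t h => DD_pos _ _ hs' (sub_mem (ht t h)) (Or.inl (by linarith)))
  have o2 := own_eq (θ := th - s) (p := s0) (q := 0) (abs_sub_le_th hp' hs') (abs_sub_le_th hq' hs')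
    (Or.inr ⟨by linarith, by linarith⟩)
  have hI : (∫ t in s0..0, 2 * sin ((0 - t) / 2) * PK s t) = ∫ t in (0 : ℝ)..s0, 2 * sin (t / 2) * PK s t := by
    rw [intervalIntegral.integral_symm, ← intervalIntegral.integral_neg]
    apply intervalIntegral.integral_congr
    intro t _
    have e2 : (0 - t) / 2 = -(t / 2) := by ring
    simp only [e2, sin_neg]
    ring
  rw [hI] at hm
  have ec : (0 - s0) / 2 = -(s0 / 2) := by ring
  rw [ec, cos_neg, sin_neg] at hm o2
  have o1 : 2 * |sin ((0 - s) / 2)| = 2 * |sin ((s0 - s) / 2)| * cos (s0 / 2)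
      + 2 * (Real.sign (s0 - s) * cos ((s0 - s) / 2)) * (-sin (s0 / 2))
      + (if s < s0 then 4 * sin (s / 2) else 0) := by
    rcases lt_or_gt_of_ne hne with h | h
    · rw [if_pos h]
      have hpi := Real.pi_pos
      have hthl := th_lt
      have a1 : 0 ≤ sin ((s0 - s) / 2) := sin_nonneg_of_nonneg_of_le_pi (by linarith) (by linarith)
      have a2 : 0 ≤ sin (s / 2) := sin_nonneg_of_nonneg_of_le_pi (by linarith) (by linarith)
      have e3 : (0 - s) / 2 = -(s / 2) := by ring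
      rw [e3, sin_neg, abs_neg, abs_of_nonneg a2, abs_of_nonneg a1, Real.sign_of_pos (by linarith)]
      have e4 : sin (s / 2) = sin (s0 / 2) * cos ((s0 - s) / 2) - cos (s0 / 2) * sin ((s0 - s) / 2) := by
        rw [← sin_sub]; congr 1; ring
      linarith
    · rw [if_neg (not_lt.2 h.le)]
      have := own_eq (θ := s) (p := s0) (q := 0) (abs_sub_le_th hp' hsm) (abs_sub_le_th hq' hsm)
        (Or.inr ⟨h, hs.le⟩)
      rw [ec, cos_neg, sin_neg] at this
      rw [this]; ring
  have e5 : (if s < s0 then (2 / 3) * sin (s / 2) else 0) = (if s < s0 then 4 * sin (s / 2) else 0) / 6 := by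
    split_ifs <;> ring
  rw [e5]
  unfold K K1
  linarith

end Pool.Agent.Helper342.RV.K2
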