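import Pool.Agent.Helper342.RV.A
import Pool.Agent.Helper342.RV.B
import Pool.Agent.Helper342.RV.C
import Pool.Agent.Helper342.RV.D1
import Pool.Agent.Helper342.RV.D2
import Pool.Agent.Helper342.RV.D3
import Pool.Agent.Helper342.RV.E1
import Pool.Agent.Helper342.RV.K1f

/-! Monotonicity of `PK s ·` and of `K s ·`. -/

namespace Pool.Agent.Helper342.RV

open Real Set

theorem th_pos : 0 < th := by unfold th; positivity

theorem K1_neg {s g : ℝ} (hg : 0 < g) (h : g < s) (hs : s ≤ th / 2) : K1 s g ≤ -(3 / 10) :=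
  C.K1_neg (fun _ _ hu h1 h2 h3 => B.de_ge_cos hu h1 h2 h3)
    (fun _ _ hu h0 h1 h2 => B.de_le_cos hu h0 h1 h2) hg h hs

theorem K1_pos {s g : ℝ} (hs : 0 ≤ s) (h : s < g) (hg : g ≤ th / 2) : K1 s g ≤ 1 / 20 :=
  C.K1_pos (fun _ _ hu h1 h2 h3 => B.de_ge_cos hu h1 h2 h3) B.de_num B.DD_eq
    (fun _ _ hu hw h => B.DD_pos hu hw h) hs h hg

/-- lower bound constant of the near part -/
noncomputable def GG (s : ℝ) : ℝ := (2 * cos (th - s) - 1) ^ 2 / 8 * ((cos s - 1 / 2) *
        (4 * (2 * sin ((th - s) / 2)) * DD s (th / 2)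
        - ((2 * cos (th - s) - 1) ^ 2 - 4 * sin (s / 2) ^ 2) / (2 * sin ((th - s) / 2)))
      / DD s (th / 2) ^ 4)

/-- upper bound constant of the far part -/
noncomputable def FF (s : ℝ) : ℝ := (2 * cos s - 1) ^ 2 / 4 * (2 * sin (s / 2)) * cos (th - s / 2)
          / dd (th - s) (th / 2) ^ 5

theorem th_le : th ≤ 105 / 100 := by
  have h1 := Real.pi_lt_d2
  norm_num at h1
  unfold th; linarith

theorem GG_nonneg {s : ℝ} (hs : 0 ≤ s) (hs2 : s ≤ th / 2) : 0 ≤ GG s := by
  have h53 : s ≤ 53 / 100 := by have := th_le; linarith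
  have key : ∀ g : ℝ, 0 ≤ g → g * s ^ 2 ≤ (954 / 1000) * GG s → 0 ≤ GG s := by
    intro g hg h
    have : 0 ≤ g * s ^ 2 := by positivity
    linarith
  rcases le_or_gt s (5 / 100) with h1 | h1
  · exact key 27 (by norm_num) (D3.Gpiece (s := s) (a := 0) (b := 5 / 100) (g := 27) le_rfl hs h1 (by norm_num) (by norm_num)
      (by norm_num) (by norm_num))
  rcases le_or_gt s (1 / 10) with h2 | h2
  · exact key 21 (by norm_num) (D3.Gpiece (s := s) (a := 5 / 100) (b := 1 / 10) (g := 21) (by norm_num) h1.le h2 (by norm_num) (by norm_num)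
      (by norm_num) (by norm_num))
  rcases le_or_gt s (2 / 10) with h3 | h3
  · exact key 10 (by norm_num) (D3.Gpiece (s := s) (a := 1 / 10) (b := 2 / 10) (g := 10) (by norm_num) h2.le h3 (by norm_num) (by norm_num)
      (by norm_num) (by norm_num))
  rcases le_or_gt s (3 / 10) with h4 | h4
  · exact key (45 / 10) (by norm_num) (D3.Gpiece (s := s) (a := 2 / 10) (b := 3 / 10) (g := 45 / 10) (by norm_num) h3.le h4 (by norm_num) (by norm_num)
      (by norm_num) (by norm_num))
  rcases le_or_gt s (35 / 100) with h5 | h5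
  · exact key 3 (by norm_num) (D3.Gpiece (s := s) (a := 3 / 10) (b := 35 / 100) (g := 3) (by norm_num) h4.le h5 (by norm_num) (by norm_num)
      (by norm_num) (by norm_num))
  rcases le_or_gt s (4 / 10) with h6 | h6
  · exact key (202 / 100) (by norm_num) (D3.Gpiece (s := s) (a := 35 / 100) (b := 4 / 10) (g := 202 / 100) (by norm_num) h5.le h6 (by norm_num) (by norm_num)
      (by norm_num) (by norm_num))
  rcases le_or_gt s (45 / 100) with h7 | h7
  · exact key 1 (by norm_num) (D3.Gpiece (s := s) (a := 4 / 10) (b := 45 / 100) (g := 1) (by norm_num) h6.le h7 (by norm_num) (by norm_num)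
      (by norm_num) (by norm_num))
  · exact key (44 / 100) (by norm_num) (D3.Gpiece (s := s) (a := 45 / 100) (b := 53 / 100) (g := 44 / 100) (by norm_num) h7.le h53 (by norm_num) (by norm_num)
      (by norm_num) (by norm_num))

theorem FF_nonneg {s : ℝ} (hs : 0 ≤ s) (hs2 : s ≤ th / 2) : 0 ≤ FF s := by
  unfold FF
  have hpi := Real.pi_pos
  have h1 : 0 ≤ sin (s / 2) := Real.sin_nonneg_of_nonneg_of_le_pi (by linarith)
    (by have := th_le; have := Real.pi_gt_three; linarith)
  have h2 : 0 ≤ cos (th - s / 2) := by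
    apply Real.cos_nonneg_of_mem_Icc
    constructor
    · have := th_pos; linarith
    · unfold th; linarith
  have h3 : 0 ≤ dd (th - s) (th / 2) := Real.sqrt_nonneg _
  positivity

/-- `sin x ≥ 0.954 x` on `[0, π/6]` -/
theorem sin_ge_954 {x : ℝ} (h0 : 0 ≤ x) (h1 : x ≤ th / 2) : (954 / 1000) * x ≤ sin x := by
  have h2 := Real.sin_ge_sub_cube h0
  have h3 := th_le
  have h4 : x ≤ 525 / 1000 := by linarith
  have h5 : x ^ 2 ≤ (525 / 1000) ^ 2 := pow_le_pow_left₀ h0 h4 2
  have h6 : x ^ 3 / 6 ≤ (46 / 1000) * x := by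
    have : x ^ 3 = x * x ^ 2 := by ring
    rw [this]
    nlinarith
  linarith

/-- the `t`-derivative of `PK s t` -/
noncomputable def dPK (s t : ℝ) : ℝ :=
  -(1 / 8) * ((2 * cos (th - s) - 1) ^ 2 * (de s t / DD s t ^ 2 - de s (th - t) / DD s (th - t) ^ 2)
    + (2 * cos s - 1) ^ 2 * (de (th - s) t / DD (th - s) t ^ 2
      - de (th - s) (th - t) / DD (th - s) (th - t) ^ 2))

theorem hasDerivAt_PK {s t : ℝ} (hs : s ∈ Icc 0 th) (ht : t ∈ Ioo 0 th) :
    HasDerivAt (PK s) (dPK s t) t := by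
  have hs' : th - s ∈ Icc 0 th := ⟨by linarith [hs.2], by linarith [hs.1]⟩
  have ht0 : t ∈ Icc 0 th := ⟨ht.1.le, ht.2.le⟩
  have ht' : th - t ∈ Icc 0 th := ⟨by linarith [ht.2], by linarith [ht.1]⟩
  have e1 := A.hasDerivAt_kn (B.DD_pos hs ht0 (Or.inr ht.1))
  have e2 := A.hasDerivAt_kn (B.DD_pos hs' ht0 (Or.inr ht.1))
  have hin : HasDerivAt (fun t : ℝ => th - t) (-1) t := by
    simpa using (hasDerivAt_id t).const_sub th
  have e3 := (A.hasDerivAt_kn (B.DD_pos hs ht' (Or.inr (by linarith [ht.2])))).comp t hin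
  have e4 := (A.hasDerivAt_kn (B.DD_pos hs' ht' (Or.inr (by linarith [ht.2])))).comp t hin
  have e := (((e1.add e2).add e3).add e4).div_const 6
  have hf : PK s = fun t => (kn s t + kn (th - s) t + (kn s ∘ fun t => th - t) t
      + (kn (th - s) ∘ fun t => th - t) t) / 6 := by
    funext t; rfl
  rw [hf]
  refine e.congr_deriv ?_
  unfold dPK
  rw [show th - (th - s) = s by ring]
  ring

theorem dPK_le {s t : ℝ} (hs : s ∈ Icc 0 (th / 2)) (ht : 0 < t) (ht2 : t ≤ th / 2) :
    dPK s t ≤ -(1 / 4) * ((K 0 (th / 2) - K s (th / 2)) - 37 / 10000) * (th / 2 - t) := by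
  have hth := th_pos
  have hδ0 : 0 ≤ th / 2 - t := by linarith
  have hδ1 : th / 2 - t ≤ th / 2 := by linarith
  have hsin1 := sin_ge_954 hδ0 hδ1
  have hsin2 : sin (th / 2 - t) ≤ th / 2 - t := Real.sin_le hδ0
  rcases eq_or_lt_of_le hs.1 with h0 | h0
  · -- s = 0
    rw [← h0]
    have e : dPK 0 t = 0 := by
      have h1 := hasDerivAt_PK (s := 0) (t := t) ⟨le_rfl, hth.le⟩ ⟨ht, by linarith⟩
      have h2 : PK 0 = fun _ => (1 / 12 : ℝ) := funext K1f.PK_zero
      rw [h2] at h1
      exact h1.unique (hasDerivAt_const t _)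
    rw [e]
    nlinarith
  · have hnear := D1.near_bound B.de_num B.DD_eq (fun _ _ hu hw h => B.DD_pos hu hw h)
      (fun _ _ hu ht h => B.de_ge_half hu ht h) h0 hs.2 ht ht2
    have hN0 : 0 ≤ (2 * cos (th - s) - 1) ^ 2 := sq_nonneg _
    have hN1 : 0 ≤ (2 * cos s - 1) ^ 2 := sq_nonneg _
    have hG0 := GG_nonneg hs.1 hs.2
    have hF0 := FF_nonneg hs.1 hs.2
    have hnear' : sin (th / 2 - t) * GG s ≤ (1 / 8) * ((2 * cos (th - s) - 1) ^ 2 *
        (de s t / DD s t ^ 2 - de s (th - t) / DD s (th - t) ^ 2)) := by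
      have := mul_le_mul_of_nonneg_left hnear hN0
      have e : sin (th / 2 - t) * GG s = (1 / 8) * ((2 * cos (th - s) - 1) ^ 2 *
          ((cos s - 1 / 2) * sin (th / 2 - t) *
          (4 * (2 * sin ((th - s) / 2)) * DD s (th / 2)
            - ((2 * cos (th - s) - 1) ^ 2 - 4 * sin (s / 2) ^ 2) / (2 * sin ((th - s) / 2)))
          / DD s (th / 2) ^ 4)) := by
        unfold GG; ring
      rw [e]
      linarith
    have hnear2 : (954 / 1000) * GG s * (th / 2 - t) ≤ sin (th / 2 - t) * GG s := by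
      have := mul_le_mul_of_nonneg_right hsin1 hG0
      linarith
    rcases le_or_gt s (2 / 5) with h25 | h25
    · have hfar := D2.far_bound1 B.de_num B.DD_eq (fun _ _ hu hw h => B.DD_pos hu hw h)
        hs.1 hs.2 ht ht2
      have hfar' : -(sin (th / 2 - t) * FF s) ≤ (1 / 8) * ((2 * cos s - 1) ^ 2 *
          (de (th - s) t / DD (th - s) t ^ 2
            - de (th - s) (th - t) / DD (th - s) (th - t) ^ 2)) := by
        have := mul_le_mul_of_nonneg_left hfar hN1
        have e : -(sin (th / 2 - t) * FF s) = (1 / 8) * ((2 * cos s - 1) ^ 2 *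
          (-(2 * (2 * sin (s / 2)) * cos (th - s / 2) * sin (th / 2 - t))
            / dd (th - s) (th / 2) ^ 5)) := by
          unfold FF; ring
        rw [e]
        linarith
      have hfar2 : sin (th / 2 - t) * FF s ≤ FF s * (th / 2 - t) := by
        have := mul_le_mul_of_nonneg_right hsin2 hF0
        linarith
      have hnum := D3.numG1 h0 h25
      have hnum' : (1 / 4) * ((K 0 (th / 2) - K s (th / 2)) - 37 / 10000)
          ≤ (954 / 1000) * GG s - FF s := hnum
      have h3 := mul_le_mul_of_nonneg_right hnum' hδ0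
      unfold dPK
      linarith
    · have hfar := D2.far_bound2 B.de_num B.DD_eq (fun _ _ hu hw h => B.DD_pos hu hw h)
        (fun _ _ hu ht h => B.de_ge_half hu ht h) h25.le hs.2 ht ht2
      have hfar' : 0 ≤ (1 / 8) * ((2 * cos s - 1) ^ 2 *
          (de (th - s) t / DD (th - s) t ^ 2
            - de (th - s) (th - t) / DD (th - s) (th - t) ^ 2)) := by
        have := mul_nonneg hN1 hfar
        linarith
      have hnum := D3.numG2 h25.le hs.2
      have hnum' : (1 / 4) * ((K 0 (th / 2) - K s (th / 2)) - 37 / 10000)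
          ≤ (954 / 1000) * GG s := hnum
      have h3 := mul_le_mul_of_nonneg_right hnum' hδ0
      unfold dPK
      linarith

theorem PK_mono {s t1 t2 : ℝ} (hs : s ∈ Icc 0 (th / 2)) (h0 : 0 < t1) (h1 : t1 ≤ t2)
    (h2 : t2 ≤ th / 2) :
    (1 / 4) * ((K 0 (th / 2) - K s (th / 2)) - 37 / 10000)
        * ((th / 2 - t1) ^ 2 - (th / 2 - t2) ^ 2) / 2 ≤ PK s t1 - PK s t2 := by
  have hth := th_pos
  set c := (K 0 (th / 2) - K s (th / 2)) - 37 / 10000 with hc
  let ψ : ℝ → ℝ := fun t => PK s t - (1 / 8) * c * (th / 2 - t) ^ 2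
  have hsI : s ∈ Icc 0 th := ⟨hs.1, by linarith [hs.2]⟩
  have hder : ∀ t ∈ Icc t1 t2, HasDerivAt ψ (dPK s t + (1 / 4) * c * (th / 2 - t)) t := by
    intro t ht
    have htI : t ∈ Ioo 0 th := ⟨by linarith [ht.1], by linarith [ht.2]⟩
    have e1 := hasDerivAt_PK hsI htI
    have e2 : HasDerivAt (fun t : ℝ => (1 / 8) * c * (th / 2 - t) ^ 2)
        ((1 / 8) * c * (2 * (th / 2 - t) * (-1))) t := by
      have h := ((hasDerivAt_id t).const_sub (th / 2)).pow 2
      have h' := h.const_mul ((1 / 8) * c)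
      refine h'.congr_deriv ?_
      simp
    refine (e1.sub e2).congr_deriv ?_
    ring
  have hanti : AntitoneOn ψ (Icc t1 t2) := by
    apply antitoneOn_of_deriv_nonpos (convex_Icc t1 t2)
    · intro t ht
      exact (hder t ht).continuousAt.continuousWithinAt
    · intro t ht
      exact (hder t (interior_subset ht)).differentiableAt.differentiableWithinAt
    · intro t ht
      have ht' := interior_subset ht
      rw [(hder t ht').deriv]
      have := dPK_le hs (t := t) (by linarith [ht'.1]) (by linarith [ht'.2])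
      rw [← hc] at this
      linarith
  have h3 := hanti (left_mem_Icc.2 h1) (right_mem_Icc.2 h1) h1
  simp only [ψ] at h3
  linarith

/-- the derivative of `K s ·` away from the own side images -/
theorem hasDerivAt_K {s r : ℝ} (hs : s ∈ Ioc 0 (th / 2)) (hr : 0 < r) (hr2 : r < s) :
    HasDerivAt (K s) (K1 s r) r := by
  have hth := th_pos
  have hsI : s ∈ Icc 0 th := ⟨hs.1.le, by linarith [hs.2]⟩
  have hs' : th - s ∈ Icc 0 th := ⟨by linarith [hsI.2], by linarith [hsI.1]⟩
  have hr0 : r ∈ Icc 0 th := ⟨hr.le, by linarith [hs.2]⟩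
  have hr' : th - r ∈ Icc 0 th := ⟨by linarith [hr0.2], by linarith [hr0.1]⟩
  have hpi := Real.pi_pos
  have own : ∀ θ : ℝ, r < θ → θ ≤ th → HasDerivAt (fun r : ℝ => 2 * |sin ((r - θ) / 2)|)
      (Real.sign (r - θ) * cos ((r - θ) / 2)) r := by
    intro θ h1 h2
    have e1 : HasDerivAt (fun r : ℝ => (r - θ) / 2) (1 / 2) r :=
      ((hasDerivAt_id r).sub_const θ).div_const 2
    have e2 := (e1.sin).const_mul (-2)
    have hsg : Real.sign (r - θ) = -1 := Real.sign_of_neg (by linarith)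
    have e3 : HasDerivAt (fun r : ℝ => 2 * |sin ((r - θ) / 2)|) (-2 * (cos ((r - θ) / 2) * (1 / 2))) r := by
      apply e2.congr_of_eventuallyEq
      have hnh : ∀ᶠ y in nhds r, y < θ ∧ -th < y := by
        have h5 : Ioo (-th) θ ∈ nhds r := Ioo_mem_nhds (by linarith) h1
        filter_upwards [h5] with y hy
        exact ⟨hy.2, hy.1⟩
      filter_upwards [hnh] with y hy
      have hneg : sin ((y - θ) / 2) ≤ 0 := by
        apply Real.sin_nonpos_of_nonpos_of_neg_pi_le
        · linarith [hy.1]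
        · have : th = Real.pi / 3 := rfl
          linarith [hy.2]
      rw [abs_of_nonpos hneg]
      ring
    refine e3.congr_deriv ?_
    rw [hsg]; ring
  have o1 := own s hr2 hsI.2
  have o2 := own (th - s) (by linarith [hs.2]) (by linarith [hs.1])
  have e1 := A.hasDerivAt_dd (B.DD_pos hsI hr0 (Or.inr hr))
  have e2 := A.hasDerivAt_dd (B.DD_pos hs' hr0 (Or.inr hr))
  have hin : HasDerivAt (fun t : ℝ => th - t) (-1) r := by
    simpa using (hasDerivAt_id r).const_sub th
  have e3 : HasDerivAt (fun t : ℝ => dd s (th - t)) (de s (th - r) * (-1)) r :=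
    (A.hasDerivAt_dd (B.DD_pos hsI hr' (Or.inl hs.1))).comp r hin
  have e4 : HasDerivAt (fun t : ℝ => dd (th - s) (th - t)) (de (th - s) (th - r) * (-1)) r :=
    (A.hasDerivAt_dd (B.DD_pos hs' hr' (Or.inl (by linarith [hs.2])))).comp r hin
  have o12 := o1.add o2
  have o123 := o12.add e1
  have o1234 := o123.add e2
  have o12345 := o1234.add e3
  have o := (o12345.add e4).div_const 6
  have hK1 : K1 s r = (Real.sign (r - s) * cos ((r - s) / 2)
      + Real.sign (r - (th - s)) * cos ((r - (th - s)) / 2) + de s r + de (th - s) r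
      + de s (th - r) * (-1) + de (th - s) (th - r) * (-1)) / 6 := by
    unfold K1
    ring
  rw [hK1]
  exact o

end Pool.Agent.Helper342.RV
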