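import Pool.Agent.Helper342.RV.L1

namespace Pool.Agent.Helper342.RV

open Real Set

theorem strictAnti_aux {f f' : ℝ → ℝ} {s : ℝ} (hc : Continuous f)
    (hd : ∀ x, 0 < x → x < s → HasDerivAt f (f' x) x) (hn : ∀ x, 0 < x → x < s → f' x < 0) :
    StrictAntiOn f (Icc 0 s) := by
  apply strictAntiOn_of_deriv_neg (convex_Icc 0 s) hc.continuousOn
  intro x hx
  rw [interior_Icc] at hx
  rw [(hd x hx.1 hx.2).deriv]
  exact hn x hx.1 hx.2

theorem continuous_K_right (s : ℝ) : Continuous (fun r : ℝ => K s r) := by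
  have hc1 : Continuous (fun r : ℝ => ((s, r) : ℝ × ℝ)) := by fun_prop
  have h := K1f.continuous_K.comp hc1
  simp only [Function.comp_def] at h
  exact h

theorem K_anti {s r q : ℝ} (hs : s ≤ th / 2) (hr : 0 ≤ r) (h : r < q) (hq : q ≤ s) :
    K s q < K s r := by
  have hspos : 0 < s := lt_of_le_of_lt hr (lt_of_lt_of_le h hq)
  have hs0 : s ∈ Ioc 0 (th / 2) := ⟨hspos, hs⟩
  have hc : Continuous (fun r : ℝ => K s r) := continuous_K_right s
  have hanti := strictAnti_aux (f := fun r => K s r) (f' := fun r => K1 s r) (s := s) hc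
    (fun x h1 h2 => hasDerivAt_K hs0 h1 h2)
    (fun x h1 h2 => lt_of_le_of_lt (K1_neg h1 h2 hs) (by norm_num))
  exact hanti ⟨hr, (h.le.trans hq)⟩ ⟨hr.trans h.le, hq⟩ h

end Pool.Agent.Helper342.RV
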