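import Pool.Agent.Helper342.Reul.NoConst
import Pool.Agent.Helper342.RV.L1b

namespace Pool.Agent.Helper342.RV

open Real Set MeasureTheory

theorem th_eq : Reul.th = th := rfl

theorem XXa (t φ : ℝ) : Reul.XX (Reul.Aa t) (Reul.Ba t) (Reul.Ca t) φ = DD t φ := by
  have h1 : cos th = 1 / 2 := by unfold th; exact Real.cos_pi_div_three
  have h2 : sin th = √3 / 2 := by unfold th; exact Real.sin_pi_div_three
  have hr : (√3 : ℝ) ^ 2 = 3 := Real.sq_sqrt (by norm_num)
  unfold Reul.XX Reul.Aa Reul.Ba Reul.Ca DD
  rw [cos_sub, cos_sub, add_assoc, cos_add th, cos_add, sin_add, h1, h2]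
  ring

theorem XXb (t φ : ℝ) : Reul.XX (Reul.Ab t) (Reul.Bb t) (Reul.Cb t) φ = DD (th - t) (th - φ) := by
  have h1 : cos th = 1 / 2 := by unfold th; exact Real.cos_pi_div_three
  have h2 : sin th = √3 / 2 := by unfold th; exact Real.sin_pi_div_three
  have hr : (√3 : ℝ) ^ 2 = 3 := Real.sq_sqrt (by norm_num)
  unfold Reul.XX Reul.Ab Reul.Bb Reul.Cb DD
  have e1 : th - (th - t) = t := by ring
  have e2 : th - (th - φ) = φ := by ring
  have e3 : th + (th - t) + (th - φ) = Real.pi - (t + φ) := by unfold th; ring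
  rw [e1, e2, e3, cos_pi_sub, cos_add]
  ring

theorem ker_add (s φ : ℝ) : Reul.ker φ s + Reul.ker φ (th - s) = 6 * K s φ := by
  rw [Reul.ker_eq, Reul.ker_eq, XXa, XXb, XXa, XXb]
  unfold K dd
  rw [show th - (th - s) = s by ring]
  ring

theorem no_const {lam : Measure ℝ} [IsProbabilityMeasure lam] (hl : lam (Icc 0 th)ᶜ = 0) {a : ℝ} :
    ¬ ∀ r ∈ Icc 0 th, U lam r = a := by
  intro h
  have hmeas : Measurable (fun s : ℝ => th - s) := measurable_const.sub measurable_id
  set ν : Measure ℝ := (1 / 2 : ENNReal) • (lam + lam.map (fun s => th - s)) with hνdef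
  have hp2 : IsProbabilityMeasure (lam.map (fun s => th - s)) :=
    Measure.isProbabilityMeasure_map hmeas.aemeasurable
  have hprob : IsProbabilityMeasure ν := by
    constructor
    rw [hνdef, Measure.smul_apply, Measure.add_apply, measure_univ, measure_univ, smul_eq_mul]
    rw [one_add_one_eq_two, one_div, ENNReal.inv_mul_cancel (by norm_num) (by norm_num)]
  have hν : ν (Icc 0 Reul.th)ᶜ = 0 := by
    rw [th_eq, hνdef, Measure.smul_apply, Measure.add_apply, hl,
      Measure.map_apply hmeas measurableSet_Icc.compl]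
    have : (fun s : ℝ => th - s) ⁻¹' (Icc 0 th)ᶜ = (Icc 0 th)ᶜ := by
      ext x
      simp only [mem_preimage, mem_compl_iff, mem_Icc, not_iff_not]
      constructor
      · rintro ⟨h1, h2⟩; constructor <;> linarith
      · rintro ⟨h1, h2⟩; constructor <;> linarith
    rw [this, hl]
    simp
  apply Reul.no_const_ker hprob hν (Λ := 3 * a)
  intro φ hφ
  have hφ' : φ ∈ Icc 0 th := hφ
  have i1 : Integrable (fun t => Reul.ker φ t) lam := Reul.ker_integrable lam φ
  have i2 : Integrable (fun t => Reul.ker φ t) (lam.map (fun s => th - s)) :=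
    Reul.ker_integrable _ φ
  rw [hνdef, integral_smul_measure, integral_add_measure i1 i2,
    integral_map hmeas.aemeasurable (Reul.ker_continuous_right φ).aestronglyMeasurable]
  have i3 : Integrable (fun s => Reul.ker φ (th - s)) lam := by
    have := (integrable_map_measure (μ := lam) (f := fun s : ℝ => th - s)
      (g := fun t => Reul.ker φ t) (Reul.ker_continuous_right φ).aestronglyMeasurable
      hmeas.aemeasurable).1 i2
    exact this
  rw [← integral_add i1 i3]
  have e : ∀ s, Reul.ker φ s + Reul.ker φ (th - s) = 6 * K s φ := fun s => ker_add s φ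
  simp only [e]
  rw [integral_const_mul]
  have := h φ hφ'
  unfold U at this
  rw [this]
  simp
  ring

end Pool.Agent.Helper342.RV
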