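import Pool.Agent.Helper342.RV.Defs

namespace Pool.Agent.Helper342.RV.T1

open Real

















open MeasureTheory Set








attribute [local irreducible] K K1 PK

theorem t1_restrict (μ : Measure ℝ) {A : Set ℝ} (hμ : μ Aᶜ = 0) : μ.restrict A = μ :=
  Measure.restrict_eq_self_of_ae_mem (by
    rw [ae_iff]
    exact hμ)

theorem t1_ae (μ : Measure ℝ) {A : Set ℝ} (hμ : μ Aᶜ = 0) : ∀ᵐ s ∂μ, s ∈ A := by
  rw [ae_iff]
  exact hμ

theorem t1_aesm (μ : Measure ℝ) {A : Set ℝ} (hA : MeasurableSet A) (hμ : μ Aᶜ = 0) {f : ℝ → ℝ}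
    (hf : ContinuousOn f A) : AEStronglyMeasurable f μ := by
  have h := hf.aestronglyMeasurable (μ := μ) hA
  rwa [t1_restrict μ hμ] at h

theorem t1_int (μ : Measure ℝ) [IsFiniteMeasure μ] {A : Set ℝ} (hA : IsCompact A) (hμ : μ Aᶜ = 0)
    {f : ℝ → ℝ} (hf : ContinuousOn f A) : Integrable f μ := by
  have h := hf.integrableOn_compact (μ := μ) hA
  unfold IntegrableOn at h
  rwa [t1_restrict μ hμ] at h

theorem t1_fub (μ : Measure ℝ) [IsFiniteMeasure μ] {A : Set ℝ} (hA : IsCompact A)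
    (hμ : μ Aᶜ = 0) (p q : ℝ) (F : ℝ → ℝ → ℝ)
    (hF : ContinuousOn (fun z : ℝ × ℝ => F z.1 z.2) (A ×ˢ uIcc p q)) :
    Integrable (fun s => ∫ t in p..q, F s t) μ ∧
      ∫ s, (∫ t in p..q, F s t) ∂μ = ∫ t in p..q, (∫ s, F s t ∂μ) := by
  have h1 : IntegrableOn (fun z : ℝ × ℝ => F z.1 z.2) (A ×ˢ uIcc p q) (μ.prod volume) :=
    hF.integrableOn_compact (hA.prod isCompact_uIcc)
  have h2 : IntegrableOn (fun z : ℝ × ℝ => F z.1 z.2) (A ×ˢ uIoc p q) (μ.prod volume) :=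
    h1.mono_set (Set.prod_mono le_rfl uIoc_subset_uIcc)
  have h3 : Integrable (Function.uncurry F) (μ.prod (volume.restrict (uIoc p q))) := by
    have h4 : (μ.restrict A).prod (volume.restrict (uIoc p q)) =
        (μ.prod volume).restrict (A ×ˢ uIoc p q) := Measure.prod_restrict A (uIoc p q)
    rw [t1_restrict μ hμ] at h4
    rw [h4]
    exact h2
  constructor
  · simp only [intervalIntegral.intervalIntegral_eq_integral_uIoc, smul_eq_mul]
    exact (h3.integral_prod_left).const_mul _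
  · simp only [intervalIntegral.intervalIntegral_eq_integral_uIoc, smul_eq_mul]
    rw [integral_const_mul, integral_integral_swap h3]

theorem t1_K_int
    (continuous_K : Continuous (fun p : ℝ × ℝ => K p.1 p.2))
    (K_nonneg : ∀ s r : ℝ, 0 ≤ K s r) (K_le : ∀ s r : ℝ, K s r ≤ 4)
    (μ : Measure ℝ) [IsFiniteMeasure μ] (r : ℝ) : Integrable (fun s => K s r) μ := by
  refine Integrable.of_bound (C := 4) ?_ ?_
  · exact (continuous_K.comp (by fun_prop : Continuous fun s : ℝ => (s, r))).aestronglyMeasurable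
  · refine Filter.Eventually.of_forall fun s => ?_
    rw [Real.norm_eq_abs, abs_of_nonneg (K_nonneg s r)]
    exact K_le s r

theorem t1_K1_int (measurable_K1 : ∀ r : ℝ, Measurable (fun s => K1 s r))
    (abs_K1_le : ∀ s r : ℝ, s ∈ Icc 0 th → r ∈ Icc 0 th → |K1 s r| ≤ 1)
    (μ : Measure ℝ) [IsFiniteMeasure μ] (hμ : μ (Icc 0 th)ᶜ = 0) {r : ℝ} (hr : r ∈ Icc 0 th) :
    Integrable (fun s => K1 s r) μ := by
  refine Integrable.of_bound (C := 1) (measurable_K1 r).aestronglyMeasurable ?_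
  filter_upwards [t1_ae μ hμ] with s hs
  exact abs_K1_le s r hs hr

theorem U_continuous
    (continuous_K : Continuous (fun p : ℝ × ℝ => K p.1 p.2))
    (K_nonneg : ∀ s r : ℝ, 0 ≤ K s r) (K_le : ∀ s r : ℝ, K s r ≤ 4)
    (μ : Measure ℝ) [IsFiniteMeasure μ] : Continuous (U μ) := by
  unfold U
  refine continuous_of_dominated (bound := fun _ => 4) ?_ ?_ (integrable_const _) ?_
  · exact fun r => (t1_K_int continuous_K K_nonneg K_le μ r).aestronglyMeasurable
  · intro r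
    refine Filter.Eventually.of_forall fun s => ?_
    rw [Real.norm_eq_abs, abs_of_nonneg (K_nonneg s r)]
    exact K_le s r
  · refine Filter.Eventually.of_forall fun s => ?_
    have h : Continuous ((fun p : ℝ × ℝ => K p.1 p.2) ∘ (fun r : ℝ => (s, r))) :=
      continuous_K.comp (by fun_prop)
    exact h

theorem t1_PK_s
    (continuousOn_PK : ContinuousOn (fun p : ℝ × ℝ => PK p.1 p.2) (Icc 0 th ×ˢ Ioo 0 th))
    {t : ℝ} (ht : t ∈ Ioo 0 th) : ContinuousOn (fun s => PK s t) (Icc 0 th) := by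
  have h : ContinuousOn ((fun p : ℝ × ℝ => PK p.1 p.2) ∘ (fun s : ℝ => (s, t))) (Icc 0 th) :=
    continuousOn_PK.comp (by fun_prop) (fun s hs => ⟨hs, ht⟩)
  exact h

theorem PP_integrable
    (continuousOn_PK : ContinuousOn (fun p : ℝ × ℝ => PK p.1 p.2) (Icc 0 th ×ˢ Ioo 0 th))
    (μ : Measure ℝ) [IsFiniteMeasure μ] (hμ : μ (Icc 0 th)ᶜ = 0) {t : ℝ} (ht : t ∈ Ioo 0 th) :
    Integrable (fun s => PK s t) μ :=
  t1_int μ isCompact_Icc hμ (t1_PK_s continuousOn_PK ht)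

theorem PP_continuousOn
    (continuousOn_PK : ContinuousOn (fun p : ℝ × ℝ => PK p.1 p.2) (Icc 0 th ×ˢ Ioo 0 th))
    (μ : Measure ℝ) [IsFiniteMeasure μ] (hμ : μ (Icc 0 th)ᶜ = 0) :
    ContinuousOn (PP μ) (Ioo 0 th) := by
  intro t0 ht0
  apply ContinuousAt.continuousWithinAt
  obtain ⟨a, ha0, hat⟩ := exists_between ht0.1
  obtain ⟨b, hbt, hb0⟩ := exists_between ht0.2
  have hsub : Icc 0 th ×ˢ Icc a b ⊆ Icc 0 th ×ˢ Ioo 0 th :=
    Set.prod_mono le_rfl (fun t ht => ⟨ha0.trans_le ht.1, ht.2.trans_lt hb0⟩)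
  obtain ⟨C, hC⟩ := (isCompact_Icc.prod isCompact_Icc).exists_bound_of_continuousOn
    (continuousOn_PK.mono hsub)
  have hnhds : ∀ᶠ t in nhds t0, t ∈ Ioo a b := Ioo_mem_nhds hat hbt
  unfold PP
  refine continuousAt_of_dominated (bound := fun _ => C) ?_ ?_ (integrable_const _) ?_
  · filter_upwards [hnhds] with t ht
    exact t1_aesm μ measurableSet_Icc hμ
      (t1_PK_s continuousOn_PK ⟨ha0.trans ht.1, ht.2.trans hb0⟩)
  · filter_upwards [hnhds] with t ht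
    filter_upwards [t1_ae μ hμ] with s hs
    exact hC (s, t) ⟨hs, ht.1.le, ht.2.le⟩
  · filter_upwards [t1_ae μ hμ] with s hs
    have h : ContinuousOn ((fun p : ℝ × ℝ => PK p.1 p.2) ∘ (fun t : ℝ => (s, t))) (Ioo 0 th) :=
      continuousOn_PK.comp (by fun_prop) (fun t ht => ⟨hs, ht⟩)
    exact h.continuousAt (Ioo_mem_nhds ht0.1 ht0.2)

theorem U_lower
    (continuous_K : Continuous (fun p : ℝ × ℝ => K p.1 p.2))
    (K_nonneg : ∀ s r : ℝ, 0 ≤ K s r) (K_le : ∀ s r : ℝ, K s r ≤ 4)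
    (measurable_K1 : ∀ r : ℝ, Measurable (fun s => K1 s r))
    (abs_K1_le : ∀ s r : ℝ, s ∈ Icc 0 th → r ∈ Icc 0 th → |K1 s r| ≤ 1)
    (K_lower : ∀ s p q : ℝ, s ∈ Icc 0 th → p ∈ Icc 0 th → q ∈ Icc 0 th →
      K s p * cos ((q - p) / 2) + 2 * K1 s p * sin ((q - p) / 2)
      + (if s = p then sin (|q - p| / 2) / 3 else 0) ≤ K s q)
    (μ : Measure ℝ) [IsFiniteMeasure μ] (hμ : μ (Icc 0 th)ᶜ = 0) {p q : ℝ}
    (hp : p ∈ Icc 0 th) (hq : q ∈ Icc 0 th) :
    U μ p * cos ((q - p) / 2) + 2 * U1 μ p * sin ((q - p) / 2)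
      + μ.real {p} * (sin (|q - p| / 2) / 3) ≤ U μ q := by
  have i1 := (t1_K_int continuous_K K_nonneg K_le μ p).mul_const (cos ((q - p) / 2))
  have i2 := ((t1_K1_int measurable_K1 abs_K1_le μ hμ hp).const_mul 2).mul_const
    (sin ((q - p) / 2))
  have he : (fun s => (if s = p then sin (|q - p| / 2) / 3 else 0)) =
      ({p} : Set ℝ).indicator (fun _ => sin (|q - p| / 2) / 3) := by
    funext s
    by_cases h : s = p
    · simp [h]
    · simp [h]
  have i3 : Integrable (fun s => (if s = p then sin (|q - p| / 2) / 3 else 0)) μ := by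
    rw [he]
    exact (integrable_const _).indicator (measurableSet_singleton p)
  have i4 := t1_K_int continuous_K K_nonneg K_le μ q
  have h := integral_mono_ae ((i1.add i2).add i3) i4 (by
    filter_upwards [t1_ae μ hμ] with s hs
    exact K_lower s p q hs hp hq)
  have e1 : ∫ s, ((fun s => K s p * cos ((q - p) / 2)) + (fun s => 2 * K1 s p * sin ((q - p) / 2))
      + (fun s => (if s = p then sin (|q - p| / 2) / 3 else 0))) s ∂μ =
      U μ p * cos ((q - p) / 2) + 2 * U1 μ p * sin ((q - p) / 2)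
      + μ.real {p} * (sin (|q - p| / 2) / 3) := by
    rw [integral_add' (i1.add i2) i3, integral_add' i1 i2, integral_mul_const, integral_mul_const,
      integral_const_mul, he, integral_indicator_const _ (measurableSet_singleton p), smul_eq_mul]
    rfl
  rw [e1] at h
  exact h

theorem t1_PKcont
    (continuousOn_PK : ContinuousOn (fun p : ℝ × ℝ => PK p.1 p.2) (Icc 0 th ×ˢ Ioo 0 th))
    {p q : ℝ} (hp : p ∈ Ioo 0 th) (hq : q ∈ Ioo 0 th) :
    ContinuousOn (fun z : ℝ × ℝ => 2 * sin ((q - z.2) / 2) * PK z.1 z.2)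
      (Icc 0 th ×ˢ uIcc p q) := by
  have hsub : uIcc p q ⊆ Ioo 0 th := by
    intro t ht
    rw [mem_uIcc] at ht
    rcases ht with h | h
    · exact ⟨hp.1.trans_le h.1, h.2.trans_lt hq.2⟩
    · exact ⟨hq.1.trans_le h.1, h.2.trans_lt hp.2⟩
  refine ContinuousOn.mul (by fun_prop) (continuousOn_PK.mono (Set.prod_mono le_rfl hsub))

theorem t1_PP_swap (μ : Measure ℝ) (p q : ℝ) (g : ℝ → ℝ) :
    ∫ t in p..q, (∫ s, g t * PK s t ∂μ) = ∫ t in p..q, g t * PP μ t := by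
  congr 1
  funext t
  rw [integral_const_mul]
  rfl

theorem U_green_ge
    (continuous_K : Continuous (fun p : ℝ × ℝ => K p.1 p.2))
    (K_nonneg : ∀ s r : ℝ, 0 ≤ K s r) (K_le : ∀ s r : ℝ, K s r ≤ 4)
    (measurable_K1 : ∀ r : ℝ, Measurable (fun s => K1 s r))
    (abs_K1_le : ∀ s r : ℝ, s ∈ Icc 0 th → r ∈ Icc 0 th → |K1 s r| ≤ 1)
    (continuousOn_PK : ContinuousOn (fun p : ℝ × ℝ => PK p.1 p.2) (Icc 0 th ×ˢ Ioo 0 th))
    (K_green_ge : ∀ s p q : ℝ, s ∈ Icc 0 th → p ∈ Ioo 0 th → q ∈ Ioo 0 th →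
      K s p * cos ((q - p) / 2) + 2 * K1 s p * sin ((q - p) / 2)
      + (∫ t in p..q, 2 * sin ((q - t) / 2) * PK s t) ≤ K s q)
    (μ : Measure ℝ) [IsFiniteMeasure μ] (hμ : μ (Icc 0 th)ᶜ = 0) {p q : ℝ}
    (hp : p ∈ Ioo 0 th) (hq : q ∈ Ioo 0 th) :
    U μ p * cos ((q - p) / 2) + 2 * U1 μ p * sin ((q - p) / 2)
      + (∫ t in p..q, 2 * sin ((q - t) / 2) * PP μ t) ≤ U μ q := by
  have i1 := (t1_K_int continuous_K K_nonneg K_le μ p).mul_const (cos ((q - p) / 2))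
  have i2 := ((t1_K1_int measurable_K1 abs_K1_le μ hμ ⟨hp.1.le, hp.2.le⟩).const_mul 2).mul_const
    (sin ((q - p) / 2))
  obtain ⟨i3, e3⟩ := t1_fub μ isCompact_Icc hμ p q (fun s t => 2 * sin ((q - t) / 2) * PK s t)
    (t1_PKcont continuousOn_PK hp hq)
  have i4 := t1_K_int continuous_K K_nonneg K_le μ q
  have h := integral_mono_ae ((i1.add i2).add i3) i4 (by
    filter_upwards [t1_ae μ hμ] with s hs
    exact K_green_ge s p q hs hp hq)
  have e1 : ∫ s, ((fun s => K s p * cos ((q - p) / 2)) + (fun s => 2 * K1 s p * sin ((q - p) / 2))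
      + (fun s => (∫ t in p..q, 2 * sin ((q - t) / 2) * PK s t))) s ∂μ =
      U μ p * cos ((q - p) / 2) + 2 * U1 μ p * sin ((q - p) / 2)
      + (∫ t in p..q, 2 * sin ((q - t) / 2) * PP μ t) := by
    rw [integral_add' (i1.add i2) i3, integral_add' i1 i2, integral_mul_const, integral_mul_const,
      integral_const_mul, e3, t1_PP_swap μ p q (fun t => 2 * sin ((q - t) / 2))]
    rfl
  rw [e1] at h
  exact h

theorem U_green_eq
    (continuous_K : Continuous (fun p : ℝ × ℝ => K p.1 p.2))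
    (K_nonneg : ∀ s r : ℝ, 0 ≤ K s r) (K_le : ∀ s r : ℝ, K s r ≤ 4)
    (measurable_K1 : ∀ r : ℝ, Measurable (fun s => K1 s r))
    (abs_K1_le : ∀ s r : ℝ, s ∈ Icc 0 th → r ∈ Icc 0 th → |K1 s r| ≤ 1)
    (continuousOn_PK : ContinuousOn (fun p : ℝ × ℝ => PK p.1 p.2) (Icc 0 th ×ˢ Ioo 0 th))
    (K_green : ∀ s p q : ℝ, s ∈ Icc 0 th → p ∈ Ioo 0 th → q ∈ Ioo 0 th →
      s ∉ uIcc p q → th - s ∉ uIcc p q →
      K s q = K s p * cos ((q - p) / 2) + 2 * K1 s p * sin ((q - p) / 2)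
      + ∫ t in p..q, 2 * sin ((q - t) / 2) * PK s t)
    (μ : Measure ℝ) [IsFiniteMeasure μ] (hμ : μ (Icc 0 th)ᶜ = 0) {p q : ℝ}
    (hp : p ∈ Ioo 0 th) (hq : q ∈ Ioo 0 th)
    (h1 : ∀ᵐ s ∂μ, s ∉ uIcc p q ∧ th - s ∉ uIcc p q) :
    U μ q = U μ p * cos ((q - p) / 2) + 2 * U1 μ p * sin ((q - p) / 2)
      + (∫ t in p..q, 2 * sin ((q - t) / 2) * PP μ t) := by
  have i1 := (t1_K_int continuous_K K_nonneg K_le μ p).mul_const (cos ((q - p) / 2))
  have i2 := ((t1_K1_int measurable_K1 abs_K1_le μ hμ ⟨hp.1.le, hp.2.le⟩).const_mul 2).mul_const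
    (sin ((q - p) / 2))
  obtain ⟨i3, e3⟩ := t1_fub μ isCompact_Icc hμ p q (fun s t => 2 * sin ((q - t) / 2) * PK s t)
    (t1_PKcont continuousOn_PK hp hq)
  have h : U μ q = ∫ s, ((fun s => K s p * cos ((q - p) / 2)) +
      (fun s => 2 * K1 s p * sin ((q - p) / 2))
      + (fun s => (∫ t in p..q, 2 * sin ((q - t) / 2) * PK s t))) s ∂μ := by
    unfold U
    apply integral_congr_ae
    filter_upwards [t1_ae μ hμ, h1] with s hs hs2
    exact K_green s p q hs hp hq hs2.1 hs2.2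
  rw [h, integral_add' (i1.add i2) i3, integral_add' i1 i2, integral_mul_const, integral_mul_const,
      integral_const_mul, e3, t1_PP_swap μ p q (fun t => 2 * sin ((q - t) / 2))]
  rfl

theorem U_green_vertex
    (continuous_K : Continuous (fun p : ℝ × ℝ => K p.1 p.2))
    (K_nonneg : ∀ s r : ℝ, 0 ≤ K s r) (K_le : ∀ s r : ℝ, K s r ≤ 4)
    (measurable_K1 : ∀ r : ℝ, Measurable (fun s => K1 s r))
    (abs_K1_le : ∀ s r : ℝ, s ∈ Icc 0 th → r ∈ Icc 0 th → |K1 s r| ≤ 1)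
    (continuousOn_PK' : ContinuousOn (fun p : ℝ × ℝ => PK p.1 p.2) (Ioo 0 th ×ˢ Icc 0 th))
    (K_green_vertex : ∀ s s0 : ℝ, 0 < s → s ≤ th / 2 → 0 < s0 → s0 < th / 2 → s ≠ s0 →
      K s 0 = K s s0 * cos (s0 / 2) - 2 * K1 s s0 * sin (s0 / 2)
      + (if s < s0 then (2 / 3) * sin (s / 2) else 0)
      + ∫ t in (0 : ℝ)..s0, 2 * sin (t / 2) * PK s t)
    (μ : Measure ℝ) [IsFiniteMeasure μ] {η s0 : ℝ} (hη : 0 < η)
    (hμ : μ (Icc η (th / 2))ᶜ = 0) (hs0 : 0 < s0) (hs1 : s0 < th / 2) (h0 : μ {s0} = 0) :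
    U μ 0 = U μ s0 * cos (s0 / 2) - 2 * U1 μ s0 * sin (s0 / 2)
      + (∫ s in Iio s0, (2 / 3) * sin (s / 2) ∂μ)
      + (∫ t in (0 : ℝ)..s0, 2 * sin (t / 2) * PP μ t) := by
  have hth : 0 < th := by unfold th; positivity
  have hμ' : μ (Icc 0 th)ᶜ = 0 := by
    refine measure_mono_null (compl_subset_compl.2 ?_) hμ
    intro s hs
    exact ⟨hη.le.trans hs.1, hs.2.trans (by linarith)⟩
  have i1 := (t1_K_int continuous_K K_nonneg K_le μ s0).mul_const (cos (s0 / 2))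
  have i2 := ((t1_K1_int measurable_K1 abs_K1_le μ hμ' (r := s0)
    ⟨hs0.le, by linarith⟩).const_mul 2).mul_const (sin (s0 / 2))
  have he : (fun s => (if s < s0 then (2 / 3) * sin (s / 2) else 0)) =
      (Iio s0).indicator (fun s => (2 / 3) * sin (s / 2)) := by
    funext s
    by_cases h : s < s0
    · simp [h]
    · simp [h]
  have i3 : Integrable (fun s => (if s < s0 then (2 / 3) * sin (s / 2) else 0)) μ := by
    rw [he]
    refine Integrable.indicator ?_ measurableSet_Iio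
    exact t1_int μ isCompact_Icc hμ (by fun_prop)
  obtain ⟨i4, e4⟩ := t1_fub μ isCompact_Icc hμ 0 s0 (fun s t => 2 * sin (t / 2) * PK s t) (by
    refine ContinuousOn.mul (by fun_prop) (continuousOn_PK'.mono (Set.prod_mono ?_ ?_))
    · intro s hs
      exact ⟨hη.trans_le hs.1, hs.2.trans_lt (by linarith)⟩
    · intro t ht
      rw [uIcc_of_le hs0.le] at ht
      exact ⟨ht.1, ht.2.trans (by linarith)⟩)
  have hne : ∀ᵐ s ∂μ, s ≠ s0 := by
    rw [ae_iff]
    simpa using h0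
  have h : U μ 0 = ∫ s, ((fun s => K s s0 * cos (s0 / 2)) -
      (fun s => 2 * K1 s s0 * sin (s0 / 2))
      + (fun s => (if s < s0 then (2 / 3) * sin (s / 2) else 0))
      + (fun s => (∫ t in (0 : ℝ)..s0, 2 * sin (t / 2) * PK s t))) s ∂μ := by
    unfold U
    apply integral_congr_ae
    filter_upwards [t1_ae μ hμ, hne] with s hs hs2
    exact K_green_vertex s s0 (hη.trans_le hs.1) hs.2 hs0 hs1 hs2
  rw [h, integral_add' ((i1.sub i2).add i3) i4, integral_add' (i1.sub i2) i3, integral_sub' i1 i2,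
    integral_mul_const, integral_mul_const, integral_const_mul, e4,
    t1_PP_swap μ 0 s0 (fun t => 2 * sin (t / 2)), he, integral_indicator measurableSet_Iio]
  rfl

end Pool.Agent.Helper342.RV.T1
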