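import Pool.Agent.Helper342.RV.Defs

namespace Pool.Agent.Helper342.RV.T2

open Real

















open MeasureTheory Set







theorem aux_small (x a d0 : ℝ) (hd0 : 0 < d0)
    (h : ∀ d, 0 < d → d < d0 → x * sin d ≤ a * (1 - cos d)) : x ≤ 0 := by
  by_contra hx
  push Not at hx
  have ha : 0 < |a| + 1 := by have := abs_nonneg a; linarith
  set d : ℝ := min (min (d0 / 2) 1) (x / (|a| + 1)) with hd
  have hdpos : 0 < d := lt_min (lt_min (by linarith) one_pos) (by positivity)
  have hd1 : d ≤ 1 := (min_le_left _ _).trans (min_le_right _ _)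
  have hd2 : d < d0 := ((min_le_left _ _).trans (min_le_left _ _)).trans_lt (by linarith)
  have hd3 : d * (|a| + 1) ≤ x := by
    have : d ≤ x / (|a| + 1) := min_le_right _ _
    rwa [le_div_iff₀ ha] at this
  have h1 := h d hdpos hd2
  have h2' : d - d ^ 3 / 6 < sin d := Real.sin_gt_sub_cube hdpos
  have h2'' : 0 < d ^ 3 := by positivity
  have h2 : d - d ^ 3 / 4 < sin d := by linarith
  have h3 : 1 - d ^ 2 / 2 ≤ cos d := Real.one_sub_sq_div_two_le_cos
  have h4 : a * (1 - cos d) ≤ |a| * (d ^ 2 / 2) := by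
    have h5 : 0 ≤ 1 - cos d := by linarith [Real.cos_le_one d]
    calc a * (1 - cos d) ≤ |a| * (1 - cos d) := mul_le_mul_of_nonneg_right (le_abs_self a) h5
      _ ≤ |a| * (d ^ 2 / 2) := mul_le_mul_of_nonneg_left (by linarith) (abs_nonneg a)
  have h6 : d ^ 3 ≤ d := by
    have : d ^ 3 = d * (d * d) := by ring
    rw [this]
    have h7 : d * d ≤ 1 := by nlinarith
    nlinarith
  have h7 : 3 / 4 * d ≤ sin d := by linarith
  have h8 : x * (3 / 4 * d) ≤ x * sin d := mul_le_mul_of_nonneg_left h7 hx.le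
  have h9 : |a| * (d ^ 2 / 2) ≤ x * d / 2 := by
    have h10 : |a| * d ≤ x := by
      have : d * (|a| + 1) = |a| * d + d := by ring
      linarith
    have h11 : |a| * d * d ≤ x * d := mul_le_mul_of_nonneg_right h10 hdpos.le
    have h12 : |a| * (d ^ 2 / 2) = |a| * d * d / 2 := by ring
    linarith
  have h13 : 0 < x * d := mul_pos hx hdpos
  have h14 : x * (3 / 4 * d) = 3 / 4 * (x * d) := by ring
  linarith

theorem th_pos : 0 < th := by
  unfold th
  have := Real.pi_pos
  positivity

theorem C1 {lam : Measure ℝ} {a g ε : ℝ} (hg : 0 < g) (hg2 : g ≤ th / 2) (hε : 0 < ε)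
    (U_lower : ∀ p q : ℝ, p ∈ Icc 0 th → q ∈ Icc 0 th →
      U lam p * cos ((q - p) / 2) + 2 * U1 lam p * sin ((q - p) / 2)
      + lam.real {p} * (sin (|q - p| / 2) / 3) ≤ U lam q)
    (hUg : U lam g = a) (hU : ∀ q ∈ Icc 0 th, |q - g| < ε → U lam q ≤ a) :
    lam.real {g} = 0 ∧ U1 lam g = 0 := by
  have hth := th_pos
  set d0 : ℝ := min (ε / 2) (min (g / 2) ((th - g) / 2)) with hd0
  have hd0pos : 0 < d0 := lt_min (by linarith) (lt_min (by linarith) (by linarith))
  have hgm : g ∈ Icc 0 th := ⟨hg.le, by linarith⟩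
  have key : ∀ d, 0 < d → d < d0 → ∀ σ : ℝ, (σ = 1 ∨ σ = -1) →
      (2 * σ * U1 lam g + lam.real {g} / 3) * sin d ≤ a * (1 - cos d) := by
    intro d hd hdd σ hσ
    have h1 : d < ε / 2 := hdd.trans_le (min_le_left _ _)
    have h2 : d < g / 2 := hdd.trans_le ((min_le_right _ _).trans (min_le_left _ _))
    have h3 : d < (th - g) / 2 := hdd.trans_le ((min_le_right _ _).trans (min_le_right _ _))
    set q : ℝ := g + 2 * (σ * d) with hq
    have habs : |q - g| = 2 * d := by
      rw [hq]
      rcases hσ with rfl | rfl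
      · rw [abs_of_nonneg] <;> linarith
      · rw [abs_of_nonpos] <;> linarith
    have hqm : q ∈ Icc 0 th := by
      rw [hq]
      rcases hσ with rfl | rfl
      · constructor <;> linarith
      · constructor <;> linarith
    have h4 := U_lower g q hgm hqm
    have h5 := hU q hqm (by rw [habs]; linarith)
    have h6 : (q - g) / 2 = σ * d := by rw [hq]; ring
    have h7 : |q - g| / 2 = d := by rw [habs]; ring
    rw [h6, h7, hUg] at h4
    have h8 : cos (σ * d) = cos d := by
      rcases hσ with rfl | rfl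
      · rw [one_mul]
      · rw [neg_one_mul, cos_neg]
    have h9 : sin (σ * d) = σ * sin d := by
      rcases hσ with rfl | rfl
      · rw [one_mul, one_mul]
      · rw [neg_one_mul, sin_neg, neg_one_mul]
    rw [h8, h9] at h4
    have h10 : (2 * σ * U1 lam g + lam.real {g} / 3) * sin d
        = 2 * U1 lam g * (σ * sin d) + lam.real {g} * (sin d / 3) := by ring
    rw [h10]
    linarith
  have hA := aux_small _ a d0 hd0pos (fun d h1 h2 => key d h1 h2 1 (Or.inl rfl))
  have hB := aux_small _ a d0 hd0pos (fun d h1 h2 => key d h1 h2 (-1) (Or.inr rfl))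
  have hm : 0 ≤ lam.real {g} := measureReal_nonneg
  constructor
  · linarith
  · linarith

theorem mass_lemma
    (measurable_K1 : ∀ r : ℝ, Measurable (fun s => K1 s r))
    (abs_K1_le : ∀ s r : ℝ, s ∈ Icc 0 th → r ∈ Icc 0 th → |K1 s r| ≤ 1)
    (K1_neg : ∀ s g : ℝ, 0 < g → g < s → s ≤ th / 2 → K1 s g ≤ -(3 / 10))
    (K1_pos : ∀ s g : ℝ, 0 ≤ s → s < g → g ≤ th / 2 → K1 s g ≤ 1 / 20)
    {lam : Measure ℝ} [IsProbabilityMeasure lam] (hl : lam (Icc 0 (th / 2))ᶜ = 0)
    {g : ℝ} (hg : 0 < g) (hg2 : g ≤ th / 2) (h0 : lam.real {g} = 0) (h1 : U1 lam g = 0) :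
    6 / 7 ≤ lam.real (Iio g) := by
  have hth := th_pos
  have hae : ∀ᵐ s ∂lam, s ∈ Icc 0 (th / 2) := by
    rw [ae_iff]
    exact hl
  have hg0 : lam {g} = 0 := by
    rwa [measureReal_eq_zero_iff] at h0
  have hae2 : ∀ᵐ s ∂lam, s ≠ g := by
    rw [ae_iff]
    have : {s | ¬ s ≠ g} = {g} := by
      ext s; simp
    rw [this]
    exact hg0
  set f : ℝ → ℝ := fun s => (Ioi g).indicator (fun _ => (-(3 / 10) : ℝ)) s +
    (Iio g).indicator (fun _ => (1 / 20 : ℝ)) s with hf
  have hi1 : Integrable ((Ioi g).indicator (fun _ => (-(3 / 10) : ℝ))) lam :=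
    (integrable_const _).indicator measurableSet_Ioi
  have hi2 : Integrable ((Iio g).indicator (fun _ => (1 / 20 : ℝ))) lam :=
    (integrable_const _).indicator measurableSet_Iio
  have hK : Integrable (fun s => K1 s g) lam := by
    apply Integrable.of_bound (C := 1) (measurable_K1 g).aestronglyMeasurable
    filter_upwards [hae] with s hs
    rw [Real.norm_eq_abs]
    exact abs_K1_le s g ⟨hs.1, hs.2.trans (by linarith)⟩ ⟨hg.le, by linarith⟩
  have hle : ∫ s, K1 s g ∂lam ≤ ∫ s, f s ∂lam := by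
    apply integral_mono_ae hK (hi1.add hi2)
    filter_upwards [hae, hae2] with s hs hsg
    change K1 s g ≤ (Ioi g).indicator (fun _ => (-(3 / 10) : ℝ)) s +
      (Iio g).indicator (fun _ => (1 / 20 : ℝ)) s
    rcases lt_or_gt_of_ne hsg with h | h
    · rw [indicator_of_notMem (show s ∉ Ioi g from fun h' => lt_asymm h h'),
        indicator_of_mem (show s ∈ Iio g from h), zero_add]
      exact K1_pos s g hs.1 h hg2
    · rw [indicator_of_mem (show s ∈ Ioi g from h),
        indicator_of_notMem (show s ∉ Iio g from fun h' => lt_asymm h h'), add_zero]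
      exact K1_neg s g hg h hs.2
  have hfi : ∫ s, f s ∂lam = lam.real (Ioi g) * (-(3 / 10)) + lam.real (Iio g) * (1 / 20) := by
    rw [hf, integral_add hi1 hi2, integral_indicator measurableSet_Ioi,
      integral_indicator measurableSet_Iio, setIntegral_const, setIntegral_const, smul_eq_mul,
      smul_eq_mul]
  have hcompl : lam.real (Ioi g) = 1 - lam.real (Iio g) := by
    have e1 : (Iic g)ᶜ = Ioi g := compl_Iic
    have e2 : lam.real (Iic g)ᶜ = 1 - lam.real (Iic g) := probReal_compl_eq_one_sub measurableSet_Iic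
    have e3 : lam.real (Iic g) = lam.real (Iio g) := by
      apply measureReal_congr
      exact (Iio_ae_eq_Iic' hg0).symm
    rw [← e1, e2, e3]
  have h2 : ∫ s, K1 s g ∂lam = 0 := h1
  rw [h2, hfi, hcompl] at hle
  linarith

theorem cont_slice {F : ℝ → ℝ → ℝ} (h : Continuous (fun p : ℝ × ℝ => F p.1 p.2)) (r : ℝ) :
    Continuous (fun s => F s r) := h.comp (continuous_id.prodMk continuous_const)

theorem cont_slice2 {F : ℝ → ℝ → ℝ} (h : Continuous (fun p : ℝ × ℝ => F p.1 p.2)) (s : ℝ) :
    Continuous (fun r => F s r) := h.comp (continuous_const.prodMk continuous_id)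

theorem cont_swap {F : ℝ → ℝ → ℝ} (h : Continuous (fun p : ℝ × ℝ => F p.1 p.2)) :
    Continuous (Function.uncurry (fun r s => F s r)) := h.comp (continuous_snd.prodMk continuous_fst)

theorem K_int (continuous_K : Continuous (fun p : ℝ × ℝ => K p.1 p.2))
    (K_nonneg : ∀ s r : ℝ, 0 ≤ K s r) (K_le : ∀ s r : ℝ, K s r ≤ 4)
    (μ : Measure ℝ) [IsFiniteMeasure μ] (r : ℝ) : Integrable (fun s => K s r) μ := by
  have hc : Continuous (fun s => K s r) := cont_slice (F := K) continuous_K r
  apply Integrable.of_bound (C := 4) hc.aestronglyMeasurable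
  exact Filter.Eventually.of_forall (fun s => by
    rw [Real.norm_eq_abs, abs_of_nonneg (K_nonneg s r)]
    exact K_le s r)

theorem PP_anti
    (continuous_K : Continuous (fun p : ℝ × ℝ => K p.1 p.2))
    (K_nonneg : ∀ s r : ℝ, 0 ≤ K s r) (K_le : ∀ s r : ℝ, K s r ≤ 4)
    (PP_integrable : ∀ (μ : Measure ℝ) [IsFiniteMeasure μ], μ (Icc 0 th)ᶜ = 0 → ∀ t ∈ Ioo 0 th,
      Integrable (fun s => PK s t) μ)
    (PK_mono : ∀ s t1 t2 : ℝ, s ∈ Icc 0 (th / 2) → 0 < t1 → t1 ≤ t2 → t2 ≤ th / 2 →
      (1 / 4) * ((K 0 (th / 2) - K s (th / 2)) - 37 / 10000)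
        * ((th / 2 - t1) ^ 2 - (th / 2 - t2) ^ 2) / 2 ≤ PK s t1 - PK s t2)
    {lam : Measure ℝ} [IsProbabilityMeasure lam] (hl : lam (Icc 0 (th / 2))ᶜ = 0)
    (hc : 37 / 10000 < K 0 (th / 2) - U lam (th / 2))
    {t1 t2 : ℝ} (h0 : 0 < t1) (h1 : t1 < t2) (h2 : t2 ≤ th / 2) : PP lam t2 < PP lam t1 := by
  have hth := th_pos
  have hae : ∀ᵐ s ∂lam, s ∈ Icc 0 (th / 2) := by
    rw [ae_iff]
    exact hl
  have hl2 : lam (Icc 0 th)ᶜ = 0 := by
    apply measure_mono_null _ hl
    apply compl_subset_compl.2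
    exact Icc_subset_Icc_right (by linarith)
  have hi1 := PP_integrable lam hl2 t1 ⟨h0, by linarith⟩
  have hi2 := PP_integrable lam hl2 t2 ⟨by linarith, by linarith⟩
  have hKi := K_int continuous_K K_nonneg K_le lam (th / 2)
  set A : ℝ := (th / 2 - t1) ^ 2 - (th / 2 - t2) ^ 2 with hA
  have hApos : 0 < A := by
    have : A = (t2 - t1) * (th - t1 - t2) := by rw [hA]; ring
    rw [this]
    apply mul_pos (by linarith) (by linarith)
  have hlow : Integrable (fun s => (1 / 8 * A) * (K 0 (th / 2) - 37 / 10000 - K s (th / 2))) lam :=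
    ((integrable_const _).sub hKi).const_mul _
  have hle : ∫ s, (1 / 8 * A) * (K 0 (th / 2) - 37 / 10000 - K s (th / 2)) ∂lam
      ≤ ∫ s, (PK s t1 - PK s t2) ∂lam := by
    apply integral_mono_ae hlow (hi1.sub hi2)
    filter_upwards [hae] with s hs
    have := PK_mono s t1 t2 hs h0 h1.le h2
    change (1 / 8 * A) * (K 0 (th / 2) - 37 / 10000 - K s (th / 2)) ≤ PK s t1 - PK s t2
    refine le_trans (le_of_eq ?_) this
    ring
  have e1 : ∫ s, (1 / 8 * A) * (K 0 (th / 2) - 37 / 10000 - K s (th / 2)) ∂lam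
      = (1 / 8 * A) * (K 0 (th / 2) - 37 / 10000 - U lam (th / 2)) := by
    rw [integral_const_mul, integral_sub (integrable_const _) hKi, integral_const, probReal_univ,
      one_smul]
    rfl
  have e2 : ∫ s, (PK s t1 - PK s t2) ∂lam = PP lam t1 - PP lam t2 := by
    rw [integral_sub hi1 hi2]
    rfl
  rw [e1, e2] at hle
  have : 0 < (1 / 8 * A) * (K 0 (th / 2) - 37 / 10000 - U lam (th / 2)) := by
    apply mul_pos (by positivity) (by linarith)
  linarith

theorem anti_cond
    (continuous_K : Continuous (fun p : ℝ × ℝ => K p.1 p.2))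
    (K_nonneg : ∀ s r : ℝ, 0 ≤ K s r) (K_le : ∀ s r : ℝ, K s r ≤ 4)
    (numF1 : ∀ s : ℝ, 0 ≤ s → s ≤ th / 2 →
      K s 0 - 2 / 3 ≤ (115 / 1000) * (K 0 (th / 2) - K s (th / 2)))
    {M : Measure ℝ} [IsProbabilityMeasure M] (hM : M (Icc 0 (th / 2))ᶜ = 0)
    (h : 6671 / 10000 ≤ U M 0) : 37 / 10000 < K 0 (th / 2) - U M (th / 2) := by
  have hae : ∀ᵐ s ∂M, s ∈ Icc 0 (th / 2) := by
    rw [ae_iff]
    exact hM
  have hK0 := K_int continuous_K K_nonneg K_le M 0
  have hKh := K_int continuous_K K_nonneg K_le M (th / 2)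
  have hle : ∫ s, (K s 0 - 2 / 3) ∂M
      ≤ ∫ s, (115 / 1000) * (K 0 (th / 2) - K s (th / 2)) ∂M := by
    apply integral_mono_ae (hK0.sub (integrable_const _))
      (((integrable_const _).sub hKh).const_mul _)
    filter_upwards [hae] with s hs
    exact numF1 s hs.1 hs.2
  have e1 : ∫ s, (K s 0 - 2 / 3) ∂M = U M 0 - 2 / 3 := by
    rw [integral_sub hK0 (integrable_const _), integral_const, probReal_univ, one_smul]
    rfl
  have e2 : ∫ s, (115 / 1000) * (K 0 (th / 2) - K s (th / 2)) ∂M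
      = (115 / 1000) * (K 0 (th / 2) - U M (th / 2)) := by
    rw [integral_const_mul, integral_sub (integrable_const _) hKh, integral_const, probReal_univ,
      one_smul]
    rfl
  rw [e1, e2] at hle
  linarith

theorem U_cont (continuous_K : Continuous (fun p : ℝ × ℝ => K p.1 p.2))
    (K_nonneg : ∀ s r : ℝ, 0 ≤ K s r) (K_le : ∀ s r : ℝ, K s r ≤ 4)
    (μ : Measure ℝ) [IsFiniteMeasure μ] : Continuous (U μ) := by
  unfold U
  apply continuous_of_dominated (bound := fun _ => (4 : ℝ))
  · intro r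
    exact (K_int continuous_K K_nonneg K_le μ r).aestronglyMeasurable
  · intro r
    exact Filter.Eventually.of_forall (fun s => by
      rw [Real.norm_eq_abs, abs_of_nonneg (K_nonneg s r)]
      exact K_le s r)
  · exact integrable_const _
  · exact Filter.Eventually.of_forall (fun s => cont_slice2 (F := K) continuous_K s)

theorem U_int (continuous_K : Continuous (fun p : ℝ × ℝ => K p.1 p.2))
    (K_nonneg : ∀ s r : ℝ, 0 ≤ K s r) (K_le : ∀ s r : ℝ, K s r ≤ 4)
    (μ ν : Measure ℝ) [IsProbabilityMeasure μ] [IsFiniteMeasure ν] : Integrable (U μ) ν := by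
  apply Integrable.of_bound (C := 4)
    (U_cont continuous_K K_nonneg K_le μ).aestronglyMeasurable
  refine Filter.Eventually.of_forall (fun r => ?_)
  unfold U
  calc ‖∫ s, K s r ∂μ‖ ≤ 4 * μ.real Set.univ := by
        apply norm_integral_le_of_norm_le_const
        exact Filter.Eventually.of_forall (fun s => by
          rw [Real.norm_eq_abs, abs_of_nonneg (K_nonneg s r)]
          exact K_le s r)
    _ = 4 := by rw [probReal_univ, mul_one]

theorem supp_eq {μ : Measure ℝ} {F : ℝ → ℝ} (hF : Continuous F) {a : ℝ}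
    (h : ∀ᵐ r ∂μ, F r = a) : ∀ r ∈ μ.support, F r = a := by
  intro r hr
  by_contra hne
  have hopen : IsOpen {x | F x ≠ a} := isOpen_ne_fun hF continuous_const
  have h1 := (Measure.mem_support_iff_forall r).1 hr {x | F x ≠ a} (hopen.mem_nhds hne)
  rw [ae_iff] at h
  exact h1.ne' h

theorem compl
    (K_symm : ∀ s r : ℝ, K s r = K r s)
    (continuous_K : Continuous (fun p : ℝ × ℝ => K p.1 p.2))
    (K_nonneg : ∀ s r : ℝ, 0 ≤ K s r) (K_le : ∀ s r : ℝ, K s r ≤ 4)
    {M lam : Measure ℝ} [IsProbabilityMeasure M] [IsProbabilityMeasure lam] {a : ℝ}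
    (hM : ∀ᵐ r ∂lam, a ≤ U M r) (hlam : ∀ᵐ r ∂M, U lam r ≤ a) :
    (∀ r ∈ M.support, U lam r = a) ∧ (∀ r ∈ lam.support, U M r = a) := by
  have hc1 := U_cont continuous_K K_nonneg K_le M
  have hc2 := U_cont continuous_K K_nonneg K_le lam
  have hi1 : Integrable (U M) lam := U_int continuous_K K_nonneg K_le M lam
  have hi2 : Integrable (U lam) M := U_int continuous_K K_nonneg K_le lam M
  have hfub : ∫ r, U lam r ∂M = ∫ s, U M s ∂lam := by
    have h1 : Integrable (Function.uncurry (fun r s => K s r)) (M.prod lam) := by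
      have hc : Continuous (Function.uncurry (fun r s => K s r)) :=
        cont_swap (F := K) continuous_K
      apply Integrable.of_bound (C := 4) hc.aestronglyMeasurable
      exact Filter.Eventually.of_forall (fun p => by
        change ‖K p.2 p.1‖ ≤ 4
        rw [Real.norm_eq_abs, abs_of_nonneg (K_nonneg _ _)]
        exact K_le _ _)
    have h2 := integral_integral_swap h1
    calc ∫ r, U lam r ∂M = ∫ r, ∫ s, K s r ∂lam ∂M := rfl
      _ = ∫ s, ∫ r, K s r ∂M ∂lam := h2
      _ = ∫ s, U M s ∂lam := by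
          congr 1
          funext s
          unfold U
          congr 1
          funext r
          exact K_symm s r
  have hle1 : a ≤ ∫ s, U M s ∂lam := by
    calc a = ∫ _s, a ∂lam := by rw [integral_const, probReal_univ, one_smul]
      _ ≤ ∫ s, U M s ∂lam := integral_mono_ae (integrable_const _) hi1 hM
  have hle2 : ∫ r, U lam r ∂M ≤ a := by
    calc ∫ r, U lam r ∂M ≤ ∫ _r, a ∂M := integral_mono_ae hi2 (integrable_const _) hlam
      _ = a := by rw [integral_const, probReal_univ, one_smul]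
  have e1 : ∫ s, U M s ∂lam = a := le_antisymm (hfub ▸ hle2) hle1
  have e2 : ∫ r, U lam r ∂M = a := hfub.trans e1
  have ae1 : ∀ᵐ r ∂lam, U M r = a := by
    have h1 : ∫ s, (U M s - a) ∂lam = 0 := by
      rw [integral_sub hi1 (integrable_const _), e1, integral_const, probReal_univ, one_smul,
        sub_self]
    have h2 := (integral_eq_zero_iff_of_nonneg_ae (by
      filter_upwards [hM] with s hs
      change 0 ≤ U M s - a
      linarith) (hi1.sub (integrable_const a))).1 h1
    filter_upwards [h2] with s hs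
    have h3 : U M s - a = 0 := hs
    linarith
  have ae2 : ∀ᵐ r ∂M, U lam r = a := by
    have h1 : ∫ s, (a - U lam s) ∂M = 0 := by
      rw [integral_sub (integrable_const _) hi2, e2, integral_const, probReal_univ, one_smul,
        sub_self]
    have h2 := (integral_eq_zero_iff_of_nonneg_ae (by
      filter_upwards [hlam] with s hs
      change 0 ≤ a - U lam s
      linarith) ((integrable_const a).sub hi2)).1 h1
    filter_upwards [h2] with s hs
    have h3 : a - U lam s = 0 := hs
    linarith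
  exact ⟨supp_eq hc2 ae2, supp_eq hc1 ae1⟩

end Pool.Agent.Helper342.RV.T2
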