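import Pool.Agent.Helper342.RV.Defs

namespace Pool.Agent.Helper342.RV.T3

open Real

















open MeasureTheory Set







theorem t3_th_pos : 0 < th := by unfold th; positivity

theorem t3_th_lt_pi : th < Real.pi := by
  unfold th; linarith [Real.pi_pos]

theorem t3_sin_pos {t q : ℝ} (h : t < q) (h2 : q - t < th) : 0 < sin ((q - t) / 2) := by
  apply sin_pos_of_pos_of_lt_pi
  · linarith
  · have := t3_th_lt_pi
    have := Real.pi_pos
    linarith

theorem t3_int {P : ℝ → ℝ} (hP : ContinuousOn P (Ioo 0 th)) (q' c : ℝ) {p q : ℝ}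
    (hp : p ∈ Ioo 0 th) (hq : q ∈ Ioo 0 th) :
    IntervalIntegrable (fun t => 2 * sin ((q' - t) / 2) * (P t - c)) volume p q := by
  apply ContinuousOn.intervalIntegrable
  have hs : uIcc p q ⊆ Ioo 0 th := ordConnected_Ioo.uIcc_subset hp hq
  have h1 : ContinuousOn P (uIcc p q) := hP.mono hs
  fun_prop

theorem t3_basic (a p q : ℝ) :
    ∫ t in p..q, 2 * sin ((q - t) / 2) * (a / 4) = a * (1 - cos ((q - p) / 2)) := by
  have h : ∀ t ∈ uIcc p q, HasDerivAt (fun t => a * cos ((q - t) / 2))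
      (2 * sin ((q - t) / 2) * (a / 4)) t := by
    intro t _
    have h1 : HasDerivAt (fun t : ℝ => (q - t) / 2) (-1 / 2) t :=
      ((hasDerivAt_id t).const_sub q).div_const 2
    have h2 := (h1.cos).const_mul a
    exact h2.congr_deriv (by ring)
  rw [intervalIntegral.integral_eq_sub_of_hasDerivAt h (by
    apply Continuous.intervalIntegrable
    fun_prop)]
  simp
  ring

theorem t3_J_eq {P : ℝ → ℝ} (hP : ContinuousOn P (Ioo 0 th)) (a : ℝ) {p q : ℝ}
    (hp : p ∈ Ioo 0 th) (hq : q ∈ Ioo 0 th) :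
    ∫ t in p..q, 2 * sin ((q - t) / 2) * P t =
      (∫ t in p..q, 2 * sin ((q - t) / 2) * (P t - a / 4)) + a * (1 - cos ((q - p) / 2)) := by
  rw [← t3_basic a p q, ← intervalIntegral.integral_add (t3_int hP q (a / 4) hp hq) (by
    apply Continuous.intervalIntegrable
    fun_prop)]
  congr 1
  funext t
  ring

theorem t3_J_pos_right {P : ℝ → ℝ} (hP : ContinuousOn P (Ioo 0 th)) (c : ℝ) {p q : ℝ}
    (hp : p ∈ Ioo 0 th) (hq : q ∈ Ioo 0 th) (hpq : p < q) (h : ∀ t ∈ Ioo p q, c < P t) :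
    0 < ∫ t in p..q, 2 * sin ((q - t) / 2) * (P t - c) := by
  refine intervalIntegral.intervalIntegral_pos_of_pos_on (t3_int hP q c hp hq) ?_ hpq
  intro t ht
  have h1 := t3_sin_pos ht.2 (by linarith [ht.1, hp.1, hq.2])
  have h2 := h t ht
  have : 0 < P t - c := by linarith
  positivity

theorem t3_J_neg_right {P : ℝ → ℝ} (hP : ContinuousOn P (Ioo 0 th)) (c : ℝ) {p q : ℝ}
    (hp : p ∈ Ioo 0 th) (hq : q ∈ Ioo 0 th) (hpq : p < q) (h : ∀ t ∈ Ioo p q, P t < c) :
    ∫ t in p..q, 2 * sin ((q - t) / 2) * (P t - c) < 0 := by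
  have h1 := t3_J_pos_right (P := fun t => - P t) hP.neg (-c) hp hq hpq (fun t ht => by
    have := h t ht; linarith)
  have h2 : ∫ t in p..q, 2 * sin ((q - t) / 2) * (- P t - -c) =
      - ∫ t in p..q, 2 * sin ((q - t) / 2) * (P t - c) := by
    rw [← intervalIntegral.integral_neg]
    congr 1
    funext t
    ring
  rw [h2] at h1
  linarith

theorem t3_J_swap {P : ℝ → ℝ} (c p q : ℝ) :
    ∫ t in p..q, 2 * sin ((q - t) / 2) * (P t - c) =
      ∫ t in q..p, 2 * sin ((t - q) / 2) * (P t - c) := by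
  rw [intervalIntegral.integral_symm, ← intervalIntegral.integral_neg]
  congr 1
  funext t
  have : (t - q) / 2 = -((q - t) / 2) := by ring
  rw [this, sin_neg]
  ring

theorem t3_J_pos_left {P : ℝ → ℝ} (hP : ContinuousOn P (Ioo 0 th)) (c : ℝ) {p q : ℝ}
    (hp : p ∈ Ioo 0 th) (hq : q ∈ Ioo 0 th) (hpq : q < p) (h : ∀ t ∈ Ioo q p, c < P t) :
    0 < ∫ t in p..q, 2 * sin ((q - t) / 2) * (P t - c) := by
  rw [t3_J_swap]
  refine intervalIntegral.intervalIntegral_pos_of_pos_on ?_ ?_ hpq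
  · apply ContinuousOn.intervalIntegrable
    have hs : uIcc q p ⊆ Ioo 0 th := ordConnected_Ioo.uIcc_subset hq hp
    have h1 : ContinuousOn P (uIcc q p) := hP.mono hs
    fun_prop
  intro t ht
  have h1 := t3_sin_pos ht.1 (by linarith [ht.2, hp.2, hq.1])
  have h2 := h t ht
  have : 0 < P t - c := by linarith
  positivity

theorem t3_J_neg_left {P : ℝ → ℝ} (hP : ContinuousOn P (Ioo 0 th)) (c : ℝ) {p q : ℝ}
    (hp : p ∈ Ioo 0 th) (hq : q ∈ Ioo 0 th) (hpq : q < p) (h : ∀ t ∈ Ioo q p, P t < c) :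
    ∫ t in p..q, 2 * sin ((q - t) / 2) * (P t - c) < 0 := by
  have h1 := t3_J_pos_left (P := fun t => - P t) hP.neg (-c) hp hq hpq (fun t ht => by
    have := h t ht; linarith)
  have h2 : ∫ t in p..q, 2 * sin ((q - t) / 2) * (- P t - -c) =
      - ∫ t in p..q, 2 * sin ((q - t) / 2) * (P t - c) := by
    rw [← intervalIntegral.integral_neg]
    congr 1
    funext t
    ring
  rw [h2] at h1
  linarith

/-- derivative of the Green expression at the base point -/
theorem t3_green_deriv {P : ℝ → ℝ} (hP : ContinuousOn P (Ioo 0 th)) (A B : ℝ) {z : ℝ}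
    (hz : z ∈ Ioo 0 th) :
    HasDerivAt (fun q => A * cos ((q - z) / 2) + 2 * B * sin ((q - z) / 2) +
      (2 * sin (q / 2) * (∫ t in z..q, cos (t / 2) * P t) -
        2 * cos (q / 2) * (∫ t in z..q, sin (t / 2) * P t))) B z := by
  have hPz : ContinuousAt P z := hP.continuousAt (isOpen_Ioo.mem_nhds hz)
  have c1 : HasDerivAt (fun q : ℝ => (q - z) / 2) (1 / 2) z :=
    ((hasDerivAt_id z).sub_const z).div_const 2
  have c2 : HasDerivAt (fun q : ℝ => q / 2) (1 / 2) z := (hasDerivAt_id z).div_const 2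
  have i1 : HasDerivAt (fun q => ∫ t in z..q, cos (t / 2) * P t) (cos (z / 2) * P z) z := by
    apply intervalIntegral.integral_hasDerivAt_right
    · exact IntervalIntegrable.refl
    · apply ContinuousOn.stronglyMeasurableAtFilter isOpen_Ioo (s := Ioo 0 th)
      · fun_prop
      · exact hz
    · fun_prop
  have i2 : HasDerivAt (fun q => ∫ t in z..q, sin (t / 2) * P t) (sin (z / 2) * P z) z := by
    apply intervalIntegral.integral_hasDerivAt_right
    · exact IntervalIntegrable.refl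
    · apply ContinuousOn.stronglyMeasurableAtFilter isOpen_Ioo (s := Ioo 0 th)
      · fun_prop
      · exact hz
    · fun_prop
  have h := ((c1.cos.const_mul A).add (c1.sin.const_mul (2 * B))).add
    (((c2.sin.const_mul 2).mul i1).sub ((c2.cos.const_mul 2).mul i2))
  exact h.congr_deriv (by simp; ring)

theorem t3_split {P : ℝ → ℝ} (hP : ContinuousOn P (Ioo 0 th)) {z q : ℝ}
    (hz : z ∈ Ioo 0 th) (hq : q ∈ Ioo 0 th) :
    ∫ t in z..q, 2 * sin ((q - t) / 2) * P t =
      2 * sin (q / 2) * (∫ t in z..q, cos (t / 2) * P t) -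
        2 * cos (q / 2) * (∫ t in z..q, sin (t / 2) * P t) := by
  have hs : uIcc z q ⊆ Ioo 0 th := ordConnected_Ioo.uIcc_subset hz hq
  have h1 : ContinuousOn P (uIcc z q) := hP.mono hs
  rw [← intervalIntegral.integral_const_mul, ← intervalIntegral.integral_const_mul,
    ← intervalIntegral.integral_sub]
  · congr 1
    funext t
    rw [sub_div, sin_sub]
    ring
  · apply ContinuousOn.intervalIntegrable; fun_prop
  · apply ContinuousOn.intervalIntegrable; fun_prop

theorem t3_support_subset {M : Measure ℝ} (hM : M (Icc 0 (th / 2))ᶜ = 0) :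
    M.support ⊆ Icc 0 (th / 2) :=
  Measure.support_subset_of_isClosed isClosed_Icc (by rwa [mem_ae_iff])

theorem t3_compl {M : Measure ℝ} (hM : M (Icc 0 (th / 2))ᶜ = 0) : M (Icc 0 th)ᶜ = 0 := by
  apply measure_mono_null _ hM
  apply compl_subset_compl.2
  apply Icc_subset_Icc le_rfl
  have := t3_th_pos
  linarith

/-- A zero `z` of `U M - a` outside of the support of `M`: then `PP M > a/4` on `(0,z)` and
`U M > a` on `[0,z)`. -/
theorem gap_zero
    (U_continuous : ∀ (μ : Measure ℝ) [IsFiniteMeasure μ], Continuous (U μ))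
    (PP_continuousOn : ∀ (μ : Measure ℝ) [IsFiniteMeasure μ], μ (Icc 0 th)ᶜ = 0 →
      ContinuousOn (PP μ) (Ioo 0 th))
    (U_green_ge : ∀ (μ : Measure ℝ) [IsFiniteMeasure μ], μ (Icc 0 th)ᶜ = 0 →
      ∀ p ∈ Ioo 0 th, ∀ q ∈ Ioo 0 th,
      U μ p * cos ((q - p) / 2) + 2 * U1 μ p * sin ((q - p) / 2)
      + (∫ t in p..q, 2 * sin ((q - t) / 2) * PP μ t) ≤ U μ q)
    (U_green_eq : ∀ (μ : Measure ℝ) [IsFiniteMeasure μ], μ (Icc 0 th)ᶜ = 0 →
      ∀ p ∈ Ioo 0 th, ∀ q ∈ Ioo 0 th, (∀ᵐ s ∂μ, s ∉ uIcc p q ∧ th - s ∉ uIcc p q) →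
      U μ q = U μ p * cos ((q - p) / 2) + 2 * U1 μ p * sin ((q - p) / 2)
      + (∫ t in p..q, 2 * sin ((q - t) / 2) * PP μ t))
    {M : Measure ℝ} [IsProbabilityMeasure M] {a : ℝ} (hM : M (Icc 0 (th / 2))ᶜ = 0)
    (hUM : ∀ r ∈ Icc 0 th, a ≤ U M r)
    (hanti : ∀ t1 t2 : ℝ, 0 < t1 → t1 < t2 → t2 ≤ th / 2 → PP M t2 < PP M t1)
    {z : ℝ} (hz : 0 < z) (hz2 : z ≤ th / 2) (hUz : U M z = a) (hzs : z ∉ M.support) :
    (∀ t ∈ Ioo 0 z, a / 4 < PP M t) ∧ (∀ r ∈ Ico 0 z, a < U M r) := by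
  have hth := t3_th_pos
  have hzI : z ∈ Ioo 0 th := ⟨hz, by linarith⟩
  have hM' := t3_compl hM
  have hP : ContinuousOn (PP M) (Ioo 0 th) := PP_continuousOn M hM'
  -- the local Green identity
  obtain ⟨e, he0, heI, he⟩ : ∃ e > 0, (∀ q ∈ Ioo (z - e) (z + e), q ∈ Ioo 0 th) ∧
      ∀ q ∈ Ioo (z - e) (z + e), ∀ᵐ s ∂M, s ∉ uIcc z q ∧ th - s ∉ uIcc z q := by
    obtain ⟨V, hV, hV0⟩ := Measure.notMem_support_iff_exists.1 hzs
    obtain ⟨e1, he1, hV1⟩ := Metric.mem_nhds_iff.1 hV
    rw [Real.ball_eq_Ioo] at hV1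
    have hI0 : M (Ioo (z - e1) (z + e1)) = 0 := measure_mono_null hV1 hV0
    have hae : ∀ᵐ s ∂M, s ∈ Icc 0 (th / 2) ∧ s ∉ Ioo (z - e1) (z + e1) := by
      have h1 : ∀ᵐ s ∂M, s ∈ Icc 0 (th / 2) := by
        rw [ae_iff]; exact hM
      have h2 : ∀ᵐ s ∂M, s ∉ Ioo (z - e1) (z + e1) := by
        rw [ae_iff]
        refine measure_mono_null ?_ hI0
        intro s hs
        by_contra h
        exact hs h
      filter_upwards [h1, h2] with s h1 h2 using ⟨h1, h2⟩
    rcases lt_or_eq_of_le hz2 with hlt | heq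
    · refine ⟨min e1 (min z (th / 2 - z)), by
        apply lt_min he1; apply lt_min hz; linarith, ?_, ?_⟩
      · intro q hq
        have h1 : min e1 (min z (th / 2 - z)) ≤ z := (min_le_right _ _).trans (min_le_left _ _)
        have h2 : min e1 (min z (th / 2 - z)) ≤ th / 2 - z :=
          (min_le_right _ _).trans (min_le_right _ _)
        exact ⟨by linarith [hq.1], by linarith [hq.2]⟩
      · intro q hq
        have h0 : min e1 (min z (th / 2 - z)) ≤ e1 := min_le_left _ _
        have h2 : min e1 (min z (th / 2 - z)) ≤ th / 2 - z :=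
          (min_le_right _ _).trans (min_le_right _ _)
        have hpos : 0 < min e1 (min z (th / 2 - z)) := by
          apply lt_min he1; apply lt_min hz; linarith
        have hsub : uIcc z q ⊆ Ioo (z - min e1 (min z (th / 2 - z)))
            (z + min e1 (min z (th / 2 - z))) :=
          ordConnected_Ioo.uIcc_subset ⟨by linarith, by linarith⟩ hq
        filter_upwards [hae] with s hs
        constructor
        · intro h
          have := hsub h
          exact hs.2 ⟨by linarith [this.1], by linarith [this.2]⟩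
        · intro h
          have := hsub h
          linarith [this.2, hs.1.2]
    · refine ⟨min e1 z, lt_min he1 hz, ?_, ?_⟩
      · intro q hq
        have h1 : min e1 z ≤ z := min_le_right _ _
        exact ⟨by linarith [hq.1], by linarith [hq.2]⟩
      · intro q hq
        have h0 : min e1 z ≤ e1 := min_le_left _ _
        have hpos : 0 < min e1 z := lt_min he1 hz
        have hsub : uIcc z q ⊆ Ioo (z - min e1 z) (z + min e1 z) :=
          ordConnected_Ioo.uIcc_subset ⟨by linarith, by linarith⟩ hq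
        filter_upwards [hae] with s hs
        constructor
        · intro h
          have := hsub h
          exact hs.2 ⟨by linarith [this.1], by linarith [this.2]⟩
        · intro h
          have := hsub h
          exact hs.2 ⟨by linarith [this.2], by linarith [this.1]⟩
  have hgreen : ∀ q ∈ Ioo (z - e) (z + e), U M q = U M z * cos ((q - z) / 2) +
      2 * U1 M z * sin ((q - z) / 2) + (∫ t in z..q, 2 * sin ((q - t) / 2) * PP M t) :=
    fun q hq => U_green_eq M hM' z hzI q (heI q hq) (he q hq)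
  -- (i)
  have hU1 : U1 M z = 0 := by
    have h1 := t3_green_deriv hP (U M z) (U1 M z) hzI
    have h2 : HasDerivAt (U M) (U1 M z) z := by
      apply h1.congr_of_eventuallyEq
      have hn : Ioo (z - e) (z + e) ∈ nhds z := Ioo_mem_nhds (by linarith) (by linarith)
      filter_upwards [hn] with q hq
      rw [hgreen q hq, t3_split hP hzI (heI q hq)]
    have h3 : IsLocalMin (U M) z := by
      have hn : Ioo 0 th ∈ nhds z := Ioo_mem_nhds hzI.1 hzI.2
      filter_upwards [hn] with q hq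
      rw [hUz]
      exact hUM q ⟨hq.1.le, hq.2.le⟩
    exact h3.hasDerivAt_eq_zero h2
  -- (ii)
  have hii : ∀ t ∈ Ioo 0 z, a / 4 < PP M t := by
    intro t0 ht0
    by_contra hcon
    push Not at hcon
    obtain ⟨q, hq1, hq2⟩ : ∃ q, max t0 (z - e) < q ∧ q < z :=
      exists_between (max_lt ht0.2 (by linarith))
    have hqt : t0 < q := (le_max_left _ _).trans_lt hq1
    have hqe : z - e < q := (le_max_right _ _).trans_lt hq1
    have hq : q ∈ Ioo (z - e) (z + e) := ⟨hqe, by linarith⟩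
    have h1 := hgreen q hq
    rw [hU1, hUz, t3_J_eq hP a hzI (heI q hq)] at h1
    have h2 := t3_J_neg_left hP (a / 4) hzI (heI q hq) hq2 (fun t ht => by
      have := hanti t0 t ht0.1 (hqt.trans ht.1) (ht.2.le.trans hz2)
      linarith)
    have h3 := hUM q ⟨(heI q hq).1.le, (heI q hq).2.le⟩
    nlinarith
  refine ⟨hii, ?_⟩
  have hge : ∀ r ∈ Ioo 0 z, a + (∫ t in z..r, 2 * sin ((r - t) / 2) * (PP M t - a / 4)) ≤
      U M r := by
    intro r hr
    have hrI : r ∈ Ioo 0 th := ⟨hr.1, hr.2.trans hzI.2⟩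
    have h1 := U_green_ge M hM' z hzI r hrI
    rw [hU1, hUz, t3_J_eq hP a hzI hrI] at h1
    linarith
  intro r hr
  rcases eq_or_lt_of_le hr.1 with h0 | h0
  · -- r = 0
    subst h0
    have hz2I : z / 2 ∈ Ioo 0 th := ⟨by linarith, by linarith [hzI.2]⟩
    set c0 := ∫ t in z..(z / 2), 2 * sin ((z / 2 - t) / 2) * (PP M t - a / 4) with hc0
    have hc0pos : 0 < c0 :=
      t3_J_pos_left hP (a / 4) hzI hz2I (by linarith) (fun t ht => hii t ⟨by linarith [ht.1], ht.2⟩)
    have hbound : ∀ r ∈ Ioc 0 (z / 2), a + c0 ≤ U M r := by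
      intro r hr
      have hrI : r ∈ Ioo 0 th := ⟨hr.1, by linarith [hr.2, hzI.2]⟩
      refine le_trans ?_ (hge r ⟨hr.1, by linarith [hr.2]⟩)
      have hsplit : (∫ t in z..r, 2 * sin ((r - t) / 2) * (PP M t - a / 4)) =
          (∫ t in z..(z / 2), 2 * sin ((r - t) / 2) * (PP M t - a / 4)) +
          ∫ t in (z / 2)..r, 2 * sin ((r - t) / 2) * (PP M t - a / 4) :=
        (intervalIntegral.integral_add_adjacent_intervals (t3_int hP r (a / 4) hzI hz2I)
          (t3_int hP r (a / 4) hz2I hrI)).symm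
      have hnn : 0 ≤ ∫ t in (z / 2)..r, 2 * sin ((r - t) / 2) * (PP M t - a / 4) := by
        rcases eq_or_lt_of_le hr.2 with h | h
        · rw [h, intervalIntegral.integral_same]
        · exact (t3_J_pos_left hP (a / 4) hz2I hrI h (fun t ht => hii t
            ⟨by linarith [ht.1, hr.1], by linarith [ht.2]⟩)).le
      have hmono : c0 ≤ ∫ t in z..(z / 2), 2 * sin ((r - t) / 2) * (PP M t - a / 4) := by
        rw [hc0, intervalIntegral.integral_symm, intervalIntegral.integral_symm (z / 2) z]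
        apply neg_le_neg
        apply intervalIntegral.integral_mono_on_of_le_Ioo (by linarith)
          (t3_int hP r (a / 4) hz2I hzI) (t3_int hP (z / 2) (a / 4) hz2I hzI)
        intro t ht
        have h1 : 0 < PP M t - a / 4 := by
          have := hii t ⟨by linarith [ht.1], ht.2⟩
          linarith
        have h2 : sin ((r - t) / 2) ≤ sin ((z / 2 - t) / 2) := by
          apply sin_le_sin_of_le_of_le_pi_div_two
          · have := t3_th_lt_pi
            linarith [ht.2, hr.1, hzI.2]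
          · have := Real.pi_pos
            linarith [ht.1]
          · linarith [hr.2]
        nlinarith
      linarith
    have hcl : (0 : ℝ) ∈ closure (Ioc 0 (z / 2)) := by
      rw [closure_Ioc (by linarith : (0 : ℝ) ≠ z / 2)]
      exact ⟨le_rfl, by linarith⟩
    have hclosed : IsClosed {r | a + c0 ≤ U M r} :=
      isClosed_le continuous_const (U_continuous M)
    have : (0 : ℝ) ∈ {r | a + c0 ≤ U M r} :=
      (closure_minimal (s := Ioc 0 (z / 2)) (t := {r | a + c0 ≤ U M r}) hbound hclosed) hcl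
    have h' : a + c0 ≤ U M 0 := this
    linarith
  · have h1 := hge r ⟨h0, hr.2⟩
    have hrI : r ∈ Ioo 0 th := ⟨h0, hr.2.trans hzI.2⟩
    have h2 := t3_J_pos_left hP (a / 4) hzI hrI hr.2 (fun t ht => hii t ⟨h0.trans ht.1, ht.2⟩)
    linarith

/-- the support of `M` has no gaps in the open side -/
theorem no_gap
    (U_continuous : ∀ (μ : Measure ℝ) [IsFiniteMeasure μ], Continuous (U μ))
    (PP_continuousOn : ∀ (μ : Measure ℝ) [IsFiniteMeasure μ], μ (Icc 0 th)ᶜ = 0 →
      ContinuousOn (PP μ) (Ioo 0 th))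
    (U_refl : ∀ (μ : Measure ℝ) (r : ℝ), U μ (th - r) = U μ r)
    (PP_refl : ∀ (μ : Measure ℝ) (t : ℝ), PP μ (th - t) = PP μ t)
    (U_green_ge : ∀ (μ : Measure ℝ) [IsFiniteMeasure μ], μ (Icc 0 th)ᶜ = 0 →
      ∀ p ∈ Ioo 0 th, ∀ q ∈ Ioo 0 th,
      U μ p * cos ((q - p) / 2) + 2 * U1 μ p * sin ((q - p) / 2)
      + (∫ t in p..q, 2 * sin ((q - t) / 2) * PP μ t) ≤ U μ q)
    (U_green_eq : ∀ (μ : Measure ℝ) [IsFiniteMeasure μ], μ (Icc 0 th)ᶜ = 0 →
      ∀ p ∈ Ioo 0 th, ∀ q ∈ Ioo 0 th, (∀ᵐ s ∂μ, s ∉ uIcc p q ∧ th - s ∉ uIcc p q) →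
      U μ q = U μ p * cos ((q - p) / 2) + 2 * U1 μ p * sin ((q - p) / 2)
      + (∫ t in p..q, 2 * sin ((q - t) / 2) * PP μ t))
    {M lam : Measure ℝ} [IsProbabilityMeasure M] [IsProbabilityMeasure lam] {a : ℝ}
    (hM : M (Icc 0 (th / 2))ᶜ = 0) (hlam : lam (Icc 0 (th / 2))ᶜ = 0)
    (hUl : ∀ r ∈ Icc 0 th, U lam r ≤ a)
    (hantil : ∀ t1 t2 : ℝ, 0 < t1 → t1 < t2 → t2 ≤ th / 2 → PP lam t2 < PP lam t1)
    (hc1 : ∀ r ∈ M.support, U lam r = a) (hc2 : ∀ r ∈ lam.support, U M r = a)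
    (hC1 : ∀ g ∈ M.support, 0 < g → lam.real {g} = 0 ∧ U1 lam g = 0)
    (hmass : ∀ g : ℝ, 0 < g → g ≤ th / 2 → lam.real {g} = 0 → U1 lam g = 0 →
      6 / 7 ≤ lam.real (Iio g))
    (gap_zero : ∀ z : ℝ, 0 < z → z ≤ th / 2 → U M z = a → z ∉ M.support →
      ∀ r ∈ Ico 0 z, a < U M r)
    {g : ℝ} (hg : g ∈ M.support) (hg0 : 0 < g) : Icc g (th / 2) ⊆ M.support := by
  have hth := t3_th_pos
  have hlam' := t3_compl hlam
  have hP : ContinuousOn (PP lam) (Ioo 0 th) := PP_continuousOn lam hlam'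
  intro t' ht'
  by_contra hts
  have hgt : g ≠ t' := fun h => hts (h ▸ hg)
  have hScl : IsClosed M.support := Measure.isClosed_support
  have hSsub := t3_support_subset hM
  -- the left end of the gap
  obtain ⟨g1, hg1S, hgg1, hg1t, hg1gap⟩ : ∃ g1 ∈ M.support, g ≤ g1 ∧ g1 < t' ∧
      ∀ x ∈ Ioc g1 t', x ∉ M.support := by
    have hK : IsCompact (M.support ∩ Icc g t') := isCompact_Icc.inter_left hScl
    have hne : (M.support ∩ Icc g t').Nonempty := ⟨g, hg, le_rfl, ht'.1⟩
    have h1 := hK.sSup_mem hne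
    refine ⟨sSup (M.support ∩ Icc g t'), h1.1, h1.2.1, ?_, ?_⟩
    · exact lt_of_le_of_ne h1.2.2 (fun h => hts (h ▸ h1.1))
    · intro x hx hxS
      have := le_csSup hK.bddAbove (⟨hxS, h1.2.1.trans hx.1.le, hx.2⟩ : x ∈ M.support ∩ Icc g t')
      linarith [hx.1]
  have hg10 : 0 < g1 := hg0.trans_le hgg1
  have hg1h : g1 < th / 2 := hg1t.trans_le ht'.2
  have hg1I : g1 ∈ Ioo 0 th := ⟨hg10, by linarith⟩
  obtain ⟨hlg1, hU1g1⟩ := hC1 g1 hg1S hg10
  have hUg1 := hc1 g1 hg1S
  -- Claim A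
  have hA0 : ∀ t ∈ Ioc g1 (th / 2), PP lam t < a / 4 := by
    intro t ht
    by_contra hcon
    push Not at hcon
    have htI : t ∈ Ioo 0 th := ⟨hg10.trans ht.1, by linarith [ht.2]⟩
    have h1 := U_green_ge lam hlam' g1 hg1I t htI
    rw [hU1g1, hUg1, t3_J_eq hP a hg1I htI] at h1
    have h2 := t3_J_pos_right hP (a / 4) hg1I htI ht.1 (fun u hu =>
      lt_of_le_of_lt hcon (hantil u t (hg10.trans hu.1) hu.2 ht.2))
    have h3 := hUl t ⟨htI.1.le, htI.2.le⟩
    linarith
  have hA : ∀ t ∈ Ioo g1 (th - g1), PP lam t < a / 4 := by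
    intro t ht
    rcases le_total t (th / 2) with h | h
    · exact hA0 t ⟨ht.1, h⟩
    · rw [← PP_refl]
      exact hA0 (th - t) ⟨by linarith [ht.2], by linarith⟩
  -- the right end of the gap
  have haelam : ∀ᵐ s ∂lam, s ∈ Icc 0 (th / 2) := by
    rw [ae_iff]; exact hlam
  have haeg1 : ∀ᵐ s ∂lam, s ≠ g1 := by
    rw [ae_iff]
    have h1 : lam {g1} = 0 := by
      rwa [measureReal_eq_zero_iff] at hlg1
    refine measure_mono_null ?_ h1
    intro s hs
    simpa using hs
  obtain ⟨g2, hg12, hg2le, hUg2, hg2gap, hg2ae⟩ : ∃ g2, g1 < g2 ∧ g2 ≤ th - g1 ∧ U lam g2 = a ∧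
      (∀ x ∈ Ioo g1 g2, x ≤ th / 2 → x ∉ M.support) ∧
      (lam (Ioo g1 g2 ∩ Iic (th / 2)) = 0 →
        ∀ᵐ s ∂lam, s ∉ uIcc g1 g2 ∧ th - s ∉ uIcc g1 g2) := by
    by_cases hne : (M.support ∩ Icc t' (th / 2)).Nonempty
    · have hK : IsCompact (M.support ∩ Icc t' (th / 2)) := isCompact_Icc.inter_left hScl
      have h1 := hK.sInf_mem hne
      set g2 := sInf (M.support ∩ Icc t' (th / 2)) with hg2
      have hg2t : t' < g2 := lt_of_le_of_ne h1.2.1 (fun h => hts (h ▸ h1.1))
      have hg2h : g2 ≤ th / 2 := h1.2.2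
      refine ⟨g2, hg1t.trans hg2t, by linarith, hc1 g2 h1.1, ?_, ?_⟩
      · intro x hx hxh hxS
        rcases le_total x t' with h | h
        · exact hg1gap x ⟨hx.1, h⟩ hxS
        · have := csInf_le hK.bddBelow (⟨hxS, h, hxh⟩ : x ∈ M.support ∩ Icc t' (th / 2))
          linarith [hx.2]
      · intro h0
        have hlg2 := (hC1 g2 h1.1 (by linarith)).1
        have haeg2 : ∀ᵐ s ∂lam, s ≠ g2 := by
          rw [ae_iff]
          have h1 : lam {g2} = 0 := by
            rwa [measureReal_eq_zero_iff] at hlg2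
          refine measure_mono_null ?_ h1
          intro s hs
          simpa using hs
        have hae0 : ∀ᵐ s ∂lam, s ∉ Ioo g1 g2 ∩ Iic (th / 2) := by
          rw [ae_iff]
          refine measure_mono_null ?_ h0
          intro s hs
          by_contra h
          exact hs h
        filter_upwards [haelam, haeg1, haeg2, hae0] with s hs1 hs2 hs3 hs4
        rw [uIcc_of_le (by linarith)]
        have key : s ∉ Icc g1 g2 := by
          intro h
          apply hs4
          exact ⟨⟨lt_of_le_of_ne h.1 hs2.symm, lt_of_le_of_ne h.2 hs3⟩, hs1.2⟩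
        refine ⟨key, ?_⟩
        intro h
        have h5 : s = g2 := by linarith [h.2, hs1.2]
        exact hs3 h5
    · refine ⟨th - g1, by linarith, le_rfl, by rw [U_refl]; exact hUg1, ?_, ?_⟩
      · intro x hx hxh hxS
        rcases le_total x t' with h | h
        · exact hg1gap x ⟨hx.1, h⟩ hxS
        · exact hne ⟨x, hxS, h, hxh⟩
      · intro h0
        have hae0 : ∀ᵐ s ∂lam, s ∉ Ioo g1 (th - g1) ∩ Iic (th / 2) := by
          rw [ae_iff]
          refine measure_mono_null ?_ h0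
          intro s hs
          by_contra h
          exact hs h
        filter_upwards [haelam, haeg1, hae0] with s hs1 hs2 hs4
        rw [uIcc_of_le (by linarith)]
        have key : s ∉ Icc g1 (th - g1) := by
          intro h
          apply hs4
          exact ⟨⟨lt_of_le_of_ne h.1 hs2.symm, by linarith [hs1.2]⟩, hs1.2⟩
        refine ⟨key, ?_⟩
        intro h
        exact key ⟨by linarith [h.2], by linarith [h.1]⟩
  have hg2I : g2 ∈ Ioo 0 th := ⟨by linarith, by linarith⟩
  -- Claim B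
  have hB : 0 < lam (Ioo g1 g2 ∩ Iic (th / 2)) := by
    rw [pos_iff_ne_zero]
    intro h0
    have h1 := U_green_eq lam hlam' g1 hg1I g2 hg2I (hg2ae h0)
    rw [hU1g1, hUg1, hUg2, t3_J_eq hP a hg1I hg2I] at h1
    have h2 := t3_J_neg_right hP (a / 4) hg1I hg2I hg12 (fun t ht =>
      hA t ⟨ht.1, ht.2.trans_le hg2le⟩)
    linarith
  obtain ⟨z, hz, hzl⟩ := Measure.nonempty_inter_support_of_pos hB
  have hz0 : 0 < z := hg10.trans hz.1.1
  have hzS : z ∉ M.support := hg2gap z hz.1 hz.2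
  have hgz := gap_zero z hz0 hz.2 (hc2 z hzl) hzS
  have hnull : lam (Iio g1) = 0 := by
    have hsub : Iio g1 ⊆ (Icc 0 (th / 2))ᶜ ∪ lam.supportᶜ := by
      intro x hx
      by_cases hx0 : 0 ≤ x
      · right
        intro hxs
        have h1 := hgz x ⟨hx0, lt_trans hx hz.1.1⟩
        have h2 := hc2 x hxs
        linarith
      · left
        intro h
        exact hx0 h.1
    refine measure_mono_null hsub ?_
    rw [measure_union_null_iff]
    exact ⟨hlam, Measure.measure_compl_support⟩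
  have h7 := hmass g1 hg10 hg1h.le hlg1 hU1g1
  rw [measureReal_def, hnull] at h7
  norm_num at h7

end Pool.Agent.Helper342.RV.T3
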