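import Pool.Agent.Helper342.RV.Defs

namespace Pool.Agent.Helper342.RV.T4

open Real

















open MeasureTheory Set








theorem suppM {M : Measure ℝ} {h : ℝ} (hM : M (Icc 0 h)ᶜ = 0) : M.support ⊆ Icc 0 h :=
  Measure.support_subset_of_isClosed isClosed_Icc (by rw [mem_ae_iff]; exact hM)

theorem intK (continuous_K : Continuous (fun p : ℝ × ℝ => K p.1 p.2))
    (K_nonneg : ∀ s r : ℝ, 0 ≤ K s r) (K_le : ∀ s r : ℝ, K s r ≤ 4)
    (μ : Measure ℝ) [IsFiniteMeasure μ] (r : ℝ) : Integrable (fun s => K s r) μ := by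
  have hc : Continuous (fun s => K s r) :=
    Continuous.comp (g := fun p : ℝ × ℝ => K p.1 p.2) (f := fun s : ℝ => (s, r)) continuous_K
      (Continuous.prodMk_left r)
  exact Integrable.of_bound hc.aestronglyMeasurable 4 (Filter.Eventually.of_forall (fun s => by
    rw [Real.norm_eq_abs, abs_of_nonneg (K_nonneg s r)]; exact K_le s r))

theorem intU (continuous_K : Continuous (fun p : ℝ × ℝ => K p.1 p.2))
    (K_nonneg : ∀ s r : ℝ, 0 ≤ K s r) (K_le : ∀ s r : ℝ, K s r ≤ 4)
    (U_continuous : ∀ (μ : Measure ℝ) [IsFiniteMeasure μ], Continuous (U μ))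
    (μ ν : Measure ℝ) [IsFiniteMeasure μ] [IsFiniteMeasure ν] : Integrable (U μ) ν := by
  refine Integrable.of_bound (U_continuous μ).aestronglyMeasurable (4 * μ.real univ)
    (Filter.Eventually.of_forall (fun r => ?_))
  unfold U
  refine (norm_integral_le_of_norm_le_const (C := 4) (Filter.Eventually.of_forall (fun s => ?_)))
  rw [Real.norm_eq_abs, abs_of_nonneg (K_nonneg s r)]; exact K_le s r

/-- case A: impossible by the energy inequality -/
theorem energy_case
    (continuous_K : Continuous (fun p : ℝ × ℝ => K p.1 p.2))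
    (K_nonneg : ∀ s r : ℝ, 0 ≤ K s r) (K_le : ∀ s r : ℝ, K s r ≤ 4)
    (K_symm : ∀ s r : ℝ, K s r = K r s)
    (U_continuous : ∀ (μ : Measure ℝ) [IsFiniteMeasure μ], Continuous (U μ))
    (energy_K : ∀ (α β : Measure ℝ) [IsFiniteMeasure α] [IsFiniteMeasure β],
      α (Icc 0 th)ᶜ = 0 → β (Icc 0 th)ᶜ = 0 → α univ = β univ →
      (∫ r, U α r ∂α) + (∫ r, U β r ∂β) ≤ 2 * ∫ r, U β r ∂α)
    {M lam : Measure ℝ} [IsProbabilityMeasure M] [IsProbabilityMeasure lam] {a : ℝ}
    (hM : M (Icc 0 (th / 2))ᶜ = 0) (hlam : lam (Icc 0 (th / 2))ᶜ = 0)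
    (hUM : ∀ r ∈ Icc 0 th, a ≤ U M r) (hUl : ∀ r ∈ Icc 0 th, U lam r ≤ a)
    (hc1 : ∀ r ∈ M.support, U lam r = a) (hc2 : ∀ r ∈ lam.support, U M r = a)
    (hsub : lam.support ⊆ M.support) {y : ℝ} (hy : y ∈ Icc 0 th) (hUy : a < U M y) : False := by
  have hth : 0 < th := by unfold th; positivity
  have hIcc : Icc 0 (th/2) ⊆ Icc 0 th := Icc_subset_Icc le_rfl (by linarith)
  have hM' : M (Icc 0 th)ᶜ = 0 := measure_mono_null (compl_subset_compl.mpr hIcc) hM
  have hlam' : lam (Icc 0 th)ᶜ = 0 := measure_mono_null (compl_subset_compl.mpr hIcc) hlam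
  have iK := fun (μ : Measure ℝ) [IsFiniteMeasure μ] r => intK continuous_K K_nonneg K_le μ r
  have iU := fun (μ ν : Measure ℝ) [IsFiniteMeasure μ] [IsFiniteMeasure ν] =>
    intU continuous_K K_nonneg K_le U_continuous μ ν
  have aeM : ∀ᵐ r ∂M, r ∈ M.support := Measure.support_mem_ae
  have ael : ∀ᵐ r ∂lam, r ∈ lam.support := Measure.support_mem_ae
  have i1 : ∫ r, U lam r ∂M = a := by
    rw [integral_congr_ae (g := fun _ => a) (by filter_upwards [aeM] with r hr using hc1 r hr)]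
    simp
  have i2 : ∫ r, U lam r ∂lam = a := by
    rw [integral_congr_ae (g := fun _ => a)
      (by filter_upwards [ael] with r hr using hc1 r (hsub hr))]
    simp
  have i3 : a ≤ ∫ r, U M r ∂M := by
    have h1 : ∫ r, a ∂M ≤ ∫ r, U M r ∂M := by
      apply integral_mono_ae (integrable_const a) (iU M M)
      filter_upwards [aeM] with r hr
      exact hUM r (hIcc (suppM hM hr))
    simpa using h1
  obtain ⟨w, hw⟩ : lam.support.Nonempty := Measure.nonempty_support (IsProbabilityMeasure.ne_zero lam)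
  have hwth : w ∈ Icc 0 th := hIcc (suppM hlam hw)
  have hw1 : U M w = a := hc2 w hw
  have hw2 : U lam w = a := hc1 w (hsub hw)
  -- the perturbation
  have key : ∀ t : NNReal, 2 * (t:ℝ) * (U M y - a) + (t:ℝ)^2 * (K y y + K w w - 2 * K w y) ≤ 0 := by
    intro t
    have e1 : ∀ r, U (M + t • Measure.dirac y) r = U M r + t * K y r := by
      intro r
      unfold U
      rw [integral_add_measure (iK _ r) (iK _ r), integral_smul_nnreal_measure, integral_dirac]
      rfl
    have e2 : ∀ r, U (lam + t • Measure.dirac w) r = U lam r + t * K w r := by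
      intro r
      unfold U
      rw [integral_add_measure (iK _ r) (iK _ r), integral_smul_nnreal_measure, integral_dirac]
      rfl
    have iK' : ∀ (μ : Measure ℝ) [IsFiniteMeasure μ] (z : ℝ), Integrable (fun r => K z r) μ := by
      intro μ _ z
      have := iK μ z
      refine this.congr (Filter.Eventually.of_forall (fun r => ?_))
      exact K_symm r z
    have eK : ∀ (μ : Measure ℝ) (z : ℝ), ∫ r, K z r ∂μ = U μ z := by
      intro μ z
      unfold U
      apply integral_congr_ae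
      exact Filter.Eventually.of_forall (fun r => K_symm z r)
    have f1 : ∫ r, U (M + t • Measure.dirac y) r ∂(M + t • Measure.dirac y)
        = (∫ r, U M r ∂M) + 2 * t * U M y + t^2 * K y y := by
      rw [integral_add_measure (iU _ _) (iU _ _), integral_smul_nnreal_measure, integral_dirac]
      simp_rw [e1]
      rw [integral_add (iU _ _) ((iK' _ _).const_mul _), integral_const_mul, eK]
      show _ + (t:ℝ) * _ = _
      ring
    have f2 : ∫ r, U (lam + t • Measure.dirac w) r ∂(lam + t • Measure.dirac w)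
        = (∫ r, U lam r ∂lam) + 2 * t * U lam w + t^2 * K w w := by
      rw [integral_add_measure (iU _ _) (iU _ _), integral_smul_nnreal_measure, integral_dirac]
      simp_rw [e2]
      rw [integral_add (iU _ _) ((iK' _ _).const_mul _), integral_const_mul, eK]
      show _ + (t:ℝ) * _ = _
      ring
    have f3 : ∫ r, U (lam + t • Measure.dirac w) r ∂(M + t • Measure.dirac y)
        = (∫ r, U lam r ∂M) + t * U lam y + t * U M w + t^2 * K w y := by
      rw [integral_add_measure (iU _ _) (iU _ _), integral_smul_nnreal_measure, integral_dirac]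
      simp_rw [e2]
      rw [integral_add (iU _ _) ((iK' _ _).const_mul _), integral_const_mul, eK]
      show _ + (t:ℝ) * _ = _
      ring
    have g1 : (M + t • Measure.dirac y) (Icc 0 th)ᶜ = 0 := by
      rw [Measure.add_apply, hM', Measure.smul_apply,
        Measure.dirac_apply' _ measurableSet_Icc.compl, indicator_of_notMem (by simpa using hy)]
      simp
    have g2 : (lam + t • Measure.dirac w) (Icc 0 th)ᶜ = 0 := by
      rw [Measure.add_apply, hlam', Measure.smul_apply,
        Measure.dirac_apply' _ measurableSet_Icc.compl, indicator_of_notMem (by simpa using hwth)]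
      simp
    have g3 : (M + t • Measure.dirac y) univ = (lam + t • Measure.dirac w) univ := by
      simp [Measure.add_apply, Measure.smul_apply]
    have g := energy_K _ _ g1 g2 g3
    rw [f1, f2, f3, i1, i2, hw1, hw2] at g
    have h5 := hUl y hy
    have h6 : (t:ℝ) * U lam y ≤ t * a := mul_le_mul_of_nonneg_left h5 t.2
    nlinarith
  have hΔ : 0 < (U M y - a) / 8 := by linarith
  have hk := key (Real.toNNReal ((U M y - a) / 8))
  rw [Real.coe_toNNReal _ hΔ.le] at hk
  have k1 := K_nonneg y y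
  have k2 := K_nonneg w w
  have k3 := K_le w y
  nlinarith [mul_pos hΔ hΔ]

/-- Structure of the support of `M`: `{0} ∪ [s0, th/2]` with a unique further zero `z`. -/
theorem struct_zero
    (K_refl_r : ∀ s r : ℝ, K s (th - r) = K s r)
    (K_anti : ∀ s r q : ℝ, s ≤ th / 2 → 0 ≤ r → r < q → q ≤ s → K s q < K s r)
    (continuous_K : Continuous (fun p : ℝ × ℝ => K p.1 p.2))
    (K_nonneg : ∀ s r : ℝ, 0 ≤ K s r) (K_le : ∀ s r : ℝ, K s r ≤ 4)
    (K_zero : K 0 0 = 2 / 3)
    (U_continuous : ∀ (μ : Measure ℝ) [IsFiniteMeasure μ], Continuous (U μ))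
    {M lam : Measure ℝ} [IsProbabilityMeasure M] [IsProbabilityMeasure lam] {a : ℝ}
    (ha : 6671 / 10000 ≤ a)
    (hM : M (Icc 0 (th / 2))ᶜ = 0) (hlam : lam (Icc 0 (th / 2))ᶜ = 0)
    (hUM : ∀ r ∈ Icc 0 th, a ≤ U M r) (hUl : ∀ r ∈ Icc 0 th, U lam r ≤ a)
    (hc1 : ∀ r ∈ M.support, U lam r = a) (hc2 : ∀ r ∈ lam.support, U M r = a)
    (hNC : ¬ ∀ r ∈ Icc 0 th, U lam r = a)
    (hE : lam.support ⊆ M.support → ∀ y ∈ Icc 0 th, a < U M y → False)
    (hC1 : ∀ g ∈ M.support, 0 < g → lam.real {g} = 0 ∧ U1 lam g = 0)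
    (hmass : ∀ g : ℝ, 0 < g → g ≤ th / 2 → lam.real {g} = 0 → U1 lam g = 0 →
      6 / 7 ≤ lam.real (Iio g))
    (gap_zero : ∀ z : ℝ, 0 < z → z ≤ th / 2 → U M z = a → z ∉ M.support →
      (∀ t ∈ Ioo 0 z, a / 4 < PP M t) ∧ (∀ r ∈ Ico 0 z, a < U M r))
    (no_gap : ∀ g ∈ M.support, 0 < g → Icc g (th / 2) ⊆ M.support) :
    ∃ s0 z : ℝ, 0 < z ∧ z < s0 ∧ s0 ≤ th / 2 ∧ 0 ∈ M.support ∧ Icc s0 (th / 2) ⊆ M.support ∧
      M (Ioo 0 s0) = 0 ∧ U M z = a ∧ (∀ r ∈ Ico 0 s0, r ≠ z → a < U M r) ∧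
      (∀ t ∈ Ioo 0 z, a / 4 < PP M t) := by
  have hth : 0 < th := by unfold th; positivity
  have hIcc : Icc 0 (th/2) ⊆ Icc 0 th := Icc_subset_Icc le_rfl (by linarith)
  have iK := fun (μ : Measure ℝ) [IsFiniteMeasure μ] r => intK continuous_K K_nonneg K_le μ r
  have aeM : ∀ᵐ r ∂M, r ∈ M.support := Measure.support_mem_ae
  have ael : ∀ᵐ r ∂lam, r ∈ lam.support := Measure.support_mem_ae
  have sM := suppM hM
  have sl := suppM hlam
  have hcl : IsClosed M.support := Measure.isClosed_support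
  -- (1)
  have h1 : (M.support ∩ Ioi 0).Nonempty := by
    by_contra hne
    rw [not_nonempty_iff_eq_empty] at hne
    have hz : ∀ᵐ s ∂M, K s 0 = 2/3 := by
      filter_upwards [aeM] with s hs
      have h2 : s = 0 := by
        by_contra h3
        have h4 : 0 ≤ s := (sM hs).1
        have h5 : s ∈ M.support ∩ Ioi 0 := ⟨hs, lt_of_le_of_ne h4 (Ne.symm h3)⟩
        rw [hne] at h5
        exact h5
      rw [h2, K_zero]
    have h6 : U M 0 = 2/3 := by
      unfold U
      rw [integral_congr_ae hz]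
      simp
    have h7 := hUM 0 ⟨le_rfl, hth.le⟩
    rw [h6] at h7
    linarith
  obtain ⟨s0, hs0⟩ : ∃ s0, s0 = sInf (M.support ∩ Ioi 0) := ⟨_, rfl⟩
  have hbdd : BddBelow (M.support ∩ Ioi 0) := ⟨0, fun x hx => le_of_lt hx.2⟩
  have hs0nn : 0 ≤ s0 := by rw [hs0]; exact le_csInf h1 (fun x hx => le_of_lt hx.2)
  have hs0s : s0 ∈ M.support := by
    have h2 := csInf_mem_closure h1 hbdd
    rw [← hs0] at h2
    exact hcl.closure_subset_iff.mpr inter_subset_left h2
  have hs0h : s0 ≤ th/2 := (sM hs0s).2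
  -- (2)
  have hs0pos : 0 < s0 := by
    rcases hs0nn.eq_or_lt with h0 | h0
    · exfalso
      apply hNC
      have hIoc : Ioc 0 (th/2) ⊆ M.support := by
        intro r hr
        have h2 : sInf (M.support ∩ Ioi 0) < r := by rw [← hs0, ← h0]; exact hr.1
        obtain ⟨g, hg, hgr⟩ := exists_lt_of_csInf_lt h1 h2
        exact no_gap g hg.1 hg.2 ⟨hgr.le, hr.2⟩
      have hIcc2 : Icc 0 (th/2) ⊆ M.support := by
        have h3 : closure (Ioc 0 (th/2)) = Icc 0 (th/2) := closure_Ioc (by positivity)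
        rw [← h3]
        exact hcl.closure_subset_iff.mpr hIoc
      intro r hr
      rcases le_total r (th/2) with h4 | h4
      · exact hc1 r (hIcc2 ⟨hr.1, h4⟩)
      · have h5 : U lam r = U lam (th - r) := by
          unfold U
          apply integral_congr_ae
          exact Filter.Eventually.of_forall (fun s => (K_refl_r s r).symm)
        rw [h5]
        exact hc1 _ (hIcc2 ⟨by linarith [hr.2], by linarith⟩)
    · exact h0
  have hno : ∀ r ∈ Ioo 0 s0, r ∉ M.support := by
    intro r hr hrs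
    have h2 := csInf_le hbdd (⟨hrs, hr.1⟩ : r ∈ M.support ∩ Ioi 0)
    rw [← hs0] at h2
    linarith [hr.2]
  have hM0 : M (Ioo 0 s0) = 0 := by
    have h2 : M (M.support)ᶜ = 0 := Measure.measure_compl_support
    exact measure_mono_null (fun r hr => hno r hr) h2
  have hC := hC1 s0 hs0s hs0pos
  have hm := hmass s0 hs0pos hs0h hC.1 hC.2
  -- (3)
  have h0s : (0:ℝ) ∈ M.support := by
    by_contra h0
    have hge : ∀ᵐ s ∂M, s0 ≤ s := by
      filter_upwards [aeM] with s hs
      by_contra h2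
      push Not at h2
      have h3 := (sM hs).1
      rcases h3.eq_or_lt with h4 | h4
      · exact h0 (h4 ▸ hs)
      · exact hno s ⟨h4, h2⟩ hs
    have hlt : ∀ r ∈ Ico 0 s0, a < U M r := by
      intro r hr
      have h2 : a ≤ U M s0 := hUM s0 (hIcc ⟨hs0nn, hs0h⟩)
      have hae : ∀ᵐ s ∂M, K s s0 < K s r := by
        filter_upwards [aeM, hge] with s hs hs2
        exact K_anti s r s0 (sM hs).2 hr.1 hr.2 hs2
      have hi : Integrable (fun s => K s r - K s s0) M := (iK M r).sub (iK M s0)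
      have h3 : 0 < ∫ s, (K s r - K s s0) ∂M := by
        rw [integral_pos_iff_support_of_nonneg_ae _ hi]
        · rw [pos_iff_ne_zero]
          intro h4
          have h5 : ∀ᵐ s ∂M, False := by
            have h6 : ∀ᵐ s ∂M, ¬ (s ∈ Function.support (fun s => K s r - K s s0)) := by
              rw [ae_iff]
              simp only [not_not]
              exact h4
            filter_upwards [hae, h6] with s hs hs'
            exact hs' (by rw [Function.mem_support]; exact (sub_pos.mpr hs).ne')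
          rw [Filter.eventually_false_iff_eq_bot, ae_eq_bot] at h5
          exact IsProbabilityMeasure.ne_zero M h5
        · filter_upwards [hae] with s hs using (sub_pos.mpr hs).le
      rw [integral_sub (iK M r) (iK M s0)] at h3
      have h3' : U M s0 < U M r := by
        unfold U
        linarith
      linarith
    have h7 : lam (Iio s0) = 0 := by
      have h8 : ∀ᵐ s ∂lam, ¬ (s < s0) := by
        filter_upwards [ael] with s hs h9
        have h10 := hlt s ⟨(sl hs).1, h9⟩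
        rw [hc2 s hs] at h10
        exact lt_irrefl _ h10
      rw [ae_iff] at h8
      simpa [Iio] using h8
    have h11 : lam.real (Iio s0) = 0 := by rw [measureReal_def, h7]; rfl
    rw [h11] at hm
    linarith
  -- (4)
  have hz : ∃ z ∈ Ioo 0 s0, U M z = a := by
    by_contra hne
    push Not at hne
    apply hE ?_ (s0/2) (hIcc ⟨by linarith, by linarith⟩)
      (lt_of_le_of_ne (hUM _ (hIcc ⟨by linarith, by linarith⟩))
        (Ne.symm (hne (s0/2) ⟨by linarith, by linarith⟩)))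
    intro r hr
    rcases (sl hr).1.eq_or_lt with h2 | h2
    · exact h2 ▸ h0s
    · rcases lt_or_ge r s0 with h3 | h3
      · exact absurd (hc2 r hr) (hne r ⟨h2, h3⟩)
      · exact no_gap s0 hs0s hs0pos ⟨h3, (sl hr).2⟩
  obtain ⟨z, hz1, hz2⟩ := hz
  have hzns : z ∉ M.support := hno z hz1
  have hgz := gap_zero z hz1.1 (by linarith [hz1.2]) hz2 hzns
  refine ⟨s0, z, hz1.1, hz1.2, hs0h, h0s, no_gap s0 hs0s hs0pos, hM0, hz2, ?_, hgz.1⟩
  intro r hr hrz
  rcases lt_or_gt_of_ne hrz with h2 | h2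
  · exact hgz.2 r ⟨hr.1, h2⟩
  · have h3 : a ≤ U M r := hUM r (hIcc ⟨hr.1, by linarith [hr.2]⟩)
    refine lt_of_le_of_ne h3 (fun h4 => ?_)
    have h5 := (gap_zero r (lt_trans hz1.1 h2) (by linarith [hr.2]) h4.symm
      (hno r ⟨lt_trans hz1.1 h2, hr.2⟩)).2 z ⟨hz1.1.le, h2⟩
    rw [hz2] at h5
    exact lt_irrefl _ h5

theorem meas_PK : Measurable (fun p : ℝ × ℝ => PK p.1 p.2) := by
  unfold PK kn dd DD
  fun_prop

/-- `s0 ≤ 1/4` -/
theorem s0_bound
    (continuous_K : Continuous (fun p : ℝ × ℝ => K p.1 p.2))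
    (K_nonneg : ∀ s r : ℝ, 0 ≤ K s r) (K_le : ∀ s r : ℝ, K s r ≤ 4)
    (continuousOn_PK' : ContinuousOn (fun p : ℝ × ℝ => PK p.1 p.2) (Ioo 0 th ×ˢ Icc 0 th))
    (PK_zero : ∀ t : ℝ, PK 0 t = 1 / 12)
    (numF0 : K 0 (th / 2) ≤ 67843 / 100000)
    (numF4 : ∀ s : ℝ, 1 / 4 ≤ s → s ≤ th / 2 →
      PK s 0 - 1 / 12 ≤ 6 * (K 0 (th / 2) - K s (th / 2)))
    {M : Measure ℝ} [IsProbabilityMeasure M] {a s0 z : ℝ} (ha : 6671 / 10000 ≤ a)
    (hM : M (Icc 0 (th / 2))ᶜ = 0) (hUM : ∀ r ∈ Icc 0 th, a ≤ U M r)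
    (hz : 0 < z) (hz2 : z < s0) (hs0 : s0 ≤ th / 2) (hM0 : M (Ioo 0 s0) = 0)
    (hP : ∀ t ∈ Ioo 0 z, a / 4 < PP M t) : s0 ≤ 1 / 4 := by
  by_contra hcon
  push Not at hcon
  have hth : 0 < th := by unfold th; positivity
  have iK := fun (μ : Measure ℝ) [IsFiniteMeasure μ] r => intK continuous_K K_nonneg K_le μ r
  have hae : ∀ᵐ s ∂M, s = 0 ∨ s ∈ Icc s0 (th/2) := by
    have h1 : ∀ᵐ s ∂M, s ∈ Icc 0 (th/2) := by rw [ae_iff]; exact hM
    have h2 : ∀ᵐ s ∂M, s ∉ Ioo 0 s0 := by
      rw [ae_iff]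
      simp only [not_not]
      exact hM0
    filter_upwards [h1, h2] with s hs hs'
    rcases hs.1.eq_or_lt with h3 | h3
    · exact Or.inl h3.symm
    · right
      refine ⟨?_, hs.2⟩
      by_contra h4
      push Not at h4
      exact hs' ⟨h3, h4⟩
  have hcpt : IsCompact (Icc s0 (th/2) ×ˢ Icc 0 z) := isCompact_Icc.prod isCompact_Icc
  have hsub : Icc s0 (th/2) ×ˢ Icc 0 z ⊆ Ioo 0 th ×ˢ Icc 0 th := by
    rintro ⟨s, t⟩ ⟨hs, ht⟩
    simp only [mem_Icc] at hs ht
    refine ⟨⟨by simp only; linarith, by simp only; linarith⟩, ⟨by simp only; linarith, by simp only; linarith⟩⟩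
  obtain ⟨C, hC⟩ := hcpt.exists_bound_of_continuousOn (continuousOn_PK'.mono hsub)
  have hbd : ∀ t ∈ Icc 0 z, ∀ᵐ s ∂M, ‖PK s t‖ ≤ max C (1/12) := by
    intro t ht
    filter_upwards [hae] with s hs
    rcases hs with hs | hs
    · rw [hs, PK_zero, Real.norm_eq_abs, abs_of_pos (by norm_num)]
      exact le_max_right _ _
    · exact (hC (s, t) ⟨hs, ht⟩).trans (le_max_left _ _)
  have hmeas : ∀ t : ℝ, AEStronglyMeasurable (fun s => PK s t) M := fun t =>
    (meas_PK.comp (measurable_prodMk_right (y := t))).aestronglyMeasurable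
  let t : ℕ → ℝ := fun n => z / (n + 2)
  have ht0 : ∀ n, t n ∈ Ioo 0 z := by
    intro n
    refine ⟨by positivity, ?_⟩
    show z / ((n:ℝ) + 2) < z
    rw [div_lt_iff₀ (by positivity)]
    nlinarith [(Nat.cast_nonneg n : (0:ℝ) ≤ n)]
  have htl : Filter.Tendsto t Filter.atTop (nhds 0) := by
    have h1 : Filter.Tendsto (fun n : ℕ => ((n:ℝ) + 2)) Filter.atTop Filter.atTop :=
      Filter.tendsto_atTop_add_const_right _ _ tendsto_natCast_atTop_atTop
    exact h1.const_div_atTop z
  have lim : Filter.Tendsto (fun n => PP M (t n)) Filter.atTop (nhds (PP M 0)) := by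
    unfold PP
    apply tendsto_integral_of_dominated_convergence (fun _ => max C (1/12)) (fun n => hmeas _)
      (integrable_const _) (fun n => hbd _ ⟨(ht0 n).1.le, (ht0 n).2.le⟩)
    filter_upwards [hae] with s hs
    rcases hs with hs | hs
    · rw [hs]
      simp_rw [PK_zero]
      exact tendsto_const_nhds
    · have hmem : ((s, (0:ℝ)) : ℝ × ℝ) ∈ Ioo 0 th ×ˢ Icc 0 th := by
        simp only [mem_Icc] at hs
        exact ⟨⟨by simp only; linarith, by simp only; linarith⟩, ⟨le_rfl, hth.le⟩⟩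
      have h1 := continuousOn_PK' (s, 0) hmem
      have h2 : Filter.Tendsto (fun n => ((s, t n) : ℝ × ℝ)) Filter.atTop
          (nhdsWithin (s, 0) (Ioo 0 th ×ˢ Icc 0 th)) := by
        rw [tendsto_nhdsWithin_iff]
        refine ⟨tendsto_const_nhds.prodMk_nhds htl, Filter.Eventually.of_forall (fun n => ?_)⟩
        have h3 := ht0 n
        simp only [mem_Ioo] at h3
        exact ⟨hmem.1, ⟨h3.1.le, by simp only; linarith⟩⟩
      exact Filter.Tendsto.comp (f := fun n => ((s, t n) : ℝ × ℝ))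
        (g := fun p : ℝ × ℝ => PK p.1 p.2) h1 h2
  have h2 : a / 4 ≤ PP M 0 := ge_of_tendsto' lim (fun n => (hP _ (ht0 n)).le)
  have iP : Integrable (fun s => PK s 0) M :=
    Integrable.of_bound (hmeas 0) _ (hbd 0 ⟨le_rfl, hz.le⟩)
  have h3 : ∫ s, (PK s 0 - 1/12) ∂M ≤ ∫ s, 6 * (K 0 (th/2) - K s (th/2)) ∂M := by
    apply integral_mono_ae (iP.sub (integrable_const _))
      (((integrable_const _).sub (iK M (th/2))).const_mul 6)
    filter_upwards [hae] with s hs
    rcases hs with hs | hs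
    · show PK s 0 - 1/12 ≤ 6 * (K 0 (th/2) - K s (th/2))
      rw [hs, PK_zero]; simp
    · exact numF4 s (by linarith [hs.1]) hs.2
  rw [integral_sub iP (integrable_const _), integral_const_mul,
    integral_sub (integrable_const _) (iK M (th/2))] at h3
  have h4 : a ≤ U M (th/2) := hUM _ ⟨by positivity, by linarith⟩
  unfold PP at h2
  unfold U at h4
  simp only [integral_const, probReal_univ, one_smul, smul_eq_mul, one_mul] at h3
  linarith

theorem int_sin (s0 : ℝ) : ∫ t in (0:ℝ)..s0, 2 * sin (t/2) = 4 * (1 - cos (s0/2)) := by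
  have h : ∀ t ∈ Set.uIcc 0 s0, HasDerivAt (fun t : ℝ => -4 * cos (t/2)) (2 * sin (t/2)) t := by
    intro t _
    have h1 : HasDerivAt (fun t : ℝ => t/2) (1/2) t := (hasDerivAt_id t).div_const 2
    have h2 := (h1.cos).const_mul (-4)
    exact h2.congr_deriv (by ring)
  rw [intervalIntegral.integral_eq_sub_of_hasDerivAt h
    (by apply Continuous.intervalIntegrable; fun_prop)]
  simp
  ring

theorem int_sin_le (s0 : ℝ) (h0 : 0 ≤ s0) : ∫ t in (0:ℝ)..s0, 2 * sin (t/2) ≤ s0^2/2 := by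
  rw [int_sin]
  have := Real.one_sub_sq_div_two_le_cos (x := s0/2)
  nlinarith

/-- `z ≤ s0^2/5` -/
theorem z_bound
    (continuousOn_PK' : ContinuousOn (fun p : ℝ × ℝ => PK p.1 p.2) (Ioo 0 th ×ˢ Icc 0 th))
    (dd_le_one : ∀ u w : ℝ, u ∈ Icc 0 th → w ∈ Icc 0 th → dd u w ≤ 1)
    (dd_pos : ∀ u w : ℝ, u ∈ Icc 0 th → w ∈ Icc 0 th → (0 < u ∨ 0 < w) → 0 < dd u w)
    {lam : Measure ℝ} [IsProbabilityMeasure lam] {a s0 z : ℝ} (ha : a ≤ 67 / 100)
    (hlam : lam (Icc 0 (th / 2))ᶜ = 0)
    (hz : 0 < z) (hz2 : z < s0) (hs0 : s0 ≤ 1 / 4)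
    (hl0 : ∀ᵐ s ∂lam, s = z ∨ s0 < s) (hU0 : U lam 0 = a) (hUs : U lam s0 = a)
    (hU1 : U1 lam s0 = 0) (hmass : 6 / 7 ≤ lam.real (Iio s0))
    (U_green_vertex :
      U lam 0 = U lam s0 * cos (s0 / 2) - 2 * U1 lam s0 * sin (s0 / 2)
      + (∫ s in Iio s0, (2 / 3) * sin (s / 2) ∂lam)
      + (∫ t in (0 : ℝ)..s0, 2 * sin (t / 2) * PP lam t)) : z ≤ s0 ^ 2 / 5 := by
  have hpi := Real.pi_gt_three
  have hth1 : 1 < th := by unfold th; linarith
  have hth : 0 < th := by linarith
  have hs0p : 0 < s0 := lt_trans hz hz2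
  obtain ⟨m, hm⟩ : ∃ m, m = lam.real (Iio s0) := ⟨_, rfl⟩
  rw [← hm] at hmass
  have hm1 : m ≤ 1 := by rw [hm]; exact measureReal_le_one
  have hae : ∀ᵐ s ∂lam, s ∈ Icc z (th/2) := by
    have h1 : ∀ᵐ s ∂lam, s ∈ Icc 0 (th/2) := by rw [ae_iff]; exact hlam
    filter_upwards [h1, hl0] with s hs hs'
    rcases hs' with h2 | h2
    · exact ⟨h2.ge, hs.2⟩
    · exact ⟨by linarith, hs.2⟩
  -- lower bound for kernel
  have kn_nonneg : ∀ u w : ℝ, 0 ≤ kn u w := by
    intro u w
    unfold kn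
    have : 0 ≤ dd u w := Real.sqrt_nonneg _
    positivity
  have PK_nonneg : ∀ s t : ℝ, 0 ≤ PK s t := by
    intro s t
    unfold PK
    have h1 := kn_nonneg s t
    have h2 := kn_nonneg (th - s) t
    have h3 := kn_nonneg s (th - t)
    have h4 := kn_nonneg (th - s) (th - t)
    linarith
  obtain ⟨c, hc⟩ : ∃ c, c = (2 * cos z - 1)^2 / 12 := ⟨_, rfl⟩
  have kn_lb : ∀ w ∈ Icc 0 th, (2 * cos z - 1)^2 / 4 ≤ kn (th - z) w := by
    intro w hw
    have hu : th - z ∈ Icc 0 th := ⟨by linarith, by linarith⟩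
    have h1 := dd_le_one (th - z) w hu hw
    have h2 := dd_pos (th - z) w hu hw (Or.inl (by linarith))
    unfold kn
    rw [show th - (th - z) = z by ring]
    apply div_le_div_of_nonneg_left (sq_nonneg _) (by positivity)
    have h3 : dd (th - z) w ^ 3 ≤ 1 := pow_le_one₀ h2.le h1
    linarith
  have PK_lb : ∀ t ∈ Icc 0 s0, c ≤ PK z t := by
    intro t ht
    have h1 := kn_lb t ⟨ht.1, by linarith [ht.2]⟩
    have h2 := kn_lb (th - t) ⟨by linarith [ht.2], by linarith [ht.1]⟩
    have h3 := kn_nonneg z t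
    have h4 := kn_nonneg z (th - t)
    unfold PK
    rw [hc]
    linarith
  -- bounds and integrability
  have hcpt : IsCompact (Icc z (th/2) ×ˢ Icc 0 s0) := isCompact_Icc.prod isCompact_Icc
  have hsub : Icc z (th/2) ×ˢ Icc 0 s0 ⊆ Ioo 0 th ×ˢ Icc 0 th := by
    rintro ⟨s, t⟩ ⟨hs, ht⟩
    simp only [mem_Icc] at hs ht
    refine ⟨⟨by simp only; linarith, by simp only; linarith⟩, ⟨by simp only; linarith, by simp only; linarith⟩⟩
  obtain ⟨C, hC⟩ := hcpt.exists_bound_of_continuousOn (continuousOn_PK'.mono hsub)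
  have hbd : ∀ t ∈ Icc 0 s0, ∀ᵐ s ∂lam, ‖PK s t‖ ≤ C := by
    intro t ht
    filter_upwards [hae] with s hs
    exact hC (s, t) ⟨hs, ht⟩
  have hmeas : ∀ t : ℝ, AEStronglyMeasurable (fun s => PK s t) lam := fun t =>
    (meas_PK.comp (measurable_prodMk_right (y := t))).aestronglyMeasurable
  have iP : ∀ t ∈ Icc 0 s0, Integrable (fun s => PK s t) lam := fun t ht =>
    Integrable.of_bound (hmeas t) _ (hbd t ht)
  have hPPm : StronglyMeasurable (fun t => PP lam t) := by
    unfold PP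
    exact StronglyMeasurable.integral_prod_left (f := fun s t => PK s t)
      (meas_PK.stronglyMeasurable)
  have hPPb : ∀ t ∈ Icc 0 s0, ‖PP lam t‖ ≤ C := by
    intro t ht
    have h1 := norm_integral_le_of_norm_le_const (hbd t ht)
    rw [probReal_univ, mul_one] at h1
    exact h1
  have hPPlb : ∀ t ∈ Icc 0 s0, m * c ≤ PP lam t := by
    intro t ht
    have h1 : ∫ s, (Iio s0).indicator (fun _ => c) s ∂lam = m * c := by
      rw [integral_indicator measurableSet_Iio, setIntegral_const, smul_eq_mul, hm]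
    rw [← h1]
    unfold PP
    apply integral_mono_ae ((integrable_const c).indicator measurableSet_Iio) (iP t ht)
    filter_upwards [hl0] with s hs
    by_cases h2 : s ∈ Iio s0
    · rw [indicator_of_mem h2]
      rcases hs with h3 | h3
      · rw [h3]; exact PK_lb t ht
      · exact absurd h2 (by simp only [mem_Iio]; linarith)
    · rw [indicator_of_notMem h2]
      exact PK_nonneg s t
  have iPP : IntervalIntegrable (fun t => 2 * sin (t/2) * PP lam t) volume 0 s0 := by
    rw [intervalIntegrable_iff_integrableOn_Ioc_of_le hs0p.le]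
    refine Integrable.of_bound (C := 2 * C) ?_ ?_
    · refine AEStronglyMeasurable.mul ?_ hPPm.aestronglyMeasurable
      exact (by fun_prop : Continuous fun t : ℝ => 2 * sin (t/2)).aestronglyMeasurable
    · rw [ae_restrict_iff' measurableSet_Ioc]
      refine Filter.Eventually.of_forall (fun t ht => ?_)
      rw [norm_mul]
      have h1 := hPPb t ⟨ht.1.le, ht.2⟩
      have h2 : ‖2 * sin (t/2)‖ ≤ 2 := by
        rw [norm_mul, Real.norm_eq_abs, Real.norm_eq_abs, abs_of_pos (by norm_num : (0:ℝ) < 2)]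
        have := Real.abs_sin_le_one (t/2)
        linarith
      exact mul_le_mul h2 h1 (norm_nonneg _) (by norm_num)
  have isin : IntervalIntegrable (fun t : ℝ => 2 * sin (t/2)) volume 0 s0 := by
    apply Continuous.intervalIntegrable; fun_prop
  -- the green integral lower bound
  have hsinp : ∀ t ∈ Icc 0 s0, 0 ≤ 2 * sin (t/2) := by
    intro t ht
    have := Real.sin_nonneg_of_nonneg_of_le_pi (x := t/2) (by linarith [ht.1]) (by linarith [ht.2])
    linarith
  have g1 : (∫ t in (0:ℝ)..s0, 2 * sin (t/2)) * (m * c) ≤ ∫ t in (0:ℝ)..s0, 2 * sin (t/2) * PP lam t := by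
    rw [← intervalIntegral.integral_mul_const]
    apply intervalIntegral.integral_mono_on hs0p.le (isin.mul_const _) iPP
    intro t ht
    exact mul_le_mul_of_nonneg_left (hPPlb t ht) (hsinp t ht)
  have g2 : ∫ s in Iio s0, (2/3) * sin (s/2) ∂lam = m * ((2/3) * sin (z/2)) := by
    have h1 : ∫ s in Iio s0, (2/3) * sin (s/2) ∂lam = ∫ s in Iio s0, (2/3) * sin (z/2) ∂lam := by
      apply setIntegral_congr_ae measurableSet_Iio
      filter_upwards [hl0] with s hs h2
      rcases hs with h3 | h3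
      · rw [h3]
      · exact absurd h2 (by simp only [mem_Iio]; linarith)
    rw [h1, setIntegral_const, smul_eq_mul, hm]
  rw [hU0, hUs, hU1, g2] at U_green_vertex
  have g3 := int_sin s0
  have g4 := int_sin_le s0 hs0p.le
  have g5 : 0 ≤ ∫ t in (0:ℝ)..s0, 2 * sin (t/2) :=
    intervalIntegral.integral_nonneg hs0p.le hsinp
  obtain ⟨J, hJ⟩ : ∃ J, J = ∫ t in (0:ℝ)..s0, 2 * sin (t/2) := ⟨_, rfl⟩
  rw [← hJ] at g1 g3 g4 g5
  have hcnn : 0 ≤ c := by rw [hc]; positivity
  -- main inequality: m * (2/3) sin (z/2) ≤ J * (a/4 - m c)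
  have main : m * ((2/3) * sin (z/2)) ≤ J * (a/4 - m * c) := by
    have e1 : cos (s0/2) = 1 - J/4 := by linarith
    rw [e1] at U_green_vertex
    nlinarith
  have hsz : z/2 - (z/2)^3/6 < sin (z/2) := Real.sin_gt_sub_cube (by linarith)
  have hs0sq : s0^2 ≤ 1/16 := by nlinarith
  -- crude bound
  have hsinz : 0 ≤ sin (z/2) := Real.sin_nonneg_of_nonneg_of_le_pi (by linarith) (by linarith)
  have crude : z ≤ 2/100 := by
    have h1 : J * (a/4 - m*c) ≤ (s0^2/2) * (67/400) := by
      have h2 : a/4 - m * c ≤ 67/400 := by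
        have : 0 ≤ m * c := mul_nonneg (by linarith) hcnn
        linarith
      have h3 : J * (a/4 - m*c) ≤ J * (67/400) := mul_le_mul_of_nonneg_left h2 g5
      nlinarith
    have h4 : (6/7) * ((2/3) * sin (z/2)) ≤ m * ((2/3) * sin (z/2)) :=
      mul_le_mul_of_nonneg_right hmass (by positivity)
    have h5 : sin (z/2) ≤ 916/100000 + 1/100000 := by linarith
    by_contra h6
    push Not at h6
    have h7 : sin (1/100) ≤ sin (z/2) :=
      Real.sin_le_sin_of_le_of_le_pi_div_two (by linarith) (by linarith) (by linarith)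
    have h8 : (1/100:ℝ) - (1/100)^3/6 < sin (1/100) := Real.sin_gt_sub_cube (by norm_num)
    norm_num at h8
    linarith
  have hcosz : 1 - z^2/2 ≤ cos z := Real.one_sub_sq_div_two_le_cos
  have hclb : 999/12000 ≤ c := by
    rw [hc]
    have h1 : 1 - z^2 ≤ 2 * cos z - 1 := by linarith
    have h2 : (9996/10000:ℝ) ≤ 1 - z^2 := by nlinarith
    have h3 : (9996/10000:ℝ)^2 ≤ (2 * cos z - 1)^2 := by
      apply pow_le_pow_left₀ (by norm_num) (by linarith)
    norm_num at h3 ⊢
    linarith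
  -- fine bound
  have fine1 : m * ((2/3) * sin (z/2)) ≤ (s0^2/2) * (67/400 - 999/12000 * m) := by
    have h2 : a/4 - m * c ≤ 67/400 - 999/12000 * m := by nlinarith
    have h3 : J * (a/4 - m*c) ≤ J * (67/400 - 999/12000 * m) := mul_le_mul_of_nonneg_left h2 g5
    have h4 : 0 ≤ 67/400 - 999/12000 * m := by linarith
    have h5 : J * (67/400 - 999/12000 * m) ≤ (s0^2/2) * (67/400 - 999/12000 * m) :=
      mul_le_mul_of_nonneg_right g4 h4
    linarith
  have fine2 : (67/400 - 999/12000 * m) ≤ m * (1122/10000) := by linarith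
  have fine3 : m * ((2/3) * sin (z/2)) ≤ m * ((s0^2/2) * (1122/10000)) := by
    have : (s0^2/2) * (67/400 - 999/12000 * m) ≤ (s0^2/2) * (m * (1122/10000)) :=
      mul_le_mul_of_nonneg_left fine2 (by positivity)
    linarith
  have fine4 : (2/3) * sin (z/2) ≤ (s0^2/2) * (1122/10000) :=
    le_of_mul_le_mul_left fine3 (by linarith)
  have fine5 : z/2 * (9999/10000) ≤ sin (z/2) := by
    have h1 : (z/2)^3/6 ≤ z/2 * (1/10000) := by
      have h2 : (z/2)^2 ≤ 1/10000 := by nlinarith
      nlinarith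
    linarith
  linarith

end Pool.Agent.Helper342.RV.T4
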