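import Pool.Agent.Helper342.RV.L1b
import Pool.Agent.Helper342.RV.NC
import Pool.Agent.Helper342.RV.E2
import Pool.Agent.Helper342.RV.F2
import Pool.Agent.Helper342.RV.I1
import Pool.Agent.Helper342.RV.K2
import Pool.Agent.Helper342.RV.T1
import Pool.Agent.Helper342.RV.T2
import Pool.Agent.Helper342.RV.T3
import Pool.Agent.Helper342.RV.T4

/-! The structure theorem for the maximising measure. -/

namespace Pool.Agent.Helper342.RV

open Real Set MeasureTheory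

theorem U_cont (μ : Measure ℝ) [IsFiniteMeasure μ] : Continuous (U μ) :=
  T1.U_continuous K1f.continuous_K K1f.K_nonneg K1f.K_le μ

theorem PP_contOn (μ : Measure ℝ) [IsFiniteMeasure μ] (hμ : μ (Icc 0 th)ᶜ = 0) :
    ContinuousOn (PP μ) (Ioo 0 th) :=
  T1.PP_continuousOn K1f.continuousOn_PK μ hμ

theorem U_low (μ : Measure ℝ) [IsFiniteMeasure μ] (hμ : μ (Icc 0 th)ᶜ = 0) {p q : ℝ}
    (hp : p ∈ Icc 0 th) (hq : q ∈ Icc 0 th) :
    U μ p * cos ((q - p) / 2) + 2 * U1 μ p * sin ((q - p) / 2)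
      + μ.real {p} * (sin (|q - p| / 2) / 3) ≤ U μ q :=
  T1.U_lower K1f.continuous_K K1f.K_nonneg K1f.K_le K1f.measurable_K1
    (fun _ _ hs hr => K1f.abs_K1_le hs hr)
    (fun _ _ _ hs hp hq => K2.K_lower (fun _ hu p q => A.dd_lower hu p q) hs hp hq) μ hμ hp hq

theorem U_gge (μ : Measure ℝ) [IsFiniteMeasure μ] (hμ : μ (Icc 0 th)ᶜ = 0) (p : ℝ)
    (hp : p ∈ Ioo 0 th) (q : ℝ) (hq : q ∈ Ioo 0 th) :
    U μ p * cos ((q - p) / 2) + 2 * U1 μ p * sin ((q - p) / 2)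
      + (∫ t in p..q, 2 * sin ((q - t) / 2) * PP μ t) ≤ U μ q :=
  T1.U_green_ge K1f.continuous_K K1f.K_nonneg K1f.K_le K1f.measurable_K1
    (fun _ _ hs hr => K1f.abs_K1_le hs hr) K1f.continuousOn_PK
    (fun _ _ _ hs hp hq => K2.K_green_ge (fun _ _ hu hw h => B.DD_pos hu hw h)
      (fun _ _ _ h => A.dd_green h) hs hp hq) μ hμ hp hq

theorem U_geq (μ : Measure ℝ) [IsFiniteMeasure μ] (hμ : μ (Icc 0 th)ᶜ = 0) (p : ℝ)
    (hp : p ∈ Ioo 0 th) (q : ℝ) (hq : q ∈ Ioo 0 th)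
    (h1 : ∀ᵐ s ∂μ, s ∉ uIcc p q ∧ th - s ∉ uIcc p q) :
    U μ q = U μ p * cos ((q - p) / 2) + 2 * U1 μ p * sin ((q - p) / 2)
      + (∫ t in p..q, 2 * sin ((q - t) / 2) * PP μ t) :=
  T1.U_green_eq K1f.continuous_K K1f.K_nonneg K1f.K_le K1f.measurable_K1
    (fun _ _ hs hr => K1f.abs_K1_le hs hr) K1f.continuousOn_PK
    (fun _ _ _ hs hp hq h1 h2 => K2.K_green (fun _ _ hu hw h => B.DD_pos hu hw h)
      (fun _ _ _ h => A.dd_green h) hs hp hq h1 h2) μ hμ hp hq h1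

theorem U_gvertex (μ : Measure ℝ) [IsFiniteMeasure μ] {η s0 : ℝ} (hη : 0 < η)
    (hμ : μ (Icc η (th / 2))ᶜ = 0) (hs0 : 0 < s0) (hs1 : s0 < th / 2) (h0 : μ {s0} = 0) :
    U μ 0 = U μ s0 * cos (s0 / 2) - 2 * U1 μ s0 * sin (s0 / 2)
      + (∫ s in Iio s0, (2 / 3) * sin (s / 2) ∂μ)
      + (∫ t in (0 : ℝ)..s0, 2 * sin (t / 2) * PP μ t) :=
  T1.U_green_vertex K1f.continuous_K K1f.K_nonneg K1f.K_le K1f.measurable_K1
    (fun _ _ hs hr => K1f.abs_K1_le hs hr) K1f.continuousOn_PK'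
    (fun _ _ h1 h2 h3 h4 h5 => K2.K_green_vertex (fun _ _ hu hw h => B.DD_pos hu hw h)
      (fun _ _ _ h => A.dd_green h) h1 h2 h3 h4 h5) μ hη hμ hs0 hs1 h0

theorem supp_th {μ : Measure ℝ} (h : μ (Icc 0 (th / 2))ᶜ = 0) : μ (Icc 0 th)ᶜ = 0 := by
  apply measure_mono_null _ h
  apply compl_subset_compl.2
  apply Icc_subset_Icc_right
  have := th_pos
  linarith

theorem supp_sub {μ : Measure ℝ} (h : μ (Icc 0 (th / 2))ᶜ = 0) : μ.support ⊆ Icc 0 (th / 2) :=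
  Measure.support_subset_of_isClosed isClosed_Icc (by rwa [mem_ae_iff])

theorem U_refl (μ : Measure ℝ) (r : ℝ) : U μ (th - r) = U μ r := by
  unfold U; simp only [K1f.K_refl_r]

theorem PP_refl (μ : Measure ℝ) (t : ℝ) : PP μ (th - t) = PP μ t := by
  unfold PP; simp only [K1f.PK_refl_t]

theorem compl' (M lam : Measure ℝ) [IsProbabilityMeasure M] [IsProbabilityMeasure lam] (a : ℝ)
    (hM : ∀ᵐ r ∂lam, a ≤ U M r) (hlam : ∀ᵐ r ∂M, U lam r ≤ a) :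
    (∀ r ∈ M.support, U lam r = a) ∧ (∀ r ∈ lam.support, U M r = a) :=
  T2.compl K1f.K_symm K1f.continuous_K K1f.K_nonneg K1f.K_le hM hlam

theorem mass' (lam : Measure ℝ) [IsProbabilityMeasure lam] (hl : lam (Icc 0 (th / 2))ᶜ = 0)
    (g : ℝ) (hg : 0 < g) (hg2 : g ≤ th / 2) (h0 : lam.real {g} = 0) (h1 : U1 lam g = 0) :
    6 / 7 ≤ lam.real (Iio g) :=
  T2.mass_lemma K1f.measurable_K1 (fun _ _ hs hr => K1f.abs_K1_le hs hr)
    (fun _ _ h1 h2 h3 => K1_neg h1 h2 h3) (fun _ _ h1 h2 h3 => K1_pos h1 h2 h3) hl hg hg2 h0 h1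

theorem PP_anti' (lam : Measure ℝ) [IsProbabilityMeasure lam] (hl : lam (Icc 0 (th / 2))ᶜ = 0)
    (hc : 37 / 10000 < K 0 (th / 2) - U lam (th / 2)) (t1 t2 : ℝ) (h0 : 0 < t1) (h1 : t1 < t2)
    (h2 : t2 ≤ th / 2) : PP lam t2 < PP lam t1 :=
  T2.PP_anti K1f.continuous_K K1f.K_nonneg K1f.K_le
    (fun μ _ hμ _ ht => T1.PP_integrable K1f.continuousOn_PK μ hμ ht)
    (fun _ _ _ hs h0 h1 h2 => PK_mono hs h0 h1 h2) hl hc h0 h1 h2

/-- the energy inequality for the averaged kernel -/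
theorem energyK (α β : Measure ℝ) [IsFiniteMeasure α] [IsFiniteMeasure β]
    (hα : α (Icc 0 th)ᶜ = 0) (hβ : β (Icc 0 th)ᶜ = 0) (hm : α univ = β univ) :
    (∫ r, U α r ∂α) + (∫ r, U β r ∂β) ≤ 2 * ∫ r, U β r ∂α :=
  I1.energy_K K1f.K_symm K1f.sum_dK K1f.continuous_K K1f.K_nonneg K1f.K_le
    (fun α β _ _ R h1 h2 h3 => F2.energy_le α β R h1 h2 h3) α β hα hβ hm

/-- The structure theorem. -/
theorem structure_thm {M lam : Measure ℝ} [IsProbabilityMeasure M] [IsProbabilityMeasure lam]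
    {a : ℝ} (ha : 6671 / 10000 ≤ a) (ha2 : a ≤ 67 / 100)
    (hM : M (Icc 0 (th / 2))ᶜ = 0) (hlam : lam (Icc 0 (th / 2))ᶜ = 0)
    (hUM : ∀ r ∈ Icc 0 th, a ≤ U M r) (hUl : ∀ r ∈ Icc 0 th, U lam r ≤ a) :
    ∃ s0 z : ℝ, 0 < z ∧ z < s0 ∧ z ≤ s0 ^ 2 / 5 ∧ s0 ≤ 1 / 4 ∧ 0 ∈ M.support ∧
      Icc s0 (th / 2) ⊆ M.support ∧ M (Ioo 0 s0) = 0 ∧
      (∀ r ∈ Ico 0 s0, r ≠ z → a < U M r) := by
  have hth := th_pos
  have hMth := supp_th hM
  have hlth := supp_th hlam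
  have hMs := supp_sub hM
  have hls := supp_sub hlam
  obtain ⟨hc1, hc2⟩ := compl' M lam a
    (by
      have : ∀ᵐ r ∂lam, r ∈ Icc 0 th := by rwa [ae_iff]
      filter_upwards [this] with r hr using hUM r hr)
    (by
      have : ∀ᵐ r ∂M, r ∈ Icc 0 th := by rwa [ae_iff]
      filter_upwards [this] with r hr using hUl r hr)
  have hantiM : ∀ t1 t2 : ℝ, 0 < t1 → t1 < t2 → t2 ≤ th / 2 → PP M t2 < PP M t1 := by
    apply PP_anti' M hM
    apply T2.anti_cond K1f.continuous_K K1f.K_nonneg K1f.K_le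
      (fun _ h1 h2 => E1.numF1 h1 h2) hM
    exact ha.trans (hUM 0 ⟨le_rfl, hth.le⟩)
  have hantil : ∀ t1 t2 : ℝ, 0 < t1 → t1 < t2 → t2 ≤ th / 2 → PP lam t2 < PP lam t1 := by
    apply PP_anti' lam hlam
    have h1 := hUl (th / 2) ⟨by linarith, by linarith⟩
    have h2 := E1.numF0.1
    linarith
  have hC1 : ∀ g ∈ M.support, 0 < g → lam.real {g} = 0 ∧ U1 lam g = 0 := by
    intro g hg hg0
    exact T2.C1 (ε := 1) hg0 (hMs hg).2 one_pos (fun p q hp hq => U_low lam hlth hp hq)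
      (hc1 g hg) (fun q hq _ => hUl q hq)
  have hmass : ∀ g : ℝ, 0 < g → g ≤ th / 2 → lam.real {g} = 0 → U1 lam g = 0 →
      6 / 7 ≤ lam.real (Iio g) := fun g h1 h2 h3 h4 => mass' lam hlam g h1 h2 h3 h4
  have hgz : ∀ z : ℝ, 0 < z → z ≤ th / 2 → U M z = a → z ∉ M.support →
      (∀ t ∈ Ioo 0 z, a / 4 < PP M t) ∧ (∀ r ∈ Ico 0 z, a < U M r) := fun z h1 h2 h3 h4 =>
    T3.gap_zero (fun μ _ => U_cont μ) (fun μ _ h => PP_contOn μ h)
      (fun μ _ h p hp q hq => U_gge μ h p hp q hq) (fun μ _ h p hp q hq h1 => U_geq μ h p hp q hq h1)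
      hM hUM hantiM h1 h2 h3 h4
  have hng : ∀ g ∈ M.support, 0 < g → Icc g (th / 2) ⊆ M.support := fun g hg hg0 =>
    T3.no_gap (fun μ _ => U_cont μ) (fun μ _ h => PP_contOn μ h) U_refl PP_refl
      (fun μ _ h p hp q hq => U_gge μ h p hp q hq) (fun μ _ h p hp q hq h1 => U_geq μ h p hp q hq h1)
      hM hlam hUl hantil hc1 hc2 hC1 hmass (fun z h1 h2 h3 h4 => (hgz z h1 h2 h3 h4).2) hg hg0
  obtain ⟨s0, z, hz, hzs, hs0, h0, hsup, hM0, hUz, hgap, hP⟩ :=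
    T4.struct_zero K1f.K_refl_r (fun _ _ _ h1 h2 h3 h4 => K_anti h1 h2 h3 h4) K1f.continuous_K
      K1f.K_nonneg K1f.K_le E1.numF0.2.2 (fun μ _ => U_cont μ) ha hM hlam hUM hUl hc1 hc2
      (no_const hlth)
      (fun hsub y hy hUy => T4.energy_case K1f.continuous_K K1f.K_nonneg K1f.K_le K1f.K_symm
        (fun μ _ => U_cont μ) (fun α β _ _ h1 h2 h3 => energyK α β h1 h2 h3) hM hlam hUM hUl hc1 hc2
        hsub hy hUy)
      hC1 hmass hgz hng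
  have hs14 : s0 ≤ 1 / 4 := T4.s0_bound K1f.continuous_K K1f.K_nonneg K1f.K_le
    K1f.continuousOn_PK' K1f.PK_zero E1.numF0.2.1 (fun _ h1 h2 => E1.numF4 h1 h2) ha hM hUM hz hzs
    hs0 hM0 hP
  have hs0pos : 0 < s0 := hz.trans hzs
  have hs0M : s0 ∈ M.support := hsup ⟨le_rfl, hs0⟩
  have hs0lt : s0 < th / 2 := by
    have : (3 : ℝ) < Real.pi := Real.pi_gt_three
    have : th / 2 = Real.pi / 6 := by unfold th; ring
    linarith
  obtain ⟨hl0, hU1⟩ := hC1 s0 hs0M hs0pos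
  have hms := hmass s0 hs0pos hs0 hl0 hU1
  have hls0 : lam {s0} = 0 := by
    rw [measureReal_def, ENNReal.toReal_eq_zero_iff] at hl0
    rcases hl0 with h | h
    · exact h
    · exact absurd h (measure_ne_top _ _)
  have hae : ∀ᵐ s ∂lam, s = z ∨ s0 < s := by
    have h1 : ∀ᵐ s ∂lam, s ∈ lam.support := Measure.support_mem_ae
    have h2 : ∀ᵐ s ∂lam, s ≠ s0 := by rw [ae_iff]; simpa using hls0
    filter_upwards [h1, h2] with s hs hs'
    by_contra hcon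
    push Not at hcon
    have h3 : s < s0 := lt_of_le_of_ne hcon.2 hs'
    have h4 := hgap s ⟨(hls hs).1, h3⟩ hcon.1
    have h5 := hc2 s hs
    linarith
  have hsuppz : lam (Icc z (th / 2))ᶜ = 0 := by
    have h1 : ∀ᵐ s ∂lam, s ∈ Icc 0 (th / 2) := by rwa [ae_iff]
    have h2 : ∀ᵐ s ∂lam, s ∈ Icc z (th / 2) := by
      filter_upwards [h1, hae] with s hs hs'
      refine ⟨?_, hs.2⟩
      rcases hs' with h | h
      · exact h.ge
      · linarith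
    rwa [ae_iff] at h2
  have hgv := U_gvertex lam hz hsuppz hs0pos hs0lt hls0
  have hzb : z ≤ s0 ^ 2 / 5 := T4.z_bound K1f.continuousOn_PK'
    (fun _ _ hu hw => B.dd_le_one hu hw)
    (fun _ _ hu hw h => A.dd_pos (B.DD_pos hu hw h)) ha2 hlam hz hzs hs14 hae (hc1 0 h0)
    (hc1 s0 hs0M) hU1 hms hgv
  exact ⟨s0, z, hz, hzs, hzb, hs14, h0, hsup, hM0, hgap⟩

end Pool.Agent.Helper342.RV
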