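import Pool.Agent.Helper342.RV.Defs

namespace Pool.Agent.Helper342.RV.T5

open Real























open MeasureTheory Set











theorem six_eq {A B : Fin 3 → ℝ} {a : ℝ} (hA : ∀ j, A j ≤ a) (hB : ∀ j, B j ≤ a)
    (hs : ∑ j, (A j + B j) = 6 * a) : ∀ j, A j = a ∧ B j = a := by
  rw [Fin.sum_univ_three] at hs
  have a0 := hA 0
  have a1 := hA 1
  have a2 := hA 2
  have b0 := hB 0
  have b1 := hB 1
  have b2 := hB 2
  intro j
  match j with
  | 0 => exact ⟨by linarith, by linarith⟩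
  | 1 => exact ⟨by linarith, by linarith⟩
  | 2 => exact ⟨by linarith, by linarith⟩

theorem small_arg {a y ε : ℝ} (hε : 0 < ε) (hε1 : ε ≤ 1)
    (h : ∀ δ : ℝ, 0 < δ → δ < ε → a * cos δ + 2 * y * sin δ ≤ a) : y ≤ 0 := by
  by_contra hy
  push Not at hy
  set δ : ℝ := min (ε / 2) (y / (|a| + 1)) with hδ
  have ha1 : 0 < |a| + 1 := by positivity
  have hδ0 : 0 < δ := lt_min (by linarith) (by positivity)
  have hδ1 : δ < ε := lt_of_le_of_lt (min_le_left _ _) (by linarith)
  have hδ2 : δ ≤ y / (|a| + 1) := min_le_right _ _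
  have hδ3 : δ * (|a| + 1) ≤ y := by
    rwa [le_div_iff₀ ha1] at hδ2
  have h1 := h δ hδ0 hδ1
  have hδ4 : δ ≤ 1 := by linarith
  have hsin : δ / 2 ≤ sin δ := by
    have h2 := Real.sin_gt_sub_cube hδ0
    have h3 : δ ^ 3 ≤ δ := by
      have : δ ^ 2 ≤ 1 := by nlinarith
      nlinarith
    have h4 : δ - δ ^ 3 / 6 ≤ sin δ := h2.le
    linarith
  have hcos : 1 - cos δ ≤ δ ^ 2 / 2 := by
    have := Real.one_sub_sq_div_two_le_cos (x := δ)
    linarith
  have hcos0 : 0 ≤ 1 - cos δ := by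
    have := Real.cos_le_one δ
    linarith
  have h5 : 2 * y * sin δ ≤ a * (1 - cos δ) := by linarith
  have h6 : a * (1 - cos δ) ≤ |a| * (δ ^ 2 / 2) := by
    calc a * (1 - cos δ) ≤ |a| * (1 - cos δ) := mul_le_mul_of_nonneg_right (le_abs_self a) hcos0
      _ ≤ |a| * (δ ^ 2 / 2) := mul_le_mul_of_nonneg_left hcos (abs_nonneg a)
  have h7 : y * δ ≤ 2 * y * sin δ := by nlinarith
  have h8 : y * δ ≤ |a| * (δ ^ 2 / 2) := by linarith
  have h9 : δ * (|a| + 1) * δ ≤ y * δ := mul_le_mul_of_nonneg_right hδ3 hδ0.le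
  have h10 : 0 ≤ |a| := abs_nonneg a
  nlinarith [mul_pos hδ0 hδ0, mul_nonneg h10 (mul_pos hδ0 hδ0).le]

set_option maxHeartbeats 4000000 in
theorem adm_of_J
    (sum_dK : ∀ (x : Fin 3 × ℝ) (r : ℝ), ∑ j, (dK x j r + dK x j (th - r)) = 6 * K x.2 r)
    (sum_eK : ∀ (x : Fin 3 × ℝ) (r : ℝ), ∑ j, (eK x j r - eK x j (th - r)) = 6 * K1 x.2 r)
    (K_refl_s : ∀ s r : ℝ, K (th - s) r = K s r) (K1_refl_s : ∀ s r : ℝ, K1 (th - s) r = K1 s r)
    (continuous_K : Continuous (fun p : ℝ × ℝ => K p.1 p.2))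
    (continuous_dK : ∀ j : Fin 3, Continuous (fun p : (Fin 3 × ℝ) × ℝ => dK p.1 j p.2))
    (K_nonneg : ∀ s r : ℝ, 0 ≤ K s r) (K_le : ∀ s r : ℝ, K s r ≤ 4)
    (measurable_K1 : ∀ r : ℝ, Measurable (fun s => K1 s r))
    (measurable_eK : ∀ (j : Fin 3) (r : ℝ), Measurable (fun x : Fin 3 × ℝ => eK x j r))
    (dK_le_one : ∀ (x : Fin 3 × ℝ) (j : Fin 3) (r : ℝ), x.2 ∈ Icc 0 th → r ∈ Icc 0 th →
      dK x j r ≤ 1)
    (dK_nonneg : ∀ (x : Fin 3 × ℝ) (j : Fin 3) (r : ℝ), 0 ≤ dK x j r)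
    (abs_eK_le : ∀ (x : Fin 3 × ℝ) (j : Fin 3) (r : ℝ), x.2 ∈ Icc 0 th → r ∈ Icc 0 th →
      |eK x j r| ≤ 1)
    (dK_lower : ∀ (x : Fin 3 × ℝ) (j : Fin 3) (p q : ℝ), x.2 ∈ Set.Icc 0 th → p ∈ Set.Icc 0 th →
      q ∈ Set.Icc 0 th → dK x j p * cos ((q - p) / 2) + 2 * eK x j p * sin ((q - p) / 2)
      + (if x = (j, p) then 2 * sin (|q - p| / 2) else 0) ≤ dK x j q)
    (compl : ∀ (M lam : Measure ℝ) [IsProbabilityMeasure M] [IsProbabilityMeasure lam] (a : ℝ),
      (∀ᵐ r ∂lam, a ≤ U M r) → (∀ᵐ r ∂M, U lam r ≤ a) →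
      (∀ r ∈ M.support, U lam r = a) ∧ (∀ r ∈ lam.support, U M r = a))
    (mass_lemma : ∀ (lam : Measure ℝ) [IsProbabilityMeasure lam], lam (Icc 0 (th / 2))ᶜ = 0 →
      ∀ g : ℝ, 0 < g → g ≤ th / 2 → lam.real {g} = 0 → U1 lam g = 0 → 6 / 7 ≤ lam.real (Iio g))
    {M : Measure ℝ} [IsProbabilityMeasure M] {a s0 z z1 z2 : ℝ}
    (hM : M (Icc 0 (th / 2))ᶜ = 0) (hUM : ∀ r ∈ Icc 0 th, a ≤ U M r)
    (hz1 : 0 < z1) (hz : z1 < z) (hz2 : z < z2) (hz3 : z2 < s0) (hs0 : s0 ≤ 1 / 4)
    (h0 : (0 : ℝ) ∈ M.support) (hsup : Icc s0 (th / 2) ⊆ M.support) (hM0 : M (Ioo 0 s0) = 0)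
    (hgap : ∀ r ∈ Ico 0 s0, r ≠ z → a < U M r)
    {ν : Measure (Fin 3 × ℝ)} [IsProbabilityMeasure ν] (hν : ∀ᵐ x ∂ν, x ∈ EJ z1 z2)
    (hνU : ∀ (j : Fin 3) (r : ℝ), (j, r) ∈ EJ z1 z2 → ∫ x, dK x j r ∂ν ≤ a) :
    Adm a s0 z ν ∧ 6 / 7 ≤ ∑ j, (ν.real {(j, z)} + ν.real {(j, th - z)}) ∧
      ν.real {(0, z)} = 0 := by
  classical
  have hpi := Real.pi_gt_three
  have hth : (1 : ℝ) < th := by unfold th; linarith
  have hz2' : z2 < 1 / 4 := by linarith
  obtain ⟨fold, hfoldeq, hfm⟩ : ∃ fold : Fin 3 × ℝ → ℝ, (∀ x, fold x = min x.2 (th - x.2)) ∧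
      Measurable fold :=
    ⟨fun x => min x.2 (th - x.2), fun _ => rfl,
      measurable_snd.min (measurable_const.sub measurable_snd)⟩
  have hx2 : ∀ᵐ x ∂ν, x.2 ∈ Icc 0 th := hν.mono fun x hx => hx.1
  have hfoldcases : ∀ x : Fin 3 × ℝ, fold x = x.2 ∨ fold x = th - x.2 := fun x => by
    rw [hfoldeq]
    exact min_choice _ _
  have hKfold : ∀ (x : Fin 3 × ℝ) (r : ℝ), K (fold x) r = K x.2 r := by
    intro x r
    rcases hfoldcases x with h | h
    · rw [h]
    · rw [h]; exact K_refl_s _ _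
  have hK1fold : ∀ (x : Fin 3 × ℝ) (r : ℝ), K1 (fold x) r = K1 x.2 r := by
    intro x r
    rcases hfoldcases x with h | h
    · rw [h]
    · rw [h]; exact K1_refl_s _ _
  obtain ⟨lam, hlamdef⟩ : ∃ lam : Measure ℝ, lam = ν.map fold := ⟨_, rfl⟩
  haveI : IsProbabilityMeasure lam := by
    rw [hlamdef]
    exact Measure.isProbabilityMeasure_map hfm.aemeasurable
  have hfoldIcc : ∀ᵐ x ∂ν, fold x ∈ Icc 0 (th / 2) := by
    refine hx2.mono fun x hx => ?_
    rw [hfoldeq]
    refine ⟨le_min hx.1 (by linarith [hx.2]), ?_⟩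
    rcases le_total x.2 (th / 2) with h | h
    · exact (min_le_left _ _).trans h
    · exact (min_le_right _ _).trans (by linarith)
  have hlamae : ∀ᵐ r ∂lam, r ∈ Icc 0 (th / 2) := by
    rw [hlamdef]
    exact (ae_map_iff hfm.aemeasurable measurableSet_Icc).mpr hfoldIcc
  have hlam0 : lam (Icc 0 (th / 2))ᶜ = 0 := mem_ae_iff.mp hlamae
  have hMae : ∀ᵐ r ∂M, r ∈ Icc 0 (th / 2) := mem_ae_iff.mpr hM
  have hdKint : ∀ (j : Fin 3) (r : ℝ), r ∈ Icc 0 th → Integrable (fun x => dK x j r) ν := by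
    intro j r hr
    have hc : Continuous (fun x : Fin 3 × ℝ => dK x j r) :=
      (continuous_dK j).comp (by fun_prop : Continuous fun x : Fin 3 × ℝ => (x, r))
    refine Integrable.of_bound hc.aestronglyMeasurable 1 (hx2.mono fun x hx => ?_)
    rw [Real.norm_of_nonneg (dK_nonneg _ _ _)]
    exact dK_le_one x j r hx hr
  have heKint : ∀ (j : Fin 3) (r : ℝ), r ∈ Icc 0 th → Integrable (fun x => eK x j r) ν := by
    intro j r hr
    refine Integrable.of_bound (measurable_eK j r).aestronglyMeasurable 1 (hx2.mono fun x hx => ?_)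
    exact abs_eK_le x j r hx hr
  have hrefl : ∀ r ∈ Icc 0 th, th - r ∈ Icc 0 th := fun r hr => ⟨by linarith [hr.2], by linarith [hr.1]⟩
  have hUlam : ∀ r ∈ Icc 0 th, ∑ j, ((∫ x, dK x j r ∂ν) + ∫ x, dK x j (th - r) ∂ν) = 6 * U lam r := by
    intro r hr
    have h1 : U lam r = ∫ x, K x.2 r ∂ν := by
      have hcK : Continuous (fun s : ℝ => K s r) := by
        have hpr : Continuous (fun s : ℝ => (s, r)) := by fun_prop
        have hcomp := continuous_K.comp hpr
        have he : ((fun p : ℝ × ℝ => K p.1 p.2) ∘ fun s : ℝ => (s, r)) = fun s : ℝ => K s r := by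
          funext s
          rfl
        rw [he] at hcomp
        exact hcomp
      have h2 : U lam r = ∫ x, K (fold x) r ∂ν := by
        unfold U
        rw [hlamdef]
        exact integral_map hfm.aemeasurable hcK.aestronglyMeasurable
      rw [h2]
      exact integral_congr_ae (Filter.Eventually.of_forall fun x => hKfold x r)
    rw [h1, ← integral_const_mul]
    have h3 : (fun x : Fin 3 × ℝ => 6 * K x.2 r) = fun x => ∑ j, (dK x j r + dK x j (th - r)) := by
      funext x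
      exact (sum_dK x r).symm
    rw [h3, integral_finsetSum]
    · refine Finset.sum_congr rfl fun j _ => ?_
      rw [integral_add (hdKint j r hr) (hdKint j _ (hrefl r hr))]
    · intro j _
      exact (hdKint j r hr).add (hdKint j _ (hrefl r hr))
  have hEJ : ∀ r ∈ Icc 0 (th / 2), r ∉ Ioo z1 z2 → ∀ j : Fin 3,
      (j, r) ∈ EJ z1 z2 ∧ (j, th - r) ∈ EJ z1 z2 := by
    intro r hr hr2 j
    refine ⟨⟨⟨hr.1, by linarith [hr.2]⟩, fun hc => hr2 hc.2⟩,
      ⟨⟨by linarith [hr.2], by linarith [hr.1]⟩, fun hc => ?_⟩⟩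
    have h1 : th - r < z2 := hc.2.2
    linarith [hr.2]
  have hsix : ∀ r ∈ Icc 0 (th / 2), r ∉ Ioo z1 z2 → ∀ j : Fin 3,
      (∫ x, dK x j r ∂ν ≤ a) ∧ (∫ x, dK x j (th - r) ∂ν ≤ a) := fun r hr hr2 j =>
    ⟨hνU j r (hEJ r hr hr2 j).1, hνU j _ (hEJ r hr hr2 j).2⟩
  have hsubth : ∀ r ∈ Icc 0 (th / 2), r ∈ Icc 0 th := fun r hr => ⟨hr.1, by linarith [hr.2]⟩
  have hUle : ∀ r ∈ Icc 0 (th / 2), r ∉ Ioo z1 z2 → U lam r ≤ a := by
    intro r hr hr2
    have h1 := hUlam r (hsubth r hr)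
    rw [Fin.sum_univ_three] at h1
    have a0 := hsix r hr hr2 0
    have a1 := hsix r hr hr2 1
    have a2 := hsix r hr hr2 2
    linarith [a0.1, a0.2, a1.1, a1.2, a2.1, a2.2]
  have hMgap : ∀ᵐ r ∂M, r ∉ Ioo 0 s0 := by
    rw [ae_iff]
    refine measure_mono_null ?_ hM0
    intro r hr
    exact not_not.mp hr
  have hae2 : ∀ᵐ r ∂M, U lam r ≤ a := by
    filter_upwards [hMae, hMgap] with r hr hr2
    exact hUle r hr fun hc => hr2 ⟨by linarith [hc.1], by linarith [hc.2]⟩
  have hae1 : ∀ᵐ r ∂lam, a ≤ U M r := hlamae.mono fun r hr => hUM r (hsubth r hr)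
  obtain ⟨hc1, hc2⟩ := compl M lam a hae1 hae2
  have heq : ∀ r ∈ M.support, r ∈ Icc 0 (th / 2) → r ∉ Ioo z1 z2 → ∀ j : Fin 3,
      (∫ x, dK x j r ∂ν = a) ∧ (∫ x, dK x j (th - r) ∂ν = a) := by
    intro r hr hr1 hr2
    have h1 := hUlam r (hsubth r hr1)
    rw [hc1 r hr] at h1
    exact six_eq (fun j => (hsix r hr1 hr2 j).1) (fun j => (hsix r hr1 hr2 j).2) h1
  have hpot : ∀ j, ∀ r ∈ Set.Icc s0 (th - s0), ∫ x, dK x j r ∂ν = a := by
    intro j r hr
    rcases le_total r (th / 2) with h | h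
    · exact (heq r (hsup ⟨hr.1, h⟩) ⟨by linarith [hr.1], h⟩ (fun hc => by linarith [hc.2, hr.1]) j).1
    · have h1 := (heq (th - r) (hsup ⟨by linarith [hr.2], by linarith⟩)
        ⟨by linarith [hr.2], by linarith⟩ (fun hc => by linarith [hc.2, hr.2]) j).2
      have h2 : th - (th - r) = r := by ring
      rwa [h2] at h1
  have hvert : ∀ j, ∫ x, dK x j 0 ∂ν = a := by
    intro j
    exact (heq 0 h0 ⟨le_rfl, by linarith⟩ (fun hc => by linarith [hc.1]) j).1
  -- support of `lam`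
  have hlsup : ∀ᵐ r ∂lam, r ∈ lam.support := Measure.support_mem_ae
  have hlz : ∀ᵐ r ∂lam, r = z ∨ s0 ≤ r := by
    filter_upwards [hlsup, hlamae] with r hr hr1
    by_contra hcon
    rw [not_or] at hcon
    have hlt : r < s0 := not_le.mp hcon.2
    have h1 := hgap r ⟨hr1.1, hlt⟩ hcon.1
    rw [hc2 r hr] at h1
    exact lt_irrefl _ h1
  have hzm : MeasurableSet {r : ℝ | r = z ∨ s0 ≤ r} := by
    have : {r : ℝ | r = z ∨ s0 ≤ r} = {z} ∪ Ici s0 := by
      ext r
      simp
    rw [this]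
    exact (measurableSet_singleton z).union measurableSet_Ici
  have hfz : ∀ᵐ x ∂ν, fold x = z ∨ s0 ≤ fold x := by
    rw [hlamdef] at hlz
    exact (ae_map_iff hfm.aemeasurable hzm).mp hlz
  have hxz : ∀ᵐ x ∂ν, x.2 ∈ Icc s0 (th - s0) ∨ x.2 = z ∨ x.2 = th - z := by
    refine hfz.mono fun x hx => ?_
    rcases hx with hx | hx
    · right
      rcases hfoldcases x with h | h
      · left; rw [← h]; exact hx
      · right
        have : th - x.2 = z := by rw [← h]; exact hx
        linarith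
    · left
      rw [hfoldeq] at hx
      exact ⟨hx.trans (min_le_left _ _), by
        have := hx.trans (min_le_right _ _)
        linarith⟩
  have hder : ∀ p : ℝ, (p = s0 ∨ p = th - s0) → ∀ j : Fin 3,
      ν.real {((j, p) : Fin 3 × ℝ)} = 0 ∧ ∫ x, eK x j p ∂ν = 0 := by
    intro p hp j
    have hpI : p ∈ Icc s0 (th - s0) := by
      rcases hp with h | h
      · exact ⟨by linarith, by linarith⟩
      · exact ⟨by linarith, by linarith⟩
    have hpth : p ∈ Icc 0 th := ⟨by linarith [hpI.1], by linarith [hpI.2]⟩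
    set E : ℝ := ∫ x, eK x j p ∂ν with hE
    set m : ℝ := ν.real {((j, p) : Fin 3 × ℝ)} with hm
    have key : ∀ q : ℝ, |q - p| < s0 - z2 →
        a * cos ((q - p) / 2) + 2 * E * sin ((q - p) / 2) + m * (2 * sin (|q - p| / 2)) ≤ a := by
      intro q hq
      have hq' := abs_lt.mp hq
      have hqz : z2 < q := by
        rcases hp with h | h
        · linarith [hq'.1]
        · linarith [hq'.1]
      have hqth : q ∈ Icc 0 th := by
        refine ⟨by linarith, ?_⟩
        rcases hp with h | h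
        · linarith [hq'.2]
        · linarith [hq'.2]
      have hqEJ : (j, q) ∈ EJ z1 z2 := ⟨hqth, fun hc => by
        have : q < z2 := hc.2.2
        linarith⟩
      have hi1 := (hdKint j p hpth).mul_const (cos ((q - p) / 2))
      have hi2 : Integrable (fun x => 2 * eK x j p * sin ((q - p) / 2)) ν :=
        ((heKint j p hpth).const_mul 2).mul_const _
      have hi3f : (fun x : Fin 3 × ℝ => if x = (j, p) then 2 * sin (|q - p| / 2) else 0) =
          Set.indicator {((j, p) : Fin 3 × ℝ)} (fun _ => 2 * sin (|q - p| / 2)) := by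
        funext x
        by_cases hx : x = (j, p)
        · simp [hx]
        · simp [hx]
      have hi3 : Integrable (fun x : Fin 3 × ℝ =>
          if x = (j, p) then 2 * sin (|q - p| / 2) else 0) ν := by
        rw [hi3f]
        exact (integrable_const _).indicator (measurableSet_singleton _)
      have hI3 : ∫ x : Fin 3 × ℝ, (if x = (j, p) then 2 * sin (|q - p| / 2) else 0) ∂ν =
          m * (2 * sin (|q - p| / 2)) := by
        rw [hi3f, integral_indicator_const _ (measurableSet_singleton _), smul_eq_mul]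
      have hle := integral_mono_ae ((hi1.add hi2).add hi3) (hdKint j q hqth)
        (hx2.mono fun x hx => dK_lower x j p q hx hpth hqth)
      have hlhs : ∫ x, (((fun x => dK x j p * cos ((q - p) / 2)) +
          (fun x => 2 * eK x j p * sin ((q - p) / 2))) + (fun x : Fin 3 × ℝ =>
          if x = (j, p) then 2 * sin (|q - p| / 2) else 0)) x ∂ν =
          a * cos ((q - p) / 2) + 2 * E * sin ((q - p) / 2) + m * (2 * sin (|q - p| / 2)) := by
        rw [integral_add' (hi1.add hi2) hi3, integral_add' hi1 hi2, hI3, integral_mul_const,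
          integral_mul_const, integral_const_mul, hpot j p hpI]
      have hle2 := hle.trans (hνU j q hqEJ)
      rw [← hlhs]
      exact hle2
    have hε : 0 < (s0 - z2) / 2 := by linarith
    have hm0 : 0 ≤ m := measureReal_nonneg
    have hy1 : E + m ≤ 0 := by
      refine small_arg hε (by linarith) (a := a) fun δ hδ hδ2 => ?_
      have h1 := key (p + 2 * δ) (by
        rw [show p + 2 * δ - p = 2 * δ by ring, abs_of_pos (by linarith)]
        linarith)
      rw [show (p + 2 * δ - p) = 2 * δ by ring, abs_of_pos (by linarith : 0 < 2 * δ),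
        show 2 * δ / 2 = δ by ring] at h1
      linarith
    have hy2 : -E + m ≤ 0 := by
      refine small_arg hε (by linarith) (a := a) fun δ hδ hδ2 => ?_
      have h1 := key (p - 2 * δ) (by
        rw [show p - 2 * δ - p = -(2 * δ) by ring, abs_neg, abs_of_pos (by linarith)]
        linarith)
      rw [show (p - 2 * δ - p) = -(2 * δ) by ring, abs_neg, abs_of_pos (by linarith : 0 < 2 * δ),
        show -(2 * δ) / 2 = -δ by ring, show 2 * δ / 2 = δ by ring, Real.cos_neg,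
        Real.sin_neg] at h1
      linarith
    exact ⟨by linarith, by linarith⟩
  -- points with parameter `s0` or `th - s0` are null
  have hnull : ∀ p : ℝ, (p = s0 ∨ p = th - s0) → ∀ᵐ x ∂ν, x.2 ≠ p := by
    intro p hp
    have h1 : ∀ j : Fin 3, ν {((j, p) : Fin 3 × ℝ)} = 0 := fun j =>
      (measureReal_eq_zero_iff (measure_ne_top _ _)).mp (hder p hp j).1
    rw [ae_iff]
    have h2 : {x : Fin 3 × ℝ | ¬x.2 ≠ p} ⊆ ⋃ j : Fin 3, {((j, p) : Fin 3 × ℝ)} := by
      rintro ⟨j, t⟩ hx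
      have ht : t = p := by
        simpa using hx
      rw [Set.mem_iUnion]
      exact ⟨j, by rw [ht]; rfl⟩
    exact measure_mono_null h2 (measure_iUnion_null h1)
  have hsupp : ∀ᵐ x ∂ν, x.2 ∈ Set.Ioo s0 (th - s0) ∨ x.2 = z ∨ x.2 = th - z := by
    filter_upwards [hxz, hnull s0 (Or.inl rfl), hnull (th - s0) (Or.inr rfl)] with x hx h1 h2
    rcases hx with hx | hx
    · left
      exact ⟨lt_of_le_of_ne hx.1 (Ne.symm h1), lt_of_le_of_ne hx.2 h2⟩
    · right
      exact hx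
  have hs0th : s0 ∈ Icc 0 th := ⟨by linarith, by linarith⟩
  have hlams0 : lam.real {s0} = 0 := by
    rw [measureReal_eq_zero_iff (measure_ne_top _ _)]
    rw [hlamdef, Measure.map_apply hfm (measurableSet_singleton s0)]
    have h1 : ∀ᵐ x ∂ν, fold x ≠ s0 := by
      filter_upwards [hnull s0 (Or.inl rfl), hnull (th - s0) (Or.inr rfl)] with x h1 h2
      intro hc
      rcases hfoldcases x with h | h
      · exact h1 (by rw [← h]; exact hc)
      · apply h2
        have : th - x.2 = s0 := by rw [← h]; exact hc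
        linarith
    have h2 := ae_iff.mp h1
    simpa [Set.preimage] using h2
  have hU10 : U1 lam s0 = 0 := by
    have h1 : U1 lam s0 = ∫ x, K1 x.2 s0 ∂ν := by
      have h2 : U1 lam s0 = ∫ x, K1 (fold x) s0 ∂ν := by
        unfold U1
        rw [hlamdef]
        exact integral_map hfm.aemeasurable (measurable_K1 s0).aestronglyMeasurable
      rw [h2]
      exact integral_congr_ae (Filter.Eventually.of_forall fun x => hK1fold x s0)
    have h2 : (6 : ℝ) * U1 lam s0 = ∑ j, ((∫ x, eK x j s0 ∂ν) - ∫ x, eK x j (th - s0) ∂ν) := by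
      rw [h1, ← integral_const_mul]
      have h3 : (fun x : Fin 3 × ℝ => 6 * K1 x.2 s0) =
          fun x => ∑ j, (eK x j s0 - eK x j (th - s0)) := by
        funext x
        exact (sum_eK x s0).symm
      rw [h3, integral_finsetSum]
      · refine Finset.sum_congr rfl fun j _ => ?_
        rw [integral_sub (heKint j s0 hs0th) (heKint j _ (hrefl s0 hs0th))]
      · intro j _
        exact (heKint j s0 hs0th).sub (heKint j _ (hrefl s0 hs0th))
    have h3 : ∑ j : Fin 3, ((∫ x, eK x j s0 ∂ν) - ∫ x, eK x j (th - s0) ∂ν) = 0 := by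
      refine Finset.sum_eq_zero fun j _ => ?_
      rw [(hder s0 (Or.inl rfl) j).2, (hder (th - s0) (Or.inr rfl) j).2, sub_zero]
    linarith
  have hmass := mass_lemma lam hlam0 s0 (by linarith) (by linarith) hlams0 hU10
  have hmass2 : lam.real (Iio s0) ≤ ∑ j, (ν.real {((j, z) : Fin 3 × ℝ)} +
      ν.real {((j, th - z) : Fin 3 × ℝ)}) := by
    have h1 : lam.real (Iio s0) = ν.real (fold ⁻¹' (Iio s0)) := by
      unfold Measure.real
      rw [hlamdef, Measure.map_apply hfm measurableSet_Iio]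
    rw [h1]
    have h2 : ν.real (fold ⁻¹' (Iio s0)) ≤
        ν.real (⋃ j : Fin 3, ({((j, z) : Fin 3 × ℝ)} ∪ {((j, th - z) : Fin 3 × ℝ)})) := by
      unfold Measure.real
      refine ENNReal.toReal_mono (measure_ne_top _ _) (measure_mono_ae ?_)
      filter_upwards [hfz] with x hx hx2
      have hlt : fold x < s0 := hx2
      have hfz' : fold x = z := by
        rcases hx with h | h
        · exact h
        · exact absurd hlt (not_lt.mpr h)
      show x ∈ ⋃ j : Fin 3, ({((j, z) : Fin 3 × ℝ)} ∪ {((j, th - z) : Fin 3 × ℝ)})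
      rw [Set.mem_iUnion]
      refine ⟨x.1, ?_⟩
      rcases hfoldcases x with h | h
      · left
        have : x.2 = z := by rw [← h]; exact hfz'
        rw [Set.mem_singleton_iff, ← this]
      · right
        have h3 : th - x.2 = z := by rw [← h]; exact hfz'
        have : x.2 = th - z := by linarith
        rw [Set.mem_singleton_iff, ← this]
    refine h2.trans ?_
    refine (measureReal_iUnion_fintype_le _).trans ?_
    exact Finset.sum_le_sum fun j _ => measureReal_union_le _ _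
  refine ⟨⟨inferInstance, hsupp, hpot, hvert, fun j =>
    ⟨(hder s0 (Or.inl rfl) j).2, (hder (th - s0) (Or.inr rfl) j).2⟩⟩, hmass.trans hmass2, ?_⟩
  rw [measureReal_eq_zero_iff (measure_ne_top _ _)]
  have h1 := ae_iff.mp hν
  refine measure_mono_null ?_ h1
  intro x hx
  rw [Set.mem_singleton_iff] at hx
  subst hx
  show ¬ ((0, z) ∈ EJ z1 z2)
  exact fun hc => hc.2 ⟨rfl, hz, hz2⟩

end Pool.Agent.Helper342.RV.T5
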