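import Pool.Agent.Helper342.RV.L2
import Pool.Agent.Helper342.RV.G1
import Pool.Agent.Helper342.RV.G2
import Pool.Agent.Helper342.RV.G3
import Pool.Agent.Helper342.RV.H1
import Pool.Agent.Helper342.RV.H2
import Pool.Agent.Helper342.RV.I2
import Pool.Agent.Helper342.RV.T5

/-! No measure on the cut curve can have potential `≤ a` everywhere on the cut curve. -/

namespace Pool.Agent.Helper342.RV

open Real Set MeasureTheory

theorem dK_low (x : Fin 3 × ℝ) (j : Fin 3) (p q : ℝ) (hx : x.2 ∈ Set.Icc 0 th)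
    (hp : p ∈ Set.Icc 0 th) (hq : q ∈ Set.Icc 0 th) :
    dK x j p * cos ((q - p) / 2) + 2 * eK x j p * sin ((q - p) / 2)
      + (if x = (j, p) then 2 * sin (|q - p| / 2) else 0) ≤ dK x j q :=
  G1.dK_lower (fun _ hu p q => A.dd_lower hu p q) hx hp hq

theorem dK_nn (x : Fin 3 × ℝ) (j : Fin 3) (r : ℝ) : 0 ≤ dK x j r := by
  unfold dK
  split_ifs
  · positivity
  · exact Real.sqrt_nonneg _
  · exact Real.sqrt_nonneg _

theorem dK_le1 (x : Fin 3 × ℝ) (j : Fin 3) (r : ℝ) (hx : x.2 ∈ Icc 0 th) (hr : r ∈ Icc 0 th) :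
    dK x j r ≤ 1 := I2.dK_le_one (fun _ _ hu hw => B.dd_le_one hu hw) hx hr

theorem dK_vert (x : Fin 3 × ℝ) (j : Fin 3) (hx : x.2 ∈ Set.Icc 0 th) :
    dK x j th = dK x (j + 1) 0 :=
  G1.dK_vertex (fun _ hu => B.dd_zero hu) B.dd_th hx

theorem meas_dK (j : Fin 3) (r : ℝ) : Measurable (fun x : Fin 3 × ℝ => dK x j r) := by
  have h1 : Continuous (fun x : Fin 3 × ℝ => ((x, r) : (Fin 3 × ℝ) × ℝ)) := by fun_prop
  have h := (K1f.continuous_dK j).comp h1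
  simp only [Function.comp_def] at h
  exact h.measurable

theorem masses_equal {a s0 z : ℝ} (hz : 0 < z) (hz2 : z < s0) (hz3 : z ≤ s0 ^ 2 / 5)
    (hs : s0 ≤ 1 / 4) {ν : Measure (Fin 3 × ℝ)} (h : Adm a s0 z ν) (i j : Fin 3) :
    ν.real {(i, z)} = ν.real {(j, z)} ∧ ν.real {(i, z)} = ν.real {(j, th - z)} := by
  have hs0 : s0 < th / 2 := by
    have : (3 : ℝ) < Real.pi := Real.pi_gt_three
    have : th / 2 = Real.pi / 6 := by unfold th; ring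
    linarith
  exact G3.adm_equal (fun _ _ hu hw h => B.DD_pos hu hw h) dK_vert G1.dK_rot G1.dK_refl G1.eK_rot
    G1.eK_refl meas_dK K1f.measurable_eK hz hz2 hs0
    (fun ν hν => G2.adm_data (fun _ _ hu hw h => B.DD_pos hu hw h) (fun _ hu => B.dd_zero hu)
      B.dd_th dK_low
      (fun x j s0 h1 h2 h3 h4 => G1.dK_green0 (fun _ _ hu hw h => B.DD_pos hu hw h)
        (fun _ _ _ h => A.dd_green h) h1 h2 h3 h4)
      (fun x j s0 h1 h2 h3 h4 => G1.dK_green1 (fun _ _ hu hw h => B.DD_pos hu hw h)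
        (fun _ _ _ h => A.dd_green h) h1 h2 h3 h4)
      dK_vert
      (fun x j p q h1 h2 h3 h4 h5 h6 => G1.eK_green (fun _ _ hu hw h => B.DD_pos hu hw h)
        (fun _ _ _ h => A.de_green h) h1 h2 h3 h4 h5 h6)
      hz hz2 hs0 hν)
    (fun m0 m1 H h1 h2 h3 h4 h5 h6 => H2.lin_unique (fun _ _ hu hw h => B.DD_pos hu hw h)
      (fun _ _ h1 h2 h3 => H1.kE1 h1 h2 h3) (fun _ _ h1 h2 h3 => H1.kE2 h1 h2 h3)
      (fun _ h1 h2 => H1.kE3 h1 h2) (fun _ _ h1 h2 h3 h4 => H1.kE4 h1 h2 h3 h4)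
      (fun _ _ h1 h2 h3 => H1.kE5 h1 h2 h3) (fun _ _ h1 h2 h3 => H1.kE5' h1 h2 h3)
      hz hz3 (hz.trans hz2) hs m0 m1 H h1 h2 h3 h4 h5 h6)
    h i j

theorem no_cut {M : Measure ℝ} [IsProbabilityMeasure M] {a s0 z z1 z2 : ℝ}
    (hM : M (Icc 0 (th / 2))ᶜ = 0) (hUM : ∀ r ∈ Icc 0 th, a ≤ U M r)
    (hz1 : 0 < z1) (hz : z1 < z) (hz2 : z < z2) (hz3 : z2 < s0) (hzb : z ≤ s0 ^ 2 / 5)
    (hs0 : s0 ≤ 1 / 4)
    (h0 : (0 : ℝ) ∈ M.support) (hsup : Icc s0 (th / 2) ⊆ M.support) (hM0 : M (Ioo 0 s0) = 0)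
    (hgap : ∀ r ∈ Ico 0 s0, r ≠ z → a < U M r)
    {ν : Measure (Fin 3 × ℝ)} [IsProbabilityMeasure ν] (hν : ∀ᵐ x ∂ν, x ∈ EJ z1 z2)
    (hνU : ∀ (j : Fin 3) (r : ℝ), (j, r) ∈ EJ z1 z2 → ∫ x, dK x j r ∂ν ≤ a) : False := by
  obtain ⟨hA, hm, h00⟩ := T5.adm_of_J K1f.sum_dK K1f.sum_eK K1f.K_refl_s K1f.K1_refl_s
    K1f.continuous_K K1f.continuous_dK K1f.K_nonneg K1f.K_le K1f.measurable_K1 K1f.measurable_eK
    dK_le1 dK_nn (fun _ _ _ hx hr => K1f.abs_eK_le hx hr) dK_low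
    (fun M lam _ _ a h1 h2 => compl' M lam a h1 h2) (fun lam _ hl g h1 h2 h3 h4 =>
      mass' lam hl g h1 h2 h3 h4) hM hUM hz1 hz hz2 hz3 hs0 h0 hsup hM0 hgap hν hνU
  have hall := fun j => masses_equal (hz1.trans hz) (hz2.trans hz3) hzb hs0 hA 0 j
  have : ∑ j, (ν.real {(j, z)} + ν.real {(j, th - z)}) = 0 := by
    apply Finset.sum_eq_zero
    intro j _
    rw [← (hall j).1, ← (hall j).2, h00]
    ring
  rw [this] at hm
  norm_num at hm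

end Pool.Agent.Helper342.RV
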