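import Pool.Agent.Helper342.RV.L3
import Pool.Agent.Helper342.RV.F1
import Pool.Agent.Helper342.RV.F2
import Pool.Agent.Helper342.RV.I1
import Pool.Agent.Helper342.RV.E2
import Pool.Agent.Helper342.Reul.Transfer

/-! Rendezvous values and measures on the parameter space. -/

namespace Pool.Agent.Helper342.RV

open Real Set MeasureTheory

section param

variable {Ω X : Type*} [TopologicalSpace Ω] [CompactSpace Ω] [Nonempty Ω] [PseudoMetricSpace X]

theorem rv_exists_min {p : Ω → X} (hp : Continuous p) {n : ℕ} (x : Fin n → Ω) :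
    ∃ y : Ω, ∀ y', (1 / (n : ℝ)) * ∑ i, dist (p (x i)) (p y)
      ≤ (1 / (n : ℝ)) * ∑ i, dist (p (x i)) (p y') := by
  obtain ⟨y, -, hy⟩ := isCompact_univ.exists_isMinOn (univ_nonempty (α := Ω))
    (f := fun y => (1 / (n : ℝ)) * ∑ i, dist (p (x i)) (p y)) (by fun_prop)
  exact ⟨y, fun y' => hy (mem_univ y')⟩

theorem rv_mem {p : Ω → X} (hp : Continuous p) {n : ℕ} (hn : 1 ≤ n) (x : Fin n → Ω) {y : Ω}
    (hy : ∀ y', (1 / (n : ℝ)) * ∑ i, dist (p (x i)) (p y)
      ≤ (1 / (n : ℝ)) * ∑ i, dist (p (x i)) (p y')) :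
    (1 / (n : ℝ)) * ∑ i, dist (p (x i)) (p y) ≤ Reul.rendezvous (range p) := by
  apply le_csSup (Reul.rendezvous_bdd (isCompact_range hp).isBounded)
  refine ⟨n, fun i => p (x i), hn, fun i => mem_range_self _, ⟨p y, mem_range_self _, rfl⟩, ?_⟩
  rintro s ⟨_, ⟨y', rfl⟩, rfl⟩
  exact hy y'

theorem rv_upper {p : Ω → X} (hp : Continuous p) (n : ℕ) (x : Fin n → Ω) (hn : 1 ≤ n) :
    ∃ y, (1 / (n : ℝ)) * ∑ i, dist (p (x i)) (p y) ≤ Reul.rendezvous (range p) := by
  obtain ⟨y, hy⟩ := rv_exists_min hp x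
  exact ⟨y, rv_mem hp hn x hy⟩

theorem rv_ge {p : Ω → X} (hp : Continuous p) {c : ℝ} {n : ℕ} (hn : 1 ≤ n) (x : Fin n → Ω)
    (h : ∀ y, c ≤ (1 / (n : ℝ)) * ∑ i, dist (p (x i)) (p y)) : c ≤ Reul.rendezvous (range p) := by
  obtain ⟨y, hy⟩ := rv_exists_min hp x
  exact (h y).trans (rv_mem hp hn x hy)

theorem rv_lower {p : Ω → X} (hp : Continuous p) {ε : ℝ} (hε : 0 < ε) :
    ∃ (n : ℕ) (x : Fin n → Ω), 1 ≤ n ∧
      ∀ y, Reul.rendezvous (range p) - ε ≤ (1 / (n : ℝ)) * ∑ i, dist (p (x i)) (p y) := by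
  have hnon : {r : ℝ | ∃ (n : ℕ) (x : Fin n → X), 1 ≤ n ∧ (∀ i, x i ∈ range p) ∧
      IsLeast {s : ℝ | ∃ y ∈ range p, s = (1 / (n : ℝ)) * ∑ i, dist (x i) y} r}.Nonempty := by
    obtain ⟨x0⟩ := (inferInstance : Nonempty Ω)
    obtain ⟨y, hy⟩ := rv_exists_min hp (fun _ : Fin 1 => x0)
    refine ⟨_, 1, fun _ => p x0, le_rfl, fun _ => mem_range_self _,
      ⟨p y, mem_range_self _, rfl⟩, ?_⟩
    rintro s ⟨_, ⟨y', rfl⟩, rfl⟩
    exact hy y'
  have hlt : Reul.rendezvous (range p) - ε < Reul.rendezvous (range p) := by linarith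
  obtain ⟨r, ⟨n, x, hn, hx, hr⟩, hr2⟩ := exists_lt_of_lt_csSup hnon hlt
  choose x' hx' using hx
  refine ⟨n, x', hn, fun y => ?_⟩
  have := hr.2 ⟨p y, mem_range_self _, rfl⟩
  simp only [hx']
  linarith

end param

theorem compact_S0 : IsCompact {x : Fin 3 × ℝ | x.2 ∈ Icc 0 th} := by
  have : {x : Fin 3 × ℝ | x.2 ∈ Icc 0 th} = univ ×ˢ Icc 0 th := by
    ext x; simp
  rw [this]
  exact isCompact_univ.prod isCompact_Icc

/-- maximal measures on parameter sets -/
theorem max_measure {S : Set (Fin 3 × ℝ)} (hS : IsCompact S) (hne : S.Nonempty)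
    (hS0 : ∀ x ∈ S, x.2 ∈ Icc 0 th) :
    ∃ μ : Measure (Fin 3 × ℝ), IsProbabilityMeasure μ ∧ (∀ᵐ x ∂μ, x ∈ S) ∧
      ∀ (j : Fin 3) (r : ℝ), (j, r) ∈ S → Reul.rendezvous (pt '' S) ≤ ∫ x, dK x j r ∂μ := by
  haveI : CompactSpace S := isCompact_iff_compactSpace.1 hS
  haveI : Nonempty S := hne.to_subtype
  letI : MetricSpace S := TopologicalSpace.metrizableSpaceMetric S
  have hp : Continuous (fun x : S => pt x) := I1.pt_continuous.comp continuous_subtype_val
  have hrange : range (fun x : S => pt x) = pt '' S := by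
    ext z; simp
  obtain ⟨μ, hμ, h⟩ := F2.exists_max_measure (Ω := S) (fun x y => dist (pt x) (pt y))
    ((hp.comp continuous_fst).dist (hp.comp continuous_snd))
    (Reul.rendezvous (range (fun x : S => pt x))) (fun ε hε => rv_lower hp hε)
  rw [hrange] at h
  refine ⟨μ.map Subtype.val, ?_, ?_, ?_⟩
  · exact Measure.isProbabilityMeasure_map measurable_subtype_coe.aemeasurable
  · exact (ae_map_iff (p := fun x => x ∈ S) measurable_subtype_coe.aemeasurable
      hS.measurableSet).2 (Filter.Eventually.of_forall (fun x => x.2))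
  · intro j r hjr
    have h2 := h ⟨(j, r), hjr⟩
    rw [integral_map measurable_subtype_coe.aemeasurable (meas_dK j r).aestronglyMeasurable]
    refine h2.trans (le_of_eq ?_)
    apply integral_congr_ae
    refine Filter.Eventually.of_forall (fun x => ?_)
    simp only
    rw [dist_eq_norm, I1.dist_pt (hS0 x x.2) (hS0 _ hjr)]

/-- minimal measures on parameter sets -/
theorem min_measure {S : Set (Fin 3 × ℝ)} (hS : IsCompact S) (hne : S.Nonempty)
    (hS0 : ∀ x ∈ S, x.2 ∈ Icc 0 th) :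
    ∃ μ : Measure (Fin 3 × ℝ), IsProbabilityMeasure μ ∧ (∀ᵐ x ∂μ, x ∈ S) ∧
      ∀ (j : Fin 3) (r : ℝ), (j, r) ∈ S → ∫ x, dK x j r ∂μ ≤ Reul.rendezvous (pt '' S) := by
  haveI : CompactSpace S := isCompact_iff_compactSpace.1 hS
  haveI : Nonempty S := hne.to_subtype
  letI : MetricSpace S := TopologicalSpace.metrizableSpaceMetric S
  have hp : Continuous (fun x : S => pt x) := I1.pt_continuous.comp continuous_subtype_val
  have hrange : range (fun x : S => pt x) = pt '' S := by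
    ext z; simp
  obtain ⟨μ, hμ, h⟩ := F1.exists_min_measure (Ω := S) (fun x y => dist (pt x) (pt y))
    ((hp.comp continuous_fst).dist (hp.comp continuous_snd))
    (Reul.rendezvous (range (fun x : S => pt x))) (fun n x hn => rv_upper hp n x hn)
  rw [hrange] at h
  refine ⟨μ.map Subtype.val, ?_, ?_, ?_⟩
  · exact Measure.isProbabilityMeasure_map measurable_subtype_coe.aemeasurable
  · exact (ae_map_iff (p := fun x => x ∈ S) measurable_subtype_coe.aemeasurable
      hS.measurableSet).2 (Filter.Eventually.of_forall (fun x => x.2))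
  · intro j r hjr
    have h2 := h ⟨(j, r), hjr⟩
    rw [integral_map measurable_subtype_coe.aemeasurable (meas_dK j r).aestronglyMeasurable]
    refine (le_of_eq ?_).trans h2
    apply integral_congr_ae
    refine Filter.Eventually.of_forall (fun x => ?_)
    simp only
    rw [dist_comm, dist_eq_norm, I1.dist_pt (hS0 x x.2) (hS0 _ hjr)]

/-! ### Folding -/

/-- folding the parameter -/
noncomputable def fold (x : Fin 3 × ℝ) : ℝ := min x.2 (th - x.2)

theorem fold_meas : Measurable fold := by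
  unfold fold
  fun_prop

theorem K_fold (x : Fin 3 × ℝ) (r : ℝ) : K (fold x) r = K x.2 r := by
  unfold fold
  rcases min_choice x.2 (th - x.2) with h | h
  · rw [h]
  · rw [h, K1f.K_refl_s]

theorem fold_mem {x : Fin 3 × ℝ} (hx : x.2 ∈ Icc 0 th) : fold x ∈ Icc 0 (th / 2) := by
  unfold fold
  constructor
  · exact le_min hx.1 (by linarith [hx.2])
  · rcases le_total x.2 (th / 2) with h | h
    · exact (min_le_left _ _).trans h
    · exact (min_le_right _ _).trans (by linarith)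

theorem fold_supp {μ : Measure (Fin 3 × ℝ)} (hμ : ∀ᵐ x ∂μ, x.2 ∈ Icc 0 th) :
    (μ.map fold) (Icc 0 (th / 2))ᶜ = 0 := by
  rw [Measure.map_apply fold_meas measurableSet_Icc.compl]
  rw [ae_iff] at hμ
  refine measure_mono_null ?_ hμ
  intro x hx hx2
  exact hx (fold_mem hx2)

theorem meas_K (r : ℝ) : Measurable (fun s : ℝ => K s r) := by
  have hc1 : Continuous (fun s : ℝ => ((s, r) : ℝ × ℝ)) := by fun_prop
  have h := K1f.continuous_K.comp hc1
  simp only [Function.comp_def] at h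
  exact h.measurable

theorem U_fold {μ : Measure (Fin 3 × ℝ)} [IsProbabilityMeasure μ] (hμ : ∀ᵐ x ∂μ, x.2 ∈ Icc 0 th)
    {r : ℝ} (hr : r ∈ Icc 0 th) :
    6 * U (μ.map fold) r = ∑ j, ((∫ x, dK x j r ∂μ) + ∫ x, dK x j (th - r) ∂μ) := by
  have hr' : th - r ∈ Icc 0 th := ⟨by linarith [hr.2], by linarith [hr.1]⟩
  have hint : ∀ j q, q ∈ Icc 0 th → Integrable (fun x => dK x j q) μ := by
    intro j q hq
    refine (integrable_const (1 : ℝ)).mono' (meas_dK j q).aestronglyMeasurable ?_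
    filter_upwards [hμ] with x hx
    rw [Real.norm_eq_abs, abs_of_nonneg (dK_nn x j q)]
    exact dK_le1 x j q hx hq
  unfold U
  rw [integral_map fold_meas.aemeasurable (meas_K r).aestronglyMeasurable]
  simp only [K_fold]
  rw [← integral_const_mul]
  have : ∀ x : Fin 3 × ℝ, 6 * K x.2 r = ∑ j, (dK x j r + dK x j (th - r)) :=
    fun x => (K1f.sum_dK x r).symm
  simp only [this]
  rw [integral_finset_sum]
  · apply Finset.sum_congr rfl
    intro j _
    rw [integral_add (hint j r hr) (hint j (th - r) hr')]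
  · intro j _
    exact (hint j r hr).add (hint j (th - r) hr')

end Pool.Agent.Helper342.RV
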