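import Pool.Agent.Helper342.RV.L4

/-! The rendezvous value of the cut curve exceeds that of the full curve. -/

namespace Pool.Agent.Helper342.RV

open Real Set MeasureTheory

theorem dK_symm {i j : Fin 3} {s r : ℝ} (hs : s ∈ Icc 0 th) (hr : r ∈ Icc 0 th) :
    dK (i, s) j r = dK (j, r) i s := by
  rw [← I1.dist_pt (x := (i, s)) hs hr, ← I1.dist_pt (x := (j, r)) hr hs, norm_sub_rev]

theorem sum_vert (x : Fin 3 × ℝ) (hx : x.2 ∈ Icc 0 th) : ∑ j, dK x j 0 = 3 * K x.2 0 := by
  have h := K1f.sum_dK x 0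
  simp only [sub_zero] at h
  rw [Finset.sum_add_distrib] at h
  have h2 : ∑ j, dK x j th = ∑ j, dK x j 0 := by
    simp_rw [dK_vert x _ hx]
    exact Equiv.sum_comp (Equiv.addRight (1 : Fin 3)) (fun j => dK x j 0)
  rw [h2] at h
  linarith

theorem sum_mid (x : Fin 3 × ℝ) : ∑ j, dK x j (th / 2) = 3 * K x.2 (th / 2) := by
  have h := K1f.sum_dK x (th / 2)
  rw [show th - th / 2 = th / 2 by ring, Finset.sum_add_distrib] at h
  linarith

theorem numF2' {r : ℝ} (hr : r ∈ Icc 0 th) :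
    6671 / 10000 ≤ (945 / 1000) * K r 0 + (55 / 1000) * K r (th / 2) := by
  rw [K1f.K_symm r 0, K1f.K_symm r (th / 2)]
  rcases le_total r (th / 2) with h | h
  · exact E2.numF2 hr.1 h
  · rw [← K1f.K_refl_r 0 r, ← K1f.K_refl_r (th / 2) r]
    exact E2.numF2 (by linarith [hr.2]) (by linarith)

theorem numF3' {r : ℝ} (hr : r ∈ Icc 0 th) :
    (93 / 100) * K r 0 + (7 / 100) * K r (th / 2) ≤ 67 / 100 := by
  rw [K1f.K_symm r 0, K1f.K_symm r (th / 2)]
  rcases le_total r (th / 2) with h | h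
  · exact E2.numF3 hr.1 h
  · rw [← K1f.K_refl_r 0 r, ← K1f.K_refl_r (th / 2) r]
    exact E2.numF3 (by linarith [hr.2]) (by linarith)

/-- the three vertices with weight `945/1000` and the three side midpoints with weight `55/1000` -/
theorem lower_bound : 6671 / 10000 ≤ Reul.rendezvous (pt '' {x : Fin 3 × ℝ | x.2 ∈ Icc 0 th}) := by
  have hth := th_pos
  haveI : CompactSpace {x : Fin 3 × ℝ | x.2 ∈ Icc 0 th} := isCompact_iff_compactSpace.1 compact_S0
  haveI : Nonempty {x : Fin 3 × ℝ | x.2 ∈ Icc 0 th} := ⟨⟨(0, 0), ⟨le_rfl, hth.le⟩⟩⟩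
  have hp : Continuous (fun x : {x : Fin 3 × ℝ | x.2 ∈ Icc 0 th} => pt x) :=
    I1.pt_continuous.comp continuous_subtype_val
  have hrange : range (fun x : {x : Fin 3 × ℝ | x.2 ∈ Icc 0 th} => pt x)
      = pt '' {x : Fin 3 × ℝ | x.2 ∈ Icc 0 th} := by
    ext z; simp
  rw [← hrange]
  let g : Fin 3 × Fin 200 → {x : Fin 3 × ℝ | x.2 ∈ Icc 0 th} := fun q =>
    if (q.2 : ℕ) < 189 then ⟨(q.1, 0), ⟨le_rfl, hth.le⟩⟩
    else ⟨(q.1, th / 2), ⟨by positivity, by linarith⟩⟩
  apply rv_ge hp (n := 3 * 200) (by norm_num) (fun i => g (finProdFinEquiv.symm i))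
  rintro ⟨⟨j, r⟩, hr⟩
  have hr' : r ∈ Icc 0 th := hr
  have hsum : ∑ i : Fin (3 * 200), dist (pt (g (finProdFinEquiv.symm i))) (pt (j, r))
      = 189 * (3 * K r 0) + 11 * (3 * K r (th / 2)) := by
    rw [Equiv.sum_comp finProdFinEquiv.symm
      (fun q : Fin 3 × Fin 200 => dist (pt (g q)) (pt (j, r))), Fintype.sum_prod_type]
    have h1 : ∀ i : Fin 3, ∑ k : Fin 200, dist (pt (g (i, k))) (pt (j, r))
        = 189 * dK (j, r) i 0 + 11 * dK (j, r) i (th / 2) := by
      intro i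
      have h2 : ∀ k : Fin 200, dist (pt (g (i, k))) (pt (j, r))
          = if (k : ℕ) < 189 then dK (j, r) i 0 else dK (j, r) i (th / 2) := by
        intro k
        by_cases hk : (k : ℕ) < 189
        · simp only [g, hk, if_true]
          rw [dist_eq_norm, I1.dist_pt (x := (i, 0)) ⟨le_rfl, hth.le⟩ hr',
            dK_symm ⟨le_rfl, hth.le⟩ hr']
        · simp only [g, hk, if_false]
          rw [dist_eq_norm, I1.dist_pt (x := (i, th / 2)) ⟨by positivity, by linarith⟩ hr',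
            dK_symm ⟨by positivity, by linarith⟩ hr']
      simp only [h2]
      rw [Finset.sum_ite, Finset.sum_const, Finset.sum_const, nsmul_eq_mul, nsmul_eq_mul]
      have c1 : (Finset.univ.filter (fun k : Fin 200 => (k : ℕ) < 189)).card = 189 := by decide +kernel
      have c2 : (Finset.univ.filter (fun k : Fin 200 => ¬ (k : ℕ) < 189)).card = 11 := by decide +kernel
      rw [c1, c2]
      norm_num
    simp only [h1]
    rw [Finset.sum_add_distrib, ← Finset.mul_sum, ← Finset.mul_sum, sum_vert _ hr', sum_mid]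
  have h3 : ∑ i : Fin (3 * 200), dist (pt (g (finProdFinEquiv.symm i)))
      (pt (⟨(j, r), hr⟩ : {x : Fin 3 × ℝ | x.2 ∈ Icc 0 th}))
      = 189 * (3 * K r 0) + 11 * (3 * K r (th / 2)) := hsum
  rw [h3]
  have := numF2' hr'
  push_cast
  linarith

theorem main_C : ∃ z1 z2, 0 < z1 ∧ z1 < z2 ∧ z2 < th ∧
    Reul.rendezvous (pt '' {x : Fin 3 × ℝ | x.2 ∈ Icc 0 th}) < Reul.rendezvous (pt '' EJ z1 z2) := by
  have hth := th_pos
  have h0 : (0 : ℝ) ∈ Icc 0 th := ⟨le_rfl, hth.le⟩
  have hne : {x : Fin 3 × ℝ | x.2 ∈ Icc 0 th}.Nonempty := ⟨(0, 0), h0⟩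
  obtain ⟨a, ha⟩ : ∃ a, a = Reul.rendezvous (pt '' {x : Fin 3 × ℝ | x.2 ∈ Icc 0 th}) := ⟨_, rfl⟩
  obtain ⟨μ, hμp, hμs, hμ⟩ := max_measure compact_S0 hne (fun x hx => hx)
  obtain ⟨lam, hlp, hls, hl⟩ := min_measure compact_S0 hne (fun x hx => hx)
  rw [← ha] at hμ hl
  have hUM : ∀ r ∈ Icc 0 th, a ≤ U (μ.map fold) r := by
    intro r hr
    have hr' : th - r ∈ Icc 0 th := ⟨by linarith [hr.2], by linarith [hr.1]⟩
    have h := U_fold hμs hr
    have h2 : ∑ j : Fin 3, (a + a) ≤ ∑ j, ((∫ x, dK x j r ∂μ) + ∫ x, dK x j (th - r) ∂μ) :=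
      Finset.sum_le_sum (fun j _ => add_le_add (hμ j r hr) (hμ j (th - r) hr'))
    rw [← h] at h2
    simp at h2
    linarith
  have hUl : ∀ r ∈ Icc 0 th, U (lam.map fold) r ≤ a := by
    intro r hr
    have hr' : th - r ∈ Icc 0 th := ⟨by linarith [hr.2], by linarith [hr.1]⟩
    have h := U_fold hls hr
    have h2 : ∑ j, ((∫ x, dK x j r ∂lam) + ∫ x, dK x j (th - r) ∂lam) ≤ ∑ j : Fin 3, (a + a) :=
      Finset.sum_le_sum (fun j _ => add_le_add (hl j r hr) (hl j (th - r) hr'))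
    rw [← h] at h2
    simp at h2
    linarith
  haveI : IsProbabilityMeasure (μ.map fold) :=
    Measure.isProbabilityMeasure_map fold_meas.aemeasurable
  haveI : IsProbabilityMeasure (lam.map fold) :=
    Measure.isProbabilityMeasure_map fold_meas.aemeasurable
  have hMsup := fold_supp hμs
  have hlsup := fold_supp hls
  have ha1 : 6671 / 10000 ≤ a := ha ▸ lower_bound
  have ha2 : a ≤ 67 / 100 := by
    have e1 := hUM 0 h0
    have e2 := hUM (th / 2) ⟨by positivity, by linarith⟩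
    have hMae : ∀ᵐ s ∂(μ.map fold), s ∈ Icc 0 (th / 2) := by rwa [ae_iff]
    have hi : ∀ q, Integrable (fun s => K s q) (μ.map fold) := by
      intro q
      refine (integrable_const (4 : ℝ)).mono' (meas_K q).aestronglyMeasurable ?_
      refine Filter.Eventually.of_forall (fun s => ?_)
      rw [Real.norm_eq_abs, abs_of_nonneg (K1f.K_nonneg s q)]
      exact K1f.K_le s q
    have e3 : (93 / 100) * U (μ.map fold) 0 + (7 / 100) * U (μ.map fold) (th / 2) ≤ 67 / 100 := by
      unfold U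
      rw [← integral_const_mul, ← integral_const_mul,
        ← integral_add ((hi 0).const_mul _) ((hi (th / 2)).const_mul _)]
      calc _ ≤ ∫ _, (67 / 100 : ℝ) ∂(μ.map fold) := by
            apply integral_mono_ae (((hi 0).const_mul _).add ((hi (th / 2)).const_mul _))
              (integrable_const _)
            filter_upwards [hMae] with s hs
            exact numF3' ⟨hs.1, by linarith [hs.2]⟩
        _ = 67 / 100 := by simp
    linarith
  obtain ⟨s0, z, hz, hzs, hzb, hs0, hsup0, hsup, hM0, hgap⟩ :=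
    structure_thm ha1 ha2 hMsup hlsup hUM hUl
  have hthb : s0 < th := by
    have : (3 : ℝ) < Real.pi := Real.pi_gt_three
    have : th = Real.pi / 3 := rfl
    linarith
  refine ⟨z / 2, (z + s0) / 2, by positivity, by linarith, by linarith, ?_⟩
  by_contra hcon
  rw [not_lt, ← ha] at hcon
  obtain ⟨ν, hνp, hνs, hν⟩ := min_measure (S := EJ (z / 2) ((z + s0) / 2)) (I2.EJ_compact _ _)
    ⟨(0, 0), h0, fun h => absurd h.2.1 (by simp only; linarith)⟩ (fun x hx => hx.1)
  exact no_cut hMsup hUM (z1 := z / 2) (z2 := (z + s0) / 2) (by positivity) (by linarith)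
    (by linarith) (by linarith) hzb hs0 hsup0 hsup hM0 hgap hνs
    (fun j r hjr => (hν j r hjr).trans hcon)

end Pool.Agent.Helper342.RV
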