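import Pool.Agent.Helper342.RV.L5

/-! Ratios: comparison of the cut curve with the boundary and the solid Reuleaux triangle, in `ℂ`. -/

namespace Pool.Agent.Helper342.RV

open Real Set Metric

theorem TT_frontier : frontier Reul.TT = pt '' {x : Fin 3 × ℝ | x.2 ∈ Icc 0 th} := I2.frontier_eq

theorem TT_diam : Metric.diam Reul.TT = 1 := I2.diam_solid

theorem TT_frontier_diam : Metric.diam (frontier Reul.TT) = 1 := I2.diam_frontier

theorem solid_le : Reul.rendezvous Reul.TT ≤ 1 / √3 :=
  Reul.rendezvous_le_of_center Reul.center_mem (by positivity) (fun _ hz => Reul.solid_center hz)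

theorem main_C2 : ∃ E : Set ℂ, IsCompact E ∧ IsConnected E ∧ E.Nontrivial ∧
    Reul.rendezvous Reul.TT / Metric.diam Reul.TT < Reul.rendezvous E / Metric.diam E ∧
    Reul.rendezvous (frontier Reul.TT) / Metric.diam (frontier Reul.TT)
      < Reul.rendezvous E / Metric.diam E := by
  obtain ⟨z1, z2, h1, h2, h3, hlt⟩ := main_C
  have hcomp : IsCompact (pt '' EJ z1 z2) := (I2.EJ_compact z1 z2).image I1.pt_continuous
  have hnt := I2.pt_EJ_nontrivial h1 h2 h3
  refine ⟨pt '' EJ z1 z2, hcomp, I2.pt_EJ_connected h1 h2 h3, hnt, ?_⟩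
  have hsub : pt '' EJ z1 z2 ⊆ frontier Reul.TT := by
    rw [TT_frontier]
    exact image_mono (fun x hx => hx.1)
  have hbd : Bornology.IsBounded (frontier Reul.TT) := by
    rw [TT_frontier]
    exact (compact_S0.image I1.pt_continuous).isBounded
  have hd1 : Metric.diam (pt '' EJ z1 z2) ≤ 1 := by
    rw [← TT_frontier_diam]
    exact Metric.diam_mono hsub hbd
  have hd0 : 0 < Metric.diam (pt '' EJ z1 z2) := Metric.diam_pos hnt hcomp.isBounded
  have hlow := lower_bound
  have hpos : 0 ≤ Reul.rendezvous (pt '' EJ z1 z2) := by linarith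
  have hratio : Reul.rendezvous (pt '' EJ z1 z2)
      ≤ Reul.rendezvous (pt '' EJ z1 z2) / Metric.diam (pt '' EJ z1 z2) := by
    rw [le_div_iff₀ hd0]
    exact mul_le_of_le_one_right hpos hd1
  rw [TT_diam, TT_frontier_diam, div_one, div_one, TT_frontier]
  have hsolid := solid_le
  have h4 : 1 / √3 < 6671 / 10000 := by
    rw [div_lt_div_iff₀ (by positivity) (by norm_num)]
    have : (1.73 : ℝ) < √3 := by
      rw [Real.lt_sqrt (by norm_num)]; norm_num
    linarith
  exact ⟨by linarith, by linarith⟩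

end Pool.Agent.Helper342.RV
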